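import Pool.Agent.Helper39.KL.Spec

/-!
# Modules AB1 and AB2
-/

namespace Pool.Agent.Helper39.KL

open Finset

namespace AB12

/-! ### degree lemmas -/

theorem coeff_T_mul (n : ℤ) (p : A) (m : ℤ) :
    ((LaurentPolynomial.T n : A) * p).coeff m = p.coeff (m - n) := by
  have := AddMonoidAlgebra.coeff_single_mul_eq_mul_coeff (R := ℤ) (x := p) (m := n) (m₁ := m)
    (r := 1) (m - n) (fun m' _ => ⟨fun h => by omega, fun h => by omega⟩)
  rw [one_mul] at this
  exact this

theorem coeff_vi_mul (p : A) (m : ℤ) : (vi * p).coeff m = p.coeff (m + 1) := by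
  unfold vi
  rw [coeff_T_mul]
  congr 1

theorem coeff_v_mul (p : A) (m : ℤ) : (v * p).coeff m = p.coeff (m - 1) := coeff_T_mul 1 p m

theorem vi_v : vi * v = 1 := by
  unfold v vi
  rw [← LaurentPolynomial.T_add]
  simp

variable {X : Type}

theorem DLv_vi {n : ℤ} {x : X →₀ A} (h : DLv n x) : DLv (n - 1) (vi • x) := by
  intro g m hm
  rw [Finsupp.smul_apply, smul_eq_mul, coeff_vi_mul]
  exact h g _ (by omega)

theorem DLv_v {n : ℤ} {x : X →₀ A} (h : DLv n x) : DLv (n + 1) (v • x) := by
  intro g m hm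
  rw [Finsupp.smul_apply, smul_eq_mul, coeff_v_mul]
  exact h g _ (by omega)

theorem DLv_mono {n n' : ℤ} {x : X →₀ A} (h : DLv n x) (hn : n ≤ n') : DLv n' x :=
  fun g m hm => h g m (by omega)

theorem DLv_add {n : ℤ} {x y : X →₀ A} (h : DLv n x) (h' : DLv n y) : DLv n (x + y) := by
  intro g m hm
  rw [Finsupp.add_apply, AddMonoidAlgebra.coeff_add, Finsupp.add_apply, h g m hm, h' g m hm,
    add_zero]

theorem DLv_neg {n : ℤ} {x : X →₀ A} (h : DLv n x) : DLv n (-x) := by
  intro g m hm
  rw [Finsupp.neg_apply, AddMonoidAlgebra.coeff_neg, Finsupp.neg_apply, h g m hm, neg_zero]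

theorem DLv_vi_pow {n : ℤ} {x : X →₀ A} (h : DLv n x) (k : ℕ) : DLv (n - k) (vi ^ k • x) := by
  induction k with
  | zero => simpa using h
  | succ k ih =>
    rw [pow_succ', mul_smul]
    have := DLv_vi ih
    refine DLv_mono this ?_
    push_cast
    omega

/-! ### group lemmas -/

theorem act_mul_s (hR : RootFacts) (w : W) (i : Fin 5) (x : Q) :
    act (w * s i) x = act w (refl i x) := by
  rw [map_mul, Module.End.mul_apply, hR.act_s]

theorem len_mul_s_up (w : W) (i : Fin 5) (h : len w < len (w * s i)) :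
    len (w * s i) = len w + 1 := by
  have h1 := cs.length_mul_simple w i
  unfold len s at *
  omega

theorem len_mul_s_dn (w : W) (i : Fin 5) (h : len (w * s i) < len w) :
    len w = len (w * s i) + 1 := by
  have h1 := cs.length_mul_simple w i
  unfold len s at *
  omega

theorem len_s (i : Fin 5) : len (s i) = 1 := cs.length_simple i

theorem s_s (i : Fin 5) : s i * s i = 1 := cs.simple_mul_simple_self i

theorem mul_s_s (w : W) (i : Fin 5) : w * s i * s i = w := by rw [mul_assoc, s_s, mul_one]

theorem T_up (hT : TFacts) (V : BMod X) (w : W) (i : Fin 5) (x : X →₀ A)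
    (h : len w < len (w * s i)) : V.T (w * s i) x = V.T w (V.t i x) := by
  rw [hT.T_mul V w (s i) x (by rw [len_mul_s_up w i h, len_s]), hT.T_s]

theorem T_neg (V : BMod X) (w : W) (x : X →₀ A) : V.T w (-x) = -V.T w x := map_neg _ _

/-- positivity of the action on sums -/
theorem act_add (w : W) (x y : Q) : act w (x + y) = act w x + act w y := map_add _ _ _

end AB12

open AB12

theorem ab1 (hR : RootFacts) (hT : TFacts) : AB1Stmt := by
  intro X G y IH hy h4
  have hlt : len (y * s 4) < len y := (hR.dnR y 4).2 h4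
  have hlen := len_mul_s_dn y 4 hlt
  have hXK : XK (y * s 4) := by
    intro i hi
    unfold Pos
    rw [act_mul_s hR]
    have : refl 4 (al i) = al i := by
      revert i
      decide
    rw [this]
    exact hy i hi
  have hy' : y = y * s 4 * s 4 := (mul_s_s y 4).symm
  have hT1 : G.T y G.e = -(vi • G.T (y * s 4) G.e) := by
    have h1 := T_up hT G.toBMod (y * s 4) 4 G.e (by rw [← hy']; exact hlt)
    rw [← hy'] at h1
    rw [h1, G.e4, T_neg, map_smul]
  rw [hT1]
  have := (IH (y * s 4) hXK hlt).1
  exact DLv_neg (DLv_vi this)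

namespace AB12

/-- the facts about a pair used below -/
structure PairFacts (i j k : Fin 5) : Prop where
  i2 : refl i (al 2) = al 2 + al i
  j2 : refl j (al 2) = al 2 + al j
  k2 : refl k (al 2) = al 2 + al k
  ii : refl i (al i) = -al i
  jj : refl j (al j) = -al j
  kk : refl k (al k) = -al k
  ij : refl i (al j) = al j
  ji : refl j (al i) = al i
  ki : refl k (al i) = al i
  kj : refl k (al j) = al j
  ti : refl 2 (al i) = al 2 + al i
  tj : refl 2 (al j) = al 2 + al j
  tk : refl 2 (al k) = al 2 + al k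
  tt : refl 2 (al 2) = -al 2

theorem pairFacts : ∀ p ∈ KPairs, PairFacts p.1 p.2.1 p.2.2 := by
  intro p hp
  simp only [KPairs, Finset.mem_insert, Finset.mem_singleton] at hp
  rcases hp with rfl | rfl | rfl <;>
    exact ⟨by decide, by decide, by decide, by decide, by decide, by decide, by decide, by decide,
      by decide, by decide, by decide, by decide, by decide, by decide⟩

theorem pair_ne : ∀ p ∈ KPairs, p.1 ≠ p.2.1 := by
  intro p hp
  simp only [KPairs, Finset.mem_insert, Finset.mem_singleton] at hp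
  rcases hp with rfl | rfl | rfl <;> decide

theorem pair_adj : ∀ p ∈ KPairs, adj p.1 p.2.1 = false := by
  intro p hp
  simp only [KPairs, Finset.mem_insert, Finset.mem_singleton] at hp
  rcases hp with rfl | rfl | rfl <;> decide

theorem pair_mem : ∀ p ∈ KPairs, p.2.2 ∈ ({0, 1, 3} : Finset (Fin 5)) := by
  intro p hp
  simp only [KPairs, Finset.mem_insert, Finset.mem_singleton] at hp
  rcases hp with rfl | rfl | rfl <;> decide

theorem XK_iff : ∀ p ∈ KPairs, ∀ w, XK w ↔ Pos w (al p.1) ∧ Pos w (al p.2.1) ∧ Pos w (al p.2.2) := by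
  intro p hp w
  simp only [KPairs, Finset.mem_insert, Finset.mem_singleton] at hp
  unfold XK
  simp only [Finset.mem_insert, Finset.mem_singleton, forall_eq_or_imp, forall_eq]
  rcases hp with rfl | rfl | rfl <;> tauto

theorem N1_of_pair : ∀ p ∈ KPairs, ∀ w, XK w → Neg w (al p.1 + al p.2.2 + al 2) → N1 w := by
  intro p hp w hw hn
  simp only [KPairs, Finset.mem_insert, Finset.mem_singleton] at hp
  refine ⟨hw, ?_⟩
  rcases hp with rfl | rfl | rfl
  · exact Or.inr (Or.inr (Or.inl hn))
  · exact Or.inr (Or.inl hn)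
  · refine Or.inr (Or.inl ?_)
    rw [add_comm (al 0)]
    exact hn

end AB12

theorem ab2 (hR : RootFacts) (hT : TFacts) (hrel : RelFacts) : AB2Stmt := by
  intro X G y IH hy p hp hneg
  have F := pairFacts p hp
  have hXK := XK_iff p hp
  have hN1 := N1_of_pair p hp
  have hrel2 := hrel.rel2 G p hp
  have hek := G.eK p.2.2 (pair_mem p hp)
  have hij := pair_ne p hp
  have hadj := pair_adj p hp
  obtain ⟨i, j, k⟩ := p
  simp only at F hXK hN1 hrel2 hneg hek hij hadj
  obtain ⟨hyi, hyj, hyk⟩ := (hXK y).1 hy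
  unfold Pos at hyi hyj hyk
  unfold Neg at hneg
  rw [act_add, act_add] at hneg
  -- abbreviations for the values
  set a := act y (al i) with ha
  set b := act y (al j) with hb
  set c := act y (al k) with hc
  set d := act y (al 2) with hd
  have hd0 : d ≤ 0 := by
    have : d = (a + b + d) - a - b := by abel
    rw [this]
    have h1 : (a + b + d) - a - b ≤ 0 - 0 - 0 := by
      apply sub_le_sub (sub_le_sub hneg hyi) hyj
    simpa using h1
  have had : a + d ≤ 0 := by
    have : a + d = (a + b + d) - b := by abel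
    rw [this]
    simpa using sub_le_sub hneg hyj
  have hbd : b + d ≤ 0 := by
    have : b + d = (a + b + d) - a := by abel
    rw [this]
    simpa using sub_le_sub hneg hyi
  -- descending
  have l1 : len (y * s 2) < len y := (hR.dnR y 2).2 hd0
  have l2 : len (y * s 2 * s i) < len (y * s 2) := by
    rw [hR.dnR, act_mul_s hR, F.ti, act_add, ← ha, ← hd, add_comm]; exact had
  have l3 : len (y * s 2 * s i * s j) < len (y * s 2 * s i) := by
    rw [hR.dnR, act_mul_s hR, F.ij, act_mul_s hR, F.tj, act_add, ← hb, ← hd, add_comm]; exact hbd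
  have l4 : len (y * s 2 * s i * s j * s 2) < len (y * s 2 * s i * s j) := by
    rw [hR.dnR]
    simp only [act_mul_s hR, map_add, map_neg, F.i2, F.j2, F.ij, F.ti, F.tj, F.tt, ← ha, ← hb, ← hd]
    have : -d + (d + a) + (d + b) = a + b + d := by abel
    rw [this]; exact hneg
  have e1 := len_mul_s_dn _ _ l1
  have e2 := len_mul_s_dn _ _ l2
  have e3 := len_mul_s_dn _ _ l3
  have e4 := len_mul_s_dn _ _ l4
  set y1 := y * s 2 * s i * s j * s 2 with hy1
  have hlen : len y = len y1 + 4 := by omega
  -- the action of y1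
  have A1 : ∀ x, act y1 x = act y (refl 2 (refl i (refl j (refl 2 x)))) := by
    intro x
    rw [hy1, act_mul_s hR, act_mul_s hR, act_mul_s hR, act_mul_s hR]
  have y1i : act y1 (al i) = b := by
    simp only [A1, map_add, map_neg, F.i2, F.j2, F.ii, F.jj, F.ij, F.ji, F.ti, F.tj, F.tt,
      ← ha, ← hb, ← hd]
    abel
  have y1j : act y1 (al j) = a := by
    simp only [A1, map_add, map_neg, F.i2, F.j2, F.ii, F.jj, F.ij, F.ji, F.ti, F.tj, F.tt,
      ← ha, ← hb, ← hd]
    abel
  have y12 : act y1 (al 2) = -(a + b + d) := by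
    simp only [A1, map_add, map_neg, F.i2, F.j2, F.ii, F.jj, F.ij, F.ji, F.ti, F.tj, F.tt,
      ← ha, ← hb, ← hd]
    abel
  have p1 : 0 ≤ act y1 (al i) := by rw [y1i]; exact hyj
  have p2 : 0 ≤ act y1 (al j) := by rw [y1j]; exact hyi
  have p3 : 0 ≤ act y1 (al 2) := by rw [y12]; exact neg_nonneg.2 hneg
  have hy1' : y1 = y * s 2 * s i * s j * s 2 := hy1
  clear_value y1
  -- the elements y1 x
  have u2 : len y1 < len (y1 * s 2) := (hR.upR _ _).2 p3
  have ui : len y1 < len (y1 * s i) := (hR.upR _ _).2 p1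
  have uj : len y1 < len (y1 * s j) := (hR.upR _ _).2 p2
  have ui2 : len (y1 * s i) < len (y1 * s i * s 2) := by
    rw [hR.upR, act_mul_s hR, F.i2, act_add]; exact add_nonneg p3 p1
  have uj2 : len (y1 * s j) < len (y1 * s j * s 2) := by
    rw [hR.upR, act_mul_s hR, F.j2, act_add]; exact add_nonneg p3 p2
  have uij : len (y1 * s i) < len (y1 * s i * s j) := by
    rw [hR.upR, act_mul_s hR, F.ij]; exact p2
  have uij2 : len (y1 * s i * s j) < len (y1 * s i * s j * s 2) := by
    rw [hR.upR]
    simp only [act_mul_s hR, map_add, F.i2, F.j2, F.ij]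
    exact add_nonneg (add_nonneg p3 p1) p2
  have f2 := len_mul_s_up _ _ u2
  have fi := len_mul_s_up _ _ ui
  have fj := len_mul_s_up _ _ uj
  have fi2 := len_mul_s_up _ _ ui2
  have fj2 := len_mul_s_up _ _ uj2
  have fij := len_mul_s_up _ _ uij
  have fij2 := len_mul_s_up _ _ uij2
  -- T_y e
  have hyy : y1 * s 2 * s j * s i * s 2 = y := by
    rw [hy1', mul_s_s, mul_s_s, mul_s_s, mul_s_s]
  have hTy : G.T y G.e = G.T y1 (G.t 2 (G.t i (G.t j (G.t 2 G.e)))) := by
    have g1 : len (y1 * s 2) < len (y1 * s 2 * s j) := by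
      have : len (y1 * s 2 * s j) = len (y * s 2 * s i) := by
        rw [hy1', mul_s_s, mul_s_s]
      omega
    have g2 : len (y1 * s 2 * s j) < len (y1 * s 2 * s j * s i) := by
      have h1 : len (y1 * s 2 * s j) = len (y * s 2 * s i) := by
        rw [hy1', mul_s_s, mul_s_s]
      have h2 : len (y1 * s 2 * s j * s i) = len (y * s 2) := by
        rw [hy1', mul_s_s, mul_s_s, mul_s_s]
      omega
    have g3 : len (y1 * s 2 * s j * s i) < len (y1 * s 2 * s j * s i * s 2) := by
      have h2 : len (y1 * s 2 * s j * s i) = len (y * s 2) := by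
        rw [hy1', mul_s_s, mul_s_s, mul_s_s]
      rw [hyy]
      omega
    rw [← hyy, T_up hT _ _ _ _ g3, T_up hT _ _ _ _ g2, T_up hT _ _ _ _ g1, T_up hT _ _ _ _ u2,
      G.comm i j hij hadj]
  -- bound for an element with i, j positive
  have key : ∀ z, 0 ≤ act z (al i) → 0 ≤ act z (al j) → len z < len y → DLv 1 (G.T z G.e) := by
    intro z hzi hzj hz
    rcases hR.sign _ (hR.root_act z _ (hR.root_al k)) with h | h
    · exact DLv_mono (IH z ((hXK z).2 ⟨hzi, hzj, h.1⟩) hz).1 (by norm_num)
    · have hd : len (z * s k) < len z := (hR.dnR _ _).2 h.1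
      have hx : XK (z * s k) := by
        rw [hXK]
        unfold Pos
        rw [act_mul_s hR, act_mul_s hR, act_mul_s hR, F.ki, F.kj, F.kk, map_neg]
        exact ⟨hzi, hzj, neg_nonneg.2 h.1⟩
      have h1 := T_up hT G.toBMod (z * s k) k G.e (by rw [mul_s_s]; exact hd)
      rw [mul_s_s, hek, map_smul] at h1
      rw [h1]
      exact DLv_v (IH _ hx (hd.trans hz)).1
  -- the five terms
  have t0 := key y1 p1 p2 (by omega)
  have t2 := key (y1 * s 2) (by rw [act_mul_s hR, F.ti, act_add]; exact add_nonneg p3 p1)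
    (by rw [act_mul_s hR, F.tj, act_add]; exact add_nonneg p3 p2) (by omega)
  have ti2 := key (y1 * s i * s 2)
    (by
      simp only [act_mul_s hR, map_add, map_neg, F.ti, F.i2, F.ii]
      have : act y1 (al 2) + act y1 (al i) + -act y1 (al i) = act y1 (al 2) := by abel
      rw [this]; exact p3)
    (by
      simp only [act_mul_s hR, map_add, map_neg, F.tj, F.i2, F.ij]
      exact add_nonneg (add_nonneg p3 p1) p2) (by omega)
  have tj2 := key (y1 * s j * s 2)
    (by
      simp only [act_mul_s hR, map_add, map_neg, F.ti, F.j2, F.ji]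
      exact add_nonneg (add_nonneg p3 p2) p1)
    (by
      simp only [act_mul_s hR, map_add, map_neg, F.tj, F.j2, F.jj]
      have : act y1 (al 2) + act y1 (al j) + -act y1 (al j) = act y1 (al 2) := by abel
      rw [this]; exact p3) (by omega)
  -- the main term
  have tij2 : DLv 0 (G.T (y1 * s i * s j * s 2) G.e) := by
    set z := y1 * s i * s j * s 2 with hz
    have hzl : len z < len y := by omega
    have hzi : 0 ≤ act z (al i) := by
      rw [hz]
      simp only [act_mul_s hR, map_add, map_neg, F.ti, F.j2, F.ji, F.i2, F.ij, F.ii]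
      have : act y1 (al 2) + act y1 (al i) + act y1 (al j) + -act y1 (al i)
        = act y1 (al 2) + act y1 (al j) := by abel
      rw [this]; exact add_nonneg p3 p2
    have hzj : 0 ≤ act z (al j) := by
      rw [hz]
      simp only [act_mul_s hR, map_add, map_neg, F.tj, F.j2, F.jj, F.i2, F.ij]
      have : act y1 (al 2) + act y1 (al i) + act y1 (al j) + -act y1 (al j)
        = act y1 (al 2) + act y1 (al i) := by abel
      rw [this]; exact add_nonneg p3 p1
    have hzi2 : act z (al i) + act z (al 2) ≤ 0 := by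
      rw [hz]
      simp only [act_mul_s hR, map_add, map_neg, F.ti, F.tt, F.j2, F.jj, F.ji, F.i2, F.ij, F.ii]
      have : act y1 (al 2) + act y1 (al i) + act y1 (al j) + -act y1 (al i) +
          -(act y1 (al 2) + act y1 (al i) + act y1 (al j)) = - act y1 (al i) := by abel
      rw [this]; exact neg_nonpos.2 p1
    clear_value z
    rcases hR.sign _ (hR.root_act z _ (hR.root_al k)) with h | h
    · exact (IH z ((hXK z).2 ⟨hzi, hzj, h.1⟩) hzl).1
    · have hd : len (z * s k) < len z := (hR.dnR _ _).2 h.1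
      have hx : XK (z * s k) := by
        rw [hXK]
        unfold Pos
        rw [act_mul_s hR, act_mul_s hR, act_mul_s hR, F.ki, F.kj, F.kk, map_neg]
        exact ⟨hzi, hzj, neg_nonneg.2 h.1⟩
      have h1 := T_up hT G.toBMod (z * s k) k G.e (by rw [mul_s_s]; exact hd)
      rw [mul_s_s, hek, map_smul] at h1
      rw [h1]
      have hn : N1 (z * s k) := by
        apply hN1 _ hx
        unfold Neg
        rw [act_mul_s hR]
        simp only [map_add, F.ki, F.kk, F.k2, map_neg]
        have : act z (al i) + -act z (al k) + (act z (al 2) + act z (al k))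
          = act z (al i) + act z (al 2) := by abel
        rw [this]; exact hzi2
      have h2 := DLv_v ((IH _ hx (hd.trans hzl)).2 hn)
      exact DLv_mono h2 (by norm_num)
  rw [hTy, hrel2, map_neg]
  simp only [map_add, map_smul]
  have q0 : G.T y1 (G.t i (G.t j (G.t 2 G.e))) = G.T (y1 * s i * s j * s 2) G.e := by
    rw [T_up hT _ _ _ _ uij2, T_up hT _ _ _ _ uij, T_up hT _ _ _ _ ui]
  have q1 : G.T y1 (G.t i (G.t 2 G.e)) = G.T (y1 * s i * s 2) G.e := by
    rw [T_up hT _ _ _ _ ui2, T_up hT _ _ _ _ ui]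
  have q2 : G.T y1 (G.t j (G.t 2 G.e)) = G.T (y1 * s j * s 2) G.e := by
    rw [T_up hT _ _ _ _ uj2, T_up hT _ _ _ _ uj]
  have q3 : G.T y1 (G.t 2 G.e) = G.T (y1 * s 2) G.e := by
    rw [T_up hT _ _ _ _ u2]
  rw [q0, q1, q2, q3]
  apply DLv_neg
  refine DLv_add (DLv_add (DLv_add (DLv_vi tij2) ?_) ?_) ?_
  · exact DLv_mono (DLv_vi_pow (DLv_add ti2 tj2) 2) (by norm_num)
  · exact DLv_mono (DLv_vi_pow t2 3) (by norm_num)
  · exact DLv_mono (DLv_vi_pow t0 4) (by norm_num)

end Pool.Agent.Helper39.KL
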