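import Pool.Agent.Helper39.KL.Spec

/-!
# Module AB3: the third type of elements of `N1`, and the lattice statements
-/

namespace Pool.Agent.Helper39.KL

open Finset

namespace AB3

/-! ### degree bounds -/

theorem dlMono {n m : ℤ} (h : n ≤ m) {p : A} (hp : DL n p) : DL m p :=
  fun k hk => hp k (lt_of_le_of_lt h hk)

theorem dlAdd {n : ℤ} {p q : A} (hp : DL n p) (hq : DL n q) : DL n (p + q) := by
  intro m hm
  have h1 := hp m hm
  have h2 := hq m hm
  rw [AddMonoidAlgebra.coeff_add, Finsupp.add_apply, h1, h2, add_zero]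

theorem dlNeg {n : ℤ} {p : A} (hp : DL n p) : DL n (-p) := by
  intro m hm
  have h1 := hp m hm
  have h2 : (p + -p).coeff m = 0 := by rw [add_neg_cancel]; rfl
  rw [AddMonoidAlgebra.coeff_add, Finsupp.add_apply, h1, zero_add] at h2
  exact h2

theorem dlSub {n : ℤ} {p q : A} (hp : DL n p) (hq : DL n q) : DL n (p - q) := by
  rw [sub_eq_add_neg]; exact dlAdd hp (dlNeg hq)

theorem dlT (n : ℤ) : DL n (LaurentPolynomial.T n : A) := by
  intro m hm
  rw [LaurentPolynomial.T_apply, if_neg (by omega)]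

theorem dlv : DL 1 v := dlT 1

theorem dlvi : DL (-1) vi := dlT (-1)

theorem dlInt (n : ℤ) : DL 0 (n : A) := by
  intro m hm
  have : (n : A) = LaurentPolynomial.C n := by simp
  rw [this, LaurentPolynomial.C_apply, if_neg (by omega)]

theorem dlMul {a b : ℤ} {p q : A} (hp : DL a p) (hq : DL b q) : DL (a + b) (p * q) := by
  intro m hm
  rw [AddMonoidAlgebra.coeff_mul]
  apply Finset.sum_eq_zero
  intro c hc
  apply Finset.sum_eq_zero
  intro d hd
  dsimp only
  split_ifs with h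
  · rcases le_or_gt c a with h1 | h1
    · rw [hq d (by omega), mul_zero]
    · rw [hp c h1, zero_mul]
  · rfl

theorem dlPow {a : ℤ} {p : A} (hp : DL a p) (n : ℕ) : DL (n * a) (p ^ n) := by
  induction n with
  | zero => simpa using dlInt 1
  | succ n ih =>
    rw [pow_succ]
    have := dlMul ih hp
    have e : ((n + 1 : ℕ) : ℤ) * a = n * a + a := by push_cast; ring
    rw [e]; exact this

section vec

variable {X : Type} {n m : ℤ} {x y : X →₀ A}

theorem vMono (h : n ≤ m) (hx : DLv n x) : DLv m x := fun g => dlMono h (hx g)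

theorem vAdd (hx : DLv n x) (hy : DLv n y) : DLv n (x + y) := fun g => dlAdd (hx g) (hy g)

theorem vSub (hx : DLv n x) (hy : DLv n y) : DLv n (x - y) := fun g => dlSub (hx g) (hy g)

theorem vSmul {p : A} (hp : DL m p) (hx : DLv n x) : DLv (m + n) (p • x) :=
  fun g => dlMul hp (hx g)

theorem vSmul' {p : A} {k : ℤ} (hp : DL m p) (hx : DLv n x) (h : m + n ≤ k) : DLv k (p • x) :=
  vMono h (vSmul hp hx)

end vec

/-! ### lengths and signs -/

theorem pos_mul (hR : RootFacts) {y : W} {i : Fin 5} {x : Q} :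
    Pos (y * s i) x ↔ Pos y (refl i x) := by
  rw [Pos, Pos, map_mul, Module.End.mul_apply, hR.act_s]

theorem neg_mul (hR : RootFacts) {y : W} {i : Fin 5} {x : Q} :
    Neg (y * s i) x ↔ Neg y (refl i x) := by
  rw [Neg, Neg, map_mul, Module.End.mul_apply, hR.act_s]

theorem pos_one {x : Q} (h : 0 ≤ x) : Pos 1 x := by
  rw [Pos, map_one]; exact h

theorem pos_add {y : W} {x z : Q} (h : Pos y x) (h' : Pos y z) : Pos y (x + z) := by
  rw [Pos, map_add]; exact add_nonneg h h'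

theorem pos_neg {y : W} {x z : Q} (h : Neg y x) (e : z = -x) : Pos y z := by
  rw [Pos, e, map_neg]; exact neg_nonneg.2 h

theorem neg_sub {y : W} {x z u : Q} (h : Neg y x) (h' : Pos y z) (e : u = x - z) : Neg y u := by
  rw [Neg, e, map_sub]
  exact sub_nonpos.2 (le_trans h h')

theorem pos_eq {y : W} {x z : Q} (h : Pos y z) (e : x = z) : Pos y x := e ▸ h

theorem neg_eq {y : W} {x z : Q} (h : Neg y z) (e : x = z) : Neg y x := e ▸ h

theorem len_up (hR : RootFacts) {y : W} {i : Fin 5} (h : Pos y (al i)) :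
    len (y * s i) = len y + 1 := by
  have h1 := (hR.upR y i).2 h
  have h2 := cs.length_mul_simple y i
  rcases h2 with h2 | h2
  · exact h2
  · have h3 : len (y * s i) + 1 = len y := h2
    omega

theorem len_dn (hR : RootFacts) {y : W} {i : Fin 5} (h : Neg y (al i)) :
    len (y * s i) + 1 = len y := by
  have h1 := (hR.dnR y i).2 h
  have h2 := cs.length_mul_simple y i
  rcases h2 with h2 | h2
  · have h3 : len (y * s i) = len y + 1 := h2
    omega
  · exact h2

theorem len_s (i : Fin 5) : len (s i) = 1 := cs.length_simple i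

theorem ss (i : Fin 5) : s i * s i = 1 := cs.simple_mul_simple_self i

theorem mss (y : W) (i : Fin 5) : y * s i * s i = y := by rw [mul_assoc, ss, mul_one]

theorem T_step (hR : RootFacts) (hT : TFacts) {X : Type} (V : BMod X) {y : W} {i : Fin 5}
    (h : Pos y (al i)) (x : X →₀ A) : V.T (y * s i) x = V.T y (V.t i x) := by
  rw [hT.T_mul V y (s i) x (by rw [len_up hR h, len_s]), hT.T_s]

/-- coefficient of a root sign -/
theorem pos_or_neg (hR : RootFacts) (y : W) {x : Q} (hx : IsRoot x) : Pos y x ∨ Neg y x := by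
  rcases hR.sign _ (hR.root_act y x hx) with h | h
  · exact Or.inl h.1
  · exact Or.inr h.1

theorem xk_of {y : W} (h0 : Pos y (al 0)) (h1 : Pos y (al 1)) (h3 : Pos y (al 3)) : XK y := by
  intro i hi
  simp only [Finset.mem_insert, Finset.mem_singleton] at hi
  rcases hi with rfl | rfl | rfl <;> assumption

/-! ### the main bound -/

/-- the hypothesis on the element `y1` -/
structure Hyp (y : W) : Prop where
  p0 : Pos y (al 0)
  p1 : Pos y (al 1)
  p3 : Pos y (al 3)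
  q0 : Pos y (al 0 + al 2)
  q1 : Pos y (al 1 + al 2)
  q3 : Pos y (al 3 + al 2)

theorem pair01 (hR : RootFacts) {y : W} (h : Hyp y) : XK (y * s 0 * s 1 * s 2) := by
  refine xk_of ?_ ?_ ?_
  · exact (pos_mul hR).2 <| (pos_mul hR).2 <| (pos_mul hR).2 <| pos_eq h.q1 (by decide)
  · exact (pos_mul hR).2 <| (pos_mul hR).2 <| (pos_mul hR).2 <| pos_eq h.q0 (by decide)
  · exact (pos_mul hR).2 <| (pos_mul hR).2 <| (pos_mul hR).2 <|
      pos_eq (pos_add h.p0 (pos_add h.p1 h.q3)) (by decide)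

theorem pair03 (hR : RootFacts) {y : W} (h : Hyp y) : XK (y * s 0 * s 3 * s 2) := by
  refine xk_of ?_ ?_ ?_
  · exact (pos_mul hR).2 <| (pos_mul hR).2 <| (pos_mul hR).2 <| pos_eq h.q3 (by decide)
  · exact (pos_mul hR).2 <| (pos_mul hR).2 <| (pos_mul hR).2 <|
      pos_eq (pos_add h.p0 (pos_add h.p3 h.q1)) (by decide)
  · exact (pos_mul hR).2 <| (pos_mul hR).2 <| (pos_mul hR).2 <| pos_eq h.q0 (by decide)

theorem pair13 (hR : RootFacts) {y : W} (h : Hyp y) : XK (y * s 1 * s 3 * s 2) := by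
  refine xk_of ?_ ?_ ?_
  · exact (pos_mul hR).2 <| (pos_mul hR).2 <| (pos_mul hR).2 <|
      pos_eq (pos_add h.p1 (pos_add h.p3 h.q0)) (by decide)
  · exact (pos_mul hR).2 <| (pos_mul hR).2 <| (pos_mul hR).2 <| pos_eq h.q3 (by decide)
  · exact (pos_mul hR).2 <| (pos_mul hR).2 <| (pos_mul hR).2 <| pos_eq h.q1 (by decide)

/-- words of length three: `T_{y s_i s_j s_2} = T_y T_i T_j T_2` -/
theorem T3 (hR : RootFacts) (hT : TFacts) {X : Type} (V : BMod X) {y : W} {i j k : Fin 5}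
    (h1 : Pos y (al i)) (h2 : Pos (y * s i) (al j)) (h3 : Pos (y * s i * s j) (al k))
    (x : X →₀ A) :
    V.T (y * s i * s j * s k) x = V.T y (V.t i (V.t j (V.t k x))) ∧
      len (y * s i * s j * s k) = len y + 3 := by
  constructor
  · rw [T_step hR hT V h3, T_step hR hT V h2, T_step hR hT V h1]
  · rw [len_up hR h3, len_up hR h2, len_up hR h1]

theorem T2 (hR : RootFacts) (hT : TFacts) {X : Type} (V : BMod X) {y : W} {i j : Fin 5}
    (h1 : Pos y (al i)) (h2 : Pos (y * s i) (al j)) (x : X →₀ A) :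
    V.T (y * s i * s j) x = V.T y (V.t i (V.t j x)) ∧ len (y * s i * s j) = len y + 2 := by
  constructor
  · rw [T_step hR hT V h2, T_step hR hT V h1]
  · rw [len_up hR h2, len_up hR h1]

variable {X : Type}

/-- terms with two leaves -/
theorem b2 (hR : RootFacts) (hT : TFacts) (G : Good X) {y : W} (h : Hyp y)
    (hyp : ∀ z, XK z → len z ≤ len y + 3 → DLv 0 (G.T z G.e)) :
    DLv 0 (G.T y (G.t 0 (G.t 1 (G.t 2 G.e)))) ∧ DLv 0 (G.T y (G.t 0 (G.t 3 (G.t 2 G.e)))) ∧
      DLv 0 (G.T y (G.t 1 (G.t 3 (G.t 2 G.e)))) := by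
  refine ⟨?_, ?_, ?_⟩
  · obtain ⟨e1, e2⟩ := T3 hR hT G.toBMod (i := 0) (j := 1) (k := 2) h.p0
      ((pos_mul hR).2 <| pos_eq h.p1 (by decide))
      ((pos_mul hR).2 <| (pos_mul hR).2 <| pos_eq (pos_add h.p0 h.q1) (by decide)) G.e
    rw [← e1]
    exact hyp _ (pair01 hR h) e2.le
  · obtain ⟨e1, e2⟩ := T3 hR hT G.toBMod (i := 0) (j := 3) (k := 2) h.p0
      ((pos_mul hR).2 <| pos_eq h.p3 (by decide))
      ((pos_mul hR).2 <| (pos_mul hR).2 <| pos_eq (pos_add h.p0 h.q3) (by decide)) G.e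
    rw [← e1]
    exact hyp _ (pair03 hR h) e2.le
  · obtain ⟨e1, e2⟩ := T3 hR hT G.toBMod (i := 1) (j := 3) (k := 2) h.p1
      ((pos_mul hR).2 <| pos_eq h.p3 (by decide))
      ((pos_mul hR).2 <| (pos_mul hR).2 <| pos_eq (pos_add h.p1 h.q3) (by decide)) G.e
    rw [← e1]
    exact hyp _ (pair13 hR h) e2.le

/-- terms with one leaf and with no leaf, `y s_2 > y` -/
theorem b1up (hR : RootFacts) (hT : TFacts) (G : Good X) {y : W} (h : Hyp y)
    (hyp : ∀ z, XK z → len z ≤ len y + 3 → DLv 0 (G.T z G.e)) (hd : Pos y (al 2)) :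
    DLv 1 (G.T y (G.t 0 (G.t 2 G.e))) ∧ DLv 1 (G.T y (G.t 1 (G.t 2 G.e))) ∧
      DLv 1 (G.T y (G.t 3 (G.t 2 G.e))) ∧ DLv 1 (G.T y (G.t 2 G.e)) := by
  refine ⟨?_, ?_, ?_, ?_⟩
  · obtain ⟨e1, e2⟩ := T2 hR hT G.toBMod (i := 0) (j := 2) h.p0
      ((pos_mul hR).2 <| pos_eq h.q0 (by decide)) G.e
    rw [← e1]
    refine vMono (by norm_num) (hyp _ (xk_of ?_ ?_ ?_) (by omega))
    · exact (pos_mul hR).2 <| (pos_mul hR).2 <| pos_eq hd (by decide)
    · exact (pos_mul hR).2 <| (pos_mul hR).2 <| pos_eq (pos_add h.p0 h.q1) (by decide)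
    · exact (pos_mul hR).2 <| (pos_mul hR).2 <| pos_eq (pos_add h.p0 h.q3) (by decide)
  · obtain ⟨e1, e2⟩ := T2 hR hT G.toBMod (i := 1) (j := 2) h.p1
      ((pos_mul hR).2 <| pos_eq h.q1 (by decide)) G.e
    rw [← e1]
    refine vMono (by norm_num) (hyp _ (xk_of ?_ ?_ ?_) (by omega))
    · exact (pos_mul hR).2 <| (pos_mul hR).2 <| pos_eq (pos_add h.p1 h.q0) (by decide)
    · exact (pos_mul hR).2 <| (pos_mul hR).2 <| pos_eq hd (by decide)
    · exact (pos_mul hR).2 <| (pos_mul hR).2 <| pos_eq (pos_add h.p1 h.q3) (by decide)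
  · obtain ⟨e1, e2⟩ := T2 hR hT G.toBMod (i := 3) (j := 2) h.p3
      ((pos_mul hR).2 <| pos_eq h.q3 (by decide)) G.e
    rw [← e1]
    refine vMono (by norm_num) (hyp _ (xk_of ?_ ?_ ?_) (by omega))
    · exact (pos_mul hR).2 <| (pos_mul hR).2 <| pos_eq (pos_add h.p3 h.q0) (by decide)
    · exact (pos_mul hR).2 <| (pos_mul hR).2 <| pos_eq (pos_add h.p3 h.q1) (by decide)
    · exact (pos_mul hR).2 <| (pos_mul hR).2 <| pos_eq hd (by decide)
  · rw [← T_step hR hT G.toBMod hd]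
    refine vMono (by norm_num) (hyp _ (xk_of ?_ ?_ ?_) (by rw [len_up hR hd]; omega))
    · exact (pos_mul hR).2 <| pos_eq h.q0 (by decide)
    · exact (pos_mul hR).2 <| pos_eq h.q1 (by decide)
    · exact (pos_mul hR).2 <| pos_eq h.q3 (by decide)

/-- terms with one leaf, `y s_2 < y` -/
theorem b1dn1 (hR : RootFacts) (hT : TFacts) (G : Good X) {y : W} {i : Fin 5}
    (hi : i ∈ ({0, 1, 3} : Finset (Fin 5)))
    (hyp : ∀ z, XK z → len z ≤ len y + 3 → DLv 0 (G.T z G.e)) (hd : Neg y (al 2))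
    (h1 : Pos (y * s 2) (al i)) (h2 : Pos (y * s 2 * s i) (al 2))
    (h3 : XK (y * s 2 * s i * s 2)) :
    DLv 1 (G.T y (G.t i (G.t 2 G.e))) := by
  have hl := len_dn hR hd
  have hy : Pos (y * s 2) (al 2) := (pos_mul hR).2 (pos_neg hd (by decide))
  obtain ⟨e1, e2⟩ := T2 hR hT G.toBMod h1 h2 G.e
  have hadj : adj 2 i = true :=
    (by decide : ∀ i ∈ ({0, 1, 3} : Finset (Fin 5)), adj 2 i = true) i hi
  have e3 : G.T y (G.t i (G.t 2 G.e)) = v • G.T (y * s 2 * s i * s 2) G.e := by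
    have e4 : G.T y (G.t i (G.t 2 G.e)) = G.T (y * s 2) (G.t 2 (G.t i (G.t 2 G.e))) := by
      rw [← T_step hR hT G.toBMod hy, mss]
    rw [e4, G.braid 2 i hadj, G.eK i hi, map_smul, map_smul, map_smul, e1]
  rw [e3]
  exact vSmul' dlv (hyp _ h3 (by omega)) (by norm_num)

/-- terms with one leaf and with no leaf, `y s_2 < y` -/
theorem b1dn (hR : RootFacts) (hT : TFacts) (G : Good X) {y : W} (h : Hyp y)
    (hyp : ∀ z, XK z → len z ≤ len y + 3 → DLv 0 (G.T z G.e)) (hd : Neg y (al 2)) :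
    DLv 1 (G.T y (G.t 0 (G.t 2 G.e))) ∧ DLv 1 (G.T y (G.t 1 (G.t 2 G.e))) ∧
      DLv 1 (G.T y (G.t 3 (G.t 2 G.e))) ∧ DLv 1 (G.T y (G.t 2 G.e)) := by
  refine ⟨?_, ?_, ?_, ?_⟩
  · refine b1dn1 hR hT G (by decide) hyp hd ?_ ?_ (xk_of ?_ ?_ ?_)
    · exact (pos_mul hR).2 <| pos_eq h.q0 (by decide)
    · exact (pos_mul hR).2 <| (pos_mul hR).2 <| pos_eq h.p0 (by decide)
    · exact (pos_mul hR).2 <| (pos_mul hR).2 <| (pos_mul hR).2 <| pos_neg hd (by decide)
    · exact (pos_mul hR).2 <| (pos_mul hR).2 <| (pos_mul hR).2 <|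
        pos_eq (pos_add h.p0 h.q1) (by decide)
    · exact (pos_mul hR).2 <| (pos_mul hR).2 <| (pos_mul hR).2 <|
        pos_eq (pos_add h.p0 h.q3) (by decide)
  · refine b1dn1 hR hT G (by decide) hyp hd ?_ ?_ (xk_of ?_ ?_ ?_)
    · exact (pos_mul hR).2 <| pos_eq h.q1 (by decide)
    · exact (pos_mul hR).2 <| (pos_mul hR).2 <| pos_eq h.p1 (by decide)
    · exact (pos_mul hR).2 <| (pos_mul hR).2 <| (pos_mul hR).2 <|
        pos_eq (pos_add h.p1 h.q0) (by decide)
    · exact (pos_mul hR).2 <| (pos_mul hR).2 <| (pos_mul hR).2 <| pos_neg hd (by decide)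
    · exact (pos_mul hR).2 <| (pos_mul hR).2 <| (pos_mul hR).2 <|
        pos_eq (pos_add h.p1 h.q3) (by decide)
  · refine b1dn1 hR hT G (by decide) hyp hd ?_ ?_ (xk_of ?_ ?_ ?_)
    · exact (pos_mul hR).2 <| pos_eq h.q3 (by decide)
    · exact (pos_mul hR).2 <| (pos_mul hR).2 <| pos_eq h.p3 (by decide)
    · exact (pos_mul hR).2 <| (pos_mul hR).2 <| (pos_mul hR).2 <|
        pos_eq (pos_add h.p3 h.q0) (by decide)
    · exact (pos_mul hR).2 <| (pos_mul hR).2 <| (pos_mul hR).2 <|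
        pos_eq (pos_add h.p3 h.q1) (by decide)
    · exact (pos_mul hR).2 <| (pos_mul hR).2 <| (pos_mul hR).2 <| pos_neg hd (by decide)
  · have hl := len_dn hR hd
    have hy : Pos (y * s 2) (al 2) := (pos_mul hR).2 (pos_neg hd (by decide))
    have e4 : ∀ x, G.T y x = G.T (y * s 2) (G.t 2 x) := by
      intro x
      rw [← T_step hR hT G.toBMod hy, mss]
    have e5 : G.T y (G.t 2 G.e) = G.T (y * s 2) G.e + (v - vi) • G.T y G.e := by
      rw [e4 (G.t 2 G.e), G.quad, map_add, map_smul, ← e4 G.e]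
    rw [e5]
    refine vAdd ?_ ?_
    · refine vMono (by norm_num) (hyp _ (xk_of ?_ ?_ ?_) (by omega))
      · exact (pos_mul hR).2 <| pos_eq h.q0 (by decide)
      · exact (pos_mul hR).2 <| pos_eq h.q1 (by decide)
      · exact (pos_mul hR).2 <| pos_eq h.q3 (by decide)
    · exact vSmul' (dlSub dlv (dlMono (by norm_num) dlvi))
        (hyp y (xk_of h.p0 h.p1 h.p3) (by omega)) (by norm_num)

/-- the main bound -/
theorem main (hR : RootFacts) (hT : TFacts) (hrel : RelFacts) (G : Good X) {y : W} (h : Hyp y)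
    (hyp : ∀ z, XK z → len z ≤ len y + 3 → DLv 0 (G.T z G.e)) :
    DLv (-1) (G.T y (G.t 0 (G.t 1 (G.t 3 (G.t 2 G.e)))) - (G.eps : A) • G.T y G.e) := by
  obtain ⟨a1, a2, a3⟩ := b2 hR hT G h hyp
  have hb : DLv 1 (G.T y (G.t 0 (G.t 2 G.e))) ∧ DLv 1 (G.T y (G.t 1 (G.t 2 G.e))) ∧
      DLv 1 (G.T y (G.t 3 (G.t 2 G.e))) ∧ DLv 1 (G.T y (G.t 2 G.e)) := by
    rcases pos_or_neg hR y (hR.root_al 2) with hd | hd
    · exact b1up hR hT G h hyp hd
    · exact b1dn hR hT G h hyp hd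
  obtain ⟨c1, c2, c3, c4⟩ := hb
  have hy := hyp y (xk_of h.p0 h.p1 h.p3) (by omega)
  have e : G.T y (G.t 0 (G.t 1 (G.t 3 (G.t 2 G.e)))) - (G.eps : A) • G.T y G.e =
      (-(2 * vi ^ 2) - vi ^ 4) • G.T y G.e
      - (vi • (G.T y (G.t 0 (G.t 1 (G.t 2 G.e))) + G.T y (G.t 0 (G.t 3 (G.t 2 G.e)))
          + G.T y (G.t 1 (G.t 3 (G.t 2 G.e))))
        + vi ^ 2 • (G.T y (G.t 0 (G.t 2 G.e)) + G.T y (G.t 1 (G.t 2 G.e))
          + G.T y (G.t 3 (G.t 2 G.e)))
        + vi ^ 3 • G.T y (G.t 2 G.e)) := by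
    rw [hrel.rel3 G]
    simp only [map_sub, map_add, map_smul]
    module
  have d2 : DL (-2) (vi ^ 2) := dlPow dlvi 2
  have d3 : DL (-3) (vi ^ 3) := dlPow dlvi 3
  have d4 : DL (-4) (vi ^ 4) := dlPow dlvi 4
  have d22 : DL (-2) (2 * vi ^ 2) := by
    have := dlMul (dlInt 2) d2
    simpa using this
  rw [e]
  refine vSub ?_ (vAdd (vAdd ?_ ?_) ?_)
  · exact vSmul' (dlSub (dlNeg d22) (dlMono (by norm_num) d4)) hy (by norm_num)
  · exact vSmul' dlvi (vAdd (vAdd a1 a2) a3) (by norm_num)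
  · exact vSmul' d2 (vAdd (vAdd c1 c2) c3) (by norm_num)
  · exact vSmul' d3 c4 (by norm_num)

/-- `T_{y x0} = T_y T_0 T_1 T_3 T_2` -/
theorem T4 (hR : RootFacts) (hT : TFacts) (V : BMod X) {y : W} (h : Hyp y) (x : X →₀ A) :
    V.T (y * s 0 * s 1 * s 3 * s 2) x = V.T y (V.t 0 (V.t 1 (V.t 3 (V.t 2 x)))) ∧
      len (y * s 0 * s 1 * s 3 * s 2) = len y + 4 := by
  have h1 : Pos (y * s 0) (al 1) := (pos_mul hR).2 <| pos_eq h.p1 (by decide)
  have h2 : Pos (y * s 0 * s 1) (al 3) :=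
    (pos_mul hR).2 <| (pos_mul hR).2 <| pos_eq h.p3 (by decide)
  have h3 : Pos (y * s 0 * s 1 * s 3) (al 2) :=
    (pos_mul hR).2 <| (pos_mul hR).2 <| (pos_mul hR).2 <|
      pos_eq (pos_add h.p0 (pos_add h.p1 h.q3)) (by decide)
  constructor
  · rw [T_step hR hT V h3, T_step hR hT V h2, T_step hR hT V h1, T_step hR hT V h.p0]
  · rw [len_up hR h3, len_up hR h2, len_up hR h1, len_up hR h.p0]

end AB3

open AB3

/-- module AB3 -/
theorem ab3 (hR : RootFacts) (hT : TFacts) (_c1 : Comb1Facts) (hrel : RelFacts)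
    (_h1 : AB1Stmt) : AB3Stmt := by
  intro X G y ih hX h4 hp n0 n1 n3 n24
  set y1 : W := y * s 2 * s 3 * s 1 * s 0 with hy1
  have hy : y1 * s 0 * s 1 * s 3 * s 2 = y := by
    rw [hy1, mss, mss, mss, mss]
  have hH : Hyp y1 :=
    { p0 := (pos_mul hR).2 <| (pos_mul hR).2 <| (pos_mul hR).2 <| (pos_mul hR).2 <|
        pos_neg n0 (by decide)
      p1 := (pos_mul hR).2 <| (pos_mul hR).2 <| (pos_mul hR).2 <| (pos_mul hR).2 <|
        pos_neg n1 (by decide)
      p3 := (pos_mul hR).2 <| (pos_mul hR).2 <| (pos_mul hR).2 <| (pos_mul hR).2 <|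
        pos_neg n3 (by decide)
      q0 := (pos_mul hR).2 <| (pos_mul hR).2 <| (pos_mul hR).2 <| (pos_mul hR).2 <|
        pos_eq (hp (1, 3, 0) (by decide)) (by decide)
      q1 := (pos_mul hR).2 <| (pos_mul hR).2 <| (pos_mul hR).2 <| (pos_mul hR).2 <|
        pos_eq (hp (0, 3, 1) (by decide)) (by decide)
      q3 := (pos_mul hR).2 <| (pos_mul hR).2 <| (pos_mul hR).2 <| (pos_mul hR).2 <|
        pos_eq (hp (0, 1, 3) (by decide)) (by decide) }
  have hf : Neg y1 (al 4) :=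
    (neg_mul hR).2 <| (neg_mul hR).2 <| (neg_mul hR).2 <| (neg_mul hR).2 <|
      neg_eq n24 (by decide)
  obtain ⟨e1, e2⟩ := T4 hR hT G.toBMod hH G.e
  rw [hy] at e1 e2
  have hm := main hR hT hrel G hH (fun z hz hl => (ih z hz (by omega)).1)
  have hX1 : XK y1 := xk_of hH.p0 hH.p1 hH.p3
  have h5 : DLv (-1) (G.T y1 G.e) := (ih y1 hX1 (by omega)).2 ⟨hX1, Or.inl hf⟩
  have e3 : G.T y G.e = (G.T y1 (G.t 0 (G.t 1 (G.t 3 (G.t 2 G.e)))) -
      (G.eps : A) • G.T y1 G.e) + (G.eps : A) • G.T y1 G.e := by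
    rw [sub_add_cancel, e1]
  rw [e3]
  exact vAdd hm (vSmul' (dlInt _) h5 (by norm_num))

/-- module AB: the lattice statements for a good module -/
theorem abFacts (hR : RootFacts) (hT : TFacts) (_c1 : Comb1Facts) (hrel : RelFacts)
    (h1 : AB1Stmt) (h2 : AB2Stmt) (h3 : AB3Stmt) : ABFacts := by
  have hroot : ∀ x : Q, x ∈ ({al 0 + al 1 + al 2, al 0 + al 3 + al 2, al 1 + al 3 + al 2} :
      Finset Q) → IsRoot x := by
    intro x hx
    simp only [Finset.mem_insert, Finset.mem_singleton] at hx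
    rcases hx with rfl | rfl | rfl <;> (unfold IsRoot; decide)
  have key : ∀ {X : Type} (G : Good X) (n : ℕ), IH G n := by
    intro X G n
    induction n with
    | zero => intro y _ hl; exact absurd hl (by omega)
    | succ n ih =>
      intro y hX hl
      rcases Nat.lt_succ_iff_lt_or_eq.1 hl with hl | hl
      · exact ih y hX hl
      have ih' : IH G (len y) := by rw [hl]; exact ih
      have hN : N1 y → DLv (-1) (G.T y G.e) := by
        rintro ⟨-, h⟩
        rcases pos_or_neg hR y (hR.root_al 4) with p4 | p4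
        swap
        · exact h1 G y ih' hX p4
        rcases pos_or_neg hR y (hroot (al 0 + al 1 + al 2) (by decide)) with q1 | q1
        swap
        · exact h2 G y ih' hX (0, 1, 3) (by decide) q1
        rcases pos_or_neg hR y (hroot (al 0 + al 3 + al 2) (by decide)) with q2 | q2
        swap
        · exact h2 G y ih' hX (0, 3, 1) (by decide) q2
        rcases pos_or_neg hR y (hroot (al 1 + al 3 + al 2) (by decide)) with q3 | q3
        swap
        · exact h2 G y ih' hX (1, 3, 0) (by decide) q3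
        have hno : ∀ x, IsRoot x → Pos y x → Neg y x → False := by
          intro x hx hp hn
          rcases hR.sign _ (hR.root_act y x hx) with h | h
          · exact h.2 hn
          · exact h.2 hp
        rcases h with h | h | h | h | ⟨a1, a2, a3, a4⟩
        · exact (hno _ (hR.root_al 4) p4 h).elim
        · exact (hno _ (hroot _ (by decide)) q1 h).elim
        · exact (hno _ (hroot _ (by decide)) q2 h).elim
        · exact (hno _ (hroot _ (by decide)) q3 h).elim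
        · refine h3 G y ih' hX p4 ?_ a1 a2 a3 a4
          intro p hp
          simp only [KPairs, Finset.mem_insert, Finset.mem_singleton] at hp
          rcases hp with rfl | rfl | rfl
          · exact q1
          · exact q2
          · exact q3
      refine ⟨?_, hN⟩
      by_cases h : N1 y
      · exact vMono (by norm_num) (hN h)
      · exact G.bound y ⟨hX, h⟩
  have hA0 : ∀ {X : Type} (G : Good X) y, XK y → DLv 0 (G.T y G.e) :=
    fun G y hy => (key G (len y + 1) y hy (by omega)).1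
  refine ⟨hA0, fun G y hy => (key G (len y + 1) y hy.1 (by omega)).2 hy, ?_⟩
  intro X G g hg
  have hH : Hyp g := by
    have hp : ∀ x : Q, (∀ i, 0 ≤ x i) → Pos 1 x := fun x h => pos_one h
    simp only [Set.mem_insert_iff, Set.mem_singleton_iff] at hg
    rcases hg with rfl | rfl | rfl
    · exact ⟨hp _ (by decide), hp _ (by decide), hp _ (by decide), hp _ (by decide),
        hp _ (by decide), hp _ (by decide)⟩
    · rw [← one_mul (s 2)]
      refine ⟨?_, ?_, ?_, ?_, ?_, ?_⟩ <;> exact (pos_mul hR).2 (hp _ (by decide))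
    · rw [← one_mul (s 4)]
      refine ⟨?_, ?_, ?_, ?_, ?_, ?_⟩ <;>
        exact (pos_mul hR).2 ((pos_mul hR).2 (hp _ (by decide)))
  have hm := main hR hT hrel G hH (fun z hz _ => hA0 G z hz)
  have e := (T4 hR hT G.toBMod hH G.e).1
  have e' : g * x0 = g * s 0 * s 1 * s 3 * s 2 := by simp only [x0, mul_assoc]
  rw [e', e]
  exact hm

end Pool.Agent.Helper39.KL
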