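import Pool.Agent.Helper39.KL.Spec

/-!
# Module ALC: the alcove form of the affine Weyl group of type D4~
-/

namespace Pool.Agent.Helper39.KL.ALC

open Finset Pool.Agent.Helper39.KL

/-- the 24 roots -/
def root : Fin 24 → Fin 4 → ℤ :=
  ![![-1, -1, 0, 0],
    ![-1, 0, -1, 0],
    ![-1, 0, 0, -1],
    ![-1, 0, 0, 1],
    ![-1, 0, 1, 0],
    ![-1, 1, 0, 0],
    ![0, -1, -1, 0],
    ![0, -1, 0, -1],
    ![0, -1, 0, 1],
    ![0, -1, 1, 0],
    ![0, 0, -1, -1],
    ![0, 0, -1, 1],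
    ![0, 0, 1, -1],
    ![0, 0, 1, 1],
    ![0, 1, -1, 0],
    ![0, 1, 0, -1],
    ![0, 1, 0, 1],
    ![0, 1, 1, 0],
    ![1, -1, 0, 0],
    ![1, 0, -1, 0],
    ![1, 0, 0, -1],
    ![1, 0, 0, 1],
    ![1, 0, 1, 0],
    ![1, 1, 0, 0]]

/-- the action of the reflections on the roots -/
def sg : Fin 5 → Fin 24 → Fin 24 :=
  ![![23, 14, 15, 16, 17, 5, 19, 20, 21, 22, 10, 11, 12, 13, 1, 2, 3, 4, 18, 6, 7, 8, 9, 0],
    ![0, 6, 7, 8, 9, 18, 1, 2, 3, 4, 10, 11, 12, 13, 19, 20, 21, 22, 5, 14, 15, 16, 17, 23],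
    ![1, 0, 2, 3, 5, 4, 6, 10, 11, 14, 7, 8, 15, 16, 9, 12, 13, 17, 19, 18, 20, 21, 23, 22],
    ![0, 2, 1, 4, 3, 5, 7, 6, 9, 8, 10, 12, 11, 13, 15, 14, 17, 16, 18, 20, 19, 22, 21, 23],
    ![0, 3, 4, 1, 2, 5, 8, 9, 6, 7, 13, 11, 12, 10, 16, 17, 14, 15, 18, 21, 22, 19, 20, 23]]

/-- the alcove forms of the simple reflections -/
def kp : Fin 5 → Fin 24 → ℤ :=
  ![![-1, 0, 0, 0, 0, 0, 0, 0, 0, 0, 0, 0, 0, 0, 0, 0, 0, 0, 0, 0, 0, 0, 0, 1],
    ![0, 0, 0, 0, 0, 1, 0, 0, 0, 0, 0, 0, 0, 0, 0, 0, 0, 0, -1, 0, 0, 0, 0, 0],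
    ![0, 0, 0, 0, 0, 0, 0, 0, 0, 1, 0, 0, 0, 0, -1, 0, 0, 0, 0, 0, 0, 0, 0, 0],
    ![0, 0, 0, 0, 0, 0, 0, 0, 0, 0, 0, 1, -1, 0, 0, 0, 0, 0, 0, 0, 0, 0, 0, 0],
    ![0, 0, 0, 0, 0, 0, 0, 0, 0, 0, 1, 0, 0, -1, 0, 0, 0, 0, 0, 0, 0, 0, 0, 0]]

theorem root_inj : Function.Injective root := by
  have h : ∀ a b, root a = root b → a = b := by decide +kernel
  exact fun a b => h a b

theorem sbar_root : ∀ i a, sbar i (root a) = root (sg i a) := by decide +kernel

theorem k0_root : ∀ i a, k0 i (root a) = kp i a := by decide +kernel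

theorem exists_root_aux : ∀ a ∈ ({-1, 0, 1} : Finset ℤ), ∀ b ∈ ({-1, 0, 1} : Finset ℤ),
    ∀ c ∈ ({-1, 0, 1} : Finset ℤ), ∀ d ∈ ({-1, 0, 1} : Finset ℤ),
    a * a + b * b + c * c + d * d = 2 → ∃ j, ![a, b, c, d] = root j := by decide +kernel

theorem exists_root {x : Fin 4 → ℤ} (h : Root4 x) : ∃ a, x = root a := by
  have h0 : x 0 * x 0 + x 1 * x 1 + x 2 * x 2 + x 3 * x 3 = 2 := by
    have := h
    simpa [Root4, dotProduct, Fin.sum_univ_four] using this
  have key : ∀ y : ℤ, y * y ≤ 2 → y ∈ ({-1, 0, 1} : Finset ℤ) := by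
    intro y hy
    have h1 : -1 ≤ y := by nlinarith
    have h2 : y ≤ 1 := by nlinarith
    simp only [Finset.mem_insert, Finset.mem_singleton]
    omega
  have p0 := mul_self_nonneg (x 0)
  have p1 := mul_self_nonneg (x 1)
  have p2 := mul_self_nonneg (x 2)
  have p3 := mul_self_nonneg (x 3)
  obtain ⟨j, hj⟩ := exists_root_aux (x 0) (key _ (by linarith)) (x 1) (key _ (by linarith))
    (x 2) (key _ (by linarith)) (x 3) (key _ (by linarith)) h0
  refine ⟨j, ?_⟩
  rw [← hj]
  funext i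
  fin_cases i <;> rfl

theorem root4 : ∀ a, Root4 (root a) := by
  unfold Root4
  decide +kernel

/-- the affine action on functions on the roots -/
def rho (i : Fin 5) : Function.End (Fin 24 → ℤ) := fun f a => f (sg i a) + kp i a

/-- the permutation of a word -/
def sgl : List (Fin 5) → Fin 24 → Fin 24
  | [], a => a
  | i :: l, a => sgl l (sg i a)

/-- the cocycle of a word -/
def kpl : List (Fin 5) → Fin 24 → ℤ
  | [], _ => 0
  | i :: l, a => kpl l (sg i a) + kp i a

theorem prod_rho (l : List (Fin 5)) (f : Fin 24 → ℤ) (a : Fin 24) :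
    (l.map rho).prod f a = f (sgl l a) + kpl l a := by
  induction l generalizing a with
  | nil => exact (add_zero (f a)).symm
  | cons i l ih =>
    rw [List.map_cons, List.prod_cons]
    change (l.map rho).prod f (sg i a) + kp i a = _
    rw [ih, sgl, kpl, add_assoc]

theorem pow_eq (i j : Fin 5) (n : ℕ) :
    (rho i * rho j) ^ n = ((List.replicate n [i, j]).flatten.map rho).prod := by
  induction n with
  | zero => simp
  | succ n ih =>
    rw [pow_succ', ih, List.replicate_succ, List.flatten_cons, List.map_append,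
      List.prod_append]
    simp

theorem rel : ∀ i j a, sgl (List.replicate (M.M i j) [i, j]).flatten a = a ∧
    kpl (List.replicate (M.M i j) [i, j]).flatten a = 0 := by
  decide +kernel

theorem rho_liftable : M.IsLiftable rho := by
  intro i j
  rw [pow_eq]
  funext f a
  rw [prod_rho]
  have := rel i j a
  rw [show M i j = M.M i j from rfl, this.1, this.2, add_zero]
  rfl

/-- the action of `W` -/
def act4 : W →* Function.End (Fin 24 → ℤ) := cs.lift ⟨rho, rho_liftable⟩

/-- the alcove form on the indices of the roots -/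
def kk (w : W) : Fin 24 → ℤ := act4 w⁻¹ 0

theorem kk_one : kk 1 = 0 := by
  rw [kk, inv_one, map_one]; rfl

theorem kk_mul (w : W) (i : Fin 5) (a : Fin 24) : kk (w * s i) a = kk w (sg i a) + kp i a := by
  have h1 : (w * s i)⁻¹ = s i * w⁻¹ := by
    rw [mul_inv_rev]; congr 1; exact cs.inv_simple i
  have h2 : act4 (s i) = rho i := cs.lift_apply_simple rho_liftable i
  rw [kk, h1, map_mul, h2]
  rfl

open Classical in
/-- the alcove form -/
noncomputable def kf (w : W) (x : Fin 4 → ℤ) : ℤ :=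
  if h : ∃ a, x = root a then kk w h.choose else 0

theorem kf_root (w : W) (a : Fin 24) : kf w (root a) = kk w a := by
  have h : ∃ b, root a = root b := ⟨a, rfl⟩
  rw [kf, dif_pos h]
  congr 1
  exact (root_inj h.choose_spec).symm

theorem isAlcove_kf : IsAlcove kf := by
  refine ⟨fun x hx => ?_, fun w i x hx => ?_⟩
  · obtain ⟨a, rfl⟩ := exists_root hx
    rw [kf_root, kk_one]; rfl
  · obtain ⟨a, rfl⟩ := exists_root hx
    rw [sbar_root, k0_root, kf_root, kf_root, kk_mul]

theorem rec_root {k : W → (Fin 4 → ℤ) → ℤ} (h : IsAlcove k) (w : W) (i : Fin 5) (a : Fin 24) :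
    k (w * s i) (root a) = k w (root (sg i a)) + kp i a := by
  rw [h.2 w i (root a) (root4 a), sbar_root, k0_root]

theorem eq_kk {k : W → (Fin 4 → ℤ) → ℤ} (h : IsAlcove k) (w : W) :
    ∀ a, k w (root a) = kk w a := by
  induction w using cs.simple_induction_right with
  | one => intro a; rw [h.1 _ (root4 a), kk_one]; rfl
  | mul_simple_right w i ih =>
    intro a
    have h1 := rec_root h w i a
    have h2 := kk_mul w i a
    rw [ih] at h1
    exact h1.trans h2.symm

theorem word_root {k : W → (Fin 4 → ℤ) → ℤ} (h : IsAlcove k) (l : List (Fin 5)) :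
    ∀ a, k ((l.reverse.map s).prod) (root a) = kpl l a := by
  induction l with
  | nil => intro a; simpa [kpl] using h.1 _ (root4 a)
  | cons i l ih =>
    intro a
    rw [List.reverse_cons, List.map_append, List.prod_append, List.map_singleton,
      List.prod_singleton, rec_root h, ih, kpl]

end Pool.Agent.Helper39.KL.ALC

namespace Pool.Agent.Helper39.KL

open ALC in
set_option linter.unusedVariables false in
/-- module ALC -/
theorem alcFacts (hR : RootFacts) : AlcFacts where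
  exists_k := ⟨kf, isAlcove_kf⟩
  unique_k := by
    intro k k' h h' w x hx
    obtain ⟨a, rfl⟩ := exists_root hx
    rw [eq_kk h, eq_kk h']
  same := by
    intro k h x hx
    obtain ⟨a, rfl⟩ := exists_root hx
    have e1 : x0 * wK * s 2 = (([2, 3, 1, 0, 2, 3, 1, 0] : List (Fin 5)).reverse.map s).prod := by
      simp [x0, wK, mul_assoc]
    have e2 : s 4 * (x0 * wK * s 2) =
        (([2, 3, 1, 0, 2, 3, 1, 0, 4] : List (Fin 5)).reverse.map s).prod := by
      simp [x0, wK, mul_assoc]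
    rw [e2, e1, word_root h, word_root h]
    revert a
    have : ∀ a : Fin 24, (kpl [2, 3, 1, 0, 2, 3, 1, 0] a).sign =
        (kpl [2, 3, 1, 0, 2, 3, 1, 0, 4] a).sign := by decide +kernel
    exact fun a _ => this a

end Pool.Agent.Helper39.KL
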