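import Pool.Agent.Helper39.KL.AutL

/-!
# The lattice bound on Gamma1 for the 3-dimensional module
-/

namespace Pool.Agent.Helper39.KL.AUT

open Deg

/-- row of the bound table -/
def drow (k : ℕ) : ℕ := Nat.land (Nat.shiftRight dT (20 * k)) 1048575

/-- check of the bounds; the functionals are `p_u, p_v, p_w, v p_u + p_v, v p_w + p_v`; the bound
belonging to the digit `d` is `2 - d` -/
def checkD : Bool :=
  allB 585 fun k => force (drow k) fun r => allB 5 fun i => force (tr k i) fun t =>
    Nat.ble 585 t || force (code t) (fun c' => !(Nat.beq (nf c') i)) ||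
      force (drow t) fun r' =>
        bif Nat.beq i 2 then
          Nat.ble (dig r' 0) (dig r 0 + 1) &&
          (Nat.ble (dig r' 1 + 1) (dig r 1) && Nat.ble (dig r' 1) (dig r 0) &&
            Nat.ble (dig r' 1) (dig r 2)) &&
          Nat.ble (dig r' 2) (dig r 2 + 1) &&
          (Nat.ble (dig r' 3 + 1) (dig r 1) && Nat.ble (dig r' 3) (dig r 2)) &&
          (Nat.ble (dig r' 4 + 1) (dig r 1) && Nat.ble (dig r' 4) (dig r 0))
        else bif Nat.beq i 4 then
          Nat.ble (dig r' 0) (dig r 0 + 1) && Nat.ble (dig r' 1) (dig r 1 + 1) &&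
          Nat.ble (dig r' 2) (dig r 4) && Nat.ble (dig r' 3) (dig r 3 + 1) &&
          (Nat.ble (dig r' 4 + 1) (dig r 4) && Nat.ble (dig r' 4) (dig r 1 + 1))
        else
          Nat.ble (dig r' 0) (dig r 3) && Nat.ble (dig r' 1) (dig r 1 + 1) &&
          Nat.ble (dig r' 2) (dig r 2 + 1) &&
          (Nat.ble (dig r' 3 + 1) (dig r 3) && Nat.ble (dig r' 3) (dig r 1 + 1)) &&
          Nat.ble (dig r' 4) (dig r 4 + 1)

theorem checkD_true : checkD = true := by decide +kernel

/-- final bounds -/
def finD : Bool := allB 585 fun k => force (drow k) fun r =>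
  Nat.ble 2 (dig r 0) && Nat.ble 2 (dig r 1) && Nat.ble 2 (dig r 2)

theorem finD_true : finD = true := by decide +kernel

theorem Dop_single (i : Fin 5) (k : Fin 3) : Dop i (Finsupp.single k 1) =
    if i = 2 then
      (if k = 1 then v • Finsupp.single 1 1
       else -(vi • Finsupp.single k 1) + Finsupp.single 1 1)
    else if i = 4 then
      (if k = 2 then v • Finsupp.single 2 1
       else if k = 1 then -(vi • Finsupp.single 1 1) + Finsupp.single 2 1
       else -(vi • Finsupp.single 0 1))
    else
      (if k = 0 then v • Finsupp.single 0 1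
       else if k = 1 then -(vi • Finsupp.single 1 1) + Finsupp.single 0 1
       else -(vi • Finsupp.single 2 1)) := by
  unfold Dop
  rw [Finsupp.linearCombination_single, one_smul]

theorem X3 (x : Fin 3 →₀ A) : x = x 0 • Finsupp.single 0 1 + x 1 • Finsupp.single 1 1
    + x 2 • Finsupp.single 2 1 := by
  ext k : 1
  fin_cases k <;> simp

theorem Dop2 (x : Fin 3 →₀ A) : Dop 2 x 0 = -(vi * x 0) ∧ Dop 2 x 1 = v * x 1 + x 0 + x 2 ∧
    Dop 2 x 2 = -(vi * x 2) := by
  rw [X3 x]
  simp only [map_add, map_smul, Dop_single]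
  simp
  refine ⟨by ring, by ring, by ring⟩

theorem Dop4 (x : Fin 3 →₀ A) : Dop 4 x 0 = -(vi * x 0) ∧ Dop 4 x 1 = -(vi * x 1) ∧
    Dop 4 x 2 = v * x 2 + x 1 := by
  rw [X3 x]
  simp only [map_add, map_smul, Dop_single]
  simp
  refine ⟨by ring, by ring, by ring⟩

theorem DopK (i : Fin 5) (h2 : i ≠ 2) (h4 : i ≠ 4) (x : Fin 3 →₀ A) :
    Dop i x 0 = v * x 0 + x 1 ∧ Dop i x 1 = -(vi * x 1) ∧ Dop i x 2 = -(vi * x 2) := by
  rw [X3 x]
  simp only [map_add, map_smul, Dop_single]
  simp [h2, h4]
  refine ⟨by ring, by ring, by ring⟩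

/-- the bound property -/
def BPD (V : BMod (Fin 3)) (k : ℕ) (y : W) : Prop :=
  DL (2 - (dig (drow k) 0 : ℤ)) (V.T y eD 0) ∧ DL (2 - (dig (drow k) 1 : ℤ)) (V.T y eD 1) ∧
  DL (2 - (dig (drow k) 2 : ℤ)) (V.T y eD 2) ∧
  DL (2 - (dig (drow k) 3 : ℤ)) (v * V.T y eD 0 + V.T y eD 1) ∧
  DL (2 - (dig (drow k) 4 : ℤ)) (v * V.T y eD 2 + V.T y eD 1)

theorem startD : dig (drow 0) 0 ≤ 2 ∧ dig (drow 0) 3 ≤ 1 := by decide +kernel

theorem bpd_all (hR : RootFacts) (hT : TFacts) (c1 : Comb1Facts) (V : BMod (Fin 3))
    (hV : V.t = Dop) : ∀ y, G1 y → DLv 0 (V.T y eD) := by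
  intro y hG
  obtain ⟨k, hk, hP⟩ := automaton hR c1 (BPD V) (by
      obtain ⟨h0, h3⟩ := startD
      unfold BPD
      rw [hT.T_one]
      unfold eD
      simp only [Finsupp.single_eq_same, ne_eq, Fin.reduceEq, not_false_eq_true, one_ne_zero,
        Finsupp.single_eq_of_ne, mul_one, mul_zero, add_zero]
      refine ⟨DL_mono DL_one (by omega), DL_zero _, DL_zero _, ?_, DL_zero _⟩
      exact DL_mono (DL_T 1) (by omega)) (by
      intro k hk i ht hn y hy hP
      obtain ⟨b0, b1, b2, b3, b4⟩ := hP
      have h1 := allB_spec checkD_true k hk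
      rw [force_eq] at h1
      have h2 := allB_spec h1 i.val i.isLt
      rw [force_eq, force_eq, force_eq] at h2
      have e1 : Nat.ble 585 (tr k i) = false := by
        rw [Bool.eq_false_iff]; intro h7; have := Nat.le_of_ble_eq_true h7; omega
      have e2 : Nat.beq (nf (code (tr k i))) i = true := by rw [hn]; exact Nat.beq_refl _
      rw [e1, e2] at h2
      simp only [Bool.not_true, Bool.or_self, Bool.false_or] at h2
      unfold BPD
      rw [T_s_mul hT V hy, hV]
      generalize V.T y eD = x at *
      generalize dig (drow (tr k i)) 0 = r0 at *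
      generalize dig (drow (tr k i)) 1 = r1 at *
      generalize dig (drow (tr k i)) 2 = r2 at *
      generalize dig (drow (tr k i)) 3 = r3 at *
      generalize dig (drow (tr k i)) 4 = r4 at *
      generalize dig (drow k) 0 = q0 at *
      generalize dig (drow k) 1 = q1 at *
      generalize dig (drow k) 2 = q2 at *
      generalize dig (drow k) 3 = q3 at *
      generalize dig (drow k) 4 = q4 at *
      have hvv : v * vi = 1 := v_mul_vi
      by_cases hi2 : i = 2
      · subst hi2
        have c : Nat.beq ((2 : Fin 5) : ℕ) 2 = true := rfl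
        rw [c] at h2
        simp only [cond_true, Bool.and_eq_true, Nat.ble_eq] at h2
        obtain ⟨d0, d1, d2⟩ := Dop2 x
        rw [d0, d1, d2]
        refine ⟨DL_mono (DL_neg (DL_vi_mul b0)) (by omega), ?_,
          DL_mono (DL_neg (DL_vi_mul b2)) (by omega), ?_, ?_⟩
        · exact DL_add (DL_add (DL_mono (DL_v_mul b1) (by omega)) (DL_mono b0 (by omega)))
            (DL_mono b2 (by omega))
        · have : v * -(vi * x 0) + (v * x 1 + x 0 + x 2) = v * x 1 + x 2 := by
            linear_combination -(x 0) * hvv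
          rw [this]
          exact DL_add (DL_mono (DL_v_mul b1) (by omega)) (DL_mono b2 (by omega))
        · have : v * -(vi * x 2) + (v * x 1 + x 0 + x 2) = v * x 1 + x 0 := by
            linear_combination -(x 2) * hvv
          rw [this]
          exact DL_add (DL_mono (DL_v_mul b1) (by omega)) (DL_mono b0 (by omega))
      · have c2 : Nat.beq i 2 = false := by
          rw [Bool.eq_false_iff]; intro h7; have := Nat.eq_of_beq_eq_true h7
          exact hi2 (Fin.ext this)
        rw [c2] at h2
        by_cases hi4 : i = 4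
        · subst hi4
          have c : Nat.beq ((4 : Fin 5) : ℕ) 4 = true := rfl
          rw [c] at h2
          simp only [cond_true, cond_false, Bool.and_eq_true, Nat.ble_eq] at h2
          obtain ⟨d0, d1, d2⟩ := Dop4 x
          rw [d0, d1, d2]
          refine ⟨DL_mono (DL_neg (DL_vi_mul b0)) (by omega),
            DL_mono (DL_neg (DL_vi_mul b1)) (by omega), DL_mono b4 (by omega), ?_, ?_⟩
          · have : v * -(vi * x 0) + -(vi * x 1) = -(vi * (v * x 0 + x 1)) := by ring
            rw [this]
            exact DL_mono (DL_neg (DL_vi_mul b3)) (by omega)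
          · exact DL_add (DL_mono (DL_v_mul b4) (by omega))
              (DL_mono (DL_neg (DL_vi_mul b1)) (by omega))
        · have c4 : Nat.beq i 4 = false := by
            rw [Bool.eq_false_iff]; intro h7; have := Nat.eq_of_beq_eq_true h7
            exact hi4 (Fin.ext this)
          rw [c4] at h2
          simp only [cond_false, Bool.and_eq_true, Nat.ble_eq] at h2
          obtain ⟨d0, d1, d2⟩ := DopK i hi2 hi4 x
          rw [d0, d1, d2]
          refine ⟨DL_mono b3 (by omega), DL_mono (DL_neg (DL_vi_mul b1)) (by omega),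
            DL_mono (DL_neg (DL_vi_mul b2)) (by omega), ?_, ?_⟩
          · exact DL_add (DL_mono (DL_v_mul b3) (by omega))
              (DL_mono (DL_neg (DL_vi_mul b1)) (by omega))
          · have : v * -(vi * x 2) + -(vi * x 1) = -(vi * (v * x 2 + x 1)) := by ring
            rw [this]
            exact DL_mono (DL_neg (DL_vi_mul b4)) (by omega)) y hG
  obtain ⟨b0, b1, b2, -, -⟩ := hP
  have h1 := allB_spec finD_true k hk
  rw [force_eq] at h1
  simp only [Bool.and_eq_true, Nat.ble_eq] at h1
  intro g
  fin_cases g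
  · exact DL_mono b0 (by omega)
  · exact DL_mono b1 (by omega)
  · exact DL_mono b2 (by omega)

end Pool.Agent.Helper39.KL.AUT

namespace Pool.Agent.Helper39.KL

theorem autDelta (hR : RootFacts) (hT : TFacts) (c1 : Comb1Facts) : AutDeltaStmt :=
  fun V hV => AUT.bpd_all hR hT c1 V hV

end Pool.Agent.Helper39.KL
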