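import Pool.Agent.Helper39.KL.Spec

/-!
# Auxiliary lemmas: degrees of Laurent polynomials, coefficients of `Vop` and `L`
-/

namespace Pool.Agent.Helper39.KL

open Finset

namespace Deg

theorem coeff_T_mul (n m : ℤ) (p : A) : (LaurentPolynomial.T n * p).coeff m = p.coeff (m - n) := by
  have h := AddMonoidAlgebra.coeff_single_mul_add p (1 : ℤ) n (m - n)
  rw [one_mul, add_sub_cancel] at h
  exact h

theorem coeff_v_mul (m : ℤ) (p : A) : (v * p).coeff m = p.coeff (m - 1) := coeff_T_mul 1 m p

theorem coeff_vi_mul (m : ℤ) (p : A) : (vi * p).coeff m = p.coeff (m + 1) := by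
  have := coeff_T_mul (-1) m p
  rw [sub_neg_eq_add] at this
  exact this

theorem v_mul_vi : v * vi = 1 := by
  unfold v vi
  rw [← LaurentPolynomial.T_add]
  rfl

theorem vi_mul_v : vi * v = 1 := by rw [mul_comm, v_mul_vi]

theorem DL_zero (n : ℤ) : DL n 0 := fun _ _ => rfl

theorem DL_mono {n m : ℤ} {p : A} (h : DL n p) (hnm : n ≤ m) : DL m p :=
  fun k hk => h k (lt_of_le_of_lt hnm hk)

theorem DL_add {n : ℤ} {p q : A} (hp : DL n p) (hq : DL n q) : DL n (p + q) := by
  intro k hk
  rw [AddMonoidAlgebra.coeff_add, Finsupp.add_apply, hp k hk, hq k hk, add_zero]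

theorem DL_neg {n : ℤ} {p : A} (hp : DL n p) : DL n (-p) := by
  intro k hk
  rw [AddMonoidAlgebra.coeff_neg, Finsupp.neg_apply, hp k hk, neg_zero]

theorem DL_sub {n : ℤ} {p q : A} (hp : DL n p) (hq : DL n q) : DL n (p - q) := by
  rw [sub_eq_add_neg]; exact DL_add hp (DL_neg hq)

theorem DL_sum {ι : Type*} {n : ℤ} (S : Finset ι) (f : ι → A) (h : ∀ i ∈ S, DL n (f i)) :
    DL n (∑ i ∈ S, f i) := by
  classical
  induction S using Finset.induction_on with
  | empty => simpa using DL_zero n
  | insert a S ha ih =>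
    rw [Finset.sum_insert ha]
    exact DL_add (h a (by simp)) (ih fun i hi => h i (by simp [hi]))

theorem DL_T (n : ℤ) : DL n (LaurentPolynomial.T n : A) := by
  intro k hk
  rw [LaurentPolynomial.T_apply, if_neg (by omega)]

theorem DL_one : DL 0 (1 : A) := DL_T 0

theorem DL_T_mul {n m : ℤ} {p : A} (hp : DL n p) : DL (m + n) (LaurentPolynomial.T m * p) := by
  intro k hk
  rw [coeff_T_mul]
  exact hp _ (by omega)

theorem DL_v_mul {n : ℤ} {p : A} (hp : DL n p) : DL (n + 1) (v * p) := by
  intro k hk
  rw [coeff_v_mul]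
  exact hp _ (by omega)

theorem DL_vi_mul {n : ℤ} {p : A} (hp : DL n p) : DL (n - 1) (vi * p) := by
  intro k hk
  rw [coeff_vi_mul]
  exact hp _ (by omega)

theorem DL_vvi_mul {n : ℤ} {p : A} (hp : DL n p) : DL (n + 1) ((v - vi) * p) := by
  rw [sub_mul]
  exact DL_sub (DL_v_mul hp) (DL_mono (DL_vi_mul hp) (by omega))

theorem DL_mul {n m : ℤ} {p q : A} (hp : DL n p) (hq : DL m q) : DL (n + m) (p * q) := by
  intro k hk
  rw [AddMonoidAlgebra.coeff_mul_apply_left]
  apply Finset.sum_eq_zero
  intro h _
  change p.coeff h * q.coeff (-h + k) = 0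
  by_cases hh : n < h
  · rw [hp h hh, zero_mul]
  · rw [hq _ (by omega), mul_zero]

theorem DL_C (c : ℤ) : DL 0 (c : A) := by
  intro k hk
  have h : (c : A) = LaurentPolynomial.C c := by simp
  rw [h, LaurentPolynomial.C_apply, if_neg (by omega)]

theorem DL_vi_pow (n : ℕ) : DL (-n) (vi ^ n) := by
  unfold vi
  rw [LaurentPolynomial.T_pow]
  have := DL_T ((n : ℤ) * -1)
  exact DL_mono this (by omega)

theorem DLv_add {X : Type*} {n : ℤ} {x y : X →₀ A} (hx : DLv n x) (hy : DLv n y) :
    DLv n (x + y) := fun g => by rw [Finsupp.add_apply]; exact DL_add (hx g) (hy g)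

theorem DLv_neg {X : Type*} {n : ℤ} {x : X →₀ A} (hx : DLv n x) : DLv n (-x) := fun g => by
  rw [Finsupp.neg_apply]; exact DL_neg (hx g)

theorem DLv_sub {X : Type*} {n : ℤ} {x y : X →₀ A} (hx : DLv n x) (hy : DLv n y) :
    DLv n (x - y) := fun g => by rw [Finsupp.sub_apply]; exact DL_sub (hx g) (hy g)

theorem DLv_zero {X : Type*} (n : ℤ) : DLv n (0 : X →₀ A) := fun _ => DL_zero n

theorem DLv_mono {X : Type*} {n m : ℤ} {x : X →₀ A} (h : DLv n x) (hnm : n ≤ m) : DLv m x :=
  fun g => DL_mono (h g) hnm

theorem DLv_smul {X : Type*} {n m : ℤ} {a : A} {x : X →₀ A} (ha : DL m a) (h : DLv n x) :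
    DLv (m + n) (a • x) := fun g => by
  rw [Finsupp.smul_apply, smul_eq_mul]; exact DL_mul ha (h g)

theorem s_mul_s (i : Fin 5) : s i * s i = 1 := cs.simple_mul_simple_self i

theorem s_s_mul (i : Fin 5) (g : W) : s i * (s i * g) = g := by
  rw [← mul_assoc, s_mul_s, one_mul]

theorem s_inv (i : Fin 5) : (s i)⁻¹ = s i := cs.inv_simple i

theorem s_mul_ne (i : Fin 5) (g : W) : s i * g ≠ g := by
  intro h
  have := cs.length_simple_mul_ne g i
  exact this (by change cs.length (s i * g) = _; rw [h])

theorem refl_al' : ∀ i k : Fin 5, refl i (al k) = al k - cart i k • al i := by decide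

theorem lv_s_mul (hR : RootFacts) (lam : Q →ₗ[ℤ] ℤ) (i k : Fin 5) (g : W) :
    lv lam (s i * g) k = lv lam g k - cart i k * lv lam g i := by
  unfold lv
  rw [mul_inv_rev, map_mul, s_inv]
  change lam (act g⁻¹ (act (s i) (al k))) = _
  rw [hR.act_s, refl_al', map_sub, map_smul, map_sub, map_smul, smul_eq_mul]

theorem lv_one (lam : Q →ₗ[ℤ] ℤ) (k : Fin 5) : lv lam 1 k = lam (al k) := by
  unfold lv; simp

theorem cart_self (i : Fin 5) : cart i i = 2 := by simp [cart]

theorem lv_s_mul_self (hR : RootFacts) (lam : Q →ₗ[ℤ] ℤ) (i : Fin 5) (g : W) :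
    lv lam (s i * g) i = - lv lam g i := by
  rw [lv_s_mul hR, cart_self]; ring

theorem Vop_Tb (lam : Q →ₗ[ℤ] ℤ) (i : Fin 5) (g : W) : Vop lam i (Tb g) =
    if lv lam g i = 0 then -(vi • Tb g)
    else if lv lam g i < 0 then Tb (s i * g)
    else Tb (s i * g) + (v - vi) • Tb g := by
  unfold Vop
  rw [Tb, Finsupp.linearCombination_single, one_smul]
  rfl

theorem L_Tb (i : Fin 5) (w : W) : L i (Tb w) =
    if len w < len (s i * w) then Tb (s i * w) else Tb (s i * w) + (v - vi) • Tb w := by
  unfold L
  rw [Tb, Finsupp.linearCombination_single, one_smul]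
  rfl

theorem Tb_apply (w g : W) [Decidable (w = g)] : Tb w g = if w = g then 1 else 0 := by
  unfold Tb; rw [Finsupp.single_apply]

theorem s_mul_eq_iff (i : Fin 5) (w g : W) : s i * w = g ↔ w = s i * g := by
  constructor
  · intro h; rw [← h, s_s_mul]
  · intro h; rw [h, s_s_mul]

/-- induction principle: additive and homogeneous properties need only be checked on `Tb w` -/
theorem H_ind {p : H → Prop} (h0 : p 0) (hadd : ∀ x y, p x → p y → p (x + y))
    (hs : ∀ (a : A) w, p (a • Tb w)) : ∀ x, p x := by
  intro x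
  induction x using Finsupp.induction_linear with
  | zero => exact h0
  | add f g hf hg => exact hadd _ _ hf hg
  | single w a =>
    have : Finsupp.single w a = a • Tb w := by
      unfold Tb; rw [Finsupp.smul_single, smul_eq_mul, mul_one]
    rw [this]
    exact hs a w

open Classical in
/-- coefficients of `Vop lam i x` -/
theorem Vop_apply (hR : RootFacts) (lam : Q →ₗ[ℤ] ℤ) (i : Fin 5) (x : H) (g : W) :
    Vop lam i x g = if lv lam g i = 0 then -(vi * x g)
      else if lv lam g i < 0 then x (s i * g) else x (s i * g) + (v - vi) * x g := by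
  revert x
  apply H_ind
  · simp
  · intro x y hx hy
    rw [map_add, Finsupp.add_apply, hx, hy]
    simp only [Finsupp.add_apply]
    split_ifs <;> ring
  · intro a w
    rw [map_smul, Finsupp.smul_apply, Vop_Tb]
    simp only [Finsupp.smul_apply, smul_eq_mul]
    by_cases h1 : w = g
    · subst h1
      have e : Tb w (s i * w) = 0 := by
        rw [Tb_apply, if_neg (fun h => s_mul_ne i w h.symm)]
      have e2 : Tb (s i * w) w = 0 := by
        rw [Tb_apply, if_neg (s_mul_ne i w)]
      have e3 : Tb w w = 1 := by rw [Tb_apply, if_pos rfl]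
      split_ifs <;>
        simp only [Finsupp.neg_apply, Finsupp.add_apply, Finsupp.smul_apply, smul_eq_mul, e, e2,
          e3] <;> ring
    · by_cases h2 : w = s i * g
      · subst h2
        have e : Tb (s i * g) (s i * g) = 1 := by rw [Tb_apply, if_pos rfl]
        have e2 : Tb (s i * (s i * g)) g = 1 := by rw [s_s_mul, Tb_apply, if_pos rfl]
        have e3 : Tb (s i * g) g = 0 := by rw [Tb_apply, if_neg (s_mul_ne i g)]
        rw [lv_s_mul_self hR]
        by_cases h0 : lv lam g i = 0
        · rw [if_pos (by omega), if_pos h0]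
          simp only [Finsupp.neg_apply, Finsupp.smul_apply, smul_eq_mul, e3]
          ring
        · rw [if_neg (by omega), if_neg h0]
          by_cases h3 : lv lam g i < 0
          · rw [if_neg (by omega), if_pos h3]
            simp only [Finsupp.add_apply, Finsupp.smul_apply, smul_eq_mul, e, e2, e3]
            ring
          · rw [if_pos (by omega), if_neg h3]
            simp only [e, e2, e3]
            ring
      · have e : Tb w (s i * g) = 0 := by rw [Tb_apply, if_neg h2]
        have e2 : Tb (s i * w) g = 0 := by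
          rw [Tb_apply, if_neg (fun h => h2 ((s_mul_eq_iff i w g).mp h))]
        have e3 : Tb w g = 0 := by rw [Tb_apply, if_neg h1]
        split_ifs <;>
          simp only [Finsupp.neg_apply, Finsupp.add_apply, Finsupp.smul_apply, smul_eq_mul, e, e2,
            e3] <;> ring

open Classical in
/-- coefficients of `L i x` -/
theorem L_apply (i : Fin 5) (x : H) (g : W) :
    L i x g = if len g < len (s i * g) then x (s i * g) else x (s i * g) + (v - vi) * x g := by
  revert x
  apply H_ind
  · simp
  · intro x y hx hy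
    rw [map_add, Finsupp.add_apply, hx, hy]
    simp only [Finsupp.add_apply]
    split_ifs <;> ring
  · intro a w
    rw [map_smul, Finsupp.smul_apply, L_Tb]
    simp only [Finsupp.smul_apply, smul_eq_mul]
    by_cases h1 : w = g
    · subst h1
      have e : Tb w (s i * w) = 0 := by
        rw [Tb_apply, if_neg (fun h => s_mul_ne i w h.symm)]
      have e2 : Tb (s i * w) w = 0 := by
        rw [Tb_apply, if_neg (s_mul_ne i w)]
      have e3 : Tb w w = 1 := by rw [Tb_apply, if_pos rfl]
      split_ifs <;>
        simp only [Finsupp.add_apply, Finsupp.smul_apply, smul_eq_mul, e, e2,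
          e3] <;> ring
    · by_cases h2 : w = s i * g
      · subst h2
        have e : Tb (s i * g) (s i * g) = 1 := by rw [Tb_apply, if_pos rfl]
        have e2 : Tb (s i * (s i * g)) g = 1 := by rw [s_s_mul, Tb_apply, if_pos rfl]
        have e3 : Tb (s i * g) g = 0 := by rw [Tb_apply, if_neg (s_mul_ne i g)]
        have hne : len (s i * g) ≠ len g := cs.length_simple_mul_ne g i
        rw [s_s_mul]
        by_cases h3 : len g < len (s i * g)
        · rw [if_neg (by omega), if_pos h3]
          rw [s_s_mul] at e2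
          simp only [Finsupp.add_apply, Finsupp.smul_apply, smul_eq_mul, e, e2, e3]
          ring
        · rw [if_pos (by omega), if_neg h3]
          rw [s_s_mul] at e2
          simp only [e, e2, e3]
          ring
      · have e : Tb w (s i * g) = 0 := by rw [Tb_apply, if_neg h2]
        have e2 : Tb (s i * w) g = 0 := by
          rw [Tb_apply, if_neg (fun h => h2 ((s_mul_eq_iff i w g).mp h))]
        have e3 : Tb w g = 0 := by rw [Tb_apply, if_neg h1]
        split_ifs <;>
          simp only [Finsupp.add_apply, Finsupp.smul_apply, smul_eq_mul, e, e2,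
            e3] <;> ring

end Deg

end Pool.Agent.Helper39.KL
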