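import Pool.Agent.Helper39.KL.Auto
import Pool.Agent.Helper39.KL.AutoBounds
import Pool.Agent.Helper39.KL.Deg

/-!
# The lattice bound on Gamma1 for the modules `V_lam j`
-/

namespace Pool.Agent.Helper39.KL.AUT

open Deg

/-- row of a bound table -/
def row (T k : ℕ) : ℕ :=
  Nat.land (Nat.shiftRight T (128 * k)) 340282366920938463463374607431768211455

/-- neighbour in the orbit -/
def nb (N t i : ℕ) : ℕ := Nat.land (Nat.shiftRight N (8 * (5 * t + i))) 255

/-- sign table -/
def sg (S t i : ℕ) : ℕ := Nat.land (Nat.shiftRight S (2 * (5 * t + i))) 3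

/-- check of the bounds -/
def checkL (T N S : ℕ) : Bool :=
  allB 585 fun k => force (row T k) fun r => allB 5 fun i => force (tr k i) fun t =>
    Nat.ble 585 t || force (code t) (fun c' => !(Nat.beq (nf c') i)) ||
      force (row T t) fun r' => allB 32 fun a =>
        force (sg S a i) fun g => force (dig r' a) fun d' =>
          bif Nat.beq g 1 then Nat.ble d' (dig r a + 1)
          else bif Nat.beq g 0 then Nat.ble d' (dig r (nb N a i))
          else Nat.ble d' (dig r (nb N a i)) && Nat.ble (d' + 1) (dig r a)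

theorem checkL_spec {T N S : ℕ} (h : checkL T N S = true) {k : ℕ} (hk : k < 585) (i : Fin 5)
    (ht : tr k i < 585) (hn : nf (code (tr k i)) = i) (a : ℕ) (ha : a < 32) :
    (sg S a i = 1 → dig (row T (tr k i)) a ≤ dig (row T k) a + 1) ∧
    (sg S a i = 0 → dig (row T (tr k i)) a ≤ dig (row T k) (nb N a i)) ∧
    (sg S a i = 2 → dig (row T (tr k i)) a ≤ dig (row T k) (nb N a i) ∧
      dig (row T (tr k i)) a + 1 ≤ dig (row T k) a) := by
  have h1 := allB_spec h k hk
  rw [force_eq] at h1
  have h2 := allB_spec h1 i.val i.isLt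
  rw [force_eq, force_eq, force_eq] at h2
  have e1 : Nat.ble 585 (tr k i) = false := by
    rw [Bool.eq_false_iff]; intro h7; have := Nat.le_of_ble_eq_true h7; omega
  have e2 : Nat.beq (nf (code (tr k i))) i = true := by rw [hn]; exact Nat.beq_refl _
  rw [e1, e2] at h2
  simp only [Bool.not_true, Bool.or_self, Bool.false_or] at h2
  have h3 := allB_spec h2 a ha
  rw [force_eq, force_eq] at h3
  refine ⟨fun hs => ?_, fun hs => ?_, fun hs => ?_⟩
  · rw [hs] at h3
    have b : Nat.beq 1 1 = true := rfl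
    rw [b] at h3
    exact Nat.le_of_ble_eq_true h3
  · rw [hs] at h3
    have b : Nat.beq 0 1 = false := rfl
    have b' : Nat.beq 0 0 = true := rfl
    rw [b, b'] at h3
    exact Nat.le_of_ble_eq_true h3
  · rw [hs] at h3
    have b : Nat.beq 2 1 = false := rfl
    have b' : Nat.beq 2 0 = false := rfl
    rw [b, b'] at h3
    simp only [cond_false, Bool.and_eq_true] at h3
    exact ⟨Nat.le_of_ble_eq_true h3.1, Nat.le_of_ble_eq_true h3.2⟩

theorem check0 : checkL bT0 nT0 sT0 = true := by decide +kernel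
theorem check1 : checkL bT1 nT1 sT1 = true := by decide +kernel
theorem check3 : checkL bT3 nT3 sT3 = true := by decide +kernel

/-- data of an orbit -/
structure OrbOK (j : Fin 5) (O : List (Fin 5 → ℤ)) (N S : ℕ) : Prop where
  start : ∀ k, O.getD 0 0 k = lam j (al k)
  step : ∀ a, a < 32 → ∀ i : Fin 5, nb N a i < 32 ∧
    ∀ k : Fin 5, O.getD (nb N a i) 0 k = O.getD a 0 k - cart i k * O.getD a 0 i
  sgn : ∀ a, a < 32 → ∀ i : Fin 5, (O.getD a 0 i < 0 ∧ sg S a i = 0) ∨
    (O.getD a 0 i = 0 ∧ sg S a i = 1) ∨ (0 < O.getD a 0 i ∧ sg S a i = 2)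

theorem orb0 : OrbOK 0 oT0 nT0 sT0 := by
  refine ⟨by decide +kernel, by decide +kernel, by decide +kernel⟩

theorem orb1 : OrbOK 1 oT1 nT1 sT1 := by
  refine ⟨by decide +kernel, by decide +kernel, by decide +kernel⟩

theorem orb3 : OrbOK 3 oT3 nT3 sT3 := by
  refine ⟨by decide +kernel, by decide +kernel, by decide +kernel⟩

/-- values of `lam j` along a word -/
def lvL (j : Fin 5) : List (Fin 5) → Fin 5 → ℤ
  | [], k => lam j (al k)
  | i :: l, k => lvL j l k - cart i k * lvL j l i

theorem lvL_spec (hR : RootFacts) (j : Fin 5) : ∀ (l : List (Fin 5)) (k : Fin 5),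
    lv (lam j) (l.map s).prod k = lvL j l k
  | [], k => by simp [lvL, lv_one]
  | i :: l, k => by
      rw [List.map_cons, List.prod_cons, lv_s_mul hR, lvL_spec hR j l, lvL_spec hR j l]
      rfl

/-- the start condition of the bounds for a subword `l` of `s_0 s_1 s_3` -/
def StartOK (j : Fin 5) (O : List (Fin 5 → ℤ)) (T : ℕ) (l : List (Fin 5)) : Prop :=
  ∀ a, a < 32 → (∀ k, lvL j l k = O.getD a 0 k) → dig (row T 0) a ≤ l.length

/-- the eight subwords -/
def subw : List (List (Fin 5)) := [[], [0], [1], [3], [0, 1], [0, 3], [1, 3], [0, 1, 3]]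

theorem start0 : ∀ l ∈ subw, StartOK 0 oT0 bT0 l := by unfold StartOK; decide +kernel
theorem start1 : ∀ l ∈ subw, StartOK 1 oT1 bT1 l := by unfold StartOK; decide +kernel
theorem start3 : ∀ l ∈ subw, StartOK 3 oT3 bT3 l := by unfold StartOK; decide +kernel

theorem exists_type (hR : RootFacts) {j : Fin 5} {O : List (Fin 5 → ℤ)} {N S : ℕ}
    (h : OrbOK j O N S) (g : W) : ∃ a, a < 32 ∧ ∀ k, lv (lam j) g k = O.getD a 0 k := by
  refine cs.simple_induction_left (p := fun g => ∃ a, a < 32 ∧ ∀ k, lv (lam j) g k = O.getD a 0 k)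
    g ⟨0, by omega, fun k => ?_⟩ ?_
  · rw [lv_one, h.start]
  · rintro w i ⟨a, ha, hk⟩
    obtain ⟨h1, h2⟩ := h.step a ha i
    refine ⟨nb N a i, h1, fun k => ?_⟩
    change lv (lam j) (s i * w) k = _
    rw [lv_s_mul hR, hk, hk, h2]

/-- the bound property -/
def BP (j : Fin 5) (O : List (Fin 5 → ℤ)) (T : ℕ) (V : BMod W) (k : ℕ) (y : W) : Prop :=
  ∀ g a, a < 32 → (∀ k, lv (lam j) g k = O.getD a 0 k) →
    DL (-(dig (row T k) a : ℤ)) (V.T y eV g)

theorem eV_list : eV = (subw.map fun l => vi ^ l.length • Tb ((l.map s).prod)).sum := by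
  unfold eV subw
  simp only [List.map_cons, List.map_nil, List.prod_cons, List.prod_nil, List.sum_cons,
    List.sum_nil, List.length_cons, List.length_nil, mul_one, pow_zero, one_smul,
    zero_add, pow_one, Nat.reduceAdd, mul_assoc]
  module

theorem bp_start (hR : RootFacts) {j : Fin 5} {O : List (Fin 5 → ℤ)} {T : ℕ}
    (h : ∀ l ∈ subw, StartOK j O T l) (g : W) (a : ℕ) (ha : a < 32)
    (hg : ∀ k, lv (lam j) g k = O.getD a 0 k) : DL (-(dig (row T 0) a : ℤ)) (eV g) := by
  classical
  rw [eV_list]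
  have key : ∀ L : List (List (Fin 5)), (∀ l ∈ L, StartOK j O T l) →
      DL (-(dig (row T 0) a : ℤ)) ((L.map fun l => vi ^ l.length • Tb ((l.map s).prod)).sum g) := by
    intro L
    induction L with
    | nil => intro _; simpa using DL_zero _
    | cons l L ih =>
      intro hL
      rw [List.map_cons, List.sum_cons, Finsupp.add_apply]
      refine DL_add ?_ (ih fun l' hl' => hL l' (by simp [hl']))
      rw [Finsupp.smul_apply, smul_eq_mul, Tb_apply]
      by_cases e : (l.map s).prod = g
      · rw [if_pos e, mul_one]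
        have h1 := hL l (by simp) a ha (fun k => by rw [← hg, ← e, lvL_spec hR])
        exact DL_mono (DL_vi_pow _) (by omega)
      · rw [if_neg e, mul_zero]; exact DL_zero _
  exact key subw h

theorem len_s_mul {i : Fin 5} {y : W} (h : len y < len (s i * y)) :
    len (s i * y) = len (s i) + len y := by
  have h1 : len (s i) = 1 := cs.length_simple i
  rcases cs.length_simple_mul y i with h2 | h2
  · change len (s i * y) = len y + 1 at h2
    omega
  · change len (s i * y) + 1 = len y at h2
    omega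

theorem T_s_mul (hT : TFacts) {X : Type} (V : BMod X) {i : Fin 5} {y : W}
    (h : len y < len (s i * y)) (x : X →₀ A) : V.T (s i * y) x = V.t i (V.T y x) := by
  rw [hT.T_mul V (s i) y x (len_s_mul h), hT.T_s]

theorem bp_all (hR : RootFacts) (hT : TFacts) (c1 : Comb1Facts) {j : Fin 5}
    {O : List (Fin 5 → ℤ)} {T N S : ℕ} (ho : OrbOK j O N S) (hc : checkL T N S = true)
    (hs : ∀ l ∈ subw, StartOK j O T l) (V : BMod W) (hV : V.t = Vop (lam j)) :
    ∀ y, G1 y → DLv 0 (V.T y eV) := by
  classical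
  intro y hG
  obtain ⟨k, _, hP⟩ := automaton hR c1 (BP j O T V) (by
      intro g a ha hg
      rw [hT.T_one]
      exact bp_start hR hs g a ha hg) (by
      intro k hk i ht hn y hy hP g a ha hg
      obtain ⟨c0, c1', c2⟩ := checkL_spec hc hk i ht hn a ha
      obtain ⟨hb, hb'⟩ := ho.step a ha i
      have hnb : DL (-(dig (row T k) (nb N a i) : ℤ)) (V.T y eV (s i * g)) := by
        apply hP _ _ hb
        intro k'
        rw [lv_s_mul hR, hg, hg, hb']
      have hself := hP g a ha hg
      rw [T_s_mul hT V hy, hV, Vop_apply hR]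
      have hgi := hg i
      rcases ho.sgn a ha i with ⟨e1, e2⟩ | ⟨e1, e2⟩ | ⟨e1, e2⟩
      · rw [← hgi] at e1
        rw [if_neg (by omega), if_pos e1]
        have := c1' e2
        exact DL_mono hnb (by omega)
      · rw [← hgi] at e1
        rw [if_pos e1]
        have := c0 e2
        exact DL_mono (DL_neg (DL_vi_mul hself)) (by omega)
      · rw [← hgi] at e1
        rw [if_neg (by omega), if_neg (by omega)]
        have := c2 e2
        exact DL_add (DL_mono hnb (by omega)) (DL_mono (DL_vvi_mul hself) (by omega))) y hG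
  intro g
  obtain ⟨a, ha, hg⟩ := exists_type hR ho g
  exact DL_mono (hP g a ha hg) (by omega)

end Pool.Agent.Helper39.KL.AUT

namespace Pool.Agent.Helper39.KL

theorem autLam (hR : RootFacts) (hT : TFacts) (c1 : Comb1Facts) : AutLamStmt := by
  intro j hj V hV
  simp only [Finset.mem_insert, Finset.mem_singleton] at hj
  rcases hj with rfl | rfl | rfl
  · exact AUT.bp_all hR hT c1 AUT.orb0 AUT.check0 AUT.start0 V hV
  · exact AUT.bp_all hR hT c1 AUT.orb1 AUT.check1 AUT.start1 V hV
  · exact AUT.bp_all hR hT c1 AUT.orb3 AUT.check3 AUT.start3 V hV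

end Pool.Agent.Helper39.KL
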