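import Pool.Agent.Helper39.KL.AutoData

/-!
# The automaton of Gamma1
-/

namespace Pool.Agent.Helper39.KL.AUT

/-- all values below `n` -/
def allB : ℕ → (ℕ → Bool) → Bool
  | 0, _ => true
  | n + 1, f => f n && allB n f

theorem allB_spec : ∀ {n : ℕ} {f : ℕ → Bool}, allB n f = true → ∀ k, k < n → f k = true
  | 0, _, _, k, hk => absurd hk (Nat.not_lt_zero _)
  | n + 1, f, h, k, hk => by
      simp only [allB, Bool.and_eq_true] at h
      rcases Nat.lt_succ_iff_lt_or_eq.mp hk with h' | h'
      · exact allB_spec h.2 k h'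
      · exact h' ▸ h.1

/-- evaluate the first argument first -/
def force {α : Type} (n : ℕ) (f : ℕ → α) : α :=
  match n with
  | 0 => f 0
  | m + 1 => f (m + 1)

theorem force_eq {α : Type} (n : ℕ) (f : ℕ → α) : force n f = f n := by
  cases n <;> rfl

/-- code of the state `k` -/
def code (k : ℕ) : ℕ :=
  Nat.land (Nat.shiftRight codesT (112 * k)) 5192296858534827628530496329220095

/-- digit -/
def dig (c i : ℕ) : ℕ := Nat.land (Nat.shiftRight c (4 * i)) 15

/-- transition -/
def tr (k s : ℕ) : ℕ := Nat.land (Nat.shiftRight trT (10 * (5 * k + s))) 1023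

/-- action on elementary roots -/
def tab (s i : ℕ) : ℕ := Nat.land (Nat.shiftRight tabT (8 * (24 * s + i))) 255

/-- elementary roots -/
def E (i : ℕ) : Q := Edata.getD i 0

/-- special roots -/
def rho (i : ℕ) : Q := rhoData.getD i 0

/-- exit transitions -/
def exitB (c s : ℕ) : Bool :=
  force (dig c s) fun l =>
    Nat.beq l 0 || (Nat.ble 2 l && (Nat.ble l 8 ||
      ((Nat.beq l 9 || Nat.beq (dig c 24) 1) && (Nat.beq l 10 || Nat.beq (dig c 25) 1) &&
       (Nat.beq l 11 || Nat.beq (dig c 26) 1) && (Nat.beq l 12 || Nat.beq (dig c 27) 1))))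

/-- new digit -/
def newd (c s i : ℕ) : ℕ :=
  force (tab s i) fun t => bif Nat.beq t 24 then 1 else bif Nat.beq t 25 then 0 else dig c t

/-- the transition table is consistent with the codes -/
def checkTr : Bool :=
  allB 585 fun k => force (code k) fun c => allB 5 fun s =>
    exitB c s || force (tr k s) fun t => Nat.ble (t + 1) 585 && force (code t) fun c' =>
      allB 24 (fun i => Nat.beq (dig c' i) (newd c s i)) &&
      allB 4 (fun m => Nat.beq (dig c' (24 + m))
        (bif Nat.beq (dig c (24 + m)) 1 || Nat.beq (dig c s) (9 + m) then 1 else 0))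

theorem checkTr_true : checkTr = true := by decide +kernel

/-- semantics of the transition check -/
theorem tr_spec {k : ℕ} (hk : k < 585) (i : Fin 5) (he : exitB (code k) i = false) :
    tr k i < 585 ∧ (∀ a, a < 24 → dig (code (tr k i)) a = newd (code k) i a) ∧
    ∀ m, m < 4 → dig (code (tr k i)) (24 + m) = 1 →
      dig (code k) (24 + m) = 1 ∨ dig (code k) i = 9 + m := by
  have h := allB_spec checkTr_true k hk
  rw [force_eq] at h
  have h1 := allB_spec h i.val i.isLt
  rw [he, Bool.false_or, force_eq, force_eq] at h1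
  simp only [Bool.and_eq_true] at h1
  obtain ⟨h2, h3, h4⟩ := h1
  refine ⟨by simpa using h2, fun a ha => Nat.eq_of_beq_eq_true (allB_spec h3 a ha), ?_⟩
  intro m hm h5
  have h6 := Nat.eq_of_beq_eq_true (allB_spec h4 m hm)
  rw [h5] at h6
  by_contra hcon
  push Not at hcon
  have e1 : Nat.beq (dig (code k) (24 + m)) 1 = false := by
    rw [Bool.eq_false_iff]; intro h7; exact hcon.1 (Nat.eq_of_beq_eq_true h7)
  have e2 : Nat.beq (dig (code k) i) (9 + m) = false := by
    rw [Bool.eq_false_iff]; intro h7; exact hcon.2 (Nat.eq_of_beq_eq_true h7)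
  rw [e1, e2] at h6
  simp at h6

/-- meaning of a label -/
structure Lab (x : Q) (c : ℕ) : Prop where
  neg : c = 0 → x ≤ 0
  pos : c ≠ 0 → 0 ≤ x
  eq : 2 ≤ c → x = rho (c - 2)

/-- meaning of a state code -/
structure Sem (y : W) (c : ℕ) : Prop where
  lab : ∀ i, i < 24 → Lab (act y⁻¹ (E i)) (dig c i)
  inv : ∀ m, m < 4 → dig c (24 + m) = 1 → Neg y (rho (7 + m))

theorem E_al : ∀ i : Fin 5, E i = al i := by decide

theorem tab_spec : ∀ i : Fin 5, ∀ a, a < 24 →
    (tab i a = 24 ∧ refl i (E a) = delta + al i) ∨ (tab i a = 25 ∧ E a = al i) ∨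
      (tab i a < 24 ∧ refl i (E a) = E (tab i a)) := by
  decide +kernel

theorem start_spec : ∀ a, a < 24 → dig (code 0) a ≠ 0 ∧ (∀ k : Fin 5, 0 ≤ E a k) ∧
    (2 ≤ dig (code 0) a → E a = rho (dig (code 0) a - 2)) := by
  decide +kernel

theorem start_inv : ∀ m, m < 4 → dig (code 0) (24 + m) ≠ 1 := by
  decide +kernel

theorem rho_pos : ∀ m, m < 11 → IsRoot (rho m) ∧ 0 ≤ rho m := by
  intro m hm
  have h : ∀ m, m < 11 → (2 * rho m 0 - rho m 2) ^ 2 + (2 * rho m 1 - rho m 2) ^ 2 +
    (2 * rho m 3 - rho m 2) ^ 2 + (2 * rho m 4 - rho m 2) ^ 2 = 4 ∧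
    ∀ k : Fin 5, 0 ≤ rho m k := by decide +kernel
  exact ⟨(h m hm).1, fun k => (h m hm).2 k⟩

theorem sem_one : Sem 1 (code 0) := by
  refine ⟨fun i hi => ?_, fun m hm h => absurd h (start_inv m hm)⟩
  obtain ⟨h1, h2, h3⟩ := start_spec i hi
  have : act (1 : W)⁻¹ (E i) = E i := by simp
  rw [this]
  exact ⟨fun h => absurd h h1, fun _ => h2, h3⟩

/-- a negative root made positive by `s_i` is `-α_i` -/
theorem neg_al {z : Q} (i : Fin 5) (hz : IsRoot z) (h1 : z ≤ 0) (h2 : 0 ≤ refl i z) :
    z = -al i := by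
  have h0 : ∀ k, k ≠ i → z k = 0 := by
    intro k hk
    have a1 := h1 k
    have a2 := h2 k
    simp only [refl, LinearMap.coe_mk, AddHom.coe_mk, hk, if_false, Pi.zero_apply, sub_zero] at a1 a2
    omega
  have hi := h1 i
  simp only [Pi.zero_apply] at hi
  have hzi : z i = -1 := by
    unfold IsRoot at hz
    fin_cases i <;>
    · simp only [Fin.zero_eta, Fin.mk_one, Fin.reduceFinMk, Fin.isValue] at *
      have e0 := h0 0
      have e1 := h0 1
      have e2 := h0 2
      have e3 := h0 3
      have e4 := h0 4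
      simp only [ne_eq, Fin.reduceEq, not_false_eq_true, not_true_eq_false, forall_const,
        false_implies, Fin.isValue, zero_ne_one, one_ne_zero] at e0 e1 e2 e3 e4
      simp only [*] at hz
      nlinarith
  funext k
  by_cases hk : k = i
  · subst hk; simp [al, hzi]
  · simp [al, h0 k hk, hk]

theorem act_s_mul (hR : RootFacts) (i : Fin 5) (y : W) (x : Q) :
    act (s i * y) x = refl i (act y x) := by
  rw [map_mul]; exact hR.act_s i _

theorem s_mul_s (i : Fin 5) : s i * s i = 1 := cs.simple_mul_simple_self i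

theorem s_inv (i : Fin 5) : (s i)⁻¹ = s i := cs.inv_simple i

theorem act_inv_s_mul (hR : RootFacts) (i : Fin 5) (y : W) (x : Q) :
    act (s i * y)⁻¹ x = act y⁻¹ (refl i x) := by
  rw [mul_inv_rev, map_mul, s_inv]
  change act y⁻¹ (act (s i) x) = _
  rw [hR.act_s]

theorem act_inv_act (y : W) (x : Q) : act y⁻¹ (act y x) = x := by
  have : (act y⁻¹ * act y) x = x := by rw [← map_mul]; simp
  exact this

theorem act_act_inv (y : W) (x : Q) : act y (act y⁻¹ x) = x := by
  have : (act y * act y⁻¹) x = x := by rw [← map_mul]; simp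
  exact this

theorem refl_al : ∀ i : Fin 5, refl i (al i) = -al i := by decide

theorem al_pos (i : Fin 5) : 0 ≤ al i ∧ ¬ al i ≤ 0 := by
  refine ⟨fun k => ?_, fun h => ?_⟩
  · by_cases hk : k = i
    · subst hk; simp [al]
    · simp [al, hk]
  · have := h i
    simp [al] at this

theorem delta_pos : 0 ≤ delta := by
  intro k
  revert k
  decide

theorem negUp (hR : RootFacts) {y : W} {i : Fin 5} {x : Q} (hx : IsRoot x) (h0 : 0 ≤ x)
    (hy : len y < len (s i * y)) (hn : act y x ≤ 0) : act (s i * y) x ≤ 0 := by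
  rw [act_s_mul hR]
  have hz : IsRoot (act y x) := hR.root_act y x hx
  have hz' : IsRoot (refl i (act y x)) := by
    have := hR.root_act (s i) _ hz
    rwa [hR.act_s] at this
  rcases hR.sign _ hz' with h | h
  · exfalso
    have h1 := neg_al i hz hn h.1
    have h2 : act y⁻¹ (al i) = -x := by
      have : x = act y⁻¹ (act y x) := (act_inv_act y x).symm
      rw [h1, map_neg] at this
      rw [this]; simp
    have h3 := (hR.upL y i).mp hy
    rw [h2] at h3
    have h4 : x = 0 := le_antisymm (by simpa using h3) h0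
    rcases hR.sign x hx with h5 | h5
    · exact h5.2 (by rw [h4])
    · exact h5.2 h0
  · exact h.1

theorem rho_val : rho 0 = al 0 ∧ rho 1 = al 1 ∧ rho 2 = al 3 ∧ rho 3 = al 4 ∧
    rho 4 = al 0 + al 1 + al 2 ∧ rho 5 = al 0 + al 3 + al 2 ∧ rho 6 = al 1 + al 3 + al 2 ∧
    rho 7 = al 0 + al 2 ∧ rho 8 = al 1 + al 2 ∧ rho 9 = al 3 + al 2 ∧ rho 10 = al 2 + al 4 := by
  decide

theorem not_exit (hR : RootFacts) {y : W} {i : Fin 5} {c : ℕ} (hs : Sem y c)
    (hy : len y < len (s i * y)) (hG : G1 (s i * y)) : exitB c i = false := by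
  rw [Bool.eq_false_iff]
  intro he
  unfold exitB at he
  rw [force_eq] at he
  have hl := hs.lab i.val (by omega)
  rw [E_al] at hl
  simp only [Bool.or_eq_true, Bool.and_eq_true, Nat.ble_eq] at he
  have hup := (hR.upL y i).mp hy
  have hroot : IsRoot (act y⁻¹ (al i)) := hR.root_act _ _ (hR.root_al i)
  obtain ⟨r0, r1, r2, r3, r4, r5, r6, r7, r8, r9, r10⟩ := rho_val
  rcases he with he | ⟨h2, he⟩
  · have h0 := hl.neg (Nat.eq_of_beq_eq_true he)
    rcases hR.sign _ hroot with h | h
    · exact h.2 h0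
    · exact h.2 hup
  · have heq := hl.eq h2
    have hneg : Neg (s i * y) (rho (dig c i - 2)) := by
      unfold Neg
      rw [act_s_mul hR, ← heq, act_act_inv, refl_al]
      simpa using (al_pos i).1
    have hXK := hG.1
    have hN := hG.2
    have hK : ∀ a ∈ ({0, 1, 3} : Finset (Fin 5)), ¬ Neg (s i * y) (al a) := by
      intro a ha hn
      have hp := hXK a ha
      rcases hR.sign _ (hR.root_act (s i * y) _ (hR.root_al a)) with h | h
      · exact h.2 hn
      · exact h.2 hp
    have hN' : ¬ (Neg (s i * y) (al 4) ∨ Neg (s i * y) (al 0 + al 1 + al 2)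
        ∨ Neg (s i * y) (al 0 + al 3 + al 2) ∨ Neg (s i * y) (al 1 + al 3 + al 2)
        ∨ (Neg (s i * y) (al 0 + al 2) ∧ Neg (s i * y) (al 1 + al 2) ∧
          Neg (s i * y) (al 3 + al 2) ∧ Neg (s i * y) (al 2 + al 4))) :=
      fun h => hN ⟨hXK, h⟩
    have hinv : ∀ m, m < 4 → (Nat.beq (dig c i) (9 + m) = true ∨
        Nat.beq (dig c (24 + m)) 1 = true) → Neg (s i * y) (rho (7 + m)) := by
      intro m hm h
      rcases h with h | h
      · have : dig c i - 2 = 7 + m := by
          have := Nat.eq_of_beq_eq_true h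
          omega
        rw [← this]; exact hneg
      · have h1 := hs.inv m hm (Nat.eq_of_beq_eq_true h)
        obtain ⟨h3, h4⟩ := rho_pos (7 + m) (by omega)
        exact negUp hR h3 h4 hy h1
    rcases he with he | ⟨⟨⟨he1, he2⟩, he3⟩, he4⟩
    · have h7 : dig c i = 2 ∨ dig c i = 3 ∨ dig c i = 4 ∨ dig c i = 5 ∨ dig c i = 6 ∨
          dig c i = 7 ∨ dig c i = 8 := by omega
      rcases h7 with h | h | h | h | h | h | h <;> rw [h] at hneg
      · exact hK 0 (by decide) (by rw [← r0]; exact hneg)
      · exact hK 1 (by decide) (by rw [← r1]; exact hneg)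
      · exact hK 3 (by decide) (by rw [← r2]; exact hneg)
      · exact hN' (Or.inl (by rw [← r3]; exact hneg))
      · exact hN' (Or.inr (Or.inl (by rw [← r4]; exact hneg)))
      · exact hN' (Or.inr (Or.inr (Or.inl (by rw [← r5]; exact hneg))))
      · exact hN' (Or.inr (Or.inr (Or.inr (Or.inl (by rw [← r6]; exact hneg)))))
    · have h0 := hinv 0 (by omega) he1
      have h1 := hinv 1 (by omega) he2
      have h2 := hinv 2 (by omega) he3
      have h3 := hinv 3 (by omega) he4
      norm_num at h0 h1 h2 h3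
      rw [r7] at h0
      rw [r8] at h1
      rw [r9] at h2
      rw [r10] at h3
      exact hN' (Or.inr (Or.inr (Or.inr (Or.inr ⟨h0, h1, h2, h3⟩))))

theorem sem_step (hR : RootFacts) {k : ℕ} (hk : k < 585) {y : W} {i : Fin 5}
    (hs : Sem y (code k)) (hy : len y < len (s i * y)) (hG : G1 (s i * y)) :
    tr k i < 585 ∧ Sem (s i * y) (code (tr k i)) := by
  obtain ⟨h1, h2, h3⟩ := tr_spec hk i (not_exit hR hs hy hG)
  refine ⟨h1, ⟨fun a ha => ?_, fun m hm h => ?_⟩⟩
  · rw [act_inv_s_mul hR, h2 a ha]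
    unfold newd
    rw [force_eq]
    have hup := (hR.upL y i).mp hy
    rcases tab_spec i a ha with ⟨e1, e2⟩ | ⟨e1, e2⟩ | ⟨e1, e2⟩
    · rw [e1, e2]
      have e3 : act y⁻¹ (delta + al i) = delta + act y⁻¹ (al i) := by
        rw [map_add, hR.act_delta]
      rw [e3]
      refine ⟨fun h => absurd h (by simp), fun _ => ?_, fun h => absurd h (by simp)⟩
      exact add_nonneg delta_pos hup
    · rw [e1, e2, refl_al, map_neg]
      have b1 : Nat.beq 25 24 = false := rfl
      have b2 : Nat.beq 25 25 = true := rfl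
      rw [b1, b2]
      refine ⟨fun _ => ?_, fun h => absurd h (by simp), fun h => absurd h (by simp)⟩
      simpa using hup
    · rw [e2]
      have e4 : Nat.beq (tab i a) 24 = false := by
        rw [Bool.eq_false_iff]; intro h7; have := Nat.eq_of_beq_eq_true h7; omega
      have e5 : Nat.beq (tab i a) 25 = false := by
        rw [Bool.eq_false_iff]; intro h7; have := Nat.eq_of_beq_eq_true h7; omega
      rw [e4, e5]
      exact hs.lab _ e1
  · rcases h3 m hm h with h4 | h4
    · have h5 := hs.inv m hm h4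
      obtain ⟨h6, h7⟩ := rho_pos (7 + m) (by omega)
      exact negUp hR h6 h7 hy h5
    · have hl := hs.lab i.val (by omega)
      rw [E_al] at hl
      have heq := hl.eq (by omega)
      have e : dig (code k) i - 2 = 7 + m := by omega
      rw [e] at heq
      unfold Neg
      rw [act_s_mul hR, ← heq, act_act_inv, refl_al]
      simpa using (al_pos i).1

/-- the letter used to reach a state -/
def nf (c : ℕ) : ℕ :=
  bif Nat.beq (dig c 0) 0 then 0 else bif Nat.beq (dig c 1) 0 then 1 else
  bif Nat.beq (dig c 3) 0 then 3 else bif Nat.beq (dig c 4) 0 then 4 else 2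

theorem desc_iff (hR : RootFacts) {y : W} {c : ℕ} (hs : Sem y c) (i : Fin 5) :
    Nat.beq (dig c i) 0 = true ↔ len (s i * y) < len y := by
  have hl := hs.lab i.val (by omega)
  rw [E_al] at hl
  rw [hR.dnL]
  constructor
  · intro h; exact hl.neg (Nat.eq_of_beq_eq_true h)
  · intro h
    by_contra hcon
    have h1 : dig c i ≠ 0 := fun h2 => hcon (by rw [h2]; rfl)
    have h2 := hl.pos h1
    rcases hR.sign _ (hR.root_act y⁻¹ _ (hR.root_al i)) with h3 | h3
    · exact h3.2 h
    · exact h3.2 h2

theorem exists_letter (y : W) (hy : y ≠ 1) : ∃ i : Fin 5, len (s i * y) < len y ∧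
    ((i = 0) ∨ (i = 1 ∧ ¬ len (s 0 * y) < len y) ∨
     (i = 3 ∧ ¬ len (s 0 * y) < len y ∧ ¬ len (s 1 * y) < len y) ∨
     (i = 4 ∧ ¬ len (s 0 * y) < len y ∧ ¬ len (s 1 * y) < len y ∧ ¬ len (s 3 * y) < len y) ∨
     (i = 2 ∧ ¬ len (s 0 * y) < len y ∧ ¬ len (s 1 * y) < len y ∧ ¬ len (s 3 * y) < len y ∧
      ¬ len (s 4 * y) < len y)) := by
  by_cases h0 : len (s 0 * y) < len y
  · exact ⟨0, h0, Or.inl rfl⟩
  by_cases h1 : len (s 1 * y) < len y
  · exact ⟨1, h1, Or.inr (Or.inl ⟨rfl, h0⟩)⟩
  by_cases h3 : len (s 3 * y) < len y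
  · exact ⟨3, h3, Or.inr (Or.inr (Or.inl ⟨rfl, h0, h1⟩))⟩
  by_cases h4 : len (s 4 * y) < len y
  · exact ⟨4, h4, Or.inr (Or.inr (Or.inr (Or.inl ⟨rfl, h0, h1, h3⟩)))⟩
  obtain ⟨i, hi⟩ := cs.exists_leftDescent_of_ne_one hy
  have hi' : len (s i * y) < len y := hi
  have : i = 2 := by
    fin_cases i
    · exact absurd hi' h0
    · exact absurd hi' h1
    · rfl
    · exact absurd hi' h3
    · exact absurd hi' h4
  subst this
  exact ⟨2, hi', Or.inr (Or.inr (Or.inr (Or.inr ⟨rfl, h0, h1, h3, h4⟩)))⟩

/-- the automaton theorem -/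
theorem automaton (hR : RootFacts) (c1 : Comb1Facts) (P : ℕ → W → Prop) (h0 : P 0 1)
    (hstep : ∀ k, k < 585 → ∀ i : Fin 5, tr k i < 585 → nf (code (tr k i)) = i → ∀ y,
      len y < len (s i * y) → P k y → P (tr k i) (s i * y)) :
    ∀ y, G1 y → ∃ k, k < 585 ∧ P k y := by
  have main : ∀ n y, len y = n → G1 y → ∃ k, k < 585 ∧ Sem y (code k) ∧ P k y := by
    intro n
    induction n using Nat.strong_induction_on with
    | _ n ih =>
      intro y hn hG
      by_cases hy : y = 1
      · subst hy
        exact ⟨0, by omega, sem_one, h0⟩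
      · obtain ⟨i, hi, hcase⟩ := exists_letter y hy
        have hG' := c1.G1_down y i hG hi
        obtain ⟨k, hk, hs, hP⟩ := ih _ (hn ▸ hi) (s i * y) rfl hG'
        have e : s i * (s i * y) = y := by rw [← mul_assoc, s_mul_s, one_mul]
        have hlt : len (s i * y) < len (s i * (s i * y)) := by rw [e]; exact hi
        obtain ⟨h1, h2⟩ := sem_step hR hk hs hlt (by rw [e]; exact hG)
        have hnf : nf (code (tr k i)) = i := by
          rw [e] at h2
          have d0 := desc_iff hR h2 0
          have d1 := desc_iff hR h2 1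
          have d2 := desc_iff hR h2 2
          have d3 := desc_iff hR h2 3
          have d4 := desc_iff hR h2 4
          simp only [Fin.isValue, Fin.val_zero, Fin.val_one, Fin.val_two] at d0 d1 d2
          change Nat.beq (dig _ 3) 0 = true ↔ _ at d3
          change Nat.beq (dig _ 4) 0 = true ↔ _ at d4
          rcases hcase with h | ⟨h, g0⟩ | ⟨h, g0, g1⟩ | ⟨h, g0, g1, g3⟩ | ⟨h, g0, g1, g3, g4⟩
          · subst h
            have := d0.mpr hi
            unfold nf
            simp only [this, cond_true]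
            rfl
          · subst h
            have t0 := Bool.eq_false_iff.mpr (fun h => g0 (d0.mp h))
            have t1 := d1.mpr hi
            unfold nf
            simp only [t0, t1, cond_true, cond_false]
            rfl
          · subst h
            have t0 := Bool.eq_false_iff.mpr (fun h => g0 (d0.mp h))
            have t1 := Bool.eq_false_iff.mpr (fun h => g1 (d1.mp h))
            have t3 := d3.mpr hi
            unfold nf
            simp only [t0, t1, t3, cond_true, cond_false]
            rfl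
          · subst h
            have t0 := Bool.eq_false_iff.mpr (fun h => g0 (d0.mp h))
            have t1 := Bool.eq_false_iff.mpr (fun h => g1 (d1.mp h))
            have t3 := Bool.eq_false_iff.mpr (fun h => g3 (d3.mp h))
            have t4 := d4.mpr hi
            unfold nf
            simp only [t0, t1, t3, t4, cond_true, cond_false]
            rfl
          · subst h
            have t0 := Bool.eq_false_iff.mpr (fun h => g0 (d0.mp h))
            have t1 := Bool.eq_false_iff.mpr (fun h => g1 (d1.mp h))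
            have t3 := Bool.eq_false_iff.mpr (fun h => g3 (d3.mp h))
            have t4 := Bool.eq_false_iff.mpr (fun h => g4 (d4.mp h))
            unfold nf
            simp only [t0, t1, t3, t4, cond_false]
            rfl
        have hP' := hstep k hk i h1 hnf (s i * y) hlt hP
        rw [e] at h2 hP'
        exact ⟨_, h1, h2, hP'⟩
  intro y hG
  obtain ⟨k, hk, _, hP⟩ := main _ y rfl hG
  exact ⟨k, hk, hP⟩

end Pool.Agent.Helper39.KL.AUT
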