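import Pool.Agent.Helper39.KL.Spec

/-!
# Module BAR: the bar involution of the Hecke algebra
-/

namespace Pool.Agent.Helper39.KL.BAR

open Finset Pool.Agent.Helper39.KL

theorem len_s_mul (w : W) (i : Fin 5) :
    len (s i * w) = len w + 1 ∨ len (s i * w) + 1 = len w :=
  cs.length_simple_mul w i

theorem len_s (i : Fin 5) : len (s i) = 1 := cs.length_simple i

theorem s_s_mul (i : Fin 5) (w : W) : s i * (s i * w) = w :=
  cs.simple_mul_simple_cancel_left i

theorem len_one : len 1 = 0 := cs.length_one

theorem exists_left {w : W} (h : w ≠ 1) : ∃ i, len (s i * w) < len w :=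
  cs.exists_leftDescent_of_ne_one h

theorem quadL (hG : RegFacts) (i : Fin 5) (x : H) : L i (L i x) = x + (v - vi) • L i x := by
  obtain ⟨V, hV⟩ := hG.bmod
  have := V.quad i x
  rwa [hV] at this

theorem Linv_apply (i : Fin 5) (x : H) : Linv i x = L i x - (v - vi) • x := rfl

theorem L_Linv (hG : RegFacts) (i : Fin 5) (x : H) : L i (Linv i x) = x := by
  rw [Linv_apply, map_sub, map_smul, quadL hG]
  abel

theorem Linv_L (hG : RegFacts) (i : Fin 5) (x : H) : Linv i (L i x) = x := by
  rw [Linv_apply, quadL hG]
  abel

theorem Linv_Linv (hG : RegFacts) (i : Fin 5) (x : H) :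
    Linv i (Linv i x) = x - (v - vi) • Linv i x := by
  rw [Linv_apply i (Linv i x), L_Linv hG]

/-- `L i` as a unit -/
noncomputable def U (hG : RegFacts) (i : Fin 5) : (Module.End A H)ˣ where
  val := L i
  inv := Linv i
  val_inv := LinearMap.ext fun x => L_Linv hG i x
  inv_val := LinearMap.ext fun x => Linv_L hG i x

theorem U_comm (hG : RegFacts) {i j : Fin 5} (h : i ≠ j) (h' : adj i j = false) :
    U hG i * U hG j = U hG j * U hG i := by
  obtain ⟨V, hV⟩ := hG.bmod
  apply Units.ext
  refine LinearMap.ext fun x => ?_
  have := V.comm i j h h' x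
  rwa [hV] at this

theorem U_braid (hG : RegFacts) {i j : Fin 5} (h : adj i j = true) :
    U hG i * U hG j * U hG i = U hG j * U hG i * U hG j := by
  obtain ⟨V, hV⟩ := hG.bmod
  apply Units.ext
  refine LinearMap.ext fun x => ?_
  have := V.braid i j h x
  rwa [hV] at this

theorem Linv_comm (hG : RegFacts) {i j : Fin 5} (h : i ≠ j) (h' : adj i j = false) :
    (Linv i : Module.End A H) * Linv j = Linv j * Linv i := by
  have h1 : (U hG j * U hG i)⁻¹ = (U hG i * U hG j)⁻¹ := by rw [U_comm hG h h']
  rw [mul_inv_rev, mul_inv_rev] at h1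
  exact congrArg Units.val h1

theorem Linv_braid (hG : RegFacts) {i j : Fin 5} (h : adj i j = true) :
    (Linv i : Module.End A H) * Linv j * Linv i = Linv j * Linv i * Linv j := by
  have h1 : (U hG i * U hG j * U hG i)⁻¹ = (U hG j * U hG i * U hG j)⁻¹ := by rw [U_braid hG h]
  simp only [mul_inv_rev, ← mul_assoc] at h1
  exact congrArg Units.val h1

theorem barT_one (hM : MatFacts) : barT 1 = Tb 1 := by
  unfold barT
  rw [hM.wl_one]
  rfl

theorem barT_up (hM : MatFacts) (hG : RegFacts) {i : Fin 5} {w : W} (h : len w < len (s i * w)) :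
    barT (s i * w) = Linv i (barT w) := by
  unfold barT
  have h2 : len (s i * w) = len (s i) + len w := by
    rcases len_s_mul w i with h1 | h1
    · rw [h1, len_s]; omega
    · omega
  rw [hM.wl_mul (N := Module.End A H) Linv (fun i j h h' => Linv_comm hG h h')
    (fun i j h => Linv_braid hG h) _ _ h2, hM.wl_s]
  rfl

theorem barH_add (x y : H) : barH (x + y) = barH x + barH y := by
  unfold barH
  exact Finsupp.sum_add_index' (fun w => by rw [map_zero, zero_smul])
    (fun w a b => by rw [map_add, add_smul])

theorem barH_smul (a : A) (x : H) : barH (a • x) = barA a • barH x := by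
  unfold barH
  rw [Finsupp.sum_smul_index' (fun w => by rw [map_zero, zero_smul]), Finsupp.smul_sum]
  refine Finsupp.sum_congr fun w _ => ?_
  rw [smul_eq_mul, map_mul, mul_smul]

theorem barH_Tb (w : W) : barH (Tb w) = barT w := by
  unfold barH Tb
  rw [Finsupp.sum_single_index (by rw [map_zero, zero_smul]), map_one, one_smul]

/-- induction principle -/
theorem indL (hG : RegFacts) (P : H → Prop) (h0 : P (Tb 1)) (hadd : ∀ x y, P x → P y → P (x + y))
    (hsmul : ∀ (a : A) x, P x → P (a • x)) (hL : ∀ i x, P x → P (L i x)) : ∀ x, P x := by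
  have hT : ∀ n : ℕ, ∀ w : W, len w = n → P (Tb w) := by
    intro n
    induction n using Nat.strong_induction_on with
    | _ n ih =>
      intro w hw
      by_cases h1 : w = 1
      · rw [h1]; exact h0
      · obtain ⟨i, hi⟩ := exists_left h1
        have h2 := hL i _ (ih _ (hw ▸ hi) (s i * w) rfl)
        rwa [hG.L_up i (s i * w) (by rwa [s_s_mul]), s_s_mul] at h2
  intro x
  induction x using Finsupp.induction_linear with
  | zero =>
    have := hsmul 0 _ h0
    rwa [zero_smul] at this
  | add f g hf hg => exact hadd f g hf hg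
  | single w a =>
    have := hsmul a _ (hT _ w rfl)
    unfold Tb at this
    rwa [Finsupp.smul_single, smul_eq_mul, mul_one] at this

theorem barA_v : barA v = vi := by
  unfold barA v vi
  exact LaurentPolynomial.invert_T 1

theorem barA_vi : barA vi = v := by
  unfold barA v vi
  have := LaurentPolynomial.invert_T (R := ℤ) (-1)
  rw [neg_neg] at this
  exact this

theorem barA_sub : barA (v - vi) = -(v - vi) := by
  rw [map_sub, barA_v, barA_vi]; ring

theorem barH_L (hM : MatFacts) (hG : RegFacts) (i : Fin 5) (x : H) :
    barH (L i x) = Linv i (barH x) := by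
  have key : ∀ w : W, barH (L i (Tb w)) = Linv i (barT w) := by
    intro w
    rcases len_s_mul w i with h | h
    · have h' : len w < len (s i * w) := by omega
      rw [hG.L_up i w h', barH_Tb, barT_up hM hG h']
    · have h' : len (s i * w) < len w := by omega
      rw [hG.L_dn i w h', barH_add, barH_smul, barH_Tb, barH_Tb, barA_sub]
      have h3 : barT w = Linv i (barT (s i * w)) := by
        have := barT_up hM hG (i := i) (w := s i * w) (by rwa [s_s_mul])
        rwa [s_s_mul] at this
      rw [h3, Linv_Linv hG, neg_smul]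
      abel
  induction x using Finsupp.induction_linear with
  | zero =>
    have h0 : barH (0 : H) = 0 := by unfold barH; exact Finsupp.sum_zero_index
    rw [map_zero, h0, map_zero]
  | add f g hf hg => rw [map_add, barH_add, barH_add, hf, hg, map_add]
  | single w a =>
    have : (Finsupp.single w a : H) = a • Tb w := by
      unfold Tb
      rw [Finsupp.smul_single, smul_eq_mul, mul_one]
    rw [this, map_smul, barH_smul, barH_smul, key, barH_Tb, map_smul]

theorem Tb_self (w : W) : Tb w w = 1 := Finsupp.single_eq_same

theorem Tb_ne {w y : W} (h : w ≠ y) : Tb w y = 0 := Finsupp.single_eq_of_ne (Ne.symm h)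

theorem L_coe (hG : RegFacts) (i : Fin 5) (x : H) (y : W) :
    L i x y = x (s i * y) + (if len (s i * y) < len y then (v - vi) * x y else 0) := by
  induction x using Finsupp.induction_linear with
  | zero => simp
  | add f g hf hg =>
    rw [map_add, Finsupp.add_apply, hf, hg, Finsupp.add_apply, Finsupp.add_apply]
    split_ifs <;> ring
  | single w a =>
    have h1 : (Finsupp.single w a : H) = a • Tb w := by
      unfold Tb
      rw [Finsupp.smul_single, smul_eq_mul, mul_one]
    have hiff : s i * w = y ↔ w = s i * y := by
      constructor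
      · rintro rfl; rw [s_s_mul]
      · rintro rfl; rw [s_s_mul]
    rw [h1, map_smul]
    have hTb : Tb (s i * w) y = Tb w (s i * y) := by
      by_cases h2 : s i * w = y
      · rw [h2, ← hiff.1 h2, Tb_self, Tb_self]
      · rw [Tb_ne h2, Tb_ne fun h3 => h2 (hiff.2 h3)]
    rcases len_s_mul w i with h | h
    · rw [hG.L_up i w (by omega)]
      simp only [Finsupp.smul_apply, smul_eq_mul]
      rw [hTb]
      by_cases h2 : w = y
      · subst h2
        rw [if_neg (by omega : ¬ len (s i * w) < len w), add_zero]
      · rw [Tb_ne h2, mul_zero, mul_zero, ite_self, add_zero]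
    · rw [hG.L_dn i w (by omega)]
      simp only [Finsupp.smul_apply, Finsupp.add_apply, smul_eq_mul]
      rw [hTb]
      by_cases h2 : w = y
      · subst h2
        rw [if_pos (by omega : len (s i * w) < len w), Tb_self]
        ring
      · rw [Tb_ne h2, mul_zero, mul_zero, mul_zero, ite_self, add_zero, add_zero]

theorem Linv_coe (hG : RegFacts) (i : Fin 5) (x : H) (y : W) :
    Linv i x y = x (s i * y) + (if len (s i * y) < len y then 0 else -((v - vi) * x y)) := by
  rw [Linv_apply, Finsupp.sub_apply, L_coe hG, Finsupp.smul_apply, smul_eq_mul]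
  split_ifs <;> ring

theorem tri (hM : MatFacts) (hG : RegFacts) : ∀ n : ℕ, ∀ w : W, len w = n →
    (∀ y, barT w y ≠ 0 → y = w ∨ len y < len w) ∧ barT w w = 1 := by
  intro n
  induction n using Nat.strong_induction_on with
  | _ n ih =>
    intro w hw
    by_cases h1 : w = 1
    · subst h1
      rw [barT_one hM]
      unfold Tb
      refine ⟨fun y hy => ?_, by simp⟩
      left
      by_contra hne
      exact hy (Finsupp.single_eq_of_ne hne)
    · obtain ⟨i, hi⟩ := exists_left h1
      obtain ⟨h2, h3⟩ := ih _ (hw ▸ hi) (s i * w) rfl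
      have h4 : barT w = Linv i (barT (s i * w)) := by
        have := barT_up hM hG (i := i) (w := s i * w) (by rwa [s_s_mul])
        rwa [s_s_mul] at this
      refine ⟨fun y hy => ?_, ?_⟩
      · rw [h4, Linv_coe hG] at hy
        by_cases h5 : barT (s i * w) (s i * y) = 0
        · rw [h5, zero_add] at hy
          split_ifs at hy with h6
          · exact absurd rfl hy
          · have h7 : barT (s i * w) y ≠ 0 := by
              intro h8; rw [h8, mul_zero, neg_zero] at hy; exact hy rfl
            rcases h2 y h7 with h8 | h8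
            · right; rw [h8]; exact hi
            · right; omega
        · rcases h2 _ h5 with h6 | h6
          · left; exact mul_left_cancel h6
          · right
            rcases len_s_mul y i with h7 | h7 <;> omega
      · rw [h4, Linv_coe hG, h3, if_pos hi, add_zero]

end Pool.Agent.Helper39.KL.BAR

namespace Pool.Agent.Helper39.KL

open BAR

/-- module BAR -/
theorem barFacts (_hR : RootFacts) (hM : MatFacts) (hG : RegFacts) : BarFacts := by
  have hbL : ∀ i x, barH (L i x) = L i (barH x) - (v - vi) • barH x := fun i x => by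
    rw [barH_L hM hG, Linv_apply]
  have hsub : ∀ x y, barH (x - y) = barH x - barH y := by
    intro x y
    rw [sub_eq_add_neg, barH_add, ← neg_one_smul A y, barH_smul, map_neg, map_one, neg_one_smul,
      sub_eq_add_neg]
  have hbR : ∀ i x, barH (R i x) = R i (barH x) - (v - vi) • barH x := by
    intro i
    refine indL hG _ ?_ ?_ ?_ ?_
    · have h1 : len 1 < len (1 * s i) := by rw [one_mul, len_one, len_s]; omega
      have h1' : len 1 < len (s i * 1) := by rw [mul_one, len_one, len_s]; omega
      have h2 : barT (s i) = Linv i (Tb 1) := by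
        have := barT_up hM hG h1'
        rwa [mul_one, barT_one hM] at this
      rw [hG.R_up i 1 h1, one_mul, barH_Tb, barH_Tb, barT_one hM, h2, Linv_apply,
        hG.L_up i 1 h1', hG.R_up i 1 h1, mul_one, one_mul]
    · intro x y hx hy
      rw [map_add, barH_add, barH_add, hx, hy, map_add, smul_add]
      abel
    · intro a x hx
      rw [map_smul, barH_smul, barH_smul, hx, map_smul, smul_sub, smul_comm]
    · intro j x hx
      rw [← hG.LR, hbL, hx, hbL, map_sub, map_sub, map_smul, map_smul, hG.LR, smul_sub, smul_sub]
      abel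
  refine ⟨barH_add, barH_smul, ?_, hbL, hbR, ?_, fun w => (tri hM hG _ w rfl).1,
    fun w => (tri hM hG _ w rfl).2, barH_Tb, ?_⟩
  · rw [barH_Tb, barT_one hM]
  · refine indL hG _ ?_ ?_ ?_ ?_
    · rw [barH_Tb, barT_one hM, barH_Tb, barT_one hM]
    · intro x y hx hy
      rw [barH_add, barH_add, hx, hy]
    · intro a x hx
      have h1 : barA (barA a) = a := LaurentPolynomial.involutive_invert (R := ℤ) a
      rw [barH_smul, barH_smul, hx, h1]
    · intro i x hx
      rw [hbL, hsub, hbL, barH_smul, hx, barA_sub, neg_smul]
      abel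
  · refine indL hG _ ?_ ?_ ?_ ?_
    · have h1 : (Tb 1).mapDomain (fun w : W => w⁻¹) = Tb 1 := by
        unfold Tb
        rw [Finsupp.mapDomain_single, inv_one]
      rw [h1, barH_Tb, barT_one hM, h1]
    · intro x y hx hy
      rw [Finsupp.mapDomain_add, barH_add, hx, hy, barH_add, Finsupp.mapDomain_add]
    · intro a x hx
      rw [Finsupp.mapDomain_smul, barH_smul, hx, barH_smul, Finsupp.mapDomain_smul]
    · intro i x hx
      have hms : ∀ x y : H, (x - y).mapDomain (fun w : W => w⁻¹) =
          x.mapDomain (fun w : W => w⁻¹) - y.mapDomain (fun w : W => w⁻¹) := by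
        intro x y
        exact map_sub (Finsupp.mapDomain.addMonoidHom (fun w : W => w⁻¹)) x y
      rw [hG.inv, hbR, hx, hbL, hms, Finsupp.mapDomain_smul, hG.inv]

end Pool.Agent.Helper39.KL
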