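import Pool.Agent.Helper39.KL.Spec

/-!
# Module COMB2: minimal elements of `N1`
-/

namespace Pool.Agent.Helper39.KL

namespace COMB2

theorem act_mul_s (hR : RootFacts) (w : W) (i : Fin 5) (x : Q) :
    act (w * s i) x = act w (refl i x) := by
  rw [map_mul]
  show act w (act (s i) x) = _
  rw [hR.act_s]

theorem hss (i : Fin 5) : s i * s i = 1 := cs.simple_mul_simple_self i

theorem s_inv (i : Fin 5) : (s i)⁻¹ = s i := cs.inv_simple i

theorem len_mul_le (u w : W) : len (u * w) ≤ len u + len w := cs.length_mul_le u w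

theorem len_s (i : Fin 5) : len (s i) = 1 := cs.length_simple i

theorem len_s_mul (i : Fin 5) (w : W) : len (s i * w) = len w + 1 ∨ len (s i * w) + 1 = len w :=
  cs.length_simple_mul w i

theorem len_mul_s (w : W) (i : Fin 5) : len (w * s i) = len w + 1 ∨ len (w * s i) + 1 = len w :=
  cs.length_mul_simple w i

/-- one step down on the right -/
theorem down (hR : RootFacts) (w : W) (i : Fin 5) (h : act w (al i) ≤ 0) :
    len w = len (w * s i) + 1 := by
  have := (hR.dnR w i).2 h
  rcases len_mul_s w i with h' | h' <;> omega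

/-- going down on the left in a reduced product -/
theorem left_down (y1 u : W) (n : ℕ) (hu : len u ≤ n) (hl : len (y1 * u) = len y1 + n)
    (i : Fin 5) (hi : len (s i * y1) < len y1) :
    len (s i * (y1 * u)) < len (y1 * u) ∧ len (s i * y1 * u) = len (s i * y1) + n := by
  have h1 : len (s i * y1 * u) ≤ len (s i * y1) + len u := len_mul_le _ _
  have h2 := len_s_mul i y1
  have h3 := len_s_mul i (y1 * u)
  rw [mul_assoc] at h1 ⊢
  omega

/-- positivity from lengths -/
theorem pos_of_len (hR : RootFacts) (z u w : W) (i : Fin 5) (n : ℕ) (hu : u = s i * w)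
    (hw : len w + 1 ≤ n) (hl : len (z * u) = len z + n) : 0 ≤ act z (al i) := by
  refine (hR.upR z i).1 ?_
  have h1 : len (z * s i * w) ≤ len (z * s i) + len w := len_mul_le _ _
  rw [mul_assoc, ← hu] at h1
  omega

theorem len_two (i j : Fin 5) : len (s i * s j) ≤ 2 :=
  (len_mul_le _ _).trans (by rw [len_s, len_s])

theorem len_three (i j k : Fin 5) : len (s i * (s j * s k)) ≤ 3 :=
  (len_mul_le _ _).trans (by rw [len_s]; have := len_two j k; omega)

theorem len_four (i j k l : Fin 5) : len (s i * (s j * (s k * s l))) ≤ 4 :=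
  (len_mul_le _ _).trans (by rw [len_s]; have := len_three j k l; omega)

theorem len_five (i j k l m : Fin 5) : len (s i * (s j * (s k * (s l * s m)))) ≤ 5 :=
  (len_mul_le _ _).trans (by rw [len_s]; have := len_four j k l m; omega)

theorem comm (hR : RootFacts) (i j : Fin 5) (h : refl i (al j) = al j) :
    s i * s j = s j * s i := hR.conj (s i) j j (by rw [hR.act_s]; exact h)

/-- conclusion of the module for one element -/
def Conc (y : W) : Prop := (∃ i, len (s i * y) < len y ∧ N1 (s i * y)) ∨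
    ∃ I ∈ BigI, ∀ i ∈ I, len (s i * (y * wK)) < len (y * wK)

theorem le_zero_of_add {x y : Q} (hx : 0 ≤ x) (h : x + y ≤ 0) : y ≤ 0 :=
  (le_add_of_nonneg_left hx).trans h

theorem act_inv (hR : RootFacts) (i : Fin 5) (w : W) (x : Q) :
    act (s i * w)⁻¹ x = act w⁻¹ (refl i x) := by
  rw [mul_inv_rev, s_inv, act_mul_s hR]

/-- type 1 -/
theorem type1 (hR : RootFacts) (c1 : Comb1Facts) (y : W) (hX : XK y) (h : Neg y (al 4)) :
    Conc y := by
  have hl := down hR y 4 h
  by_cases h1 : y * s 4 = 1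
  · right
    have hy : y = s 4 := by
      have h := congrArg (· * s 4) h1
      simp only [mul_assoc, hss, mul_one, one_mul] at h
      exact h
    refine ⟨{0, 1, 3, 4}, by decide, ?_⟩
    intro i hi
    rw [hR.dnL, hy, wK, act_inv hR, mul_assoc, act_inv hR, act_inv hR, s_inv, hR.act_s,
      Pi.le_def]
    revert i
    decide
  · left
    obtain ⟨i, hi⟩ := cs.exists_leftDescent_of_ne_one h1
    have hi' : len (s i * (y * s 4)) < len (y * s 4) := hi
    have hy : y = y * s 4 * s 4 := by rw [mul_assoc, hss, mul_one]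
    obtain ⟨h2, h3⟩ := left_down (y * s 4) (s 4) 1 (by rw [len_s]) (by rw [← hy]; omega) i hi'
    rw [← hy] at h2
    refine ⟨i, h2, c1.XK_down y i hX h2, Or.inl ?_⟩
    show act (s i * y) (al 4) ≤ 0
    refine (hR.dnR _ 4).1 ?_
    have h4 : s i * (y * s 4) * s 4 = s i * y := by
      rw [mul_assoc, mul_assoc, hss, mul_one]
    rw [h4] at h3
    rw [mul_assoc]
    omega

/-- all finite checks for type 2 -/
theorem checks (a b : Fin 5)
    (hab : (a, b) ∈ ({(0, 1), (0, 3), (1, 3)} : Finset (Fin 5 × Fin 5))) :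
    a ∈ ({0, 1, 3} : Finset (Fin 5)) ∧ b ∈ ({0, 1, 3} : Finset (Fin 5)) ∧
    refl 2 (al b) = al b + al 2 ∧ refl 2 (refl b (al a)) = al a + al 2 ∧
    refl 2 (refl b (refl a (al 2))) = al a + al b + al 2 ∧ {a, b, 2} ∈ BigI ∧
    (∀ i ∈ ({a, b, 2} : Finset (Fin 5)), ∀ k,
      (refl 3) ((refl 1) ((refl 0) ((refl 2) ((refl b) ((refl a) ((refl 2) (al i))))))) k ≤
        (0 : Q) k) ∧
    refl 2 (refl a (refl b (refl 2 (al a + al b + al 2)))) = -(al 2) := by
  revert a b
  decide

/-- type 2 -/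
theorem type2 (hR : RootFacts) (c1 : Comb1Facts) (y : W) (hX : XK y) (a b : Fin 5)
    (hab : (a, b) ∈ ({(0, 1), (0, 3), (1, 3)} : Finset (Fin 5 × Fin 5)))
    (h : Neg y (al a + al b + al 2))
    (hN : ∀ z, XK z → Neg z (al a + al b + al 2) → N1 z) :
    Conc y := by
  obtain ⟨k1, k2, k3, k4, k5, k6, k7, k8⟩ := checks a b hab
  have ha : 0 ≤ act y (al a) := hX a k1
  have hb : 0 ≤ act y (al b) := hX b k2
  have h' : act y (al a) + (act y (al b) + act y (al 2)) ≤ 0 := by
    rw [← map_add, ← map_add, ← add_assoc]; exact h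
  have h'' : act y (al b) + (act y (al a) + act y (al 2)) ≤ 0 := by
    rw [← add_assoc, add_comm (act y (al b)), add_assoc]; exact h'
  have nb : act y (al b + al 2) ≤ 0 := by rw [map_add]; exact le_zero_of_add ha h'
  have na : act y (al a + al 2) ≤ 0 := by rw [map_add]; exact le_zero_of_add hb h''
  have n2 : act y (al 2) ≤ 0 := le_zero_of_add ha (by rw [← map_add]; exact na)
  have l1 := down hR y 2 n2
  have l2 := down hR (y * s 2) b (by
    rw [act_mul_s hR, k3]
    exact nb)
  have l3 := down hR (y * s 2 * s b) a (by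
    rw [act_mul_s hR, act_mul_s hR, k4]
    exact na)
  have l4 := down hR (y * s 2 * s b * s a) 2 (by
    rw [act_mul_s hR, act_mul_s hR, act_mul_s hR, k5]
    exact h)
  set y1 : W := y * s 2 * s b * s a * s 2 with hy1
  have hy : y = y1 * (s 2 * (s a * (s b * s 2))) := by
    rw [hy1]
    simp only [mul_assoc]
    rw [← mul_assoc (s 2) (s 2), hss, one_mul, ← mul_assoc (s a) (s a), hss, one_mul,
      ← mul_assoc (s b) (s b), hss, one_mul, hss, mul_one]
  by_cases h1 : y1 = 1
  · right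
    rw [h1, one_mul] at hy
    refine ⟨{a, b, 2}, k6, ?_⟩
    intro i hi
    rw [hR.dnL, hy, wK]
    simp only [mul_assoc]
    rw [act_inv hR, act_inv hR, act_inv hR, act_inv hR, act_inv hR, act_inv hR, s_inv, hR.act_s]
    exact k7 i hi
  · left
    obtain ⟨i, hi⟩ := cs.exists_leftDescent_of_ne_one h1
    have hi' : len (s i * y1) < len y1 := hi
    obtain ⟨h2, h3⟩ := left_down y1 (s 2 * (s a * (s b * s 2))) 4 (len_four _ _ _ _)
      (by rw [← hy]; omega) i hi'
    have hp := pos_of_len hR (s i * y1) (s 2 * (s a * (s b * s 2))) (s a * (s b * s 2)) 2 4 rfl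
      (by have := len_three a b 2; omega) h3
    have hz : s i * y = s i * y1 * s 2 * s a * s b * s 2 := by
      conv_lhs => rw [hy]
      simp only [mul_assoc]
    rw [← hy] at h2
    refine ⟨i, h2, hN _ (c1.XK_down y i hX h2) ?_⟩
    show act (s i * y) (al a + al b + al 2) ≤ 0
    rw [hz, act_mul_s hR, act_mul_s hR, act_mul_s hR, act_mul_s hR, k8,
      map_neg]
    exact neg_nonpos.2 hp

/-- type 3 -/
theorem type3 (hR : RootFacts) (c1 : Comb1Facts) (y : W) (hX : XK y)
    (h0 : Neg y (al 0 + al 2)) (h1 : Neg y (al 1 + al 2)) (h3 : Neg y (al 3 + al 2))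
    (h4 : Neg y (al 2 + al 4)) : Conc y := by
  have p0 : 0 ≤ act y (al 0) := hX 0 (by decide)
  have n2 : act y (al 2) ≤ 0 := le_zero_of_add p0 (by rw [← map_add]; exact h0)
  have l1 := down hR y 2 n2
  have l2 := down hR (y * s 2) 3 (by
    rw [act_mul_s hR, show refl 2 (al 3) = al 3 + al 2 by decide]
    exact h3)
  have l3 := down hR (y * s 2 * s 3) 1 (by
    rw [act_mul_s hR, act_mul_s hR, show refl 2 (refl 3 (al 1)) = al 1 + al 2 by decide]
    exact h1)
  have l4 := down hR (y * s 2 * s 3 * s 1) 0 (by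
    rw [act_mul_s hR, act_mul_s hR, act_mul_s hR,
      show refl 2 (refl 3 (refl 1 (al 0))) = al 0 + al 2 by decide]
    exact h0)
  have l5 := down hR (y * s 2 * s 3 * s 1 * s 0) 4 (by
    rw [act_mul_s hR, act_mul_s hR, act_mul_s hR, act_mul_s hR,
      show refl 2 (refl 3 (refl 1 (refl 0 (al 4)))) = al 2 + al 4 by decide]
    exact h4)
  set y1 : W := y * s 2 * s 3 * s 1 * s 0 * s 4 with hy1
  have hy : y = y1 * (s 4 * (s 0 * (s 1 * (s 3 * s 2)))) := by
    rw [hy1]
    simp only [mul_assoc]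
    rw [← mul_assoc (s 4) (s 4), hss, one_mul, ← mul_assoc (s 0) (s 0), hss, one_mul,
      ← mul_assoc (s 1) (s 1), hss, one_mul, ← mul_assoc (s 3) (s 3), hss, one_mul, hss, mul_one]
  by_cases h1 : y1 = 1
  · right
    rw [h1, one_mul] at hy
    refine ⟨{0, 1, 3, 4}, by decide, ?_⟩
    intro i hi
    rw [hR.dnL, hy, wK]
    simp only [mul_assoc]
    rw [act_inv hR, act_inv hR, act_inv hR, act_inv hR, act_inv hR, act_inv hR, act_inv hR,
      s_inv, hR.act_s, Pi.le_def]
    revert i
    decide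
  · left
    obtain ⟨i, hi⟩ := cs.exists_leftDescent_of_ne_one h1
    have hi' : len (s i * y1) < len y1 := hi
    obtain ⟨g2, g3⟩ := left_down y1 (s 4 * (s 0 * (s 1 * (s 3 * s 2)))) 5 (len_five _ _ _ _ _)
      (by rw [← hy]; omega) i hi'
    have c40 : s 4 * s 0 = s 0 * s 4 := comm hR 4 0 (by decide)
    have c41 : s 4 * s 1 = s 1 * s 4 := comm hR 4 1 (by decide)
    have c43 : s 4 * s 3 = s 3 * s 4 := comm hR 4 3 (by decide)
    have c01 : s 0 * s 1 = s 1 * s 0 := comm hR 0 1 (by decide)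
    have c03 : s 0 * s 3 = s 3 * s 0 := comm hR 0 3 (by decide)
    have c13 : s 1 * s 3 = s 3 * s 1 := comm hR 1 3 (by decide)
    have e0 : s 4 * (s 0 * (s 1 * (s 3 * s 2))) = s 0 * (s 4 * (s 1 * (s 3 * s 2))) := by
      rw [← mul_assoc, c40, mul_assoc]
    have e1 : s 4 * (s 0 * (s 1 * (s 3 * s 2))) = s 1 * (s 4 * (s 0 * (s 3 * s 2))) := by
      rw [← mul_assoc (s 0), c01, mul_assoc, ← mul_assoc, c41, mul_assoc]
    have e3 : s 4 * (s 0 * (s 1 * (s 3 * s 2))) = s 3 * (s 4 * (s 0 * (s 1 * s 2))) := by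
      rw [← mul_assoc (s 1), c13, mul_assoc, ← mul_assoc (s 0), c03, mul_assoc, ← mul_assoc, c43,
        mul_assoc]
    have q0 := pos_of_len hR (s i * y1) _ _ 0 5 e0 (by have := len_four 4 1 3 2; omega) g3
    have q1 := pos_of_len hR (s i * y1) _ _ 1 5 e1 (by have := len_four 4 0 3 2; omega) g3
    have q3 := pos_of_len hR (s i * y1) _ _ 3 5 e3 (by have := len_four 4 0 1 2; omega) g3
    have q4 := pos_of_len hR (s i * y1) _ _ 4 5 rfl (by have := len_four 0 1 3 2; omega) g3
    have hz : s i * y = s i * y1 * s 4 * s 0 * s 1 * s 3 * s 2 := by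
      conv_lhs => rw [hy]
      simp only [mul_assoc]
    rw [← hy] at g2
    have hact : ∀ x, act (s i * y) x =
        act (s i * y1) (refl 4 (refl 0 (refl 1 (refl 3 (refl 2 x))))) := fun x => by
      rw [hz, act_mul_s hR, act_mul_s hR, act_mul_s hR, act_mul_s hR, act_mul_s hR]
    refine ⟨i, g2, c1.XK_down y i hX g2, Or.inr (Or.inr (Or.inr (Or.inr ⟨?_, ?_, ?_, ?_⟩)))⟩
    · show act (s i * y) (al 0 + al 2) ≤ 0
      rw [hact, show refl 4 (refl 0 (refl 1 (refl 3 (refl 2 (al 0 + al 2))))) = -(al 0) by decide,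
        map_neg]
      exact neg_nonpos.2 q0
    · show act (s i * y) (al 1 + al 2) ≤ 0
      rw [hact, show refl 4 (refl 0 (refl 1 (refl 3 (refl 2 (al 1 + al 2))))) = -(al 1) by decide,
        map_neg]
      exact neg_nonpos.2 q1
    · show act (s i * y) (al 3 + al 2) ≤ 0
      rw [hact, show refl 4 (refl 0 (refl 1 (refl 3 (refl 2 (al 3 + al 2))))) = -(al 3) by decide,
        map_neg]
      exact neg_nonpos.2 q3
    · show act (s i * y) (al 2 + al 4) ≤ 0
      rw [hact, show refl 4 (refl 0 (refl 1 (refl 3 (refl 2 (al 2 + al 4))))) = -(al 4) by decide,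
        map_neg]
      exact neg_nonpos.2 q4

end COMB2

open COMB2 in
/-- module COMB2 -/
theorem n1min (hR : RootFacts) (c1 : Comb1Facts) : N1MinStmt := by
  rintro y ⟨hX, h | h | h | h | ⟨h0, h1, h3, h4⟩⟩
  · exact type1 hR c1 y hX h
  · exact type2 hR c1 y hX 0 1 (by decide) h fun z hz h' => ⟨hz, Or.inr (Or.inl h')⟩
  · exact type2 hR c1 y hX 0 3 (by decide) h fun z hz h' => ⟨hz, Or.inr (Or.inr (Or.inl h'))⟩
  · exact type2 hR c1 y hX 1 3 (by decide) h
      fun z hz h' => ⟨hz, Or.inr (Or.inr (Or.inr (Or.inl h')))⟩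
  · exact type3 hR c1 y hX h0 h1 h3 h4

end Pool.Agent.Helper39.KL
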