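import Pool.Agent.Helper39.KL.Spec

/-!
# Module COMB3: classification of `Gamma1`
-/

namespace Pool.Agent.Helper39.KL

namespace COMB3

theorem act_mul_s (hR : RootFacts) (w : W) (i : Fin 5) (x : Q) :
    act (w * s i) x = act w (refl i x) := by
  rw [map_mul]
  show act w (act (s i) x) = _
  rw [hR.act_s]

/-- sign dichotomy in the form used here -/
theorem pos_of_not_neg (hR : RootFacts) (w : W) (x : Q) (hx : IsRoot x) (h : ¬ Neg w x) :
    Pos w x := by
  rcases hR.sign _ (hR.root_act w x hx) with h' | h'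
  · exact h'.1
  · exact absurd h'.1 h

theorem neg_of_not_pos (hR : RootFacts) (w : W) (x : Q) (hx : IsRoot x) (h : ¬ Pos w x) :
    Neg w x := by
  rcases hR.sign _ (hR.root_act w x hx) with h' | h'
  · exact absurd h'.1 h
  · exact h'.1

/-- an element positive on all simple roots is trivial -/
theorem eq_one (hR : RootFacts) (w : W) (h : ∀ i, Pos w (al i)) : w = 1 := by
  by_contra hne
  obtain ⟨i, hi⟩ := cs.exists_rightDescent_of_ne_one hne
  have h1 : act w (al i) ≤ 0 := (hR.dnR w i).1 hi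
  rcases hR.sign _ (hR.root_act w _ (hR.root_al i)) with h' | h'
  · exact h'.2 h1
  · exact h'.2 (h i)

end COMB3

open COMB3 in
/-- module COMB3 -/
theorem classify (hR : RootFacts) (_c1 : Comb1Facts) : ClassifyStmt := by
  rintro y ⟨hX, hN⟩
  have hss : ∀ i, s i * s i = 1 := fun i => cs.simple_mul_simple_self i
  have h0 : Pos y (al 0) := hX 0 (by decide)
  have h1 : Pos y (al 1) := hX 1 (by decide)
  have h3 : Pos y (al 3) := hX 3 (by decide)
  have h4 : Pos y (al 4) := pos_of_not_neg hR y _ (hR.root_al 4) fun h => hN ⟨hX, Or.inl h⟩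
  have h012 : Pos y (al 0 + al 1 + al 2) := pos_of_not_neg hR y _ (by unfold IsRoot; decide)
    fun h => hN ⟨hX, Or.inr (Or.inl h)⟩
  have h032 : Pos y (al 0 + al 3 + al 2) := pos_of_not_neg hR y _ (by unfold IsRoot; decide)
    fun h => hN ⟨hX, Or.inr (Or.inr (Or.inl h))⟩
  have h132 : Pos y (al 1 + al 3 + al 2) := pos_of_not_neg hR y _ (by unfold IsRoot; decide)
    fun h => hN ⟨hX, Or.inr (Or.inr (Or.inr (Or.inl h)))⟩
  by_cases p0 : Pos y (al 0 + al 2)
  · exact Or.inl ⟨hX, h4, p0, h132⟩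
  by_cases p1 : Pos y (al 1 + al 2)
  · exact Or.inr (Or.inl ⟨hX, h4, p1, h032⟩)
  by_cases p3 : Pos y (al 3 + al 2)
  · exact Or.inr (Or.inr (Or.inl ⟨hX, h4, p3, h012⟩))
  have n0 := neg_of_not_pos hR y _ (by unfold IsRoot; decide) p0
  have n1 := neg_of_not_pos hR y _ (by unfold IsRoot; decide) p1
  have n3 := neg_of_not_pos hR y _ (by unfold IsRoot; decide) p3
  have h24 : Pos y (al 2 + al 4) := pos_of_not_neg hR y _ (by unfold IsRoot; decide)
    fun h => hN ⟨hX, Or.inr (Or.inr (Or.inr (Or.inr ⟨n0, n1, n3, h⟩)))⟩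
  refine Or.inr (Or.inr (Or.inr ?_))
  -- the element y'
  set y' : W := y * s 2 * s 3 * s 1 * s 0 with hy'
  have act' : ∀ x, act y' x = act y (refl 2 (refl 3 (refl 1 (refl 0 x)))) := fun x => by
    rw [hy', act_mul_s hR, act_mul_s hR, act_mul_s hR, act_mul_s hR]
  have yy' : y = y' * x0 := by
    rw [hy', x0]
    simp only [mul_assoc]
    rw [← mul_assoc (s 0) (s 0), hss, one_mul, ← mul_assoc (s 1) (s 1), hss, one_mul,
      ← mul_assoc (s 3) (s 3), hss, one_mul, hss, mul_one]
  have q0 : Pos y' (al 0) := by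
    show 0 ≤ act y' (al 0)
    rw [act', show refl 2 (refl 3 (refl 1 (refl 0 (al 0)))) = -(al 0 + al 2) by decide, map_neg]
    exact neg_nonneg.2 n0
  have q1 : Pos y' (al 1) := by
    show 0 ≤ act y' (al 1)
    rw [act', show refl 2 (refl 3 (refl 1 (refl 0 (al 1)))) = -(al 1 + al 2) by decide, map_neg]
    exact neg_nonneg.2 n1
  have q3 : Pos y' (al 3) := by
    show 0 ≤ act y' (al 3)
    rw [act', show refl 2 (refl 3 (refl 1 (refl 0 (al 3)))) = -(al 3 + al 2) by decide, map_neg]
    exact neg_nonneg.2 n3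
  have q4 : Pos y' (al 4) := by
    show 0 ≤ act y' (al 4)
    rw [act', show refl 2 (refl 3 (refl 1 (refl 0 (al 4)))) = al 2 + al 4 by decide]
    exact h24
  have q02 : Pos y' (al 0 + al 2) := by
    show 0 ≤ act y' (al 0 + al 2)
    rw [act', show refl 2 (refl 3 (refl 1 (refl 0 (al 0 + al 2)))) = al 1 + al 3 + al 2 by decide]
    exact h132
  have q12 : Pos y' (al 1 + al 2) := by
    show 0 ≤ act y' (al 1 + al 2)
    rw [act', show refl 2 (refl 3 (refl 1 (refl 0 (al 1 + al 2)))) = al 0 + al 3 + al 2 by decide]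
    exact h032
  have q32 : Pos y' (al 3 + al 2) := by
    show 0 ≤ act y' (al 3 + al 2)
    rw [act', show refl 2 (refl 3 (refl 1 (refl 0 (al 3 + al 2)))) = al 0 + al 1 + al 2 by decide]
    exact h012
  by_cases q2 : Pos y' (al 2)
  · left
    have : y' = 1 := eq_one hR y' (by
      intro i
      fin_cases i
      exacts [q0, q1, q2, q3, q4])
    rw [yy', this, one_mul]
  right
  have m2 := neg_of_not_pos hR y' _ (hR.root_al 2) q2
  set y2 : W := y' * s 2 with hy2
  have act2 : ∀ x, act y2 x = act y' (refl 2 x) := fun x => by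
    rw [hy2, act_mul_s hR]
  have y'y2 : y' = y2 * s 2 := by
    rw [hy2, mul_assoc, hss, mul_one]
  have r0 : Pos y2 (al 0) := by
    show 0 ≤ act y2 (al 0)
    rw [act2, show refl 2 (al 0) = al 0 + al 2 by decide]
    exact q02
  have r1 : Pos y2 (al 1) := by
    show 0 ≤ act y2 (al 1)
    rw [act2, show refl 2 (al 1) = al 1 + al 2 by decide]
    exact q12
  have r3 : Pos y2 (al 3) := by
    show 0 ≤ act y2 (al 3)
    rw [act2, show refl 2 (al 3) = al 3 + al 2 by decide]
    exact q32
  have r2 : Pos y2 (al 2) := by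
    show 0 ≤ act y2 (al 2)
    rw [act2, show refl 2 (al 2) = -(al 2) by decide, map_neg]
    exact neg_nonneg.2 m2
  by_cases r4 : Pos y2 (al 4)
  · left
    have : y2 = 1 := eq_one hR y2 (by
      intro i
      fin_cases i
      exacts [r0, r1, r2, r3, r4])
    rw [yy', y'y2, this, one_mul]
  right
  have m4 := neg_of_not_pos hR y2 _ (hR.root_al 4) r4
  have act3 : ∀ x, act (y2 * s 4) x = act y2 (refl 4 x) := fun x => act_mul_s hR _ _ _
  have : y2 * s 4 = 1 := eq_one hR _ (by
    intro i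
    fin_cases i
    · show 0 ≤ act (y2 * s 4) (al 0)
      rw [act3, show refl 4 (al 0) = al 0 by decide]
      exact r0
    · show 0 ≤ act (y2 * s 4) (al 1)
      rw [act3, show refl 4 (al 1) = al 1 by decide]
      exact r1
    · show 0 ≤ act (y2 * s 4) (al 2)
      rw [act3, act2, show refl 2 (refl 4 (al 2)) = al 4 by decide]
      exact q4
    · show 0 ≤ act (y2 * s 4) (al 3)
      rw [act3, show refl 4 (al 3) = al 3 by decide]
      exact r3
    · show 0 ≤ act (y2 * s 4) (al 4)
      rw [act3, show refl 4 (al 4) = -(al 4) by decide, map_neg]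
      exact neg_nonneg.2 m4)
  have e2 : y2 = s 4 := by
    have h := congrArg (· * s 4) this
    simp only [mul_assoc, hss, mul_one, one_mul] at h
    exact h
  rw [yy', y'y2, e2]

end Pool.Agent.Helper39.KL
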