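import Pool.Agent.Helper39.KL.Spec

/-!
# Module CLOS: the set `Nhat` is closed under the left preorder
-/

namespace Pool.Agent.Helper39.KL

open Finset

namespace CLOS

lemma s_sq (i : Fin 5) : s i * s i = 1 := cs.simple_mul_simple_self i

lemma comm01 (hR : RootFacts) : s 0 * s 1 = s 1 * s 0 :=
  hR.conj (s 0) 1 1 (by rw [hR.act_s]; decide)

lemma comm03 (hR : RootFacts) : s 0 * s 3 = s 3 * s 0 :=
  hR.conj (s 0) 3 3 (by rw [hR.act_s]; decide)

lemma comm13 (hR : RootFacts) : s 1 * s 3 = s 3 * s 1 :=
  hR.conj (s 1) 3 3 (by rw [hR.act_s]; decide)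

lemma wK_sq (hR : RootFacts) : wK * wK = 1 := by
  have h : wK * wK = s 0 * s 1 * (s 3 * s 0) * (s 1 * s 3) := by
    simp only [wK, mul_assoc]
  rw [h, ← comm03 hR, comm13 hR]
  have h2 : s 0 * s 1 * (s 0 * s 3) * (s 3 * s 1) = s 0 * s 1 * s 0 * (s 3 * s 3) * s 1 := by
    simp only [mul_assoc]
  rw [h2, s_sq, mul_one, comm01 hR]
  have h3 : s 1 * s 0 * s 0 * s 1 = s 1 * (s 0 * s 0) * s 1 := by simp only [mul_assoc]
  rw [h3, s_sq, mul_one, s_sq]

lemma mul_wK_wK (hR : RootFacts) (z : W) : z * wK * wK = z := by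
  rw [mul_assoc, wK_sq hR, mul_one]

lemma len_up {w : W} {i : Fin 5} (h : len w < len (w * s i)) : len (w * s i) = len w + 1 := by
  rcases cs.length_mul_simple w i with h1 | h1
  · exact h1
  · have h2 : len (w * s i) + 1 = len w := h1
    omega

lemma lenK (hR : RootFacts) {y : W} (hy : XK y) : len (y * wK) = len y + 3 := by
  have h0 : len (y * s 0) = len y + 1 := len_up ((hR.upR y 0).2 (hy 0 (by decide)))
  have h1 : len (y * s 0 * s 1) = len (y * s 0) + 1 := len_up ((hR.upR _ 1).2 (by
    have h : act (y * s 0) (al 1) = act y (al 1) := by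
      have h2 : refl 0 (al 1) = al 1 := by decide
      rw [map_mul, Module.End.mul_apply, hR.act_s, h2]
    rw [h]; exact hy 1 (by decide)))
  have h3 : len (y * s 0 * s 1 * s 3) = len (y * s 0 * s 1) + 1 := len_up ((hR.upR _ 3).2 (by
    have h : act (y * s 0 * s 1) (al 3) = act y (al 3) := by
      have h2 : refl 0 (refl 1 (al 3)) = al 3 := by decide
      rw [map_mul, map_mul, Module.End.mul_apply, Module.End.mul_apply, hR.act_s, hR.act_s, h2]
    rw [h]; exact hy 3 (by decide)))
  have h : y * wK = y * s 0 * s 1 * s 3 := by simp only [wK, mul_assoc]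
  rw [h, h3, h1, h0]

/-- `Phi` as an additive map -/
noncomputable def PhiHom (hP : PhiStmt) {X : Type} (V : BMod X) (e : X →₀ A) : H →+ (X →₀ A) where
  toFun := V.Phi e
  map_zero' := by
    have h := (hP V e).1 0 0
    rw [zero_smul, zero_smul] at h
    exact h
  map_add' := (hP V e).2.1

/-- a coefficient as an additive map -/
noncomputable def cf {X : Type} (g : X) (n : ℤ) : (X →₀ A) →+ ℤ where
  toFun x := (x g).coeff n
  map_zero' := rfl
  map_add' _ _ := rfl

lemma cf_zsmul {X : Type} (g : X) (n : ℤ) (a : ℤ) (x : X →₀ A) :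
    cf g n (a • x) = a * cf g n x := by
  rw [map_zsmul, smul_eq_mul]

lemma cast_ne {a : ℤ} (ha : a ≠ 0) : (a : A) ≠ 0 := by
  intro h
  apply ha
  have h1 : (a : A) = LaurentPolynomial.C a := by
    rw [← map_intCast (LaurentPolynomial.C : ℤ →+* A) a, Int.cast_id]
  have h2 := congrArg (fun p : A => p.coeff 0) h
  simp only [h1, LaurentPolynomial.C_apply, if_true] at h2
  rw [h2]
  rfl

/-- the expansion of `(L i + vi) C_w` as a linear combination -/
lemma expand (C : W → H) (m : W →₀ ℤ) (z : W) :
    Finsupp.linearCombination A C (Finsupp.single z 1 + m.mapRange (fun a : ℤ => (a : A)) (by simp))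
      = C z + m.sum fun y a => a • C y := by
  rw [map_add, Finsupp.linearCombination_single, one_smul, Finsupp.linearCombination_apply,
    Finsupp.sum_mapRange_index (by intro a; exact zero_smul _ _)]
  congr 1
  refine Finsupp.sum_congr fun y _ => ?_
  exact Int.cast_smul_eq_zsmul A (m y) (C y)

end CLOS

open CLOS in
lemma CLOS.step (hR : RootFacts) (hP : PhiStmt) (hK2 : KL2Facts) (hS : StarFacts)
    (c1 : Comb1Facts) (hab : ABFacts) (hlead : LeadStmt) (hind : IndStmt)
    (hVe : VeigStmt) (hVr : VrelStmt) (hVn : VnoeigStmt) (hVd : VdeltaStmt)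
    (hAl : AutLamStmt) (hAd : AutDeltaStmt) (C : W → H) (hC : IsKL C) (z' : W) (hz' : Nhat z')
    (i : Fin 5) (hup : len z' < len (s i * z'))
    (hPhi : ∀ {X : Type} (G : Good X), G.Phi G.e (C z') = 0) :
    Nhat (s i * z') ∧ ∃ m : W →₀ ℤ, (∀ t, m t ≠ 0 → len t < len z' ∧ Nhat t) ∧
      L i (C z') + vi • C z' = C (s i * z') + m.sum fun y a => a • C y := by
  obtain ⟨m, hm, -, hmul⟩ := hK2.mulL C hC z' i hup
  have hcoef : ∀ t, (Finsupp.single (s i * z') 1 +
      m.mapRange (fun a : ℤ => (a : A)) (by simp) : W →₀ A) t ≠ 0 → LStep C t z' := by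
    intro t ht
    exact ⟨i, _, by rw [hmul, expand], ht⟩
  -- the right descents
  have hdesc : ∀ t, LStep C t z' → ∀ k ∈ ({0, 1, 3} : Finset (Fin 5)), Neg t (al k) := by
    intro t ht k hk
    have h1 := hz'.1 k hk
    exact (hR.dnR t k).1 (hS.mono C hC t z' ht k ((hR.dnR z' k).2 h1))
  have hzne : m (s i * z') = 0 := by
    by_contra h
    have := (hm _ h).1
    omega
  have hzL : LStep C (s i * z') z' := hcoef _ (by
    rw [Finsupp.add_apply, Finsupp.single_eq_same, Finsupp.mapRange_apply, hzne]
    simp)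
  have htL : ∀ t, m t ≠ 0 → LStep C t z' := by
    intro t ht
    apply hcoef
    have hne : s i * z' ≠ t := by
      rintro rfl
      exact ht hzne
    rw [Finsupp.add_apply, Finsupp.single_eq_of_ne' hne, Finsupp.mapRange_apply, zero_add]
    exact cast_ne ht
  have hy' : N1 (z' * wK) := hz'.2
  have hz'len : len z' = len (z' * wK) + 3 := by
    have h := lenK hR hy'.1
    rwa [mul_wK_wK hR] at h
  have hzd := hdesc _ hzL
  have hzX : XK (s i * z' * wK) := c1.Nhat_inv _ hzd
  have hzlen : len (s i * z') = len (s i * z' * wK) + 3 := by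
    have h := lenK hR hzX
    rwa [mul_wK_wK hR] at h
  have hzN : N1 (s i * z' * wK) := by
    rw [mul_assoc]
    refine c1.N1_up _ i hy' ?_ ?_
    · rw [← mul_assoc]; omega
    · rw [← mul_assoc]; exact hzX
  refine ⟨⟨hzd, hzN⟩, m, ?_, hmul⟩
  -- the leading coefficients
  have hXt : ∀ t, m t ≠ 0 → XK (t * wK) := fun t ht => c1.Nhat_inv _ (hdesc t (htL t ht))
  have hlc : ∀ {X : Type} (G : Good X) (g : X),
      (m.sum fun t a => a * (G.T (t * wK) G.e g).coeff 0) = 0 := by
    intro X G g
    have h1 : G.Phi G.e (L i (C z') + vi • C z') = 0 := by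
      rw [(hP G.toBMod G.e).2.1, (hP G.toBMod G.e).2.2.2, (hP G.toBMod G.e).1, hPhi G, map_zero,
        smul_zero, add_zero]
    rw [hmul, (hP G.toBMod G.e).2.1] at h1
    have h2 : G.Phi G.e (m.sum fun y a => a • C y) = m.sum fun y a => a • G.Phi G.e (C y) := by
      have h3 := map_finsuppSum (PhiHom hP G.toBMod G.e) m (fun y a => a • C y)
      have h4 : (PhiHom hP G.toBMod G.e) (m.sum fun y a => a • C y) =
        G.Phi G.e (m.sum fun y a => a • C y) := rfl
      rw [← h4, h3]
      refine Finsupp.sum_congr fun y _ => ?_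
      exact map_zsmul (PhiHom hP G.toBMod G.e) _ _
    rw [h2] at h1
    have h3 := congrArg (cf g 3) h1
    have h5 : cf g 3 (G.Phi G.e (C (s i * z'))) = 0 := by
      show (G.Phi G.e (C (s i * z')) g).coeff 3 = 0
      rw [(hlead C hC G (s i * z') hzd).2 g]
      exact hab.B0 G _ hzN g 0 (by norm_num)
    rw [map_add, h5, zero_add, map_zero, map_finsuppSum] at h3
    refine Eq.trans ?_ h3
    refine Finset.sum_congr rfl fun t ht => ?_
    simp only
    rw [cf_zsmul]
    congr 1
    exact ((hlead C hC G t (hdesc t (htL t (Finsupp.mem_support_iff.1 ht)))).2 g).symm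
  -- restriction to `Gamma1`
  classical
  let P : W → Prop := fun t => G1 (t * wK)
  let f : W → W := fun t => t * wK
  have hf : Function.Injective f := mul_left_injective wK
  have hsum : ∀ {X : Type} (G : Good X) (g : X),
      (((m.filter P).mapDomain f).sum fun y a => a * (G.T y G.e g).coeff 0) = 0 := by
    intro X G g
    rw [Finsupp.sum_mapDomain_index (by intro y; exact zero_mul _)
      (by intro y a b; exact add_mul _ _ _), Finsupp.sum_filter_index]
    refine Eq.trans ?_ (hlc G g)
    refine Finset.sum_subset ?_ ?_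
    · intro t ht
      rw [Finsupp.support_filter, Finset.mem_filter] at ht
      exact ht.1
    · intro t ht hnt
      have hnP : ¬ P t := fun h => hnt (by
        rw [Finsupp.support_filter, Finset.mem_filter]; exact ⟨ht, h⟩)
      have hN : N1 (t * wK) := by
        by_contra h
        exact hnP ⟨hXt t (Finsupp.mem_support_iff.1 ht), h⟩
      have h0 : (G.T (f t) G.e g).coeff 0 = 0 := hab.B0 G _ hN g 0 (by norm_num)
      rw [h0, mul_zero]
  have hzero : (m.filter P).mapDomain f = 0 := by
    apply hind
    · intro y hy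
      have h1 := Finsupp.mapDomain_support (Finsupp.mem_support_iff.2 hy)
      rw [Finset.mem_image] at h1
      obtain ⟨t, ht, rfl⟩ := h1
      rw [Finsupp.support_filter, Finset.mem_filter] at ht
      exact ht.2
    · intro j hj V hV g
      let G : Good W :=
        { V with
          e := eV
          eps := 1
          eK := fun i hi => by
            show V.t i eV = v • eV
            rw [hV]; exact (hVe j hj).1 i hi
          e4 := by
            show V.t 4 eV = -(vi • eV)
            rw [hV]; exact (hVe j hj).2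
          relx := by
            have h1 := hVr j hj V hV
            simpa using h1
          noEig := fun I hI u hu => hVn j hj I hI u fun i hi => by
            have h1 := hu i hi
            rw [← hV]; exact h1
          bound := fun y hy => hAl j hj V hV y hy }
      exact hsum G g
    · intro V hV g
      obtain ⟨V', hV', he, h4, hr, hn⟩ := hVd
      have hVV : V.t = V'.t := by rw [hV, hV']
      obtain rfl : V = V' := by
        cases V; cases V'; cases hVV; rfl
      let G : Good (Fin 3) :=
        { V with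
          e := eD
          eps := -1
          eK := he
          e4 := h4
          relx := by simpa using hr
          noEig := hn
          bound := fun y hy => hAd V hV y hy }
      exact hsum G g
  have hfz : m.filter P = 0 := Finsupp.mapDomain_injective hf (by rw [hzero, Finsupp.mapDomain_zero])
  intro t ht
  refine ⟨(hm t ht).1, hdesc t (htL t ht), ?_⟩
  by_contra hN
  have h1 : P t := ⟨hXt t ht, hN⟩
  have h2 : (m.filter P) t = m t := Finsupp.filter_apply_pos P m h1
  rw [hfz] at h2
  exact ht h2.symm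

open CLOS in
lemma CLOS.claim1 (hR : RootFacts) (hP : PhiStmt) (hK2 : KL2Facts) (hS : StarFacts)
    (c1 : Comb1Facts) (hmin : N1MinStmt) (hab : ABFacts) (hlead : LeadStmt) (hind : IndStmt)
    (hVe : VeigStmt) (hVr : VrelStmt) (hVn : VnoeigStmt) (hVd : VdeltaStmt)
    (hAl : AutLamStmt) (hAd : AutDeltaStmt) (C : W → H) (hC : IsKL C) (n : ℕ) :
    ∀ z, len z ≤ n → Nhat z → ∀ {X : Type} (G : Good X), G.Phi G.e (C z) = 0 := by
  induction n using Nat.strong_induction_on with
  | _ n ih =>
  intro z hzn hz X G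
  rcases hmin _ hz.2 with ⟨i, hi, hN⟩ | ⟨I, hI, hdesc⟩
  · -- a smaller element
    have hz' : Nhat (s i * z) := by
      have h1 := c1.Nhat_iff _ hN.1
      have h2 : s i * (z * wK) * wK = s i * z := by
        rw [← mul_assoc, mul_wK_wK hR]
      rw [h2] at h1
      refine ⟨h1, ?_⟩
      rw [mul_assoc]; exact hN
    have hl1 : len z = len (z * wK) + 3 := by
      have h := lenK hR hz.2.1
      rwa [mul_wK_wK hR] at h
    have hl2 : len (s i * z) = len (s i * (z * wK)) + 3 := by
      have h := lenK hR hN.1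
      rwa [← mul_assoc, mul_wK_wK hR, mul_assoc] at h
    have hcancel : s i * (s i * z) = z := by rw [← mul_assoc, s_sq, one_mul]
    have hup : len (s i * z) < len (s i * (s i * z)) := by rw [hcancel]; omega
    have hPhi' : ∀ {X : Type} (G : Good X), G.Phi G.e (C (s i * z)) = 0 := fun G =>
      ih (len (s i * z)) (by omega) _ le_rfl hz' G
    obtain ⟨-, m, hm, hmul⟩ := CLOS.step hR hP hK2 hS c1 hab hlead hind hVe hVr hVn hVd hAl hAd
      C hC (s i * z) hz' i hup hPhi'
    rw [hcancel] at hmul
    have h1 : G.Phi G.e (L i (C (s i * z)) + vi • C (s i * z)) = 0 := by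
      rw [(hP G.toBMod G.e).2.1, (hP G.toBMod G.e).2.2.2, (hP G.toBMod G.e).1, hPhi' G, map_zero,
        smul_zero, add_zero]
    have h2 : (PhiHom hP G.toBMod G.e) (m.sum fun y a => a • C y) = 0 := by
      rw [map_finsuppSum]
      refine Finset.sum_eq_zero fun t ht => ?_
      have ht' := hm t (Finsupp.mem_support_iff.1 ht)
      have h3 : PhiHom hP G.toBMod G.e (C t) = 0 :=
        ih (len t) (by omega) t le_rfl ht'.2 G
      simp only
      rw [map_zsmul, h3, smul_zero]
    rw [hmul, (hP G.toBMod G.e).2.1] at h1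
    have h3 : G.Phi G.e (m.sum fun y a => a • C y) = 0 := h2
    rwa [h3, add_zero] at h1
  · -- a minimal element
    apply G.noEig I hI
    intro i hi
    have h1 := hdesc i hi
    rw [mul_wK_wK hR] at h1
    rw [← (hP G.toBMod G.e).2.2.2, hK2.eigL C hC z i h1, (hP G.toBMod G.e).1]

open CLOS in
theorem closStmt (hR : RootFacts) (hP : PhiStmt) (hK1 : KL1Facts) (hK2 : KL2Facts) (hS : StarFacts)
    (c1 : Comb1Facts) (hmin : N1MinStmt) (hab : ABFacts) (hlead : LeadStmt) (hind : IndStmt)
    (hVe : VeigStmt) (hVr : VrelStmt) (hVn : VnoeigStmt) (hVd : VdeltaStmt)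
    (hAl : AutLamStmt) (hAd : AutDeltaStmt) : ClosStmt := by
  intro C hC z hz y hy
  obtain ⟨i, c, hc, hcy⟩ := hy
  have hinj : Function.Injective (Finsupp.linearCombination A C) := hK1.linInd C hC
  rcases lt_or_gt_of_ne (cs.length_simple_mul_ne z i) with h | h
  · -- descent
    have h' : len (s i * z) < len z := h
    rw [hK2.eigL C hC z i h', ← add_smul, ← Finsupp.linearCombination_single] at hc
    have hc' := hinj hc
    rw [← hc'] at hcy
    by_cases hzy : z = y
    · rw [← hzy]; exact hz
    · exact absurd (Finsupp.single_eq_of_ne' hzy) hcy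
  · have h' : len z < len (s i * z) := h
    obtain ⟨hN, m, hm, hmul⟩ := CLOS.step hR hP hK2 hS c1 hab hlead hind hVe hVr hVn hVd hAl hAd
      C hC z hz i h' (fun G => CLOS.claim1 hR hP hK2 hS c1 hmin hab hlead hind hVe hVr hVn hVd
        hAl hAd C hC (len z) z le_rfl hz G)
    rw [hmul, ← expand] at hc
    have hc' := hinj hc
    rw [← hc'] at hcy
    by_cases hzy : s i * z = y
    · rw [← hzy]; exact hN
    · rw [Finsupp.add_apply, Finsupp.single_eq_of_ne' hzy, Finsupp.mapRange_apply, zero_add] at hcy
      exact (hm y (fun h0 => hcy (by rw [h0]; simp))).2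

end Pool.Agent.Helper39.KL
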