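import Pool.Agent.Helper39.KL.Spec

/-!
# Module COMB1
-/

namespace Pool.Agent.Helper39.KL

namespace COMB1

theorem act_mul (u w : W) (x : Q) : act (u * w) x = act u (act w x) := by
  rw [map_mul]; rfl

theorem act_inv_act (w : W) (x : Q) : act w⁻¹ (act w x) = x := by
  rw [← act_mul, inv_mul_cancel, map_one]; rfl

theorem refl_apply (i : Fin 5) (x : Q) (k : Fin 5) :
    refl i x k = x k - if k = i then ∑ j, cart i j * x j else 0 := rfl

theorem refl_ne {i k : Fin 5} (h : k ≠ i) (x : Q) : refl i x k = x k := by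
  rw [refl_apply, if_neg h, sub_zero]

/-- a positive root which becomes negative under `refl i` is `al i` -/
theorem eq_al (hR : RootFacts) (i : Fin 5) (x : Q) (hx : IsRoot x) (h0 : 0 ≤ x)
    (h1 : ¬ 0 ≤ refl i x) : x = al i := by
  have hr : IsRoot (refl i x) := by
    rw [← hR.act_s]; exact hR.root_act _ _ hx
  have hn : refl i x ≤ 0 := by
    rcases hR.sign _ hr with h | h
    · exact absurd h.1 h1
    · exact h.1
  have hz : ∀ k, k ≠ i → x k = 0 := by
    intro k hk
    have a1 := hn k
    rw [refl_ne hk] at a1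
    have a2 := h0 k
    simp only [Pi.zero_apply] at a1 a2
    omega
  have hi : 0 ≤ x i := h0 i
  have hxi : x i = 1 := by
    unfold IsRoot at hx
    fin_cases i
    · have h1 := hz 1 (by decide)
      have h2 := hz 2 (by decide)
      have h3 := hz 3 (by decide)
      have h4 := hz 4 (by decide)
      rw [h1, h2, h3, h4] at hx
      simp only [Fin.zero_eta, Fin.isValue] at hi ⊢
      nlinarith
    · have h1 := hz 0 (by decide)
      have h2 := hz 2 (by decide)
      have h3 := hz 3 (by decide)
      have h4 := hz 4 (by decide)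
      rw [h1, h2, h3, h4] at hx
      simp only [Fin.mk_one, Fin.isValue] at hi ⊢
      nlinarith
    · have h1 := hz 0 (by decide)
      have h2 := hz 1 (by decide)
      have h3 := hz 3 (by decide)
      have h4 := hz 4 (by decide)
      rw [h1, h2, h3, h4] at hx
      simp only [Fin.reduceFinMk, Fin.isValue] at hi ⊢
      nlinarith
    · have h1 := hz 0 (by decide)
      have h2 := hz 1 (by decide)
      have h3 := hz 2 (by decide)
      have h4 := hz 4 (by decide)
      rw [h1, h2, h3, h4] at hx
      simp only [Fin.reduceFinMk, Fin.isValue] at hi ⊢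
      nlinarith
    · have h1 := hz 0 (by decide)
      have h2 := hz 1 (by decide)
      have h3 := hz 2 (by decide)
      have h4 := hz 3 (by decide)
      rw [h1, h2, h3, h4] at hx
      simp only [Fin.reduceFinMk, Fin.isValue] at hi ⊢
      nlinarith
  funext k
  by_cases hk : k = i
  · subst hk; rw [hxi]; simp [al]
  · rw [hz k hk]; simp [al, hk]

theorem pos_down (hR : RootFacts) (y : W) (i : Fin 5) (x : Q) (hx : IsRoot x) (hx0 : 0 ≤ x)
    (hy : Pos y x) (hl : len (s i * y) < len y) : Pos (s i * y) x := by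
  unfold Pos at *
  by_contra hc
  rw [act_mul, hR.act_s] at hc
  have h1 := eq_al hR i _ (hR.root_act y x hx) hy hc
  have h2 := (hR.dnL y i).1 hl
  rw [← h1, act_inv_act] at h2
  rcases hR.sign x hx with h | h
  · exact h.2 h2
  · exact h.2 hx0

theorem root_neg (x : Q) (hx : IsRoot x) : IsRoot (-x) := by
  unfold IsRoot at *
  simp only [Pi.neg_apply]
  nlinarith

theorem neg_up (hR : RootFacts) (y : W) (i : Fin 5) (x : Q) (hx : IsRoot x) (hx0 : 0 ≤ x)
    (hy : Neg y x) (hl : len y < len (s i * y)) : Neg (s i * y) x := by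
  unfold Neg at *
  by_contra hc
  rw [act_mul, hR.act_s] at hc
  have h1 := eq_al hR i (-(act y x)) (root_neg _ (hR.root_act y x hx)) (by
      intro k; have := hy k; simp only [Pi.zero_apply, Pi.neg_apply] at *; omega) (by
      intro h; apply hc
      rw [map_neg] at h
      intro k; have := h k; simp only [Pi.zero_apply, Pi.neg_apply] at *; omega)
  have h2 := (hR.upL y i).1 hl
  rw [← h1, map_neg, act_inv_act] at h2
  have h3 : x ≤ 0 := by
    intro k; have := h2 k; simp only [Pi.zero_apply, Pi.neg_apply] at *; omega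
  rcases hR.sign x hx with h | h
  · exact h.2 h3
  · exact h.2 hx0

theorem XK_down (hR : RootFacts) (y : W) (i : Fin 5) (hy : XK y) (hl : len (s i * y) < len y) :
    XK (s i * y) := by
  intro j hj
  exact pos_down hR y i (al j) (hR.root_al j) (by
    intro k; simp only [Pi.zero_apply, al, Pi.single_apply]; split_ifs <;> norm_num) (hy j hj) hl

instance decRoot (x : Q) : Decidable (IsRoot x) := by unfold IsRoot; infer_instance

instance decLE (x y : Q) : Decidable (x ≤ y) := decidable_of_iff (∀ k, x k ≤ y k) Iff.rfl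

theorem N1_up (hR : RootFacts) (y : W) (i : Fin 5) (hy : N1 y) (hl : len y < len (s i * y))
    (hX : XK (s i * y)) : N1 (s i * y) := by
  have key : ∀ x, IsRoot x → 0 ≤ x → Neg y x → Neg (s i * y) x :=
    fun x h1 h2 h3 => neg_up hR y i x h1 h2 h3 hl
  refine ⟨hX, ?_⟩
  rcases hy.2 with h | h | h | h | ⟨h1, h2, h3, h4⟩
  · exact Or.inl (key _ (by decide) (by decide) h)
  · exact Or.inr (Or.inl (key _ (by decide) (by decide) h))
  · exact Or.inr (Or.inr (Or.inl (key _ (by decide) (by decide) h)))
  · exact Or.inr (Or.inr (Or.inr (Or.inl (key _ (by decide) (by decide) h))))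
  · exact Or.inr (Or.inr (Or.inr (Or.inr ⟨key _ (by decide) (by decide) h1,
      key _ (by decide) (by decide) h2, key _ (by decide) (by decide) h3,
      key _ (by decide) (by decide) h4⟩)))

theorem s_mul_s (i : Fin 5) (y : W) : s i * (s i * y) = y := by
  rw [← mul_assoc]
  unfold s
  rw [cs.simple_mul_simple_self, one_mul]

theorem G1_down (hR : RootFacts) (y : W) (i : Fin 5) (hy : G1 y) (hl : len (s i * y) < len y) :
    G1 (s i * y) := by
  refine ⟨XK_down hR y i hy.1 hl, fun hn => hy.2 ?_⟩
  have h := N1_up hR (s i * y) i hn (by rw [s_mul_s]; exact hl) (by rw [s_mul_s]; exact hy.1)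
  rwa [s_mul_s] at h

/-- the action of a word -/
def rw_ (l : List (Fin 5)) (x : Q) : Q := l.foldr (fun i y => refl i y) x

theorem act_word (hR : RootFacts) (l : List (Fin 5)) (x : Q) :
    act ((l.map s).prod) x = rw_ l x := by
  induction l with
  | nil => simp [rw_]
  | cons i l ih =>
    rw [List.map_cons, List.prod_cons, act_mul, ih, hR.act_s]; rfl

/-- decidable versions -/
def XKd (f : Q → Q) : Prop := ∀ i ∈ ({0, 1, 3} : Finset (Fin 5)), 0 ≤ f (al i)

def N1d (f : Q → Q) : Prop :=
  (f (al 4) ≤ 0 ∨ f (al 0 + al 1 + al 2) ≤ 0 ∨ f (al 0 + al 3 + al 2) ≤ 0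
    ∨ f (al 1 + al 3 + al 2) ≤ 0
    ∨ (f (al 0 + al 2) ≤ 0 ∧ f (al 1 + al 2) ≤ 0 ∧ f (al 3 + al 2) ≤ 0 ∧ f (al 2 + al 4) ≤ 0))

instance (f : Q → Q) : Decidable (XKd f) := by unfold XKd; infer_instance

instance (f : Q → Q) : Decidable (N1d f) := by unfold N1d; infer_instance

theorem XK_word (hR : RootFacts) (l : List (Fin 5)) (w : W) (hw : w = (l.map s).prod)
    (h : XKd (rw_ l)) : XK w := by
  intro i hi
  unfold Pos
  rw [hw, act_word hR]
  exact h i hi

theorem N1_word (hR : RootFacts) (l : List (Fin 5)) (w : W) (hw : w = (l.map s).prod)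
    (hX : XKd (rw_ l)) : N1 w ↔ N1d (rw_ l) := by
  unfold N1 N1d Neg
  constructor
  · rintro ⟨-, h⟩
    simpa only [hw, act_word hR] using h
  · intro h
    refine ⟨XK_word hR l w hw hX, ?_⟩
    simpa only [hw, act_word hR] using h

theorem G1_word (hR : RootFacts) (l : List (Fin 5)) (w : W) (hw : w = (l.map s).prod)
    (hX : XKd (rw_ l)) (hN : ¬ N1d (rw_ l)) : G1 w :=
  ⟨XK_word hR l w hw hX, fun h => hN ((N1_word hR l w hw hX).1 h)⟩

theorem wK_eq : wK = (([0, 1, 3] : List (Fin 5)).map s).prod := by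
  simp [wK, mul_assoc]

theorem x0_eq : x0 = (([0, 1, 3, 2] : List (Fin 5)).map s).prod := by
  simp [x0, mul_assoc]

theorem act_wK (hR : RootFacts) (i : Fin 5) (hi : i ∈ ({0, 1, 3} : Finset (Fin 5))) :
    act wK (al i) = -al i := by
  rw [wK_eq, act_word hR]
  revert i
  decide

end COMB1

open COMB1 in
theorem comb1Facts (hR : RootFacts) : Comb1Facts where
  XK_down := XK_down hR
  N1_up := N1_up hR
  G1_down := G1_down hR
  G1_one := G1_word hR [] 1 (by simp) (by decide) (by decide)
  G1_s2 := G1_word hR [2] (s 2) (by simp) (by decide) (by decide)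
  G1_s42 := G1_word hR [4, 2] (s 4 * s 2) (by simp) (by decide) (by decide)
  G1_x0 := G1_word hR [0, 1, 3, 2] x0 x0_eq (by decide) (by decide)
  G1_s2x0 := G1_word hR [2, 0, 1, 3, 2] (s 2 * x0) (by rw [x0_eq]; simp) (by decide) (by decide)
  G1_s42x0 := G1_word hR [4, 2, 0, 1, 3, 2] (s 4 * s 2 * x0) (by rw [x0_eq]; simp [mul_assoc])
    (by decide) (by decide)
  N1_x := (N1_word hR [4, 0, 1, 3, 2] (s 4 * x0) (by rw [x0_eq]; simp) (by decide)).2 (by decide)
  not_N1_x := fun h => absurd ((N1_word hR [0, 1, 3, 2] x0 x0_eq (by decide)).1 h) (by decide)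
  Nhat_iff := by
    intro y hy i hi
    unfold Neg
    rw [act_mul, act_wK hR i hi, map_neg]
    have := hy i hi
    unfold Pos at this
    intro k; have := this k; simp only [Pi.zero_apply, Pi.neg_apply] at *; omega
  Nhat_inv := by
    intro z hz i hi
    unfold Pos
    rw [act_mul, act_wK hR i hi, map_neg]
    have := hz i hi
    unfold Neg at this
    intro k; have := this k; simp only [Pi.zero_apply, Pi.neg_apply] at *; omega

end Pool.Agent.Helper39.KL
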