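import Mathlib

/-!
# Definitions for the Kazhdan-Lusztig cells of the affine Weyl group of type D4~

Nodes: `0 1 3 4` are the leaves (node `0` is the affine node), `2` is the centre.
-/

namespace Pool.Agent.Helper39.KL

open Finset

/-! ## The Coxeter group -/

/-- adjacency in the D4~ diagram: the centre `2` is joined to the four leaves -/
def adj (i j : Fin 5) : Bool := (i != j) && (i == 2 || j == 2)

/-- the Coxeter matrix of type D4~ -/
def M : CoxeterMatrix (Fin 5) where
  M := Matrix.of fun i j => if i = j then 1 else if adj i j then 3 else 2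
  isSymm := by decide
  diagonal := by decide
  off_diagonal := by decide

/-- the affine Weyl group of type D4~ -/
abbrev W := M.Group

/-- its Coxeter system -/
def cs : CoxeterSystem M W := M.toCoxeterSystem

/-- simple reflections -/
def s (i : Fin 5) : W := cs.simple i

/-- Coxeter length -/
noncomputable def len (w : W) : ℕ := cs.length w

/-! ## The root lattice -/

/-- affine root lattice, coordinates with respect to the simple roots -/
abbrev Q := Fin 5 → ℤ

/-- simple roots -/
def al (i : Fin 5) : Q := Pi.single i 1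

/-- the null root -/
def delta : Q := ![1, 1, 2, 1, 1]

/-- Cartan matrix -/
def cart (i j : Fin 5) : ℤ := if i = j then 2 else if adj i j then -1 else 0

/-- simple reflection on the root lattice -/
def refl (i : Fin 5) : Q →ₗ[ℤ] Q where
  toFun x := fun k => x k - if k = i then ∑ j, cart i j * x j else 0
  map_add' x y := by
    funext k; by_cases h : k = i <;> simp [h, mul_add, Finset.sum_add_distrib]; ring
  map_smul' c x := by
    funext k
    by_cases h : k = i
    · simp only [h, if_true, Pi.smul_apply, smul_eq_mul, RingHom.id_apply, mul_sub,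
        Finset.mul_sum]
      congr 1
      exact Finset.sum_congr rfl fun j _ => by ring
    · simp [h]

theorem refl_liftable : M.IsLiftable refl := by
  intro i j
  apply (Pi.basisFun ℤ (Fin 5)).ext
  revert i j
  simp only [Pi.basisFun_apply]
  decide

/-- the action of `W` on the root lattice -/
noncomputable def act : W →* Module.End ℤ Q := cs.lift ⟨refl, refl_liftable⟩

/-- the set of real roots: vectors with Σ_{leaves} (2 x_l - x_2)^2 = 4 -/
def IsRoot (x : Q) : Prop :=
  (2 * x 0 - x 2) ^ 2 + (2 * x 1 - x 2) ^ 2 + (2 * x 3 - x 2) ^ 2 + (2 * x 4 - x 2) ^ 2 = 4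

/-! ## Coefficients -/

/-- Laurent polynomials `ℤ[v, v⁻¹]` -/
abbrev A := LaurentPolynomial ℤ

/-- the variable -/
noncomputable def v : A := LaurentPolynomial.T 1

/-- its inverse -/
noncomputable def vi : A := LaurentPolynomial.T (-1)

/-- `p` has degree at most `n` (in `v`) -/
def DL (n : ℤ) (p : A) : Prop := ∀ m, n < m → p.coeff m = 0

/-- all coordinates have degree at most `n` -/
def DLv {X : Type*} (n : ℤ) (x : X →₀ A) : Prop := ∀ g, DL n (x g)

/-! ## Hecke modules -/

/-- operators satisfying the Hecke relations (T - v)(T + v⁻¹) = 0 and the braid relations -/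
structure BMod (X : Type) where
  /-- the operators -/
  t : Fin 5 → ((X →₀ A) →ₗ[A] (X →₀ A))
  quad : ∀ i x, t i (t i x) = x + (v - vi) • t i x
  comm : ∀ i j, i ≠ j → adj i j = false → ∀ x, t i (t j x) = t j (t i x)
  braid : ∀ i j, adj i j = true → ∀ x, t i (t j (t i x)) = t j (t i (t j x))

/-- a chosen reduced word -/
noncomputable def rword (w : W) : List (Fin 5) := (cs.exists_isReduced w).choose

/-- product of the `t i` along a reduced word -/
noncomputable def wl {N : Type*} [Monoid N] (t : Fin 5 → N) (w : W) : N :=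
  ((rword w).map t).prod

/-- the operator `T_w` -/
noncomputable def BMod.T {X : Type} (V : BMod X) (w : W) : (X →₀ A) →ₗ[A] (X →₀ A) :=
  wl (N := Module.End A (X →₀ A)) V.t w

/-! ## The regular module: the Hecke algebra as a left module over itself -/

/-- the Hecke algebra, with basis `T_w` -/
abbrev H := W →₀ A

/-- the basis element `T_w` -/
noncomputable def Tb (w : W) : H := Finsupp.single w 1

open Classical in
/-- left multiplication by `T_{s_i}` -/
noncomputable def L (i : Fin 5) : H →ₗ[A] H :=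
  Finsupp.linearCombination A fun w =>
    if len w < len (s i * w) then Tb (s i * w) else Tb (s i * w) + (v - vi) • Tb w

open Classical in
/-- right multiplication by `T_{s_i}` -/
noncomputable def R (i : Fin 5) : H →ₗ[A] H :=
  Finsupp.linearCombination A fun w =>
    if len w < len (w * s i) then Tb (w * s i) else Tb (w * s i) + (v - vi) • Tb w

/-- left multiplication by `T_{s_i}⁻¹` -/
noncomputable def Linv (i : Fin 5) : H →ₗ[A] H := L i - (v - vi) • LinearMap.id

/-- the bar involution of `ℤ[v, v⁻¹]` -/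
noncomputable def barA : A →+* A := (LaurentPolynomial.invert (R := ℤ)).toRingEquiv.toRingHom

/-- bar of `T_w`, i.e. `T_{w⁻¹}⁻¹` -/
noncomputable def barT (w : W) : H := wl (N := Module.End A H) Linv w (Tb 1)

/-- the bar involution -/
noncomputable def barH (x : H) : H := x.sum fun w a => barA a • barT w

/-! ## The Kazhdan-Lusztig basis and the left preorder -/

/-- `C` is the Kazhdan-Lusztig basis: bar invariant and congruent to `T_w` modulo
`v⁻¹ ℤ[v⁻¹]`-combinations -/
structure IsKL (C : W → H) : Prop where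
  bar : ∀ w, barH (C w) = C w
  lead : ∀ w, C w w = 1
  low : ∀ w y, y ≠ w → DL (-1) (C w y)

/-- `C_y` occurs in `C_{s_i} C_w = (T_{s_i} + v⁻¹) C_w` for some `i` -/
def LStep (C : W → H) (y w : W) : Prop :=
  ∃ i : Fin 5, ∃ c : W →₀ A, L i (C w) + vi • C w = Finsupp.linearCombination A C c ∧ c y ≠ 0

/-- the left preorder `y ≤_L w` -/
def LeftLE (C : W → H) (y w : W) : Prop := Relation.ReflTransGen (fun a b => LStep C b a) w y

/-! ## The modules `V_lam` -/

/-- `lam (g⁻¹ α_i)` -/
noncomputable def lv (lam : Q →ₗ[ℤ] ℤ) (g : W) (i : Fin 5) : ℤ := lam (act g⁻¹ (al i))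

open Classical in
/-- the operators of `V_lam` -/
noncomputable def Vop (lam : Q →ₗ[ℤ] ℤ) (i : Fin 5) : H →ₗ[A] H :=
  Finsupp.linearCombination A fun g =>
    if lv lam g i = 0 then -(vi • Tb g)
    else if lv lam g i < 0 then Tb (s i * g)
    else Tb (s i * g) + (v - vi) • Tb g

/-- linear form given by a coefficient vector -/
def form (c : Fin 5 → ℤ) : Q →ₗ[ℤ] ℤ where
  toFun x := ∑ i, c i * x i
  map_add' x y := by simp [mul_add, Finset.sum_add_distrib]
  map_smul' c x := by
    simp only [Pi.smul_apply, smul_eq_mul, RingHom.id_apply, Finset.mul_sum]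
    exact Finset.sum_congr rfl fun j _ => by ring

/-- the three linear forms (`j = 0, 1, 3` is the leaf with value 2) -/
def lam (j : Fin 5) : Q →ₗ[ℤ] ℤ :=
  form fun i => if i = 2 then -2 else if i = 4 then 0 else if i = j then 2 else 1

/-- the `K`-eigenvector of `V_lam` -/
noncomputable def eV : H :=
  Tb 1 + vi • (Tb (s 0) + Tb (s 1) + Tb (s 3))
    + vi ^ 2 • (Tb (s 0 * s 1) + Tb (s 0 * s 3) + Tb (s 1 * s 3))
    + vi ^ 3 • Tb (s 0 * s 1 * s 3)

/-! ## Good modules -/

/-- root `α_i` at `w` is positive -/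
def Pos (w : W) (x : Q) : Prop := 0 ≤ act w x

/-- root at `w` is negative -/
def Neg (w : W) (x : Q) : Prop := act w x ≤ 0

/-- minimal left coset representatives of `W / W_K`, `K = {0,1,3}` -/
def XK (y : W) : Prop := ∀ i ∈ ({0, 1, 3} : Finset (Fin 5)), Pos y (al i)

/-- the set `N1` -/
def N1 (y : W) : Prop :=
  XK y ∧ (Neg y (al 4) ∨ Neg y (al 0 + al 1 + al 2) ∨ Neg y (al 0 + al 3 + al 2)
    ∨ Neg y (al 1 + al 3 + al 2)
    ∨ (Neg y (al 0 + al 2) ∧ Neg y (al 1 + al 2) ∧ Neg y (al 3 + al 2) ∧ Neg y (al 2 + al 4)))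

/-- the set `Gamma1` -/
def G1 (y : W) : Prop := XK y ∧ ¬ N1 y

/-- the four big subsets -/
def BigI : Finset (Finset (Fin 5)) := {{0, 1, 2}, {0, 3, 2}, {1, 3, 2}, {0, 1, 3, 4}}

/-- `x ↦ (T_i + v⁻¹) x` -/
noncomputable def BMod.c {X : Type} (V : BMod X) (i : Fin 5) (x : X →₀ A) : X →₀ A :=
  V.t i x + vi • x

/-- a module with a `K`-eigenvector having the properties used in the proof -/
structure Good (X : Type) extends BMod X where
  /-- the eigenvector -/
  e : X →₀ A
  /-- the sign -/
  eps : ℤ
  eK : ∀ i ∈ ({0, 1, 3} : Finset (Fin 5)), t i e = v • e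
  e4 : t 4 e = -(vi • e)
  relx : toBMod.c 0 (toBMod.c 1 (toBMod.c 3 (t 2 e))) =
    ((eps : A) - 2 * vi ^ 2 - vi ^ 4) • e
  noEig : ∀ I ∈ BigI, ∀ u, (∀ i ∈ I, t i u = v • u) → u = 0
  bound : ∀ y, G1 y → DLv 0 (toBMod.T y e)

/-- the longest element of `W_K` -/
def wK : W := s 0 * s 1 * s 3

/-- `z = y w_K` with `y ∈ N1` -/
def Nhat (z : W) : Prop :=
  (∀ i ∈ ({0, 1, 3} : Finset (Fin 5)), Neg z (al i)) ∧ N1 (z * wK)

/-- `x0 = s0 s1 s3 s2`; the exceptional elements of Gamma1 are `x0`, `s2 x0`, `s4 s2 x0` -/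
def x0 : W := s 0 * s 1 * s 3 * s 2

/-! ## The three dimensional module -/

/-- the operators of the 3-dimensional module with basis `u = 0`, `v = 1`, `w = 2` -/
noncomputable def Dop (i : Fin 5) : (Fin 3 →₀ A) →ₗ[A] (Fin 3 →₀ A) :=
  Finsupp.linearCombination A fun k =>
    if i = 2 then
      (if k = 1 then v • Finsupp.single 1 1
       else -(vi • Finsupp.single k 1) + Finsupp.single 1 1)
    else if i = 4 then
      (if k = 2 then v • Finsupp.single 2 1
       else if k = 1 then -(vi • Finsupp.single 1 1) + Finsupp.single 2 1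
       else -(vi • Finsupp.single 0 1))
    else
      (if k = 0 then v • Finsupp.single 0 1
       else if k = 1 then -(vi • Finsupp.single 1 1) + Finsupp.single 0 1
       else -(vi • Finsupp.single 2 1))

/-- its eigenvector -/
noncomputable def eD : Fin 3 →₀ A := Finsupp.single 0 1

/-- the map `T_w ↦ T_w e` from the regular module -/
noncomputable def BMod.Phi {X : Type} (V : BMod X) (e : X →₀ A) (h : H) : X →₀ A :=
  h.sum fun w a => a • V.T w e

/-- the strip condition for the leaf `j`, where `k, l` are the two other leaves of `K` -/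
def Strip (j k l : Fin 5) (y : W) : Prop :=
  XK y ∧ Pos y (al 4) ∧ Pos y (al j + al 2) ∧ Pos y (al k + al l + al 2)

/-! ## Alcove form and sign types, `Phi = {± e_i ± e_j}` of type D4 in `ℤ^4` -/

/-- roots of type D4: vectors of `ℤ^4` of squared length 2 -/
def Root4 (x : Fin 4 → ℤ) : Prop := x ⬝ᵥ x = 2

/-- `α_0 = -θ, α_1, …, α_4` -/
def fs : Fin 5 → Fin 4 → ℤ :=
  ![![-1, -1, 0, 0], ![1, -1, 0, 0], ![0, 1, -1, 0], ![0, 0, 1, -1], ![0, 0, 1, 1]]

/-- the image of `s_i` in the finite Weyl group: the reflection in `α_i` -/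
def sbar (i : Fin 5) (x : Fin 4 → ℤ) : Fin 4 → ℤ := x - (x ⬝ᵥ fs i) • fs i

/-- the alcove form of `s_i` -/
def k0 (i : Fin 5) (x : Fin 4 → ℤ) : ℤ := if x = fs i then -1 else if x = -fs i then 1 else 0

/-- `k` is the alcove form -/
def IsAlcove (k : W → (Fin 4 → ℤ) → ℤ) : Prop :=
  (∀ x, Root4 x → k 1 x = 0) ∧
  ∀ w i x, Root4 x → k (w * s i) x = k w (sbar i x) + k0 i x

/-- two elements have the same sign type -/
def SameSign (k : W → (Fin 4 → ℤ) → ℤ) (w w' : W) : Prop :=
  ∀ x, Root4 x → (k w x).sign = (k w' x).sign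

end Pool.Agent.Helper39.KL
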