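import Pool.Agent.Helper39.KL.Spec

/-!
# Module IND
-/

namespace Pool.Agent.Helper39.KL

open Finset

namespace IND

lemma act_mul' (u w : W) (x : Q) : act (u * w) x = act u (act w x) := by
  rw [map_mul]; rfl

lemma act_one' (x : Q) : act 1 x = x := by
  rw [map_one]; rfl

/-- the six special elements -/
def P : Fin 6 → W := ![1, s 2, s 4 * s 2, x0, s 2 * x0, s 4 * s 2 * x0]

/-- their values at `α_2` -/
def E : Fin 6 → Q := ![![0, 0, 1, 0, 0], ![0, 0, -1, 0, 0], ![0, 0, -1, 0, -1],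
  ![-1, -1, -1, -1, 0], ![-1, -1, -2, -1, 0], ![-1, -1, -2, -1, -2]]

lemma act_P (hR : RootFacts) (k : Fin 6) : act (P k) (al 2) = E k := by
  fin_cases k
  · show act 1 (al 2) = _
    rw [act_one']; decide
  · show act (s 2) (al 2) = _
    rw [hR.act_s]; decide
  · show act (s 4 * s 2) (al 2) = _
    rw [act_mul', hR.act_s, hR.act_s]; decide
  · show act (s 0 * s 1 * s 3 * s 2) (al 2) = _
    simp only [act_mul', hR.act_s]; decide
  · show act (s 2 * (s 0 * s 1 * s 3 * s 2)) (al 2) = _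
    simp only [act_mul', hR.act_s]; decide
  · show act (s 4 * s 2 * (s 0 * s 1 * s 3 * s 2)) (al 2) = _
    simp only [act_mul', hR.act_s]; decide

lemma P_inj (hR : RootFacts) {i j : Fin 6} (h : P i = P j) : i = j := by
  have h1 : E i = E j := by rw [← act_P hR, ← act_P hR, h]
  have h2 : ∀ i j : Fin 6, E i = E j → i = j := by decide
  exact h2 i j h1

/-- the good module `V_lam j` -/
lemma goodLam (hE : VeigStmt) (hrel : VrelStmt) (hno : VnoeigStmt) (hAL : AutLamStmt)
    (j : Fin 5) (hj : j ∈ ({0, 1, 3} : Finset (Fin 5))) (V : BMod W) (hV : V.t = Vop (lam j)) :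
    ∃ G : Good W, G.toBMod = V ∧ G.e = eV ∧ G.eps = 1 := by
  refine ⟨{ V with
    e := eV
    eps := 1
    eK := ?_
    e4 := ?_
    relx := ?_
    noEig := ?_
    bound := ?_ }, rfl, rfl, rfl⟩
  · intro i hi
    have := (hE j hj).1 i hi
    rw [← hV] at this
    exact this
  · have := (hE j hj).2
    rw [← hV] at this
    exact this
  · have := hrel j hj V hV
    rw [Int.cast_one]
    exact this
  · intro I hI u hu
    apply hno j hj I hI u
    intro i hi
    rw [← hV]
    exact hu i hi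
  · intro y hy
    exact hAL j hj V hV y hy

/-- the good 3-dimensional module -/
lemma goodD (hD : VdeltaStmt) (hAD : AutDeltaStmt) (V : BMod (Fin 3)) (hV : V.t = Dop) :
    ∃ G : Good (Fin 3), G.toBMod = V ∧ G.e = eD ∧ G.eps = -1 := by
  obtain ⟨V', hV', h1, h2, h3, h4⟩ := hD
  have hVV : V = V' := by
    cases V; cases V'
    simp only at hV hV'
    subst hV; subst hV'
    rfl
  subst hVV
  refine ⟨{ V with
    e := eD
    eps := -1
    eK := h1
    e4 := h2
    relx := ?_
    noEig := h4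
    bound := ?_ }, rfl, rfl, rfl⟩
  · have : (((-1 : ℤ) : ℤ) : A) = -1 := by norm_num
    rw [this]
    exact h3
  · intro y hy
    exact hAD V hV y hy

lemma coeff_of_DL {p q : A} (h : DL (-1) (p - q)) : p.coeff 0 = q.coeff 0 := by
  have h1 := h 0 (by norm_num)
  rw [AddMonoidAlgebra.coeff_sub] at h1
  exact sub_eq_zero.1 h1

lemma x0lam (hab : ABFacts) (hE : VeigStmt) (hrel : VrelStmt) (hno : VnoeigStmt)
    (hAL : AutLamStmt) (j : Fin 5) (hj : j ∈ ({0, 1, 3} : Finset (Fin 5))) (V : BMod W)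
    (hV : V.t = Vop (lam j)) (g : W) (hg : g ∈ ({1, s 2, s 4 * s 2} : Set W)) (h : W) :
    (V.T (g * x0) eV h).coeff 0 = (V.T g eV h).coeff 0 := by
  obtain ⟨G, rfl, h1, h2⟩ := goodLam hE hrel hno hAL j hj V hV
  have h3 := hab.X0 G g hg h
  rw [h1, h2, Int.cast_one, one_smul, Finsupp.sub_apply] at h3
  exact coeff_of_DL h3

lemma x0del (hab : ABFacts) (hD : VdeltaStmt) (hAD : AutDeltaStmt) (V : BMod (Fin 3))
    (hV : V.t = Dop) (g : W) (hg : g ∈ ({1, s 2, s 4 * s 2} : Set W)) (h : Fin 3) :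
    (V.T (g * x0) eD h).coeff 0 = - (V.T g eD h).coeff 0 := by
  obtain ⟨G, rfl, h1, h2⟩ := goodD hD hAD V hV
  have h3 := hab.X0 G g hg h
  have h4 : (((-1 : ℤ) : ℤ) : A) = -1 := by norm_num
  rw [h1, h2, h4, neg_smul, one_smul, Finsupp.sub_apply, Finsupp.neg_apply] at h3
  have h5 := coeff_of_DL h3
  rw [h5, AddMonoidAlgebra.coeff_neg]
  rfl

/-- the modified coefficient function -/
noncomputable def mod (m : W →₀ ℤ) : W →₀ ℤ :=
  m - (Finsupp.single (P 3) (m (P 3)) - Finsupp.single (P 0) (m (P 3)))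
    - (Finsupp.single (P 4) (m (P 4)) - Finsupp.single (P 1) (m (P 4)))
    - (Finsupp.single (P 5) (m (P 5)) - Finsupp.single (P 2) (m (P 5)))

lemma sum_eq (m : W →₀ ℤ) (F : W → ℤ) :
    (m.sum fun y a => a * F y) = Finsupp.linearCombination ℤ F m := rfl

lemma sum_mod (m : W →₀ ℤ) (F : W → ℤ) : Finsupp.linearCombination ℤ F m =
    Finsupp.linearCombination ℤ F (mod m) + m (P 3) * (F (P 3) - F (P 0))
      + m (P 4) * (F (P 4) - F (P 1)) + m (P 5) * (F (P 5) - F (P 2)) := by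
  unfold mod
  simp only [map_sub, Finsupp.linearCombination_single, smul_eq_mul]
  ring

lemma mod_P (hR : RootFacts) (m : W →₀ ℤ) : mod m (P 3) = 0 ∧ mod m (P 4) = 0 ∧
    mod m (P 5) = 0 := by
  have h : ∀ i j : Fin 6, i ≠ j → P i ≠ P j := fun i j hij h => hij (P_inj hR h)
  unfold mod
  refine ⟨?_, ?_, ?_⟩
  · simp only [Finsupp.sub_apply, Finsupp.single_eq_same,
      Finsupp.single_eq_of_ne (h 3 0 (by decide)), Finsupp.single_eq_of_ne (h 3 4 (by decide)),
      Finsupp.single_eq_of_ne (h 3 1 (by decide)), Finsupp.single_eq_of_ne (h 3 5 (by decide)),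
      Finsupp.single_eq_of_ne (h 3 2 (by decide))]
    ring
  · simp only [Finsupp.sub_apply, Finsupp.single_eq_same,
      Finsupp.single_eq_of_ne (h 4 0 (by decide)), Finsupp.single_eq_of_ne (h 4 3 (by decide)),
      Finsupp.single_eq_of_ne (h 4 1 (by decide)), Finsupp.single_eq_of_ne (h 4 5 (by decide)),
      Finsupp.single_eq_of_ne (h 4 2 (by decide))]
    ring
  · simp only [Finsupp.sub_apply, Finsupp.single_eq_same,
      Finsupp.single_eq_of_ne (h 5 0 (by decide)), Finsupp.single_eq_of_ne (h 5 3 (by decide)),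
      Finsupp.single_eq_of_ne (h 5 1 (by decide)), Finsupp.single_eq_of_ne (h 5 4 (by decide)),
      Finsupp.single_eq_of_ne (h 5 2 (by decide))]
    ring

lemma mod_of_ne (m : W →₀ ℤ) (y : W) (hy : ∀ i, y ≠ P i) : mod m y = m y := by
  unfold mod
  simp only [Finsupp.sub_apply, Finsupp.single_eq_of_ne (hy 0), Finsupp.single_eq_of_ne (hy 1),
    Finsupp.single_eq_of_ne (hy 2), Finsupp.single_eq_of_ne (hy 3),
    Finsupp.single_eq_of_ne (hy 4), Finsupp.single_eq_of_ne (hy 5)]
  ring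

/-- elements of the support of the modified function are in `Gamma1` and not exceptional -/
lemma mod_supp (hR : RootFacts) (c1 : Comb1Facts) (m : W →₀ ℤ) (hm : ∀ y, m y ≠ 0 → G1 y)
    (y : W) (hy : mod m y ≠ 0) :
    G1 y ∧ ¬ (y = x0 ∨ y = s 2 * x0 ∨ y = s 4 * s 2 * x0) := by
  obtain ⟨h3, h4, h5⟩ := mod_P hR m
  refine ⟨?_, ?_⟩
  · by_cases h : ∀ i, y ≠ P i
    · rw [mod_of_ne m y h] at hy
      exact hm y hy
    · push Not at h
      obtain ⟨i, rfl⟩ := h
      fin_cases i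
      · exact c1.G1_one
      · exact c1.G1_s2
      · exact c1.G1_s42
      · exact c1.G1_x0
      · exact c1.G1_s2x0
      · exact c1.G1_s42x0
  · rintro (h | h | h)
    · rw [h] at hy; exact hy h3
    · rw [h] at hy; exact hy h4
    · rw [h] at hy; exact hy h5

/-- the modified function vanishes -/
lemma mod_zero (hR : RootFacts) (c1 : Comb1Facts) (hcl : ClassifyStmt) (hs : StraightFacts)
    (m : W →₀ ℤ) (hm : ∀ y, m y ≠ 0 → G1 y)
    (hsum : ∀ j ∈ ({0, 1, 3} : Finset (Fin 5)), ∃ V : BMod W, V.t = Vop (lam j) ∧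
      ∀ g, Finsupp.linearCombination ℤ (fun y => (V.T y eV g).coeff 0) (mod m) = 0) :
    mod m = 0 := by
  by_contra hne
  obtain ⟨y, hy, hmax⟩ := Finset.exists_max_image (mod m).support len
    (Finsupp.support_nonempty_iff.2 hne)
  have hy0 : mod m y ≠ 0 := Finsupp.mem_support_iff.1 hy
  obtain ⟨hyG, hyX⟩ := mod_supp hR c1 m hm y hy0
  have key : ∀ j k l, (j, k, l) ∈ ({(0, 1, 3), (1, 0, 3), (3, 0, 1)} :
      Finset (Fin 5 × Fin 5 × Fin 5)) → j ∈ ({0, 1, 3} : Finset (Fin 5)) →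
      Strip j k l y → False := by
    intro j k l hjkl hj hst
    obtain ⟨V, hV, hV0⟩ := hsum j hj
    have h1 := hV0 y
    rw [Finsupp.linearCombination_apply, Finsupp.sum, Finset.sum_eq_single y] at h1
    · rw [hs.diag V j k l hjkl hV y hst] at h1
      have h3 : ((1 : A)).coeff 0 = 1 := by
        rw [← LaurentPolynomial.T_zero]; simp
      rw [h3, smul_eq_mul, mul_one] at h1
      exact hy0 h1
    · intro z hz hzy
      obtain ⟨hzG, -⟩ := mod_supp hR c1 m hm z (Finsupp.mem_support_iff.1 hz)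
      rw [hs.supp V (lam j) hV z y hzG.1 hyG.1 (Ne.symm hzy) (hmax z hz)]
      simp
    · intro h
      exact absurd hy h
  rcases hcl y hyG with h | h | h | h
  · exact key 0 1 3 (by decide) (by decide) h
  · exact key 1 0 3 (by decide) (by decide) h
  · exact key 3 0 1 (by decide) (by decide) h
  · exact hyX h

lemma len_s (i : Fin 5) : len (s i) = 1 := cs.length_simple i

lemma len_s42 (hR : RootFacts) : len (s 4 * s 2) = len (s 4) + len (s 2) := by
  have h1 : len (s 2) < len (s 4 * s 2) := by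
    rw [hR.upL]
    have : (s 2)⁻¹ = s 2 := cs.inv_simple 2
    rw [this, hR.act_s]
    show ∀ i, (0 : Q) i ≤ refl 2 (al 4) i
    decide
  have h2 : len (s 4 * s 2) = len (s 2) + 1 ∨ len (s 4 * s 2) + 1 = len (s 2) :=
    cs.length_simple_mul (s 2) 4
  rw [len_s] at *
  rw [len_s]
  omega

lemma DT1 (hT : TFacts) (V : BMod (Fin 3)) : V.T (P 0) eD = Finsupp.single 0 1 := hT.T_one V _

lemma DT2 (hT : TFacts) (V : BMod (Fin 3)) (hV : V.t = Dop) :
    V.T (P 1) eD = -(vi • Finsupp.single 0 1) + Finsupp.single 1 1 := by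
  show V.T (s 2) eD = _
  rw [hT.T_s, hV]
  unfold Dop eD
  rw [Finsupp.linearCombination_single, one_smul]
  simp

lemma DT3 (hR : RootFacts) (hT : TFacts) (V : BMod (Fin 3)) (hV : V.t = Dop) :
    V.T (P 2) eD = (vi * vi) • Finsupp.single 0 1 - vi • Finsupp.single 1 1
      + Finsupp.single 2 1 := by
  show V.T (s 4 * s 2) eD = _
  rw [hT.T_mul V _ _ _ (len_s42 hR)]
  have := DT2 hT V hV
  change V.T (s 2) eD = _ at this
  rw [this, hT.T_s, hV, map_add, map_neg, map_smul]
  unfold Dop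
  rw [Finsupp.linearCombination_single, Finsupp.linearCombination_single, one_smul, one_smul]
  simp
  module

end IND

theorem indStmt (hR : RootFacts) (hT : TFacts) (c1 : Comb1Facts) (hcl : ClassifyStmt)
    (hs : StraightFacts) (hab : ABFacts) (hV : VlamStmt) (hE : VeigStmt) (hrel : VrelStmt)
    (hno : VnoeigStmt) (hD : VdeltaStmt) (hAL : AutLamStmt) (hAD : AutDeltaStmt) : IndStmt := by
  intro m hm hlam hdel
  have hg0 : (1 : W) ∈ ({1, s 2, s 4 * s 2} : Set W) := by simp
  have hg1 : s 2 ∈ ({1, s 2, s 4 * s 2} : Set W) := by simp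
  have hg2 : s 4 * s 2 ∈ ({1, s 2, s 4 * s 2} : Set W) := by simp
  have hmod : IND.mod m = 0 := by
    apply IND.mod_zero hR c1 hcl hs m hm
    intro j hj
    obtain ⟨V, hV⟩ := hV (lam j)
    refine ⟨V, hV, fun g => ?_⟩
    have h1 := hlam j hj V hV g
    rw [IND.sum_eq, IND.sum_mod] at h1
    have h3 := IND.x0lam hab hE hrel hno hAL j hj V hV 1 hg0 g
    have h4 := IND.x0lam hab hE hrel hno hAL j hj V hV (s 2) hg1 g
    have h5 := IND.x0lam hab hE hrel hno hAL j hj V hV (s 4 * s 2) hg2 g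
    rw [one_mul] at h3
    change (V.T (IND.P 3) eV g).coeff 0 = (V.T (IND.P 0) eV g).coeff 0 at h3
    change (V.T (IND.P 4) eV g).coeff 0 = (V.T (IND.P 1) eV g).coeff 0 at h4
    change (V.T (IND.P 5) eV g).coeff 0 = (V.T (IND.P 2) eV g).coeff 0 at h5
    rw [h3, h4, h5] at h1
    simpa using h1
  obtain ⟨V, hVD, -⟩ := id hD
  have key : ∀ h : Fin 3, m (IND.P 3) * (V.T (IND.P 0) eD h).coeff 0
      + m (IND.P 4) * (V.T (IND.P 1) eD h).coeff 0
      + m (IND.P 5) * (V.T (IND.P 2) eD h).coeff 0 = 0 := by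
    intro g
    have h1 := hdel V hVD g
    rw [IND.sum_eq, IND.sum_mod, hmod] at h1
    have h3 := IND.x0del hab hD hAD V hVD 1 hg0 g
    have h4 := IND.x0del hab hD hAD V hVD (s 2) hg1 g
    have h5 := IND.x0del hab hD hAD V hVD (s 4 * s 2) hg2 g
    rw [one_mul] at h3
    change (V.T (IND.P 3) eD g).coeff 0 = -(V.T (IND.P 0) eD g).coeff 0 at h3
    change (V.T (IND.P 4) eD g).coeff 0 = -(V.T (IND.P 1) eD g).coeff 0 at h4
    change (V.T (IND.P 5) eD g).coeff 0 = -(V.T (IND.P 2) eD g).coeff 0 at h5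
    rw [h3, h4, h5, map_zero] at h1
    linarith
  have c1' : ((1 : A)).coeff 0 = 1 := by
    rw [← LaurentPolynomial.T_zero]; simp
  have cv : vi.coeff 0 = 0 := by
    unfold vi; simp
  have cvv : (vi * vi).coeff 0 = 0 := by
    unfold vi; rw [← LaurentPolynomial.T_add]; simp
  have k0 := key 0
  have k1 := key 1
  have k2 := key 2
  rw [IND.DT1 hT V, IND.DT2 hT V hVD, IND.DT3 hR hT V hVD] at k0 k1 k2
  simp [c1', cv, cvv] at k0 k1 k2
  unfold IND.mod at hmod
  rw [k0, k1, k2] at hmod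
  simpa using hmod

end Pool.Agent.Helper39.KL
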