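import Pool.Agent.Helper39.KL.Spec

set_option linter.unusedSimpArgs false

/-!
# Module KL1: existence, uniqueness, support and basis property of the Kazhdan-Lusztig basis
-/

namespace Pool.Agent.Helper39.KL.KL1

open Finset Pool.Agent.Helper39.KL

/-! ### Laurent polynomials -/

theorem coeff_v_mul (p : A) (m : ℤ) : (v * p).coeff m = p.coeff (m - 1) := by
  have : (LaurentPolynomial.T 1 : A) = AddMonoidAlgebra.single 1 1 := rfl
  rw [v, this, AddMonoidAlgebra.coeff_single_mul_apply]
  simp [sub_eq_neg_add]

theorem coeff_vi_mul (p : A) (m : ℤ) : (vi * p).coeff m = p.coeff (m + 1) := by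
  have : (LaurentPolynomial.T (-1) : A) = AddMonoidAlgebra.single (-1) 1 := rfl
  rw [vi, this, AddMonoidAlgebra.coeff_single_mul_apply]
  simp [add_comm]

theorem v_mul_vi : v * vi = 1 := by
  rw [v, vi, ← LaurentPolynomial.T_add]; simp

theorem coeff_int_mul (k : ℤ) (p : A) (m : ℤ) : ((k : A) * p).coeff m = k * p.coeff m := by
  have h : (k : A) = LaurentPolynomial.C k := by
    simp [LaurentPolynomial.C_eq_algebraMap]
  rw [h, ← LaurentPolynomial.smul_eq_C_mul, AddMonoidAlgebra.coeff_smul]
  simp

theorem coeff_barA (p : A) (m : ℤ) : (barA p).coeff m = p.coeff (-m) := by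
  simp [barA]

theorem barA_v : barA v = vi := by
  ext m
  rw [coeff_barA, v, vi, LaurentPolynomial.T_apply, LaurentPolynomial.T_apply]
  congr 1
  apply propext
  omega

theorem barA_vi : barA vi = v := by
  ext m
  rw [coeff_barA, v, vi, LaurentPolynomial.T_apply, LaurentPolynomial.T_apply]
  congr 1
  apply propext
  omega

theorem barA_int (k : ℤ) : barA (k : A) = k := map_intCast barA k

theorem DL_zero (n : ℤ) : DL n 0 := fun m _ => by simp

theorem DL_add {n : ℤ} {p q : A} (hp : DL n p) (hq : DL n q) : DL n (p + q) := fun m hm => by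
  simp [hp m hm, hq m hm]

theorem DL_neg {n : ℤ} {p : A} (hp : DL n p) : DL n (-p) := fun m hm => by
  simp [hp m hm]

theorem DL_sub {n : ℤ} {p q : A} (hp : DL n p) (hq : DL n q) : DL n (p - q) := fun m hm => by
  simp [hp m hm, hq m hm]

theorem DL_mono {n k : ℤ} {p : A} (hp : DL n p) (h : n ≤ k) : DL k p :=
  fun m hm => hp m (lt_of_le_of_lt h hm)

theorem DL_v_mul {n : ℤ} {p : A} (hp : DL n p) : DL (n + 1) (v * p) := fun m hm => by
  rw [coeff_v_mul]; exact hp _ (by omega)

theorem DL_vi_mul {n : ℤ} {p : A} (hp : DL n p) : DL (n - 1) (vi * p) := fun m hm => by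
  rw [coeff_vi_mul]; exact hp _ (by omega)

theorem DL_int_mul {n : ℤ} {p : A} (k : ℤ) (hp : DL n p) : DL n ((k : A) * p) := fun m hm => by
  rw [coeff_int_mul, hp m hm, mul_zero]

theorem DL_sum {ι : Type*} {n : ℤ} (S : Finset ι) (f : ι → A) (h : ∀ i ∈ S, DL n (f i)) :
    DL n (∑ i ∈ S, f i) := by
  classical
  induction S using Finset.induction_on with
  | empty => simpa using DL_zero n
  | insert a S ha ih =>
    rw [Finset.sum_insert ha]
    exact DL_add (h a (by simp)) (ih fun i hi => h i (by simp [hi]))

theorem coeff_sum {ι : Type*} (S : Finset ι) (f : ι → A) (m : ℤ) :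
    (∑ i ∈ S, f i).coeff m = ∑ i ∈ S, (f i).coeff m := by
  classical
  induction S using Finset.induction_on with
  | empty => simp
  | insert a S ha ih => rw [Finset.sum_insert ha, Finset.sum_insert ha]; simp [ih]

theorem DL_one : DL 0 (1 : A) := fun m hm => by
  have : (1 : A) = LaurentPolynomial.T 0 := by simp
  rw [this, LaurentPolynomial.T_apply, if_neg (by omega)]

/-- a bar invariant Laurent polynomial without terms of degree `≥ 0` vanishes -/
theorem eq_zero_of_bar {p : A} (h : barA p = p) (hp : DL (-1) p) : p = 0 := by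
  ext m
  by_cases hm : -1 < m
  · simp [hp m hm]
  · rw [← h, coeff_barA, hp (-m) (by omega)]; simp

/-! ### lengths -/

theorem len_s_mul (i : Fin 5) (w : W) : len (s i * w) = len w + 1 ∨ len (s i * w) + 1 = len w :=
  cs.length_simple_mul w i

theorem s_mul_s (i : Fin 5) : s i * s i = 1 := cs.simple_mul_simple_self i

theorem s_mul_s_mul (i : Fin 5) (w : W) : s i * (s i * w) = w := by
  rw [← mul_assoc, s_mul_s, one_mul]

theorem s_mul_eq_iff (i : Fin 5) (z y : W) : s i * z = y ↔ z = s i * y :=
  ⟨fun h => by rw [← h, s_mul_s_mul], fun h => by rw [h, s_mul_s_mul]⟩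

theorem len_one : len 1 = 0 := cs.length_one

theorem exists_left_descent {w : W} (h : w ≠ 1) : ∃ i, len (s i * w) < len w := by
  obtain ⟨i, hi⟩ := cs.exists_leftDescent_of_ne_one h
  exact ⟨i, hi⟩

/-! ### coefficients of `L i x` -/

open Classical in
theorem L_apply (hG : RegFacts) (i : Fin 5) (x : H) (y : W) :
    (L i x) y = x (s i * y) + if len (s i * y) < len y then (v - vi) * x y else 0 := by
  induction x using Finsupp.induction_linear with
  | zero => simp
  | add f g hf hg =>
    rw [map_add, Finsupp.add_apply, hf, hg, Finsupp.add_apply, Finsupp.add_apply]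
    split_ifs <;> ring
  | single z a =>
    have h1 : (Finsupp.single z a : H) = a • Tb z := by simp [Tb]
    rw [h1, map_smul]
    rcases len_s_mul i z with h | h
    · rw [hG.L_up i z (by omega)]
      by_cases hy : s i * z = y
      · subst hy
        have hne : s i * z ≠ z := fun h' => by rw [h'] at h; omega
        simp [Tb, s_mul_s_mul, Finsupp.single_apply, Ne.symm hne]
      · have hy' : ¬ z = s i * y := fun h' => hy ((s_mul_eq_iff i z y).2 h')
        by_cases hzy : z = y
        · subst hzy
          have h2 : ¬ len (s i * z) < len z := by omega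
          simp [Tb, Finsupp.single_apply, hy, hy', h2]
        · simp [Tb, Finsupp.single_apply, hy, hy', hzy]
    · rw [hG.L_dn i z (by omega)]
      by_cases hy : s i * z = y
      · subst hy
        have hne : s i * z ≠ z := fun h' => by rw [h'] at h; omega
        simp [Tb, s_mul_s_mul, Finsupp.single_apply, Ne.symm hne]
      · have hy' : ¬ z = s i * y := fun h' => hy ((s_mul_eq_iff i z y).2 h')
        by_cases hzy : z = y
        · subst hzy
          have h2 : len (s i * z) < len z := by omega
          simp [Tb, Finsupp.single_apply, hy, hy', h2, mul_comm]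
        · simp [Tb, Finsupp.single_apply, hy, hy', hzy]

/-! ### bar -/

theorem barH_apply (x : H) (y : W) : barH x y = ∑ w ∈ x.support, barA (x w) * barT w y := by
  rw [barH, Finsupp.sum, Finsupp.finsetSum_apply]
  exact Finset.sum_congr rfl fun w _ => by simp

/-- a bar invariant element with all coefficients in `v⁻¹ ℤ[v⁻¹]` vanishes -/
theorem bar_zero (hB : BarFacts) (h : H) (hb : barH h = h) (hd : DLv (-1) h) : h = 0 := by
  by_contra hne
  have hsupp : h.support.Nonempty := Finsupp.support_nonempty_iff.2 hne
  obtain ⟨y, hy, hmax⟩ := Finset.exists_max_image h.support len hsupp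
  have h1 : barH h y = barA (h y) := by
    rw [barH_apply, Finset.sum_eq_single y]
    · rw [hB.bar_diag, mul_one]
    · intro w hw hwy
      by_cases h0 : barT w y = 0
      · rw [h0, mul_zero]
      · rcases hB.bar_tri w y h0 with h2 | h2
        · exact absurd h2.symm hwy
        · exact absurd (hmax w hw) (by omega)
    · intro hy'; exact absurd hy hy'
  have h2 : h y = 0 := eq_zero_of_bar (by rw [← h1, hb]) (hd y)
  exact (Finsupp.mem_support_iff.1 hy) h2

theorem barH_zero (hB : BarFacts) : barH 0 = 0 := by
  have := hB.bar_smul 0 0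
  simpa using this

theorem barH_neg (hB : BarFacts) (x : H) : barH (-x) = - barH x := by
  have := hB.bar_smul (-1) x
  simpa using this

theorem barH_sub (hB : BarFacts) (x y : H) : barH (x - y) = barH x - barH y := by
  rw [sub_eq_add_neg, hB.bar_add, barH_neg hB, ← sub_eq_add_neg]

theorem barH_sum (hB : BarFacts) {ι : Type*} (S : Finset ι) (f : ι → H) :
    barH (∑ i ∈ S, f i) = ∑ i ∈ S, barH (f i) := by
  classical
  induction S using Finset.induction_on with
  | empty => simpa using barH_zero hB
  | insert a S ha ih => rw [Finset.sum_insert ha, Finset.sum_insert ha, hB.bar_add, ih]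

theorem unique (hB : BarFacts) (C C' : W → H) (h : IsKL C) (h' : IsKL C') : C = C' := by
  funext w
  have h0 : C w - C' w = 0 := by
    refine bar_zero hB _ (by rw [barH_sub hB, h.bar, h'.bar]) fun y => ?_
    rw [Finsupp.sub_apply]
    by_cases hy : y = w
    · subst hy; rw [h.lead, h'.lead, sub_self]; exact DL_zero _
    · exact DL_sub (h.low w y hy) (h'.low w y hy)
  exact sub_eq_zero.1 h0

/-- the properties of one basis element -/
structure P (w : W) (c : H) : Prop where
  bar : barH c = c
  lead : c w = 1
  low : ∀ y, y ≠ w → DL (-1) (c y)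
  supp : ∀ y, c y ≠ 0 → y = w ∨ len y < len w

theorem P.low0 {w : W} {c : H} (h : P w c) (y : W) : DL 0 (c y) := by
  by_cases hy : y = w
  · subst hy; rw [h.lead]; exact DL_one
  · exact DL_mono (h.low y hy) (by omega)

theorem P.eq_zero {w : W} {c : H} (h : P w c) {y : W} (hy : y ≠ w) (hl : len w ≤ len y) :
    c y = 0 := by
  by_contra h0
  rcases h.supp y h0 with h1 | h1
  · exact hy h1
  · omega

/-- the bar invariant element `(L i + v⁻¹) x` -/
theorem bar_X (hB : BarFacts) (i : Fin 5) (x : H) (hx : barH x = x) :
    barH (L i x + vi • x) = L i x + vi • x := by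
  rw [hB.bar_add, hB.bar_L, hB.bar_smul, hx, barA_vi, sub_smul]
  abel

open Classical in
theorem X_apply (hG : RegFacts) (i : Fin 5) (x : H) (y : W) :
    (L i x + vi • x) y = x (s i * y) + if len (s i * y) < len y then v * x y else vi * x y := by
  rw [Finsupp.add_apply, L_apply hG, Finsupp.smul_apply, smul_eq_mul]
  split_ifs <;> ring

theorem exists_P (hG : RegFacts) (hB : BarFacts) :
    ∀ n : ℕ, ∀ w : W, len w = n → ∃ c, P w c := by
  classical
  intro n
  induction n using Nat.strong_induction_on with
  | _ n ih =>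
  intro w hw
  by_cases h1 : w = 1
  · subst h1
    refine ⟨Tb 1, hB.bar_one, by simp [Tb], fun y hy => ?_, fun y hy => ?_⟩
    · rw [Tb, Finsupp.single_eq_of_ne hy]; exact DL_zero _
    · left; by_contra hne; exact hy (by rw [Tb, Finsupp.single_eq_of_ne hne])
  obtain ⟨i, hi⟩ := exists_left_descent h1
  have hlen : len (s i * w) + 1 = len w := by
    rcases len_s_mul i w with h | h
    · omega
    · exact h
  obtain ⟨c', hc'⟩ := ih (len (s i * w)) (by omega) (s i * w) rfl
  -- a basis element for every shorter element
  have hch : ∀ y : W, ∃ c, len y < len w → P y c := by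
    intro y
    by_cases hy : len y < len w
    · obtain ⟨c, hc⟩ := ih (len y) (by omega) y rfl
      exact ⟨c, fun _ => hc⟩
    · exact ⟨0, fun h => absurd h hy⟩
  choose c hc using hch
  set X : H := L i c' + vi • c' with hX
  have hXsupp : ∀ y, X y ≠ 0 → y = w ∨ len y < len w := by
    intro y hy
    by_contra hcon
    push Not at hcon
    obtain ⟨hyw, hyl⟩ := hcon
    apply hy
    rw [hX, X_apply hG]
    have e1 : c' (s i * y) = 0 := by
      apply hc'.eq_zero
      · intro h; exact hyw (mul_left_cancel h)
      · rcases len_s_mul i y with h | h <;> omega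
    have e2 : c' y = 0 := by
      apply hc'.eq_zero
      · rintro rfl; omega
      · omega
    rw [e1, e2]; simp
  have hXw : X w = 1 := by
    rw [hX, X_apply hG, hc'.lead]
    have e2 : c' w = 0 := by
      apply hc'.eq_zero
      · intro h; rw [← h] at hlen; omega
      · omega
    rw [e2]; simp
  have hXlow : ∀ y, y ≠ w → DL 0 (X y) := by
    intro y hy
    rw [hX, X_apply hG]
    apply DL_add
    · exact DL_mono (hc'.low _ (fun h => hy (mul_left_cancel h))) (by omega)
    · split_ifs with hd
      · have : y ≠ s i * w := by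
          rintro rfl
          rw [s_mul_s_mul] at hd; omega
        exact DL_mono (DL_v_mul (hc'.low y this)) (by omega)
      · exact DL_mono (DL_vi_mul (hc'.low0 y)) (by omega)
  set S := X.support.erase w with hS
  have hSl : ∀ y ∈ S, len y < len w := by
    intro y hy
    rw [hS, Finset.mem_erase, Finsupp.mem_support_iff] at hy
    rcases hXsupp y hy.2 with h | h
    · exact absurd h hy.1
    · exact h
  have happ : ∀ z, (X - ∑ y ∈ S, ((X y).coeff 0 : A) • c y) z =
      X z - ∑ y ∈ S, ((X y).coeff 0 : A) * c y z := by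
    intro z
    rw [Finsupp.sub_apply, Finsupp.finsetSum_apply]
    simp
  refine ⟨X - ∑ y ∈ S, ((X y).coeff 0 : A) • c y, ?_, ?_, ?_, ?_⟩
  · rw [barH_sub hB, barH_sum hB, hX, bar_X hB i c' hc'.bar, ← hX]
    congr 1
    refine Finset.sum_congr rfl fun y hy => ?_
    rw [hB.bar_smul, barA_int, (hc y (hSl y hy)).bar]
  · rw [happ, hXw, Finset.sum_eq_zero, sub_zero]
    intro y hy
    have hyl := hSl y hy
    rw [(hc y hyl).eq_zero (by rintro rfl; omega) (by omega), mul_zero]
  · intro z hz
    rw [happ]
    have h0 : DL 0 (X z - ∑ y ∈ S, ((X y).coeff 0 : A) * c y z) :=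
      DL_sub (hXlow z hz) (DL_sum _ _ fun y hy => DL_int_mul _ ((hc y (hSl y hy)).low0 z))
    intro m hm
    rcases (show m = 0 ∨ 0 < m by omega) with rfl | hm0
    · have h2 : (∑ y ∈ S, ((X y).coeff 0 : A) * c y z).coeff 0 = (X z).coeff 0 := by
        rw [coeff_sum]
        by_cases hzS : z ∈ S
        · rw [Finset.sum_eq_single z]
          · rw [coeff_int_mul, (hc z (hSl z hzS)).lead]
            simp
          · intro y hy hyz
            rw [coeff_int_mul, (hc y (hSl y hy)).low z (Ne.symm hyz) 0 (by omega), mul_zero]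
          · intro h; exact absurd hzS h
        · have hXz : X z = 0 := by
            by_contra hne
            exact hzS (by rw [hS, Finset.mem_erase, Finsupp.mem_support_iff]; exact ⟨hz, hne⟩)
          rw [hXz, Finset.sum_eq_zero]
          · simp
          · intro y hy
            have hyz : z ≠ y := fun h => hzS (h ▸ hy)
            rw [coeff_int_mul, (hc y (hSl y hy)).low z hyz 0 (by omega), mul_zero]
      have h3 : (X z - ∑ y ∈ S, ((X y).coeff 0 : A) * c y z).coeff 0 =
          (X z).coeff 0 - (∑ y ∈ S, ((X y).coeff 0 : A) * c y z).coeff 0 := by simp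
      rw [h3, h2, sub_self]
    · exact h0 m hm0
  · intro z hz
    rw [happ] at hz
    by_contra hcon
    push Not at hcon
    obtain ⟨hzw, hzl⟩ := hcon
    apply hz
    have hXz : X z = 0 := by
      by_contra hne
      rcases hXsupp z hne with h | h
      · exact hzw h
      · omega
    rw [hXz, Finset.sum_eq_zero, sub_zero]
    intro y hy
    have hyl := hSl y hy
    rw [(hc y hyl).eq_zero (by rintro rfl; omega) (by omega), mul_zero]

theorem exists_C (hG : RegFacts) (hB : BarFacts) : ∃ C : W → H, ∀ w, P w (C w) := by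
  have : ∀ w : W, ∃ c, P w c := fun w => exists_P hG hB (len w) w rfl
  choose C hC using this
  exact ⟨C, hC⟩

theorem isKL_of_P {C : W → H} (h : ∀ w, P w (C w)) : IsKL C :=
  ⟨fun w => (h w).bar, fun w => (h w).lead, fun w y hy => (h w).low y hy⟩

theorem P_of_isKL (hG : RegFacts) (hB : BarFacts) {C : W → H} (h : IsKL C) (w : W) :
    P w (C w) := by
  obtain ⟨C', hC'⟩ := exists_C hG hB
  rw [unique hB C C' h (isKL_of_P hC')]
  exact hC' w

theorem linInd {C : W → H} (h : ∀ w, P w (C w)) : LinearIndependent A C := by
  rw [linearIndependent_iff]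
  intro l hl
  by_contra hne
  have hsupp : l.support.Nonempty := Finsupp.support_nonempty_iff.2 hne
  obtain ⟨y, hy, hmax⟩ := Finset.exists_max_image l.support len hsupp
  have h1 : (Finsupp.linearCombination A C l) y = l y := by
    rw [Finsupp.linearCombination_apply, Finsupp.sum, Finsupp.finsetSum_apply,
      Finset.sum_eq_single y]
    · rw [Finsupp.smul_apply, (h y).lead, smul_eq_mul, mul_one]
    · intro w hw hwy
      rw [Finsupp.smul_apply, (h w).eq_zero (Ne.symm hwy) (hmax w hw), smul_zero]
    · intro hy'; exact absurd hy hy'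
  rw [hl] at h1
  exact (Finsupp.mem_support_iff.1 hy) h1.symm

theorem Tb_mem_span {C : W → H} (h : ∀ w, P w (C w)) :
    ∀ n : ℕ, ∀ w : W, len w = n → Tb w ∈ Submodule.span A (Set.range C) := by
  classical
  intro n
  induction n using Nat.strong_induction_on with
  | _ n ih =>
  intro w hw
  have h1 : C w = Tb w + ∑ y ∈ (C w).support.erase w, (C w y) • Tb y := by
    have h2 : C w = ∑ y ∈ (C w).support, (C w y) • Tb y := by
      conv_lhs => rw [← Finsupp.sum_single (C w)]
      rw [Finsupp.sum]
      exact Finset.sum_congr rfl fun y _ => by simp [Tb]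
    have hmem : w ∈ (C w).support := by
      rw [Finsupp.mem_support_iff, (h w).lead]; exact one_ne_zero
    conv_lhs => rw [h2, ← Finset.add_sum_erase _ _ hmem, (h w).lead, one_smul]
  have h3 : Tb w = C w - ∑ y ∈ (C w).support.erase w, (C w y) • Tb y := by
    rw [eq_sub_iff_add_eq]; exact h1.symm
  rw [h3]
  refine Submodule.sub_mem _ (Submodule.subset_span ⟨w, rfl⟩) (Submodule.sum_mem _ fun y hy => ?_)
  rw [Finset.mem_erase, Finsupp.mem_support_iff] at hy
  refine Submodule.smul_mem _ _ (ih (len y) ?_ y rfl)
  rcases (h w).supp y hy.2 with h4 | h4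
  · exact absurd h4 hy.1
  · omega

theorem span {C : W → H} (h : ∀ w, P w (C w)) : Submodule.span A (Set.range C) = ⊤ := by
  rw [eq_top_iff]
  intro x _
  rw [← Finsupp.sum_single x, Finsupp.sum]
  refine Submodule.sum_mem _ fun w _ => ?_
  have : (Finsupp.single w (x w) : H) = x w • Tb w := by simp [Tb]
  rw [this]
  exact Submodule.smul_mem _ _ (Tb_mem_span h (len w) w rfl)

end Pool.Agent.Helper39.KL.KL1

namespace Pool.Agent.Helper39.KL

set_option linter.unusedVariables false in
/-- module KL1 -/
theorem kl1Facts (hR : RootFacts) (hG : RegFacts) (hB : BarFacts) : KL1Facts where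
  exists_KL := by
    obtain ⟨C, hC⟩ := KL1.exists_C hG hB
    exact ⟨C, KL1.isKL_of_P hC⟩
  unique_KL := fun C C' h h' => KL1.unique hB C C' h h'
  supp := fun C h w y hy => (KL1.P_of_isKL hG hB h w).supp y hy
  linInd := fun C h => KL1.linInd (KL1.P_of_isKL hG hB h)
  span := fun C h => KL1.span (KL1.P_of_isKL hG hB h)

end Pool.Agent.Helper39.KL
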