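import Pool.Agent.Helper39.KL.Spec

/-!
# Module KL2: multiplication formulas for the Kazhdan-Lusztig basis
-/

namespace Pool.Agent.Helper39.KL

open Finset

namespace KL2

/-! ### coefficients -/

theorem coeff_v (x : A) (n : ℤ) : (v * x).coeff n = x.coeff (n - 1) := by
  have := AddMonoidAlgebra.coeff_single_mul_apply (R := ℤ) (G := ℤ) x 1 1 n
  rw [one_mul] at this
  rw [show v = AddMonoidAlgebra.single (1 : ℤ) (1 : ℤ) from rfl, this]
  congr 1; ring

theorem coeff_vi (x : A) (n : ℤ) : (vi * x).coeff n = x.coeff (n + 1) := by
  have := AddMonoidAlgebra.coeff_single_mul_apply (R := ℤ) (G := ℤ) x 1 (-1) n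
  rw [one_mul] at this
  rw [show vi = AddMonoidAlgebra.single (-1 : ℤ) (1 : ℤ) from rfl, this]
  congr 1; ring

theorem v_vi : v * vi = 1 := by
  rw [v, vi, ← LaurentPolynomial.T_add]; simp

theorem vi_v : vi * v = 1 := by rw [mul_comm, v_vi]

theorem barA_vi : barA vi = v := by
  show LaurentPolynomial.invert (LaurentPolynomial.T (-1)) = _
  rw [LaurentPolynomial.invert_T]; rfl

theorem barA_coeff (a : A) (n : ℤ) : (barA a).coeff n = a.coeff (-n) :=
  LaurentPolynomial.invert_apply a n

/-! ### lengths -/

theorem len_cases (i : Fin 5) (w : W) : len w < len (s i * w) ∨ len (s i * w) < len w := by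
  rcases cs.length_simple_mul w i with h | h
  · left; show cs.length w < cs.length (cs.simple i * w); omega
  · right; show cs.length (cs.simple i * w) < cs.length w; omega

theorem len_casesR (i : Fin 5) (w : W) : len w < len (w * s i) ∨ len (w * s i) < len w := by
  rcases cs.length_mul_simple w i with h | h
  · left; show cs.length w < cs.length (w * cs.simple i); omega
  · right; show cs.length (w * cs.simple i) < cs.length w; omega

theorem ss (i : Fin 5) (w : W) : s i * (s i * w) = w := cs.simple_mul_simple_cancel_left i

theorem ssR (i : Fin 5) (w : W) : w * s i * s i = w := cs.simple_mul_simple_cancel_right i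

theorem len_inv (w : W) : len w⁻¹ = len w := cs.length_inv w

theorem s_inv (i : Fin 5) : (s i)⁻¹ = s i := cs.inv_simple i

theorem inv_sw (i : Fin 5) (w : W) : (s i * w)⁻¹ = w⁻¹ * s i := by rw [mul_inv_rev, s_inv]

theorem inv_ws (i : Fin 5) (w : W) : (w * s i)⁻¹ = s i * w⁻¹ := by rw [mul_inv_rev, s_inv]

/-! ### coordinates of `L i x` and `R i x` -/

open Classical in
theorem L_apply (hG : RegFacts) (i : Fin 5) (x : H) (y : W) :
    (L i x) y = x (s i * y) + if len (s i * y) < len y then (v - vi) * x y else 0 := by
  induction x using Finsupp.induction_linear with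
  | zero => simp
  | add f g hf hg =>
    rw [map_add, Finsupp.add_apply, hf, hg, Finsupp.add_apply, Finsupp.add_apply]
    split_ifs <;> ring
  | single w a =>
    have hs : (Finsupp.single w a : H) = a • Tb w := by
      rw [Tb, Finsupp.smul_single, smul_eq_mul, mul_one]
    rw [hs, map_smul]
    simp only [Finsupp.smul_apply, smul_eq_mul]
    have e1 : ∀ z z' : W, (Tb z) z' = if z = z' then (1 : A) else 0 := fun z z' => by
      rw [Tb, Finsupp.single_apply]
    have e2 : (s i * w = y) = (w = s i * y) := by
      apply propext
      constructor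
      · intro h; rw [← h, ss]
      · intro h; rw [h, ss]
    rcases len_cases i w with h | h
    · rw [hG.L_up i w h, e1, e1, e1]
      by_cases h1 : w = s i * y
      · have : ¬ (w = y) := by
          intro h2
          have := ss i y
          rw [← h1, h2] at this
          rw [h2, this] at h
          exact lt_irrefl _ h
        simp only [e2]; rw [if_pos h1, if_neg this, mul_zero, mul_zero, ite_self, add_zero]
      · by_cases h2 : w = y
        · have h3 : ¬ (len (s i * y) < len y) := by rw [← h2]; exact not_lt.mpr h.le
          simp [e2, h1, h3]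
        · simp [e2, h1, h2]
    · rw [hG.L_dn i w h, Finsupp.add_apply, Finsupp.smul_apply, e1, e1, e1]
      by_cases h2 : w = y
      · have h3 : len (s i * y) < len y := by rw [← h2]; exact h
        rw [if_pos h2, if_pos h3, smul_eq_mul]; simp only [e2]; ring
      · simp only [e2, h2, if_false, smul_zero, add_zero, mul_zero, ite_self]

open Classical in
theorem R_apply (hG : RegFacts) (i : Fin 5) (x : H) (y : W) :
    (R i x) y = x (y * s i) + if len (y * s i) < len y then (v - vi) * x y else 0 := by
  induction x using Finsupp.induction_linear with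
  | zero => simp
  | add f g hf hg =>
    rw [map_add, Finsupp.add_apply, hf, hg, Finsupp.add_apply, Finsupp.add_apply]
    split_ifs <;> ring
  | single w a =>
    have hs : (Finsupp.single w a : H) = a • Tb w := by
      rw [Tb, Finsupp.smul_single, smul_eq_mul, mul_one]
    rw [hs, map_smul]
    simp only [Finsupp.smul_apply, smul_eq_mul]
    have e1 : ∀ z z' : W, (Tb z) z' = if z = z' then (1 : A) else 0 := fun z z' => by
      rw [Tb, Finsupp.single_apply]
    have e2 : (w * s i = y) = (w = y * s i) := by
      apply propext
      constructor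
      · intro h; rw [← h, ssR]
      · intro h; rw [h, ssR]
    rcases len_casesR i w with h | h
    · rw [hG.R_up i w h, e1, e1, e1]
      by_cases h1 : w = y * s i
      · have : ¬ (w = y) := by
          intro h2
          have := ssR i y
          rw [← h1, h2] at this
          rw [h2, this] at h
          exact lt_irrefl _ h
        simp only [e2]; rw [if_pos h1, if_neg this, mul_zero, mul_zero, ite_self, add_zero]
      · by_cases h2 : w = y
        · have h3 : ¬ (len (y * s i) < len y) := by rw [← h2]; exact not_lt.mpr h.le
          simp [e2, h1, h3]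
        · simp [e2, h1, h2]
    · rw [hG.R_dn i w h, Finsupp.add_apply, Finsupp.smul_apply, e1, e1, e1]
      by_cases h2 : w = y
      · have h3 : len (y * s i) < len y := by rw [← h2]; exact h
        rw [if_pos h2, if_pos h3, smul_eq_mul]; simp only [e2]; ring
      · simp only [e2, h2, if_false, smul_zero, add_zero, mul_zero, ite_self]

/-! ### bar invariant elements with coefficients in `v⁻¹ ℤ[v⁻¹]` vanish -/

theorem bar_zero (hB : BarFacts) (h : H) (hb : barH h = h) (hl : DLv (-1) h) : h = 0 := by
  by_contra hne
  have hsup : h.support.Nonempty := Finsupp.support_nonempty_iff.mpr hne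
  obtain ⟨y, hy, hmax⟩ := h.support.exists_max_image len hsup
  have h1 : (barH h) y = barA (h y) := by
    rw [barH, Finsupp.sum, Finsupp.finsetSum_apply]
    rw [Finset.sum_eq_single y]
    · rw [Finsupp.smul_apply, hB.bar_diag, smul_eq_mul, mul_one]
    · intro w hw hwy
      rw [Finsupp.smul_apply]
      by_cases hz : barT w y = 0
      · rw [hz, smul_zero]
      · rcases hB.bar_tri w y hz with h2 | h2
        · exact absurd h2.symm hwy
        · exact absurd (hmax w hw) (not_le.mpr h2)
    · intro hy'; exact absurd hy hy'
  rw [hb] at h1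
  apply Finsupp.mem_support_iff.mp hy
  apply LaurentPolynomial.ext
  intro n
  rw [AddMonoidAlgebra.coeff_zero, Finsupp.coe_zero, Pi.zero_apply]
  by_cases hn : -1 < n
  · exact hl y n hn
  · rw [h1, barA_coeff]
    exact hl y (-n) (by omega)

theorem quadL (hG : RegFacts) (i : Fin 5) (x : H) : L i (L i x) = x + (v - vi) • L i x := by
  obtain ⟨V, hV⟩ := hG.bmod
  have := V.quad i x
  rwa [hV] at this

/-! ### left multiplication -/

theorem coeff_C {C : W → H} (hC : IsKL C) (u z : W) (n : ℤ) (hn : 0 ≤ n) :
    (u = z ∧ n = 0 → (C u z).coeff n = 1) ∧ (¬ (u = z ∧ n = 0) → (C u z).coeff n = 0) := by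
  by_cases huz : u = z
  · subst huz
    rw [hC.lead u, ← LaurentPolynomial.T_zero, LaurentPolynomial.T_apply]
    constructor
    · rintro ⟨_, rfl⟩; simp
    · intro h
      have : ¬ (0 = n) := fun h' => h ⟨rfl, h'.symm⟩
      simp [this]
  · have h0 := hC.low u z (fun h => huz h.symm) n (by omega)
    exact ⟨fun h => absurd h.1 huz, fun _ => h0⟩

theorem mulL (hG : RegFacts) (hB : BarFacts) (hK : KL1Facts) (C : W → H) (hC : IsKL C) (w : W)
    (i : Fin 5) (hw : len w < len (s i * w)) : ∃ m : W →₀ ℤ,
    (∀ y, m y ≠ 0 → len y < len w ∧ len (s i * y) < len y) ∧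
    (∀ y, len (s i * y) < len y → y ≠ s i * w → m y = (C w y).coeff (-1)) ∧
    L i (C w) + vi • C w = C (s i * w) + m.sum fun y a => a • C y := by
  classical
  have hsup : ∀ z, z ≠ w → ¬ len z < len w → C w z = 0 := by
    intro z h1 h2
    by_contra h3
    rcases hK.supp C hC w z h3 with h | h
    · exact h1 h
    · exact h2 h
  let m : W →₀ ℤ := Finsupp.onFinset (C w).support
    (fun y => if len (s i * y) < len y then (C w y).coeff (-1) else 0) (by
      intro y hy
      rw [Finsupp.mem_support_iff]
      intro h0
      apply hy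
      rw [h0]
      simp)
  have hm : ∀ y, m y = if len (s i * y) < len y then (C w y).coeff (-1) else 0 := fun y => rfl
  refine ⟨m, ?_, ?_, ?_⟩
  · intro y hy
    rw [hm] at hy
    by_cases h1 : len (s i * y) < len y
    · refine ⟨?_, h1⟩
      by_contra h2
      rw [if_pos h1] at hy
      by_cases h3 : y = w
      · rw [h3] at h1; exact absurd h1 (not_lt.mpr hw.le)
      · rw [hsup y h3 h2] at hy
        exact hy (by simp)
    · rw [if_neg h1] at hy; exact absurd rfl hy
  · intro y hy _
    rw [hm, if_pos hy]
  · set X : H := L i (C w) + vi • C w with hX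
    have hXc : ∀ z : W, ∀ n : ℤ, 0 ≤ n →
        (X z).coeff n = if n = 0 then (if z = s i * w then 1 else 0) + m z else 0 := by
      intro z n hn
      have hXz : X z = C w (s i * z) + (if len (s i * z) < len z then (v - vi) * C w z else 0)
          + vi * C w z := by
        rw [hX, Finsupp.add_apply, L_apply hG, Finsupp.smul_apply, smul_eq_mul]
      have hz : (w = s i * z) ↔ (z = s i * w) := by
        constructor
        · intro h; rw [h, ss]
        · intro h; rw [h, ss]
      have h1 : (C w (s i * z)).coeff n = if n = 0 then (if z = s i * w then 1 else 0) else 0 := by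
        have := coeff_C hC w (s i * z) n hn
        by_cases h0 : n = 0
        · by_cases h2 : z = s i * w
          · rw [if_pos h0, if_pos h2]; exact this.1 ⟨hz.mpr h2, h0⟩
          · rw [if_pos h0, if_neg h2]; exact this.2 fun h => h2 (hz.mp h.1)
        · rw [if_neg h0]; exact this.2 fun h => h0 h.2
      by_cases hd : len (s i * z) < len z
      · have : X z = C w (s i * z) + v * C w z := by rw [hXz, if_pos hd]; ring
        rw [this, AddMonoidAlgebra.coeff_add, Finsupp.add_apply, coeff_v, h1, hm, if_pos hd]
        by_cases h0 : n = 0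
        · rw [if_pos h0, if_pos h0, h0]; norm_num
        · rw [if_neg h0, if_neg h0, zero_add]
          refine (coeff_C hC w z (n - 1) (by omega)).2 ?_
          rintro ⟨h2, _⟩
          rw [← h2] at hd
          exact absurd hd (not_lt.mpr hw.le)
      · have : X z = C w (s i * z) + vi * C w z := by rw [hXz, if_neg hd]; ring
        rw [this, AddMonoidAlgebra.coeff_add, Finsupp.add_apply, coeff_vi, h1, hm, if_neg hd]
        rw [(coeff_C hC w z (n + 1) (by omega)).2 (by rintro ⟨_, h⟩; omega)]
        simp
    have hms : m (s i * w) = 0 := by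
      rw [hm]
      split_ifs with h1
      · rw [hsup (s i * w) _ (not_lt.mpr hw.le)]
        · simp
        · intro h; rw [h] at hw; exact lt_irrefl _ hw
      · rfl
    have hZ : X - C (s i * w) - m.sum (fun y a => a • C y) = 0 := by
      apply bar_zero hB
      · let bH : H →+ H := AddMonoidHom.mk' barH hB.bar_add
        have hb : ∀ x, barH x = bH x := fun x => rfl
        have hXb : bH X = X := by
          rw [hX, map_add, ← hb, ← hb, hB.bar_L, hB.bar_smul, hC.bar, barA_vi]
          module
        rw [hb, map_sub, map_sub, hXb, ← hb (C (s i * w)), hC.bar]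
        congr 1
        rw [map_finsuppSum]
        apply Finsupp.sum_congr
        intro y _
        rw [map_zsmul, ← hb, hC.bar]
      · intro z n hn
        have hn0 : 0 ≤ n := by omega
        rw [Finsupp.sub_apply, Finsupp.sub_apply, AddMonoidAlgebra.coeff_sub,
          AddMonoidAlgebra.coeff_sub, Finsupp.sub_apply, Finsupp.sub_apply, hXc z n hn0]
        have hs : ((m.sum fun y a => a • C y) z).coeff n = if n = 0 then m z else 0 := by
          rw [Finsupp.sum, Finsupp.finsetSum_apply, AddMonoidAlgebra.coeff_sum,
            Finsupp.finsetSum_apply]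
          have h3 : ∀ y ∈ m.support, ((m y • C y) z).coeff n =
              if y = z then (if n = 0 then m z else 0) else 0 := by
            intro y _
            rw [Finsupp.smul_apply, AddMonoidAlgebra.coeff_smul, Finsupp.smul_apply]
            by_cases h4 : y = z
            · rw [if_pos h4]
              by_cases h5 : n = 0
              · rw [if_pos h5, (coeff_C hC y z n hn0).1 ⟨h4, h5⟩, h4]; simp
              · rw [if_neg h5, (coeff_C hC y z n hn0).2 (fun h => h5 h.2)]; simp
            · rw [if_neg h4, (coeff_C hC y z n hn0).2 (fun h => h4 h.1)]; simp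
          rw [Finset.sum_congr rfl h3, Finset.sum_ite_eq']
          by_cases h6 : z ∈ m.support
          · rw [if_pos h6]
          · rw [if_neg h6, Finsupp.notMem_support_iff.mp h6, ite_self]
        rw [hs]
        by_cases h0 : n = 0
        · rw [if_pos h0, if_pos h0]
          by_cases h1 : z = s i * w
          · rw [if_pos h1, (coeff_C hC _ z n hn0).1 ⟨h1.symm, h0⟩]; ring
          · rw [if_neg h1, (coeff_C hC _ z n hn0).2 (fun h => h1 h.1.symm)]; ring
        · rw [if_neg h0, if_neg h0, (coeff_C hC _ z n hn0).2 (fun h => h0 h.2)]; ring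
    have := sub_eq_zero.mp hZ
    rw [← this]; abel

theorem eigL (hG : RegFacts) (hB : BarFacts) (hK : KL1Facts) (C : W → H) (hC : IsKL C)
    (i : Fin 5) : ∀ n : ℕ, ∀ w, len w = n → len (s i * w) < len w → L i (C w) = v • C w := by
  intro n
  induction n using Nat.strong_induction_on with
  | _ n ih =>
    intro w hn hw
    have hw' : len (s i * w) < len (s i * (s i * w)) := by rw [ss]; exact hw
    obtain ⟨m, hm1, _, hm3⟩ := mulL hG hB hK C hC (s i * w) i hw'
    rw [ss] at hm3
    set X : H := L i (C (s i * w)) + vi • C (s i * w) with hX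
    have hLX : L i X = v • X := by
      rw [hX, map_add, map_smul, quadL hG, smul_add, smul_smul, v_vi]
      module
    have hCw : C w = X - m.sum fun y a => a • C y := by rw [hm3]; abel
    have hsum : L i (m.sum fun y a => a • C y) = v • (m.sum fun y a => a • C y) := by
      rw [Finsupp.sum, map_sum, Finset.smul_sum]
      apply Finset.sum_congr rfl
      intro y hy
      have h1 := hm1 y (Finsupp.mem_support_iff.mp hy)
      rw [map_zsmul, ih (len y) (by omega) y rfl h1.2, smul_comm]
    rw [hCw, map_sub, hLX, hsum, smul_sub]

/-! ### inversion -/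

/-- the inversion map -/
noncomputable def io (x : H) : H := x.mapDomain (fun w => w⁻¹)

theorem io_add (x y : H) : io (x + y) = io x + io y := Finsupp.mapDomain_add

theorem io_smul (a : A) (x : H) : io (a • x) = a • io x := Finsupp.mapDomain_smul a x

theorem io_apply (x : H) (w : W) : io x w = x w⁻¹ := by
  have h := Finsupp.mapDomain_apply (f := fun w : W => w⁻¹) inv_injective x w⁻¹
  simp only [inv_inv] at h
  exact h

theorem io_C (hB : BarFacts) (hK : KL1Facts) (C : W → H) (hC : IsKL C) (w : W) :
    io (C w) = C w⁻¹ := by
  have h : IsKL fun w => io (C w⁻¹) := by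
    refine ⟨?_, ?_, ?_⟩
    · intro w
      show barH (io (C w⁻¹)) = io (C w⁻¹)
      rw [io, hB.bar_inv, hC.bar]
    · intro w
      show io (C w⁻¹) w = 1
      rw [io_apply]; exact hC.lead _
    · intro w y hy
      show DL (-1) (io (C w⁻¹) y)
      rw [io_apply]
      exact hC.low _ _ (fun h => hy (inv_injective h))
  have h2 := hK.unique_KL _ _ h hC
  have h3 := congrFun h2 w⁻¹
  simp only [inv_inv] at h3
  exact h3

theorem io_L (hG : RegFacts) (i : Fin 5) (x : H) : io (L i x) = R i (io x) := hG.inv i x

end KL2

open KL2 in
theorem kl2Facts (_hR : RootFacts) (hG : RegFacts) (hB : BarFacts) (hK : KL1Facts) :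
    KL2Facts := by
  have eigR : ∀ C, IsKL C → ∀ w i, len (w * s i) < len w → R i (C w) = v • C w := by
    intro C hC w i hw
    have h1 : len (s i * w⁻¹) < len w⁻¹ := by
      rw [← inv_ws, len_inv, len_inv]; exact hw
    have h2 := congrArg io (eigL hG hB hK C hC i _ w⁻¹ rfl h1)
    rw [io_L hG, io_smul, io_C hB hK C hC, inv_inv] at h2
    exact h2
  refine ⟨fun C hC w i hw => mulL hG hB hK C hC w i hw,
    fun C hC w i hw => eigL hG hB hK C hC i _ w rfl hw, ?_, eigR, ?_⟩
  · intro C hC w i hw
    have h1 : len w⁻¹ < len (s i * w⁻¹) := by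
      rw [← inv_ws, len_inv, len_inv]; exact hw
    obtain ⟨m, hm1, hm2, hm3⟩ := mulL hG hB hK C hC w⁻¹ i h1
    refine ⟨m.mapDomain (fun w => w⁻¹), ?_, ?_, ?_⟩
    · intro y hy
      have e : m.mapDomain (fun w => w⁻¹) y = m y⁻¹ := by
        have h := Finsupp.mapDomain_apply (f := fun w : W => w⁻¹) inv_injective m y⁻¹
        simp only [inv_inv] at h
        exact h
      rw [e] at hy
      have h2 := hm1 y⁻¹ hy
      rw [← inv_ws, len_inv, len_inv, len_inv] at h2
      exact h2
    · intro y hy hyw
      have e : m.mapDomain (fun w => w⁻¹) y = m y⁻¹ := by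
        have h := Finsupp.mapDomain_apply (f := fun w : W => w⁻¹) inv_injective m y⁻¹
        simp only [inv_inv] at h
        exact h
      rw [e, hm2 y⁻¹ (by rw [← inv_ws, len_inv, len_inv]; exact hy)
        (fun h => hyw (by rw [← inv_ws] at h; exact inv_injective h))]
      rw [← io_C hB hK C hC, io_apply, inv_inv]
    · have h2 := congrArg io hm3
      rw [io_add, io_add, io_L hG, io_smul, io_C hB hK C hC, io_C hB hK C hC, inv_inv,
        inv_sw, inv_inv] at h2
      rw [h2]
      congr 1
      rw [Finsupp.sum_mapDomain_index (h := fun (y : W) (a : ℤ) => a • C y)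
        (fun _ => zero_smul _ _) (fun _ _ _ => add_smul _ _ _)]
      let ioH : H →+ H := AddMonoidHom.mk' io io_add
      show ioH _ = _
      rw [map_finsuppSum]
      apply Finsupp.sum_congr
      intro y _
      rw [map_zsmul]
      congr 1
      exact io_C hB hK C hC y
  · intro C hC w i hw y hy
    have h1 := congrArg (fun x : H => x y) (eigR C hC w i hw)
    simp only [Finsupp.smul_apply, smul_eq_mul] at h1
    rw [R_apply hG, if_neg (not_lt.mpr hy.le), add_zero] at h1
    exact h1

end Pool.Agent.Helper39.KL
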