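import Pool.Agent.Helper39.KL.Spec

/-!
# Module LEAD: leading coefficients of `C_z e`
-/

namespace Pool.Agent.Helper39.KL

namespace LEAD

open Finset

/-- the leaves `K` -/
abbrev K : Finset (Fin 5) := {0, 1, 3}

theorem coeff_T_mul (n m : ℤ) (p : A) :
    ((LaurentPolynomial.T n : A) * p).coeff m = p.coeff (m - n) := by
  have h := AddMonoidAlgebra.coeff_single_mul_eq_mul_coeff (r := (1 : ℤ)) (x := p) (m := n)
    (m₁ := m) (m - n) (by intro m' _; constructor <;> intro h <;> omega)
  rw [one_mul] at h
  exact h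

theorem DL_mono {a b : ℤ} (h : a ≤ b) {p : A} (hp : DL a p) : DL b p :=
  fun m hm => hp m (lt_of_le_of_lt h hm)

theorem DL_v_mul {a b : ℤ} (hb : b = a + 1) {p : A} (hp : DL a p) : DL b (v * p) := by
  intro m hm
  rw [v, coeff_T_mul]
  exact hp _ (by omega)

theorem DL_vi_mul {a b : ℤ} (hb : b = a - 1) {p : A} (hp : DL a p) : DL b (vi * p) := by
  intro m hm
  rw [vi, coeff_T_mul]
  exact hp _ (by omega)

theorem vi_v : vi * v = 1 := by
  rw [vi, v, ← LaurentPolynomial.T_add]
  simp

theorem DL_mul {a b : ℤ} {p q : A} (hp : DL a p) (hq : DL b q) : DL (a + b) (p * q) := by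
  intro m hm
  rw [AddMonoidAlgebra.coeff_mul]
  apply Finset.sum_eq_zero
  intro m₁ h₁
  apply Finset.sum_eq_zero
  intro m₂ h₂
  dsimp only
  split_ifs with h
  · by_cases h3 : a < m₁
    · rw [hp _ h3, zero_mul]
    · rw [hq m₂ (by omega), mul_zero]
  · rfl

theorem DL_one : DL 0 (1 : A) := by
  intro m hm
  have : (1 : A) = LaurentPolynomial.T 0 := LaurentPolynomial.T_zero.symm
  rw [this, LaurentPolynomial.T_apply]
  rw [if_neg (by omega)]

theorem DL_sum {ι : Type*} {a : ℤ} (t : Finset ι) (f : ι → A) (h : ∀ i ∈ t, DL a (f i)) :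
    DL a (∑ i ∈ t, f i) := by
  intro m hm
  rw [AddMonoidAlgebra.coeff_sum, Finsupp.finsetSum_apply]
  exact Finset.sum_eq_zero fun i hi => h i hi m hm

theorem refl_self : ∀ i ∈ K, refl i (al i) = -al i := by decide

theorem refl_other : ∀ i ∈ K, ∀ j ∈ K, j ≠ i → refl i (al j) = al j := by decide

variable (hR : RootFacts)

include hR in
theorem act_mul_s (w : W) (i : Fin 5) (x : Q) : act (w * s i) x = act w (refl i x) := by
  rw [map_mul]
  change act w (act (s i) x) = _
  rw [hR.act_s]

include hR in
theorem pos_of_not_neg (w : W) (i : Fin 5) (h : ¬ Neg w (al i)) : Pos w (al i) := by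
  rcases hR.sign _ (hR.root_act w _ (hR.root_al i)) with h1 | h1
  · exact h1.1
  · exact absurd h1.1 h

include hR in
theorem not_pos_of_neg (w : W) (i : Fin 5) (h : Neg w (al i)) : ¬ Pos w (al i) := by
  rcases hR.sign _ (hR.root_act w _ (hR.root_al i)) with h1 | h1
  · exact absurd h h1.2
  · exact h1.2

include hR in
theorem neg_other (w : W) {i j : Fin 5} (hi : i ∈ K) (hj : j ∈ K) (hij : j ≠ i) :
    Neg (w * s i) (al j) ↔ Neg w (al j) := by
  unfold Neg
  rw [act_mul_s hR, refl_other i hi j hj hij]

include hR in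
theorem neg_self (w : W) {i : Fin 5} (hi : i ∈ K) :
    Neg (w * s i) (al i) ↔ ¬ Neg w (al i) := by
  have h1 : Neg (w * s i) (al i) ↔ Pos w (al i) := by
    unfold Neg Pos
    rw [act_mul_s hR, refl_self i hi, map_neg, neg_nonpos]
  rw [h1]
  constructor
  · intro h h2
    exact not_pos_of_neg hR w i h2 h
  · intro h
    exact pos_of_not_neg hR w i h

open Classical in
/-- the set of descents in `K` -/
noncomputable def D (w : W) : Finset (Fin 5) := K.filter fun i => Neg w (al i)

theorem mem_D {w : W} {i : Fin 5} : i ∈ D w ↔ i ∈ K ∧ Neg w (al i) := by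
  classical
  unfold D
  rw [Finset.mem_filter]

include hR in
theorem D_down (w : W) {i : Fin 5} (hi : i ∈ K) (h : Neg w (al i)) :
    D (w * s i) = (D w).erase i := by
  ext j
  rw [mem_D, Finset.mem_erase, mem_D]
  by_cases hj : j ∈ K
  · by_cases hij : j = i
    · subst hij
      rw [neg_self hR w hi]
      tauto
    · rw [neg_other hR w hi hj hij]
      tauto
  · tauto

include hR in
theorem D_up (w : W) {i : Fin 5} (hi : i ∈ K) (h : ¬ Neg w (al i)) :
    D (w * s i) = insert i (D w) := by
  ext j
  rw [mem_D, Finset.mem_insert (s := D w), mem_D]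
  by_cases hj : j ∈ K
  · by_cases hij : j = i
    · subst hij
      rw [neg_self hR w hi]
      tauto
    · rw [neg_other hR w hi hj hij]
      tauto
  · have : j ≠ i := fun h => hj (h ▸ hi)
    tauto

include hR in
theorem card_D_down (w : W) {i : Fin 5} (hi : i ∈ K) (h : Neg w (al i)) :
    (D (w * s i)).card + 1 = (D w).card := by
  rw [D_down hR w hi h]
  exact Finset.card_erase_add_one (mem_D.2 ⟨hi, h⟩)

include hR in
theorem card_D_up (w : W) {i : Fin 5} (hi : i ∈ K) (h : ¬ Neg w (al i)) :
    (D (w * s i)).card = (D w).card + 1 := by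
  rw [D_up hR w hi h]
  apply Finset.card_insert_of_notMem
  intro h2
  exact h (mem_D.1 h2).2

theorem ss (w : W) (i : Fin 5) : w * s i * s i = w := by
  rw [mul_assoc]
  have : s i * s i = 1 := cs.simple_mul_simple_self i
  rw [this, mul_one]

theorem len_s (i : Fin 5) : len (s i) = 1 := cs.length_simple i

theorem len_down (w : W) (i : Fin 5) (h : len (w * s i) < len w) :
    len w = len (w * s i) + 1 := by
  have := cs.length_mul_simple w i
  unfold len at *
  change cs.length (w * cs.simple i) < _ at h
  change _ = cs.length (w * cs.simple i) + 1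
  omega

section T

variable (hT : TFacts) {X : Type} (G : Good X)

include hR hT in
theorem T_rm (w : W) {i : Fin 5} (hi : i ∈ K) (h : Neg w (al i)) :
    G.T w G.e = v • G.T (w * s i) G.e := by
  have h1 : len (w * s i) < len w := (hR.dnR w i).2 h
  have h2 := len_down w i h1
  have h3 := hT.T_mul G.toBMod (w * s i) (s i) G.e (by rw [ss, len_s]; exact h2)
  rw [ss] at h3
  rw [h3, hT.T_s, G.eK i hi, map_smul]

include hR hT in
theorem T_bound (hab : ABFacts) : ∀ (k : ℕ) (w : W), (D w).card = k → DLv k (G.T w G.e) := by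
  intro k
  induction k with
  | zero =>
    intro w hw
    rw [Finset.card_eq_zero] at hw
    apply hab.A0
    intro i hi
    apply pos_of_not_neg hR
    intro h
    have : i ∈ D w := mem_D.2 ⟨hi, h⟩
    rw [hw] at this
    exact absurd this (Finset.notMem_empty i)
  | succ k ih =>
    intro w hw
    have hne : (D w).Nonempty := by
      rw [← Finset.card_pos]
      omega
    obtain ⟨i, hi⟩ := hne
    obtain ⟨hi, hneg⟩ := mem_D.1 hi
    have h1 := ih (w * s i) (by have := card_D_down hR w hi hneg; omega)
    rw [T_rm hR hT G w hi hneg]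
    intro g
    rw [Finsupp.smul_apply, smul_eq_mul]
    exact DL_v_mul (by push_cast; ring) (h1 g)

end T

include hR in
theorem C_bound (hK2 : KL2Facts) (C : W → H) (hC : IsKL C) (z : W)
    (hz : ∀ i ∈ K, Neg z (al i)) :
    ∀ (k : ℕ) (w : W), (D w).card + k = 3 → DL (-(k : ℤ)) (C z w) := by
  intro k
  induction k with
  | zero =>
    intro w hw
    by_cases hwz : w = z
    · subst hwz
      rw [hC.lead]
      simpa using DL_one
    · exact DL_mono (by simp) (hC.low z w hwz)
  | succ k ih =>
    intro w hw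
    have hne : ∃ i ∈ K, ¬ Neg w (al i) := by
      by_contra hcon
      push Not at hcon
      have h1 : D w = K := by
        ext i
        rw [mem_D]
        constructor
        · exact fun h => h.1
        · exact fun h => ⟨h, hcon i h⟩
      rw [h1] at hw
      have : K.card = 3 := by decide
      omega
    obtain ⟨i, hi, hneg⟩ := hne
    have h1 := ih (w * s i) (by have := card_D_up hR w hi hneg; omega)
    have h2 : len (z * s i) < len z := (hR.dnR z i).2 (hz i hi)
    have h3 : len w < len (w * s i) := (hR.upR w i).2 (pos_of_not_neg hR w i hneg)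
    have h4 := hK2.coefR C hC z i h2 w h3
    have h5 : C z w = vi * C z (w * s i) := by
      rw [h4, ← mul_assoc, vi_v, one_mul]
    rw [h5]
    exact DL_vi_mul (by push_cast; ring) h1

theorem D_card_le (w : W) : (D w).card ≤ 3 := by
  have h1 : D w ⊆ K := fun i hi => (mem_D.1 hi).1
  have h2 := Finset.card_le_card h1
  have : K.card = 3 := by decide
  omega

end LEAD

open LEAD in
/-- module LEAD -/
theorem leadStmt (hR : RootFacts) (hT : TFacts) (_hG : RegFacts) (_hK1 : KL1Facts)
    (hK2 : KL2Facts) (_c1 : Comb1Facts) (hab : ABFacts) (_hP : PhiStmt) : LeadStmt := by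
  classical
  intro C hC X G z hz
  -- every term with `w ≠ z` has degree at most `2`
  have hterm : ∀ w, w ≠ z → ∀ g, DL 2 (C z w * G.T w G.e g) := by
    intro w hw g
    have h1 := T_bound hR hT G hab (D w).card w rfl g
    have h3 := D_card_le w
    obtain ⟨k, hk⟩ : ∃ k, (D w).card + k = 3 := ⟨3 - (D w).card, by omega⟩
    rcases Nat.eq_zero_or_pos k with hk0 | hk0
    · have h2 := hC.low z w hw
      exact DL_mono (by omega) (DL_mul h2 h1)
    · have h2 := C_bound hR hK2 C hC z hz k w hk
      exact DL_mono (by omega) (DL_mul h2 h1)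
  have hzz : G.T z G.e = v • v • v • G.T (z * wK) G.e := by
    have h0 : (0 : Fin 5) ∈ K := by decide
    have h1 : (1 : Fin 5) ∈ K := by decide
    have h3 : (3 : Fin 5) ∈ K := by decide
    rw [T_rm hR hT G z h0 (hz 0 h0)]
    have e1 : Neg (z * s 0) (al 1) := (neg_other hR z h0 h1 (by decide)).2 (hz 1 h1)
    rw [T_rm hR hT G _ h1 e1]
    have e3 : Neg (z * s 0 * s 1) (al 3) :=
      (neg_other hR _ h1 h3 (by decide)).2 ((neg_other hR z h0 h3 (by decide)).2 (hz 3 h3))
    rw [T_rm hR hT G _ h3 e3]
    have e4 : z * s 0 * s 1 * s 3 = z * wK := by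
      unfold wK
      simp only [mul_assoc]
    rw [e4]
  have hz3 : ∀ g m, (C z z * G.T z G.e g).coeff m = (G.T (z * wK) G.e g).coeff (m - 3) := by
    intro g m
    rw [hC.lead, one_mul, hzz]
    simp only [Finsupp.smul_apply, smul_eq_mul]
    rw [v, coeff_T_mul, coeff_T_mul, coeff_T_mul]
    congr 1
    ring
  have hXK : XK (z * wK) := by
    apply _c1.Nhat_inv
    exact hz
  have hexp : ∀ g, G.Phi G.e (C z) g = ∑ w ∈ (C z).support, C z w * G.T w G.e g := by
    intro g
    unfold BMod.Phi Finsupp.sum
    rw [Finsupp.finsetSum_apply]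
    apply Finset.sum_congr rfl
    intro w _
    rw [Finsupp.smul_apply, smul_eq_mul]
  constructor
  · intro g
    rw [hexp]
    apply DL_sum
    intro w _
    by_cases hw : w = z
    · subst hw
      intro m hm
      rw [hz3]
      exact hab.A0 G _ hXK g _ (by omega)
    · exact DL_mono (by norm_num) (hterm w hw g)
  · intro g
    rw [hexp, AddMonoidAlgebra.coeff_sum, Finsupp.finsetSum_apply]
    have hmem : z ∈ (C z).support := by
      rw [Finsupp.mem_support_iff, hC.lead]
      exact one_ne_zero
    rw [Finset.sum_eq_single_of_mem z hmem]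
    · rw [hz3]
      norm_num
    · intro w _ hw
      exact hterm w hw g 3 (by norm_num)

end Pool.Agent.Helper39.KL
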