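import Pool.Agent.Helper39.KL.Spec

/-!
# Module MAT: Matsumoto's theorem for the group `W` (helper36)
-/

set_option autoImplicit false

namespace Pool.Agent.Helper39.KL

namespace Mat

theorem M_apply (i j : Fin 5) : (M : CoxeterMatrix (Fin 5)) i j = if i = j then 1 else if adj i j then 3 else 2 := rfl

theorem s_sq (i : Fin 5) : s i * s i = 1 := cs.simple_mul_simple_self i

theorem s_inv (i : Fin 5) : (s i)⁻¹ = s i := cs.inv_simple i

theorem s_s (i : Fin 5) (w : W) : s i * (s i * w) = w := cs.simple_mul_simple_cancel_left i

theorem comm_s (i j : Fin 5) (hij : i ≠ j) (h : adj i j = false) : s i * s j = s j * s i := by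
  have h1 := cs.simple_mul_simple_pow i j
  rw [M_apply, if_neg hij, h] at h1
  simp only [Bool.false_eq_true, if_false] at h1
  have h2 : s i * s j = (s i * s j)⁻¹ := by
    rw [eq_inv_iff_mul_eq_one, ← pow_two]; exact h1
  rw [h2, mul_inv_rev, s_inv, s_inv]

theorem braid_s (i j : Fin 5) (h : adj i j = true) : s i * s j * s i = s j * s i * s j := by
  have hij : i ≠ j := by
    rintro rfl
    revert h; revert i; decide
  have h1 := cs.simple_mul_simple_pow i j
  rw [M_apply, if_neg hij, h] at h1
  simp only [if_true] at h1
  have h2 : s i * s j * s i = (s j * s i * s j)⁻¹ := by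
    rw [eq_inv_iff_mul_eq_one]
    rw [← h1]
    change _ = (s i * s j) ^ 3
    simp only [pow_succ, pow_zero, one_mul, mul_assoc]
  rw [h2, mul_inv_rev, mul_inv_rev, s_inv, s_inv, mul_assoc]

theorem refl_al_comm : ∀ i j : Fin 5, i ≠ j → adj i j = false → refl i (al j) = al j := by
  simp only [al]
  decide

theorem refl_al_adj : ∀ i j : Fin 5, adj i j = true → refl i (al j) = al i + al j := by
  simp only [al]
  decide

theorem refl_al_adj' : ∀ i j : Fin 5, adj i j = true → refl i (al i + al j) = al j := by
  simp only [al]
  decide

theorem adj_symm : ∀ i j : Fin 5, adj i j = true → adj j i = true := by decide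

theorem act_inv_s (hR : RootFacts) (i : Fin 5) (w : W) (x : Q) :
    act (s i * w)⁻¹ x = act w⁻¹ (refl i x) := by
  rw [mul_inv_rev, s_inv, map_mul, Module.End.mul_apply, hR.act_s]

/-- second descent, commuting case -/
theorem dn_comm (hR : RootFacts) (w : W) (i j : Fin 5) (hij : i ≠ j) (h : adj i j = false)
    (h1 : len (s i * w) < len w) (h2 : len (s j * w) < len w) :
    len (s j * (s i * w)) + 2 = len w := by
  have h3 : len (s j * (s i * w)) < len (s i * w) := by
    rw [hR.dnL, act_inv_s hR, refl_al_comm i j hij h, ← hR.dnL]; exact h2
  have e1 : len (s i * w) + 1 = len w := (cs.isLeftDescent_iff).1 h1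
  have e2 : len (s j * (s i * w)) + 1 = len (s i * w) := (cs.isLeftDescent_iff).1 h3
  omega

/-- further descents, braid case -/
theorem dn_braid (hR : RootFacts) (w : W) (i j : Fin 5) (h : adj i j = true)
    (h1 : len (s i * w) < len w) (h2 : len (s j * w) < len w) :
    len (s j * (s i * w)) + 2 = len w ∧ len (s i * (s j * (s i * w))) + 3 = len w := by
  have hj : act w⁻¹ (al j) ≤ 0 := (hR.dnL w j).1 h2
  have hi : act w⁻¹ (al i) ≤ 0 := (hR.dnL w i).1 h1
  have h3 : len (s j * (s i * w)) < len (s i * w) := by
    rw [hR.dnL, act_inv_s hR, refl_al_adj i j h, map_add]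
    exact add_nonpos hi hj
  have h' : adj j i = true := adj_symm i j h
  have h4 : len (s i * (s j * (s i * w))) < len (s j * (s i * w)) := by
    rw [hR.dnL, act_inv_s hR, act_inv_s hR, refl_al_adj j i h', add_comm, refl_al_adj' i j h]
    exact hj
  have e1 : len (s i * w) + 1 = len w := (cs.isLeftDescent_iff).1 h1
  have e2 : len (s j * (s i * w)) + 1 = len (s i * w) := (cs.isLeftDescent_iff).1 h3
  have e3 : len (s i * (s j * (s i * w))) + 1 = len (s j * (s i * w)) := (cs.isLeftDescent_iff).1 h4
  omega

theorem wp_cons (i : Fin 5) (l : List (Fin 5)) : cs.wordProd (i :: l) = s i * cs.wordProd l :=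
  cs.wordProd_cons i l

/-- a reduced word of `w` -/
theorem exists_word (w : W) : ∃ l : List (Fin 5), cs.wordProd l = w ∧ l.length = len w := by
  obtain ⟨l, h1, h2⟩ := cs.exists_isReduced w
  exact ⟨l, h2.symm, by rw [h2]; exact h1.symm⟩

/-- Matsumoto's theorem -/
theorem matsumoto (hR : RootFacts) {N : Type} [Monoid N] (t : Fin 5 → N)
    (hc : ∀ i j, i ≠ j → adj i j = false → t i * t j = t j * t i)
    (hb : ∀ i j, adj i j = true → t i * t j * t i = t j * t i * t j) :
    ∀ n : ℕ, ∀ (w : W) (l l' : List (Fin 5)), len w = n → cs.wordProd l = w → cs.wordProd l' = w →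
      l.length = len w → l'.length = len w → (l.map t).prod = (l'.map t).prod := by
  intro n
  induction n using Nat.strong_induction_on with
  | _ n ih =>
    intro w l l' hn hl hl' h1 h1'
    cases l with
    | nil =>
      have : l' = [] := by
        apply List.eq_nil_of_length_eq_zero
        rw [h1', ← h1]; rfl
      rw [this]
    | cons i a =>
      cases l' with
      | nil =>
        rw [List.length_nil] at h1'
        rw [← h1'] at h1
        simp at h1
      | cons j b =>
        rw [wp_cons] at hl hl'
        rw [List.length_cons] at h1 h1'
        have ha : cs.wordProd a = s i * w := by rw [← hl, s_s]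
        have hb' : cs.wordProd b = s j * w := by rw [← hl', s_s]
        have la : len (s i * w) ≤ a.length := by rw [← ha]; exact cs.length_wordProd_le a
        have lb : len (s j * w) ≤ b.length := by rw [← hb']; exact cs.length_wordProd_le b
        have di : len (s i * w) < len w := by omega
        have dj : len (s j * w) < len w := by omega
        have ei : len (s i * w) + 1 = len w := (cs.isLeftDescent_iff).1 di
        have ej : len (s j * w) + 1 = len w := (cs.isLeftDescent_iff).1 dj
        rw [List.map_cons, List.map_cons, List.prod_cons, List.prod_cons]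
        by_cases hij : i = j
        · subst hij
          rw [ih (len (s i * w)) (by omega) (s i * w) a b rfl ha hb' (by omega) (by omega)]
        · cases hadj : adj i j with
          | false =>
            have e := dn_comm hR w i j hij hadj di dj
            obtain ⟨c, hc1, hc2⟩ := exists_word (s j * (s i * w))
            have p1 : cs.wordProd (j :: c) = s i * w := by
              rw [wp_cons, hc1, s_s]
            have p2 : cs.wordProd (i :: c) = s j * w := by
              rw [wp_cons, hc1, ← mul_assoc (s j), ← comm_s i j hij hadj, mul_assoc (s i), s_s]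
            rw [ih (len (s i * w)) (by omega) (s i * w) a (j :: c) rfl ha p1 (by omega)
                (by rw [List.length_cons]; omega),
              ih (len (s j * w)) (by omega) (s j * w) b (i :: c) rfl hb' p2 (by omega)
                (by rw [List.length_cons]; omega),
              List.map_cons, List.map_cons, List.prod_cons, List.prod_cons, ← mul_assoc, ← mul_assoc,
              hc i j hij hadj]
          | true =>
            obtain ⟨e2, e3⟩ := dn_braid hR w i j hadj di dj
            obtain ⟨c, hc1, hc2⟩ := exists_word (s i * (s j * (s i * w)))
            have p1 : cs.wordProd (j :: i :: c) = s i * w := by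
              rw [wp_cons, wp_cons, hc1, s_s, s_s]
            have p2 : cs.wordProd (i :: j :: c) = s j * w := by
              rw [wp_cons, wp_cons, hc1]
              have : s i * (s j * (s i * w)) = s j * (s i * (s j * w)) := by
                have := braid_s i j hadj
                calc s i * (s j * (s i * w)) = (s i * s j * s i) * w := by simp only [mul_assoc]
                  _ = (s j * s i * s j) * w := by rw [this]
                  _ = _ := by simp only [mul_assoc]
              rw [this, s_s, s_s]
            rw [ih (len (s i * w)) (by omega) (s i * w) a (j :: i :: c) rfl ha p1 (by omega)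
                (by rw [List.length_cons, List.length_cons]; omega),
              ih (len (s j * w)) (by omega) (s j * w) b (i :: j :: c) rfl hb' p2 (by omega)
                (by rw [List.length_cons, List.length_cons]; omega)]
            simp only [List.map_cons, List.prod_cons, ← mul_assoc]
            rw [hb i j hadj]

theorem rword_prod (w : W) : cs.wordProd (rword w) = w := (cs.exists_isReduced w).choose_spec.2.symm

theorem rword_len (w : W) : (rword w).length = len w := by
  have h : len (cs.wordProd (rword w)) = (rword w).length := (cs.exists_isReduced w).choose_spec.1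
  rw [← h, rword_prod]

theorem s_inj (hR : RootFacts) (i j : Fin 5) (h : s i = s j) : i = j := by
  have h1 : refl i (al i) = refl j (al i) := by rw [← hR.act_s, ← hR.act_s, h]
  revert h1
  simp only [al]
  clear h hR
  revert i j
  decide

end Mat

open Mat in
theorem matFacts (hR : RootFacts) : MatFacts where
  wl_one := by
    intro N _ t
    have h : (rword 1).length = 0 := by rw [rword_len]; exact cs.length_one
    unfold wl
    rw [List.eq_nil_of_length_eq_zero h]
    rfl
  wl_mul := by
    intro N _ t hc hb u w h
    unfold wl
    rw [← List.prod_append, ← List.map_append]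
    exact matsumoto hR t hc hb _ (u * w) _ _ rfl (rword_prod _)
      (by rw [cs.wordProd_append, rword_prod, rword_prod]) (rword_len _)
      (by rw [List.length_append, rword_len, rword_len, h])
  wl_s := by
    intro N _ t i
    have h : (rword (s i)).length = 1 := by rw [rword_len]; exact cs.length_simple i
    obtain ⟨j, hj⟩ := List.length_eq_one_iff.1 h
    have h2 := rword_prod (s i)
    rw [hj, wp_cons, cs.wordProd_nil, mul_one] at h2
    unfold wl
    rw [hj, s_inj hR j i h2]
    simp

theorem tFacts (hM : MatFacts) : TFacts where
  T_one := by
    intro X V x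
    unfold BMod.T
    rw [hM.wl_one]
    rfl
  T_s := by
    intro X V i x
    unfold BMod.T
    rw [hM.wl_s]
  T_mul := by
    intro X V u w x h
    unfold BMod.T
    rw [hM.wl_mul (N := Module.End A (X →₀ A)) V.t ?_ ?_ u w h]
    · rfl
    · intro i j hij hadj
      apply LinearMap.ext
      intro x
      exact V.comm i j hij hadj x
    · intro i j hadj
      apply LinearMap.ext
      intro x
      exact V.braid i j hadj x

end Pool.Agent.Helper39.KL
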