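import Pool.Agent.Helper39.KL.Spec

/-!
# Module PHI: the map `Phi` intertwines `L i` and `V.t i`
-/

namespace Pool.Agent.Helper39.KL

namespace PHI

theorem ss_left (w : W) (i : Fin 5) : s i * (s i * w) = w := by
  rw [← mul_assoc]
  have : s i * s i = 1 := cs.simple_mul_simple_self i
  rw [this, one_mul]

theorem len_s (i : Fin 5) : len (s i) = 1 := cs.length_simple i

theorem len_cases (w : W) (i : Fin 5) :
    len (s i * w) = len w + 1 ∨ len (s i * w) + 1 = len w :=
  cs.length_simple_mul w i

variable {X : Type} (V : BMod X) (e : X →₀ A)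

theorem Phi_add (h h' : H) : V.Phi e (h + h') = V.Phi e h + V.Phi e h' := by
  classical
  unfold BMod.Phi
  apply Finsupp.sum_add_index'
  · intro w
    rw [zero_smul]
  · intro w a b
    rw [add_smul]

theorem Phi_smul (a : A) (h : H) : V.Phi e (a • h) = a • V.Phi e h := by
  classical
  unfold BMod.Phi
  rw [Finsupp.sum_smul_index' (h := fun (w : W) (a : A) => a • V.T w e)
    (fun w => zero_smul _ _), Finsupp.smul_sum]
  apply Finsupp.sum_congr
  intro w _
  rw [smul_eq_mul, mul_smul]

theorem Phi_Tb (w : W) : V.Phi e (Tb w) = V.T w e := by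
  unfold BMod.Phi Tb
  rw [Finsupp.sum_single_index (h := fun (w : W) (a : A) => a • V.T w e)
    (zero_smul _ _), one_smul]

end PHI

open PHI in
/-- module PHI -/
theorem phiStmt (_hR : RootFacts) (hT : TFacts) (hG : RegFacts) : PhiStmt := by
  classical
  intro X V e
  refine ⟨Phi_smul V e, Phi_add V e, Phi_Tb V e, ?_⟩
  intro i h
  induction h using Finsupp.induction_linear with
  | zero =>
    have h0 : V.Phi e 0 = 0 := by
      unfold BMod.Phi
      rw [Finsupp.sum_zero_index]
    rw [map_zero, h0, map_zero]
  | add f g hf hg =>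
    rw [map_add, Phi_add, hf, hg, Phi_add, map_add]
  | single w a =>
    have h1 : (Finsupp.single w a : H) = a • Tb w := by
      unfold Tb
      rw [Finsupp.smul_single, smul_eq_mul, mul_one]
    rw [h1, map_smul, Phi_smul, Phi_smul, map_smul, Phi_Tb]
    congr 1
    rcases len_cases w i with hl | hl
    · rw [hG.L_up i w (by omega), Phi_Tb,
        hT.T_mul V (s i) w e (by rw [hl, len_s]; omega), hT.T_s]
    · rw [hG.L_dn i w (by omega), Phi_add, Phi_smul, Phi_Tb, Phi_Tb]
      have h2 : V.T w e = V.t i (V.T (s i * w) e) := by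
        have h3 := hT.T_mul V (s i) (s i * w) e (by rw [ss_left, len_s]; omega)
        rw [ss_left, hT.T_s] at h3
        exact h3
      rw [h2, V.quad]

end Pool.Agent.Helper39.KL
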