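import Pool.Agent.Helper39.KL.Spec

/-!
# Module REG: left and right multiplication operators
-/

namespace Pool.Agent.Helper39.KL.REG

open Finset Pool.Agent.Helper39.KL

theorem len_s_mul (w : W) (i : Fin 5) :
    len (s i * w) = len w + 1 ∨ len (s i * w) + 1 = len w :=
  cs.length_simple_mul w i

theorem len_mul_s (w : W) (i : Fin 5) :
    len (w * s i) = len w + 1 ∨ len (w * s i) + 1 = len w :=
  cs.length_mul_simple w i

theorem s_s_mul (i : Fin 5) (w : W) : s i * (s i * w) = w :=
  cs.simple_mul_simple_cancel_left i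

theorem mul_s_s (i : Fin 5) (w : W) : w * s i * s i = w :=
  cs.simple_mul_simple_cancel_right i

theorem s_inv (i : Fin 5) : (s i)⁻¹ = s i := cs.inv_simple i

theorem len_inv (w : W) : len w⁻¹ = len w := cs.length_inv w

theorem L_Tb (i : Fin 5) (w : W) : L i (Tb w) = if len w < len (s i * w) then Tb (s i * w)
    else Tb (s i * w) + (v - vi) • Tb w := by
  classical
  unfold L
  rw [show (Tb w : H) = Finsupp.single w 1 from rfl, Finsupp.linearCombination_single, one_smul]
  split_ifs <;> rfl

theorem R_Tb (i : Fin 5) (w : W) : R i (Tb w) = if len w < len (w * s i) then Tb (w * s i)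
    else Tb (w * s i) + (v - vi) • Tb w := by
  classical
  unfold R
  rw [show (Tb w : H) = Finsupp.single w 1 from rfl, Finsupp.linearCombination_single, one_smul]
  split_ifs <;> rfl

theorem L_up (i : Fin 5) (w : W) (h : len w < len (s i * w)) : L i (Tb w) = Tb (s i * w) := by
  rw [L_Tb, if_pos h]

theorem L_dn (i : Fin 5) (w : W) (h : len (s i * w) < len w) :
    L i (Tb w) = Tb (s i * w) + (v - vi) • Tb w := by
  rw [L_Tb, if_neg (by omega)]

theorem R_up (i : Fin 5) (w : W) (h : len w < len (w * s i)) : R i (Tb w) = Tb (w * s i) := by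
  rw [R_Tb, if_pos h]

theorem R_dn (i : Fin 5) (w : W) (h : len (w * s i) < len w) :
    R i (Tb w) = Tb (w * s i) + (v - vi) • Tb w := by
  rw [R_Tb, if_neg (by omega)]

theorem refl_ne {i k : Fin 5} (h : k ≠ i) (x : Q) : refl i x k = x k := by
  show x k - (if k = i then _ else (0 : ℤ)) = x k
  rw [if_neg h, sub_zero]

theorem root_eq_al {x : Q} {i : Fin 5} (h1 : IsRoot x) (h2 : 0 ≤ x) (h3 : refl i x ≤ 0) :
    x = al i := by
  have h4 : ∀ k, k ≠ i → x k = 0 := by
    intro k hk
    have := h3 k
    rw [refl_ne hk] at this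
    exact le_antisymm this (h2 k)
  have h5 : x i = 1 := by
    have h6 := h2 i
    have h7 : (x i) ^ 2 = 1 := by
      unfold IsRoot at h1
      fin_cases i
      · have e1 := h4 1 (by decide); have e2 := h4 2 (by decide); have e3 := h4 3 (by decide)
        have e4 := h4 4 (by decide)
        simp only [e1, e2, e3, e4] at h1
        show (x 0) ^ 2 = 1
        linarith
      · have e1 := h4 0 (by decide); have e2 := h4 2 (by decide); have e3 := h4 3 (by decide)
        have e4 := h4 4 (by decide)
        simp only [e1, e2, e3, e4] at h1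
        show (x 1) ^ 2 = 1
        linarith
      · have e1 := h4 0 (by decide); have e2 := h4 1 (by decide); have e3 := h4 3 (by decide)
        have e4 := h4 4 (by decide)
        simp only [e1, e2, e3, e4] at h1
        show (x 2) ^ 2 = 1
        linarith
      · have e1 := h4 0 (by decide); have e2 := h4 1 (by decide); have e3 := h4 2 (by decide)
        have e4 := h4 4 (by decide)
        simp only [e1, e2, e3, e4] at h1
        show (x 3) ^ 2 = 1
        linarith
      · have e1 := h4 0 (by decide); have e2 := h4 1 (by decide); have e3 := h4 2 (by decide)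
        have e4 := h4 3 (by decide)
        simp only [e1, e2, e3, e4] at h1
        show (x 4) ^ 2 = 1
        linarith
    have h8 : (0 : ℤ) ≤ x i := h6
    nlinarith
  funext k
  by_cases hk : k = i
  · rw [hk, h5]; simp [al]
  · rw [h4 k hk]; simp [al, hk]

theorem exch (hR : RootFacts) {i j : Fin 5} {w : W} (h1 : len w < len (w * s j))
    (h2 : len (s i * w * s j) < len (s i * w)) : s i * w = w * s j := by
  have h3 := (hR.upR w j).1 h1
  have h4 := (hR.dnR (s i * w) j).1 h2
  rw [map_mul, Module.End.mul_apply, hR.act_s] at h4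
  have h5 := root_eq_al (hR.root_act w _ (hR.root_al j)) h3 h4
  exact (hR.conj w j i h5).symm

theorem LR_Tb (hR : RootFacts) (i j : Fin 5) (w : W) :
    L i (R j (Tb w)) = R j (L i (Tb w)) := by
  have hassoc : s i * (w * s j) = s i * w * s j := (mul_assoc _ _ _).symm
  rcases len_s_mul w i with h1 | h1 <;> rcases len_mul_s w j with h2 | h2 <;>
    rcases len_s_mul (w * s j) i with h3 | h3 <;> rcases len_mul_s (s i * w) j with h4 | h4 <;>
    rw [hassoc] at h3
  all_goals try omega
  · rw [R_up j w (by omega), L_up i w (by omega), L_up i (w * s j) (by rw [hassoc]; omega),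
      R_up j (s i * w) (by omega), hassoc]
  · have h5 := exch hR (i := i) (j := j) (w := w) (by omega) (by omega)
    rw [R_up j w (by omega), L_up i w (by omega), L_dn i (w * s j) (by rw [hassoc]; omega),
      R_dn j (s i * w) (by omega), hassoc, h5]
  · rw [R_dn j w (by omega), L_up i w (by omega), map_add, map_smul, L_up i w (by omega),
      L_up i (w * s j) (by rw [hassoc]; omega), R_dn j (s i * w) (by omega), hassoc]
  · rw [R_up j w (by omega), L_dn i w (by omega), map_add, map_smul, R_up j w (by omega),
      L_dn i (w * s j) (by rw [hassoc]; omega), R_up j (s i * w) (by omega), hassoc]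
  · have h5 := exch hR (i := i) (j := j) (w := s i * w) (by omega) (by
      rw [s_s_mul]; omega)
    rw [s_s_mul] at h5
    have h6 : s i * w = w * s j := by
      conv_rhs => rw [h5]
      rw [mul_s_s]
    rw [R_dn j w (by omega), L_dn i w (by omega), map_add, map_smul, map_add, map_smul,
      R_dn j w (by omega), L_dn i w (by omega), L_up i (w * s j) (by rw [hassoc]; omega),
      R_up j (s i * w) (by omega), hassoc, h6]
  · rw [R_dn j w (by omega), L_dn i w (by omega), map_add, map_smul, map_add, map_smul,
      R_dn j w (by omega), L_dn i w (by omega), L_dn i (w * s j) (by rw [hassoc]; omega),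
      R_dn j (s i * w) (by omega), hassoc, smul_add, smul_add]
    abel

/-- extension by linearity -/
theorem ext_Tb {f g : H →ₗ[A] H} (h : ∀ w, f (Tb w) = g (Tb w)) : f = g :=
  Finsupp.lhom_ext' fun w => LinearMap.ext_ring (h w)

theorem LR (hR : RootFacts) (i j : Fin 5) (x : H) : L i (R j x) = R j (L i x) := by
  have : (L i).comp (R j) = (R j).comp (L i) := ext_Tb fun w => LR_Tb hR i j w
  exact LinearMap.congr_fun this x

/-- the mapping `T_w ↦ T_{w⁻¹}` -/
noncomputable def io : H →ₗ[A] H := Finsupp.lmapDomain A A fun w : W => w⁻¹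

theorem io_Tb (w : W) : io (Tb w) = Tb w⁻¹ := by
  show Finsupp.mapDomain _ (Finsupp.single w 1) = _
  rw [Finsupp.mapDomain_single]
  rfl

theorem inv (i : Fin 5) (x : H) :
    (L i x).mapDomain (fun w => w⁻¹) = R i (x.mapDomain (fun w => w⁻¹)) := by
  have : io.comp (L i) = (R i).comp io := by
    refine ext_Tb fun w => ?_
    rw [LinearMap.comp_apply, LinearMap.comp_apply, io_Tb]
    have h1 : (s i * w)⁻¹ = w⁻¹ * s i := by rw [mul_inv_rev, s_inv]
    have h2 : len (w⁻¹ * s i) = len (s i * w) := by rw [← h1, len_inv]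
    rcases len_s_mul w i with h | h
    · rw [L_up i w (by omega), io_Tb, h1, R_up i w⁻¹ (by rw [h2, len_inv]; omega)]
    · rw [L_dn i w (by omega), map_add, map_smul, io_Tb, io_Tb, h1,
        R_dn i w⁻¹ (by rw [h2, len_inv]; omega)]
  exact LinearMap.congr_fun this x

theorem lv_lam0 (g : W) (i : Fin 5) :
    lv (form fun _ => -1) g i = -∑ k, act g⁻¹ (al i) k := by
  unfold lv form
  simp only [LinearMap.coe_mk, AddHom.coe_mk, neg_mul, one_mul, Finset.sum_neg_distrib]

theorem sum_pos {x : Q} (h1 : 0 ≤ x) (h2 : ¬ x ≤ 0) : 0 < ∑ k, x k := by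
  by_contra h3
  apply h2
  intro k
  have h4 : ∑ k, x k = 0 := le_antisymm (by omega) (Finset.sum_nonneg fun k _ => h1 k)
  have h5 := (Finset.sum_eq_zero_iff_of_nonneg fun k _ => h1 k).1 h4 k (Finset.mem_univ k)
  exact h5.le

theorem sum_neg {x : Q} (h1 : x ≤ 0) (h2 : ¬ 0 ≤ x) : ∑ k, x k < 0 := by
  have h3 := sum_pos (x := -x) (by simpa using h1) (by simpa using h2)
  simp only [Pi.neg_apply, Finset.sum_neg_distrib] at h3
  omega

theorem Vop_lam0 (hR : RootFacts) (i : Fin 5) : Vop (form fun _ => -1) i = L i := by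
  classical
  refine ext_Tb fun w => ?_
  have hroot := hR.root_act w⁻¹ _ (hR.root_al i)
  have hV : Vop (form fun _ => -1) i (Tb w) = if lv (form fun _ => -1) w i = 0 then -(vi • Tb w)
      else if lv (form fun _ => -1) w i < 0 then Tb (s i * w)
      else Tb (s i * w) + (v - vi) • Tb w := by
    unfold Vop
    rw [show (Tb w : H) = Finsupp.single w 1 from rfl, Finsupp.linearCombination_single, one_smul]
    split_ifs <;> rfl
  rw [hV, lv_lam0]
  rcases hR.sign _ hroot with h | h
  · have h1 := sum_pos h.1 h.2
    rw [if_neg (by omega), if_pos (by omega), L_up i w ((hR.upL w i).2 h.1)]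
  · have h1 := sum_neg h.1 h.2
    rw [if_neg (by omega), if_neg (by omega), L_dn i w ((hR.dnL w i).2 h.1)]

end Pool.Agent.Helper39.KL.REG

namespace Pool.Agent.Helper39.KL

/-- module REG -/
theorem regFacts (hR : RootFacts) (hV : VlamStmt) : RegFacts where
  L_up := REG.L_up
  L_dn := REG.L_dn
  R_up := REG.R_up
  R_dn := REG.R_dn
  LR := REG.LR hR
  bmod := by
    obtain ⟨V, hV⟩ := hV (form fun _ => -1)
    exact ⟨V, hV.trans (funext fun i => REG.Vop_lam0 hR i)⟩
  inv := REG.inv

end Pool.Agent.Helper39.KL
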