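import Pool.Agent.Helper39.KL.Spec

/-!
# Module REL: two relations in a good module
-/

namespace Pool.Agent.Helper39.KL

open Finset

namespace REL

theorem v_mul_vi : v * vi = 1 := by
  rw [v, vi, ← LaurentPolynomial.T_add]
  simp

/-- scalar version of the computation of `T_i u = v u` -/
theorem comb1 {N : Type*} [AddCommGroup N] [Module A N] (y a b c x e : N) :
    v • y + vi • (c + (v - vi) • a) + vi ^ 2 • ((x + (v - vi) • b) + a) + vi ^ 3 • b
      + vi ^ 4 • (v • e)
      = v • (y + vi • a + vi ^ 2 • (b + c) + vi ^ 3 • x + vi ^ 4 • e) := by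
  have h := v_mul_vi
  match_scalars
  · ring
  · linear_combination (-vi) * h
  · linear_combination (0 : A) * h
  · linear_combination (-vi ^ 2) * h
  · linear_combination (0 : A) * h
  · ring

/-- scalar version of the computation of `T_2 u = v u` -/
theorem comb2 {N : Type*} [AddCommGroup N] [Module A N] (y a b c x e : N) :
    (a + (v - vi) • y) + vi • y + vi ^ 2 • (v • b + v • c) + vi ^ 3 • (e + (v - vi) • x)
      + vi ^ 4 • x
      = v • (y + vi • a + vi ^ 2 • (b + c) + vi ^ 3 • x + vi ^ 4 • e) := by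
  have h := v_mul_vi
  match_scalars
  · linear_combination (-1 : A) * h
  · linear_combination (0 : A) * h
  · linear_combination (0 : A) * h
  · linear_combination (0 : A) * h
  · linear_combination (-vi ^ 3) * h
  · linear_combination (0 : A) * h

/-- the vector whose vanishing is the relation `rel2` -/
theorem rel2_aux {X : Type} (G : Good X) (i j : Fin 5)
    (hi : i ∈ ({0, 1, 3} : Finset (Fin 5))) (hj : j ∈ ({0, 1, 3} : Finset (Fin 5)))
    (hij : i ≠ j) (hai : adj i j = false) (hi2 : adj i 2 = true) (hj2 : adj j 2 = true)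
    (hI : ({i, j, 2} : Finset (Fin 5)) ∈ BigI) :
    G.t 2 (G.t i (G.t j (G.t 2 G.e))) + vi • G.t i (G.t j (G.t 2 G.e))
      + vi ^ 2 • (G.t i (G.t 2 G.e) + G.t j (G.t 2 G.e)) + vi ^ 3 • G.t 2 G.e + vi ^ 4 • G.e
      = 0 := by
  have hei := G.eK i hi
  have hej := G.eK j hj
  have hc : ∀ x, G.t j (G.t i x) = G.t i (G.t j x) := fun x => (G.comm i j hij hai x).symm
  -- `T_2 T_i x = v T_i x`
  have h2b : G.t 2 (G.t i (G.t 2 G.e)) = v • G.t i (G.t 2 G.e) := by
    rw [← G.braid i 2 hi2, hei, map_smul, map_smul]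
  have h2c : G.t 2 (G.t j (G.t 2 G.e)) = v • G.t j (G.t 2 G.e) := by
    rw [← G.braid j 2 hj2, hej, map_smul, map_smul]
  have hiY : G.t i (G.t 2 (G.t i (G.t j (G.t 2 G.e)))) =
      v • G.t 2 (G.t i (G.t j (G.t 2 G.e))) := by
    rw [G.braid i 2 hi2, h2c, map_smul, map_smul]
  have hjY : G.t j (G.t 2 (G.t i (G.t j (G.t 2 G.e)))) =
      v • G.t 2 (G.t i (G.t j (G.t 2 G.e))) := by
    rw [← hc, G.braid j 2 hj2, h2b, map_smul, map_smul]
  apply G.noEig _ hI
  intro k hk
  simp only [mem_insert, mem_singleton] at hk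
  rcases hk with rfl | rfl | rfl
  · rw [map_add, map_add, map_add, map_add, map_smul, map_smul, map_add, map_smul, map_smul, hiY,
      G.quad, G.quad, hei]
    exact comb1 _ _ _ _ _ _
  · rw [map_add, map_add, map_add, map_add, map_smul, map_smul, map_add, map_smul, map_smul, hjY,
      hc, G.quad, hc, hej, map_add, map_smul]
    have := comb1 (G.t 2 (G.t i (G.t k (G.t 2 G.e)))) (G.t i (G.t k (G.t 2 G.e)))
      (G.t k (G.t 2 G.e)) (G.t i (G.t 2 G.e)) (G.t 2 G.e) G.e
    rw [add_comm (G.t i (G.t 2 G.e)) (G.t k (G.t 2 G.e)), ← this,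
      add_comm (G.t i (G.t k (G.t 2 G.e)))]
  · rw [map_add, map_add, map_add, map_add, map_smul, map_smul, map_add, map_smul, map_smul, h2b,
      h2c, G.quad, G.quad]
    exact comb2 _ _ _ _ _ _

end REL

theorem relFacts : RelFacts where
  rel2 := by
    intro X G p hp
    have key : ∀ i j : Fin 5, i ∈ ({0, 1, 3} : Finset (Fin 5)) → j ∈ ({0, 1, 3} : Finset (Fin 5)) →
        i ≠ j → adj i j = false → adj i 2 = true → adj j 2 = true →
        ({i, j, 2} : Finset (Fin 5)) ∈ BigI →
        G.t 2 (G.t i (G.t j (G.t 2 G.e))) =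
      -(vi • G.t i (G.t j (G.t 2 G.e)) + vi ^ 2 • (G.t i (G.t 2 G.e) + G.t j (G.t 2 G.e))
        + vi ^ 3 • G.t 2 G.e + vi ^ 4 • G.e) := by
      intro i j hi hj hij h1 h2 h3 hI
      rw [eq_neg_iff_add_eq_zero, ← REL.rel2_aux G i j hi hj hij h1 h2 h3 hI]
      abel
    simp only [KPairs, mem_insert, mem_singleton] at hp
    rcases hp with rfl | rfl | rfl
    · exact key 0 1 (by decide) (by decide) (by decide) (by decide) (by decide) (by decide)
        (by decide)
    · exact key 0 3 (by decide) (by decide) (by decide) (by decide) (by decide) (by decide)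
        (by decide)
    · exact key 1 3 (by decide) (by decide) (by decide) (by decide) (by decide) (by decide)
        (by decide)
  rel3 := by
    intro X G
    rw [← G.relx]
    simp only [BMod.c, map_add, map_smul]
    module

end Pool.Agent.Helper39.KL
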