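import Pool.Agent.Helper39.KL.Spec

/-!
# Module STAR
-/

namespace Pool.Agent.Helper39.KL

namespace STAR

/-- `i` is a right descent of `w` -/
def D (i : Fin 5) (w : W) : Prop := len (w * s i) < len w

theorem D_iff (hR : RootFacts) (i : Fin 5) (w : W) : D i w ↔ act w (al i) ≤ 0 := hR.dnR w i

theorem ss (i : Fin 5) : s i * s i = 1 := cs.simple_mul_simple_self i

theorem not_D (hR : RootFacts) {i : Fin 5} {w : W} (h : ¬ D i w) : len w < len (w * s i) := by
  rw [D_iff hR] at h
  rw [hR.upR]
  rcases hR.sign _ (hR.root_act w _ (hR.root_al i)) with h' | h'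
  · exact h'.1
  · exact absurd h'.1 h

theorem D_mul (i : Fin 5) (w : W) (h : ¬ D i w) (hR : RootFacts) : D i (w * s i) := by
  unfold D
  rw [mul_assoc, ss, mul_one]
  exact not_D hR h

theorem not_D_mul (i : Fin 5) (w : W) (h : D i w) : ¬ D i (w * s i) := by
  unfold D at *
  rw [mul_assoc, ss, mul_one]
  omega

theorem act_mul_s (hR : RootFacts) (w : W) (i : Fin 5) (x : Q) :
    act (w * s i) x = act w (refl i x) := by
  rw [map_mul, Module.End.mul_apply, hR.act_s]

theorem refl20 : refl 2 (al 0) = al 0 + al 2 := by decide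
theorem refl02 : refl 0 (al 2) = al 0 + al 2 := by decide

theorem D0_mul2 (hR : RootFacts) (w : W) : D 0 (w * s 2) ↔ act w (al 0 + al 2) ≤ 0 := by
  rw [D_iff hR, act_mul_s hR, refl20]

theorem D2_mul0 (hR : RootFacts) (w : W) : D 2 (w * s 0) ↔ act w (al 0 + al 2) ≤ 0 := by
  rw [D_iff hR, act_mul_s hR, refl02]

theorem v_mul_coeff (p : A) (m : ℤ) : (v * p).coeff (m + 1) = p.coeff m := by
  have := AddMonoidAlgebra.coeff_single_mul_apply p 1 (1 : ℤ) (m + 1)
  rw [one_mul, show (-(1 : ℤ) + (m + 1)) = m by ring] at this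
  exact this

theorem vvi_ne : v + vi ≠ (0 : A) := by
  intro h
  have := congrArg (fun p : A => p.coeff 1) h
  simp [v, vi] at this

variable {C : W → H}

/-- the Kazhdan-Lusztig basis as a basis -/
noncomputable def bas (hK1 : KL1Facts) (hC : IsKL C) : Module.Basis W A H :=
  Module.Basis.mk (hK1.linInd C hC) (hK1.span C hC).ge

theorem bas_apply (hK1 : KL1Facts) (hC : IsKL C) (w : W) : bas hK1 hC w = C w := by
  simp [bas]

/-- coordinates with respect to the Kazhdan-Lusztig basis -/
noncomputable def co (hK1 : KL1Facts) (hC : IsKL C) (u : W) : H →ₗ[A] A :=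
  (bas hK1 hC).coord u

open Classical in
theorem co_C (hK1 : KL1Facts) (hC : IsKL C) (u w : W) :
    co hK1 hC u (C w) = if u = w then 1 else 0 := by
  rw [← bas_apply hK1 hC w, co, Module.Basis.coord_apply, Module.Basis.repr_self,
    Finsupp.single_apply]
  simp only [eq_comm]

theorem co_C_self (hK1 : KL1Facts) (hC : IsKL C) (w : W) : co hK1 hC w (C w) = 1 := by
  rw [co_C, if_pos rfl]

theorem co_C_ne (hK1 : KL1Facts) (hC : IsKL C) {u w : W} (h : u ≠ w) :
    co hK1 hC u (C w) = 0 := by
  rw [co_C, if_neg h]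

theorem co_comb (hK1 : KL1Facts) (hC : IsKL C) (c : W →₀ A) (u : W) :
    co hK1 hC u (Finsupp.linearCombination A C c) = c u := by
  have h : ⇑(bas hK1 hC) = C := by funext w; exact bas_apply hK1 hC w
  have key := (bas hK1 hC).repr_linearCombination c
  rw [h] at key
  rw [co, Module.Basis.coord_apply, key]

theorem comb_co (hK1 : KL1Facts) (hC : IsKL C) (x : H) :
    ∃ c : W →₀ A, Finsupp.linearCombination A C c = x := by
  have h : ⇑(bas hK1 hC) = C := by funext w; exact bas_apply hK1 hC w
  have key := (bas hK1 hC).linearCombination_repr x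
  rw [h] at key
  exact ⟨_, key⟩

open Classical in
theorem co_msum (hK1 : KL1Facts) (hC : IsKL C) (m : W →₀ ℤ) (u : W) :
    co hK1 hC u (m.sum fun y a => a • C y) = (m u : A) := by
  rw [Finsupp.sum, map_sum]
  have : ∀ y ∈ m.support, co hK1 hC u (m y • C y) = if u = y then (m y : A) else 0 := by
    intro y _
    rw [map_zsmul, co_C]
    split_ifs <;> simp
  rw [Finset.sum_congr rfl this, Finset.sum_ite_eq]
  split_ifs with h
  · rfl
  · rw [Finsupp.notMem_support_iff.mp h]; simp

/-- the operator `R i + v⁻¹` -/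
noncomputable def F (i : Fin 5) : H →ₗ[A] H := R i + vi • LinearMap.id

theorem F_apply (i : Fin 5) (x : H) : F i x = R i x + vi • x := rfl

/-- the coordinates of `(R i + v⁻¹) x` vanish outside the elements with right descent `i` -/
theorem co_F (hR : RootFacts) (hK1 : KL1Facts) (hK2 : KL2Facts) (hC : IsKL C) (i : Fin 5) (u : W)
    (hu : ¬ D i u) (x : H) : co hK1 hC u (F i x) = 0 := by
  have : (co hK1 hC u) ∘ₗ (F i) = 0 := by
    refine (bas hK1 hC).ext fun z => ?_
    rw [LinearMap.comp_apply, bas_apply, LinearMap.zero_apply, F_apply]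
    by_cases hz : D i z
    · rw [hK2.eigR C hC z i hz, ← add_smul, map_smul, co_C_ne hK1 hC (fun h => hu (by rw [h]; exact hz)),
        smul_zero]
    · obtain ⟨m, hm1, hm2, hm3⟩ := hK2.mulR C hC z i (not_D hR hz)
      rw [hm3, map_add, co_msum, co_C_ne hK1 hC (fun h => hu (by rw [h]; exact D_mul i z hz hR)), zero_add]
      by_cases hmu : m u = 0
      · simp [hmu]
      · exact absurd (hm1 u hmu).2 hu
  have h2 := LinearMap.congr_fun this x
  simpa using h2

theorem co_eig (hR : RootFacts) (hK1 : KL1Facts) (hK2 : KL2Facts) (hC : IsKL C) (i : Fin 5) (u : W)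
    (hu : ¬ D i u) (x : H) (hx : R i x = v • x) : co hK1 hC u x = 0 := by
  have h := co_F hR hK1 hK2 hC i u hu x
  rw [F_apply, hx, ← add_smul, map_smul, smul_eq_mul] at h
  exact (mul_eq_zero.mp h).resolve_left vvi_ne

theorem mono (hR : RootFacts) (hG : RegFacts) (hK1 : KL1Facts) (hK2 : KL2Facts) (hC : IsKL C)
    (y w : W) (h : LStep C y w) (i : Fin 5) (hw : D i w) : D i y := by
  obtain ⟨j, c, hc, hy⟩ := h
  by_contra hD
  have hx : R i (L j (C w) + vi • C w) = v • (L j (C w) + vi • C w) := by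
    rw [map_add, ← hG.LR, map_smul, hK2.eigR C hC w i hw, map_smul, smul_add, smul_comm v vi]
  have := co_eig hR hK1 hK2 hC i y hD _ hx
  rw [hc, co_comb] at this
  exact hy this

/-- the intersection of the two eigenspaces -/
def InI (x : H) : Prop := R 0 x = v • x ∧ R 2 x = v • x

theorem InI_C (hK2 : KL2Facts) (hC : IsKL C) (u : W) (h0 : D 0 u) (h2 : D 2 u) : InI (C u) :=
  ⟨hK2.eigR C hC u 0 h0, hK2.eigR C hC u 2 h2⟩

theorem InI_comb {ι : Type*} (x : ι → H) (c : ι → A) (t : Finset ι) (h : ∀ i ∈ t, InI (x i)) :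
    InI (∑ i ∈ t, c i • x i) := by
  constructor
  · rw [map_sum, Finset.smul_sum]
    refine Finset.sum_congr rfl fun i hi => ?_
    rw [map_smul, (h i hi).1, smul_comm]
  · rw [map_sum, Finset.smul_sum]
    refine Finset.sum_congr rfl fun i hi => ?_
    rw [map_smul, (h i hi).2, smul_comm]

theorem InI_of_co (hK1 : KL1Facts) (hK2 : KL2Facts) (hC : IsKL C) (x : H)
    (h : ∀ u, ¬ (D 0 u ∧ D 2 u) → co hK1 hC u x = 0) : InI x := by
  obtain ⟨c, rfl⟩ := comb_co hK1 hC x
  rw [Finsupp.linearCombination_apply, Finsupp.sum]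
  refine InI_comb _ _ _ fun u hu => ?_
  by_cases h' : D 0 u ∧ D 2 u
  · exact InI_C hK2 hC u h'.1 h'.2
  · have := h u h'
    rw [co_comb] at this
    exact absurd this (Finsupp.mem_support_iff.mp hu)

theorem InI_L (hG : RegFacts) (j : Fin 5) (x : H) (hx : InI x) : InI (L j x + vi • x) := by
  constructor
  · rw [map_add, ← hG.LR, map_smul, hx.1, map_smul, smul_add, smul_comm v vi]
  · rw [map_add, ← hG.LR, map_smul, hx.2, map_smul, smul_add, smul_comm v vi]

open Classical in
/-- the star operation -/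
noncomputable def st (z : W) : W := if D 0 (z * s 2) then z * s 2 else z * s 0

/-- its domain -/
def B (z : W) : Prop := D 2 z ∧ ¬ D 0 z

theorem st_D0 (hR : RootFacts) {z : W} (hz : B z) : D 0 (st z) := by
  unfold st
  split_ifs with h
  · exact h
  · exact D_mul 0 z hz.2 hR

theorem st_D2 (hR : RootFacts) {z : W} (hz : B z) : ¬ D 2 (st z) := by
  unfold st
  split_ifs with h
  · exact not_D_mul 2 z hz.1
  · rw [D2_mul0 hR]; rwa [D0_mul2 hR] at h

theorem st_inj (hR : RootFacts) {y z : W} (hy : B y) (hz : B z) (h : st y = st z) : y = z := by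
  have key : ∀ {y z : W}, B y → B z → D 0 (y * s 2) → ¬ D 0 (z * s 2) → y * s 2 = z * s 0 →
      False := by
    intro y z hy hz h1 h2 h3
    have hz2 : z = y * s 2 * s 0 := by rw [h3, mul_assoc, ss, mul_one]
    apply h2
    rw [D0_mul2 hR, ← D2_mul0 hR, ← h3]
    exfalso
    have h4 : D 2 (y * s 2 * s 0) := hz2 ▸ hz.1
    rw [D2_mul0 hR, act_mul_s hR] at h4
    have h5 : refl 2 (al 0 + al 2) = al 0 := by decide
    rw [h5, ← D_iff hR] at h4
    exact hy.2 h4
  unfold st at h
  split_ifs at h with h1 h2 h2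
  · exact mul_right_cancel h
  · exact (key hy hz h1 h2 h).elim
  · exact (key hz hy h2 h1 h.symm).elim
  · exact mul_right_cancel h

/-- the star decomposition -/
theorem star_dec (hR : RootFacts) (hK1 : KL1Facts) (hK2 : KL2Facts) (hC : IsKL C) {z : W}
    (hz : B z) : InI (F 0 (C z) - C (st z)) := by
  refine InI_of_co hK1 hK2 hC _ fun u hu => ?_
  rw [map_sub]
  by_cases h0 : D 0 u
  · have h2 : ¬ D 2 u := fun h => hu ⟨h0, h⟩
    obtain ⟨m, hm1, hm2, hm3⟩ := hK2.mulR C hC z 0 (not_D hR hz.2)
    rw [F_apply, hm3, map_add, co_msum]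
    by_cases huz : u = z * s 0
    · have hst : st z = z * s 0 := by
        unfold st
        rw [if_neg]
        rw [D0_mul2 hR, ← D2_mul0 hR, ← huz]
        exact h2
      have hm0 : m u = 0 := by
        by_contra hne
        have h5 := (hm1 u hne).1
        rw [huz] at h5
        have := not_D hR hz.2
        omega
      rw [hst, hm0]
      simp
    · rw [co_C_ne hK1 hC huz, zero_add]
      rw [hm2 u h0 huz]
      have hcoef := hK2.coefR C hC z 2 hz.1 u (not_D hR h2)
      have hcc : (C z (u * s 2)).coeff (0 : ℤ) = (C z u).coeff (-1) := by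
        rw [hcoef]
        exact v_mul_coeff _ (-1)
      rw [← hcc]
      by_cases huz2 : u * s 2 = z
      · have hu' : u = z * s 2 := by rw [← huz2, mul_assoc, ss, mul_one]
        have hst : st z = u := by
          unfold st
          rw [if_pos (hu' ▸ h0), hu']
        rw [huz2, hC.lead, hst, co_C_self]
        simp
      · rw [hC.low z (u * s 2) huz2 0 (by norm_num)]
        have hst : u ≠ st z := by
          unfold st
          split_ifs
          · intro h
            apply huz2
            rw [h, mul_assoc, ss, mul_one]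
          · exact huz
        rw [co_C_ne hK1 hC hst]
        simp
  · rw [co_F hR hK1 hK2 hC 0 u h0, co_C_ne hK1 hC (fun h => h0 (by rw [h]; exact st_D0 hR hz)), sub_zero]

theorem LStep_star (hR : RootFacts) (hG : RegFacts) (hK1 : KL1Facts) (hK2 : KL2Facts)
    (hC : IsKL C) (y w : W) (hy : B y) (hw : B w) (h : LStep C y w) :
    LStep C (st y) (st w) := by
  have hmono := fun z (hz : LStep C z w) => mono hR hG hK1 hK2 hC z w hz 2 hw.1
  obtain ⟨i, c, hc, hcy⟩ := h
  obtain ⟨c', hc'⟩ := comb_co hK1 hC (L i (C (st w)) + vi • C (st w))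
  refine ⟨i, c', hc'.symm, ?_⟩
  have e0 : c' (st y) = co hK1 hC (st y) (L i (C (st w)) + vi • C (st w)) := by
    rw [← hc', co_comb]
  -- vanishing on I
  have van : ∀ x, InI x → co hK1 hC (st y) x = 0 := fun x hx =>
    co_eig hR hK1 hK2 hC 2 (st y) (st_D2 hR hy) x hx.2
  have e1 : co hK1 hC (st y) (L i (C (st w)) + vi • C (st w))
      = co hK1 hC (st y) (L i (F 0 (C w)) + vi • F 0 (C w)) := by
    have h1 := van _ (InI_L hG i _ (star_dec hR hK1 hK2 hC hw))
    rw [map_sub, smul_sub] at h1
    have h2 : L i (F 0 (C w)) - L i (C (st w)) + (vi • F 0 (C w) - vi • C (st w))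
        = (L i (F 0 (C w)) + vi • F 0 (C w)) - (L i (C (st w)) + vi • C (st w)) := by abel
    rw [h2, map_sub] at h1
    exact (sub_eq_zero.mp h1).symm
  have e2 : L i (F 0 (C w)) + vi • F 0 (C w) = F 0 (L i (C w) + vi • C w) := by
    simp only [F_apply, map_add, map_smul, smul_add, hG.LR]
  have e3 : co hK1 hC (st y) (F 0 (Finsupp.linearCombination A C c)) = c y := by
    rw [Finsupp.linearCombination_apply, Finsupp.sum, map_sum, map_sum]
    rw [Finset.sum_eq_single y]
    · rw [map_smul, map_smul]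
      have h1 := van _ (star_dec hR hK1 hK2 hC hy)
      rw [map_sub, co_C_self, sub_eq_zero] at h1
      rw [h1]; simp
    · intro z hz hzy
      have hcz : c z ≠ 0 := Finsupp.mem_support_iff.mp hz
      have hD2 : D 2 z := hmono z ⟨i, c, hc, hcz⟩
      rw [map_smul, map_smul]
      by_cases hD0 : D 0 z
      · have : F 0 (C z) = (v + vi) • C z := by
          rw [F_apply, hK2.eigR C hC z 0 hD0, add_smul]
        rw [this, map_smul, co_C_ne hK1 hC (fun h => st_D2 hR hy (by rw [h]; exact hD2))]
        simp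
      · have hBz : B z := ⟨hD2, hD0⟩
        have h1 := van _ (star_dec hR hK1 hK2 hC hBz)
        rw [map_sub, sub_eq_zero] at h1
        rw [h1, co_C_ne hK1 hC (fun h => hzy (st_inj hR hBz hy h.symm)), smul_zero]
    · intro hy'
      rw [Finsupp.notMem_support_iff] at hy'
      exact absurd hy' hcy
  rw [e0, e1, e2, hc, e3]
  exact hcy

theorem chain (hR : RootFacts) (hG : RegFacts) (hK1 : KL1Facts) (hK2 : KL2Facts)
    (hC : IsKL C) (a b : W) (hab : Relation.ReflTransGen (fun a b => LStep C b a) a b)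
    (ha : D 2 a) (hb : ¬ D 0 b) :
    D 2 b ∧ ¬ D 0 a ∧ Relation.ReflTransGen (fun a b => LStep C b a) (st a) (st b) := by
  induction hab with
  | refl => exact ⟨ha, hb, Relation.ReflTransGen.refl⟩
  | @tail b c hab hbc ih =>
    have hb' : ¬ D 0 b := fun h => hb (mono hR hG hK1 hK2 hC c b hbc 0 h)
    obtain ⟨h1, h2, h3⟩ := ih hb'
    have hc : D 2 c := mono hR hG hK1 hK2 hC c b hbc 2 h1
    exact ⟨hc, h2, h3.tail (LStep_star hR hG hK1 hK2 hC c b ⟨hc, hb⟩ ⟨h1, hb'⟩ hbc)⟩

end STAR

open STAR in
theorem starFacts (hR : RootFacts) (hG : RegFacts) (_hB : BarFacts) (hK1 : KL1Facts)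
    (hK2 : KL2Facts) : StarFacts where
  mono := fun _ hC y w h i hw => mono hR hG hK1 hK2 hC y w h i hw
  star := by
    intro C hC h
    have hlo : ¬ D 0 (x0 * wK * s 2) := by
      rw [D_iff hR]
      simp only [x0, wK, map_mul, Module.End.mul_apply, hR.act_s]
      rw [Pi.le_def]
      decide
    have hhi : D 2 (s 4 * (x0 * wK * s 2)) := by
      rw [D_iff hR]
      simp only [x0, wK, map_mul, Module.End.mul_apply, hR.act_s]
      rw [Pi.le_def]
      decide
    obtain ⟨h1, h2, h3⟩ := chain hR hG hK1 hK2 hC _ _ h hhi hlo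
    have e1 : st (x0 * wK * s 2) = x0 * wK := by
      have : x0 * wK * s 2 * s 2 = x0 * wK := by rw [mul_assoc, ss, mul_one]
      unfold st
      rw [if_pos, this]
      rw [this, D_iff hR]
      simp only [x0, wK, map_mul, Module.End.mul_apply, hR.act_s]
      rw [Pi.le_def]
      decide
    have e2 : st (s 4 * (x0 * wK * s 2)) = s 4 * (x0 * wK) := by
      have : s 4 * (x0 * wK * s 2) * s 2 = s 4 * (x0 * wK) := by
        rw [mul_assoc, mul_assoc (x0 * wK), ss, mul_one]
      unfold st
      rw [if_pos, this]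
      rw [this, D_iff hR]
      simp only [x0, wK, map_mul, Module.End.mul_apply, hR.act_s]
      rw [Pi.le_def]
      decide
    rw [e1, e2] at h3
    exact h3

end Pool.Agent.Helper39.KL
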