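import Pool.Agent.Helper39.KL.Spec

/-!
# Module STRAIGHT: supports and diagonal coefficients in the modules `V_lam`
-/

namespace Pool.Agent.Helper39.KL

open Finset

namespace STRAIGHT

theorem s_mul_s (i : Fin 5) : s i * s i = 1 := cs.simple_mul_simple_self i

theorem s_cancel (i : Fin 5) (w : W) : s i * (s i * w) = w := by
  rw [← mul_assoc, s_mul_s, one_mul]

theorem mul_s_cancel (i : Fin 5) (w : W) : w * s i * s i = w := by
  rw [mul_assoc, s_mul_s, mul_one]

theorem s_inv (i : Fin 5) : (s i)⁻¹ = s i := inv_eq_of_mul_eq_one_right (s_mul_s i)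

theorem len_s (i : Fin 5) : len (s i) = 1 := cs.length_simple i

theorem len_one : len 1 = 0 := cs.length_one

theorem len_up (i : Fin 5) (w : W) : len (s i * w) = len w + 1 ∨ len (s i * w) + 1 = len w :=
  cs.length_simple_mul w i

theorem T_step (hT : TFacts) {X : Type} (V : BMod X) (i : Fin 5) (y : W)
    (h : len (s i * y) < len y) (x : X →₀ A) :
    V.T y x = V.t i (V.T (s i * y) x) := by
  have h1 : len (s i * (s i * y)) = len (s i) + len (s i * y) := by
    rw [s_cancel, len_s]
    rcases len_up i y with h2 | h2 <;> omega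
  have h3 := hT.T_mul V (s i) (s i * y) x h1
  rw [s_cancel, hT.T_s] at h3
  exact h3

/-- the eight elements of `W_K` -/
def WK : Set W :=
  {1, s 0, s 1, s 3, s 0 * s 1, s 0 * s 3, s 1 * s 3, s 0 * s 1 * s 3}

theorem eV_supp (g : W) (h : eV g ≠ 0) : g ∈ WK := by
  by_contra hg
  apply h
  simp only [WK, Set.mem_insert_iff, Set.mem_singleton_iff, not_or] at hg
  obtain ⟨h0, h1, h2, h3, h4, h5, h6, h7⟩ := hg
  simp [eV, Tb, Ne.symm h0, Ne.symm h1, Ne.symm h2, Ne.symm h3, Ne.symm h4, Ne.symm h5, Ne.symm h6,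
    Ne.symm h7]

open Classical in
/-- the coefficients of `Vop` -/
noncomputable def vc (lam : Q →ₗ[ℤ] ℤ) (i : Fin 5) (g : W) : H :=
  if lv lam g i = 0 then -(vi • Tb g)
    else if lv lam g i < 0 then Tb (s i * g)
    else Tb (s i * g) + (v - vi) • Tb g

theorem Vop_apply (lam : Q →ₗ[ℤ] ℤ) (i : Fin 5) (x : H) (y : W) :
    Vop lam i x y = x.sum fun g a => a * vc lam i g y := by
  unfold Vop
  rw [Finsupp.linearCombination_apply, Finsupp.sum_apply]
  rfl

theorem vc_ne (lam : Q →ₗ[ℤ] ℤ) (i : Fin 5) (g y : W) (h : vc lam i g y ≠ 0) :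
    y = g ∨ y = s i * g := by
  by_contra hc
  push Not at hc
  apply h
  obtain ⟨h1, h2⟩ := hc
  unfold vc Tb
  split_ifs <;> simp [Ne.symm h1, Ne.symm h2]

theorem vc_self (lam : Q →ₗ[ℤ] ℤ) (i : Fin 5) (g : W) (h : lv lam g i ≠ 0) (hg : s i * g ≠ g) :
    vc lam i g (s i * g) = 1 := by
  unfold vc Tb
  rw [if_neg h]
  split_ifs <;> simp [Ne.symm hg]

theorem supp_step (lam : Q →ₗ[ℤ] ℤ) (i : Fin 5) (x : H) (y : W) (h : Vop lam i x y ≠ 0) :
    x y ≠ 0 ∨ x (s i * y) ≠ 0 := by
  rw [Vop_apply] at h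
  obtain ⟨g, hg, hne⟩ := Finset.exists_ne_zero_of_sum_ne_zero h
  have h1 : x g ≠ 0 := by simpa using hg
  have h2 : vc lam i g y ≠ 0 := fun h0 => hne (by simp [h0])
  rcases vc_ne lam i g y h2 with rfl | rfl
  · exact Or.inl h1
  · right; rwa [s_cancel]

theorem s_mul_ne (i : Fin 5) (w : W) : s i * w ≠ w := by
  intro h
  rcases len_up i w with h1 | h1 <;> rw [h] at h1 <;> omega

theorem diag_step (lam : Q →ₗ[ℤ] ℤ) (i : Fin 5) (x : H) (y : W) (h0 : x y = 0)
    (h1 : x (s i * y) = 1) (h2 : lv lam (s i * y) i ≠ 0) : Vop lam i x y = 1 := by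
  rw [Vop_apply]
  have h3 : vc lam i (s i * y) y = 1 := by
    have := vc_self lam i (s i * y) h2 (s_mul_ne i _)
    rwa [s_cancel] at this
  rw [Finsupp.sum, Finset.sum_eq_single (s i * y)]
  · rw [h1, h3, one_mul]
  · intro g _ hne
    by_cases hg : vc lam i g y = 0
    · rw [hg, mul_zero]
    · rcases vc_ne lam i g y hg with h4 | h4
      · rw [← h4, h0, zero_mul]
      · exact absurd (by rw [h4, s_cancel]) hne
  · intro h5
    rw [Finsupp.notMem_support_iff] at h5
    rw [h5, zero_mul]

theorem supp_aux (hT : TFacts) (V : BMod W) (lam : Q →ₗ[ℤ] ℤ) (hV : V.t = Vop lam) :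
    ∀ n y, len y = n → ∀ g, V.T y eV g ≠ 0 →
      ∃ u k, k ∈ WK ∧ g = u * k ∧ (u = y ∨ len u < len y) := by
  intro n
  induction n using Nat.strong_induction_on with
  | _ n ih =>
    intro y hy g hg
    by_cases h1 : y = 1
    · subst h1
      rw [hT.T_one] at hg
      exact ⟨1, g, eV_supp g hg, (one_mul g).symm, Or.inl rfl⟩
    · obtain ⟨i, hi⟩ := cs.exists_leftDescent_of_ne_one h1
      have hi' : len (s i * y) < len y := hi
      rw [T_step hT V i y hi', hV] at hg
      have ih' := ih (len (s i * y)) (by omega) (s i * y) rfl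
      rcases supp_step lam i _ g hg with h2 | h2
      · obtain ⟨u, k, hk, hgu, hu⟩ := ih' g h2
        refine ⟨u, k, hk, hgu, Or.inr ?_⟩
        rcases hu with rfl | hu
        · exact hi'
        · omega
      · obtain ⟨u, k, hk, hgu, hu⟩ := ih' (s i * g) h2
        refine ⟨s i * u, k, hk, ?_, ?_⟩
        · rw [mul_assoc, ← hgu, s_cancel]
        · rcases hu with rfl | hu
          · left; rw [s_cancel]
          · right
            rcases len_up i u with h3 | h3 <;> omega

/-- positive root `al m` stays positive after multiplication by a commuting simple reflection -/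
theorem refl_leaf (i m : Fin 5) (hi : i ∈ ({0, 1, 3} : Finset (Fin 5)))
    (hm : m ∈ ({0, 1, 3} : Finset (Fin 5))) (h : i ≠ m) : refl i (al m) = al m := by
  revert i m
  decide

theorem act_mul_s (hR : RootFacts) (g : W) (i : Fin 5) (x : Q) :
    act (g * s i) x = act g (refl i x) := by
  rw [map_mul, Module.End.mul_apply, hR.act_s]

theorem up_one (hR : RootFacts) {g : W} (i : Fin 5) (h : 0 ≤ act g (al i)) :
    len g < len (g * s i) := (hR.upR g i).2 h

theorem pos_mul (hR : RootFacts) {g : W} (i m : Fin 5) (hi : i ∈ ({0, 1, 3} : Finset (Fin 5)))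
    (hm : m ∈ ({0, 1, 3} : Finset (Fin 5))) (h : i ≠ m) (hg : 0 ≤ act g (al m)) :
    0 ≤ act (g * s i) (al m) := by
  rw [act_mul_s hR, refl_leaf i m hi hm h]; exact hg

theorem len_mul_WK (hR : RootFacts) (g : W) (hg : XK g) (k : W) (hk : k ∈ WK) :
    k = 1 ∨ len g < len (g * k) := by
  have g0 : 0 ≤ act g (al 0) := hg 0 (by decide)
  have g1 : 0 ≤ act g (al 1) := hg 1 (by decide)
  have g3 : 0 ≤ act g (al 3) := hg 3 (by decide)
  simp only [WK, Set.mem_insert_iff, Set.mem_singleton_iff] at hk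
  rcases hk with rfl | rfl | rfl | rfl | rfl | rfl | rfl | rfl
  · exact Or.inl rfl
  · exact Or.inr (up_one hR 0 g0)
  · exact Or.inr (up_one hR 1 g1)
  · exact Or.inr (up_one hR 3 g3)
  · right
    rw [← mul_assoc]
    exact (up_one hR 0 g0).trans (up_one hR 1 (pos_mul hR 0 1 (by decide) (by decide) (by decide) g1))
  · right
    rw [← mul_assoc]
    exact (up_one hR 0 g0).trans (up_one hR 3 (pos_mul hR 0 3 (by decide) (by decide) (by decide) g3))
  · right
    rw [← mul_assoc]
    exact (up_one hR 1 g1).trans (up_one hR 3 (pos_mul hR 1 3 (by decide) (by decide) (by decide) g3))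
  · right
    rw [← mul_assoc, ← mul_assoc]
    refine ((up_one hR 0 g0).trans (up_one hR 1
      (pos_mul hR 0 1 (by decide) (by decide) (by decide) g1))).trans (up_one hR 3 ?_)
    exact pos_mul hR 1 3 (by decide) (by decide) (by decide)
      (pos_mul hR 0 3 (by decide) (by decide) (by decide) g3)

theorem s_comm (hR : RootFacts) (i m : Fin 5) (hi : i ∈ ({0, 1, 3} : Finset (Fin 5)))
    (hm : m ∈ ({0, 1, 3} : Finset (Fin 5))) (h : i ≠ m) : s i * s m = s m * s i := by
  have := hR.conj (s i) m m (by rw [hR.act_s, refl_leaf i m hi hm h])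
  exact this

theorem WK_inv (hR : RootFacts) (k : W) (hk : k ∈ WK) : k * k = 1 := by
  have c01 : s 0 * s 1 = s 1 * s 0 := s_comm hR 0 1 (by decide) (by decide) (by decide)
  have c03 : s 0 * s 3 = s 3 * s 0 := s_comm hR 0 3 (by decide) (by decide) (by decide)
  have c13 : s 1 * s 3 = s 3 * s 1 := s_comm hR 1 3 (by decide) (by decide) (by decide)
  have two : ∀ a b : W, a * a = 1 → b * b = 1 → a * b = b * a → a * b * (a * b) = 1 := by
    intro a b ha hb hab
    calc a * b * (a * b) = a * b * (b * a) := by rw [hab]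
      _ = a * (b * b) * a := by group
      _ = 1 := by rw [hb, mul_one, ha]
  simp only [WK, Set.mem_insert_iff, Set.mem_singleton_iff] at hk
  rcases hk with rfl | rfl | rfl | rfl | rfl | rfl | rfl | rfl
  · exact one_mul 1
  · exact s_mul_s 0
  · exact s_mul_s 1
  · exact s_mul_s 3
  · exact two _ _ (s_mul_s 0) (s_mul_s 1) c01
  · exact two _ _ (s_mul_s 0) (s_mul_s 3) c03
  · exact two _ _ (s_mul_s 1) (s_mul_s 3) c13
  · refine two _ _ (two _ _ (s_mul_s 0) (s_mul_s 1) c01) (s_mul_s 3) ?_
    rw [mul_assoc, c13, ← mul_assoc, c03, mul_assoc]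

theorem supp (hR : RootFacts) (hT : TFacts) (V : BMod W) (lam : Q →ₗ[ℤ] ℤ) (hV : V.t = Vop lam)
    (y g : W) (hg : XK g) (hne : g ≠ y) (hlen : len y ≤ len g) : V.T y eV g = 0 := by
  by_contra h
  obtain ⟨u, k, hk, hgu, hu⟩ := supp_aux hT V lam hV (len y) y rfl g h
  have h1 : u = g * k := by rw [hgu, mul_assoc, WK_inv hR k hk, mul_one]
  rcases len_mul_WK hR g hg k hk with h2 | h2
  · subst h2
    rw [mul_one] at h1
    subst h1
    rcases hu with h3 | h3
    · exact hne h3
    · omega
  · rw [← h1] at h2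
    rcases hu with h3 | h3
    · rw [h3] at h2; omega
    · omega

/-- a positive root different from `al i` stays positive -/
theorem refl_pos (hR : RootFacts) (i : Fin 5) (r : Q) (hr : IsRoot r) (h0 : 0 ≤ r)
    (hne : r ≠ al i) : 0 ≤ refl i r := by
  have h1 : IsRoot (refl i r) := by
    rw [← hR.act_s]; exact hR.root_act _ _ hr
  rcases hR.sign _ h1 with h2 | h2
  · exact h2.1
  · exfalso
    have h3 := h2.1
    have h4 : ∀ m, m ≠ i → r m = 0 := by
      intro m hm
      have h5 := h3 m
      have h6 := h0 m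
      simp only [refl, LinearMap.coe_mk, AddHom.coe_mk, if_neg hm, sub_zero, Pi.zero_apply] at h5 h6
      omega
    apply hne
    have hi0 := h0 i
    simp only [Pi.zero_apply] at hi0
    have key : r i = 1 := by
      unfold IsRoot at hr
      fin_cases i
      · have e1 := h4 1 (by decide); have e2 := h4 2 (by decide)
        have e3 := h4 3 (by decide); have e4 := h4 4 (by decide)
        rw [e1, e2, e3, e4] at hr
        have : r 0 = 1 := by simp at hi0; nlinarith
        simpa using this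
      · have e0 := h4 0 (by decide); have e2 := h4 2 (by decide)
        have e3 := h4 3 (by decide); have e4 := h4 4 (by decide)
        rw [e0, e2, e3, e4] at hr
        have : r 1 = 1 := by simp at hi0; nlinarith
        simpa using this
      · have e0 := h4 0 (by decide); have e1 := h4 1 (by decide)
        have e3 := h4 3 (by decide); have e4 := h4 4 (by decide)
        rw [e0, e1, e3, e4] at hr
        have : r 2 = 1 := by simp at hi0; nlinarith
        simpa using this
      · have e0 := h4 0 (by decide); have e1 := h4 1 (by decide)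
        have e2 := h4 2 (by decide); have e4 := h4 4 (by decide)
        rw [e0, e1, e2, e4] at hr
        have : r 3 = 1 := by simp at hi0; nlinarith
        simpa using this
      · have e0 := h4 0 (by decide); have e1 := h4 1 (by decide)
        have e2 := h4 2 (by decide); have e3 := h4 3 (by decide)
        rw [e0, e1, e2, e3] at hr
        have : r 4 = 1 := by simp at hi0; nlinarith
        simpa using this
    funext m
    by_cases hm : m = i
    · subst hm; simp [al, key]
    · rw [h4 m hm]; simp [al, hm]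

/-- going down preserves positivity of roots -/
theorem pos_down (hR : RootFacts) (i : Fin 5) (y : W) (h : len (s i * y) < len y) (x : Q)
    (hx : IsRoot x) (hx0 : 0 ≤ x) (hp : 0 ≤ act y x) : 0 ≤ act (s i * y) x := by
  rw [map_mul, Module.End.mul_apply, hR.act_s]
  refine refl_pos hR i _ (hR.root_act _ _ hx) hp ?_
  intro he
  have h1 : act y⁻¹ (al i) = x := by
    rw [← he, ← Module.End.mul_apply, ← map_mul, inv_mul_cancel, map_one, Module.End.one_apply]
  have h2 := (hR.dnL y i).1 h
  rw [h1] at h2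
  rcases hR.sign x hx with h3 | h3
  · exact h3.2 h2
  · exact h3.2 hx0

theorem root_strip : ∀ j k l : Fin 5,
    (j, k, l) ∈ ({(0, 1, 3), (1, 0, 3), (3, 0, 1)} : Finset (Fin 5 × Fin 5 × Fin 5)) →
    IsRoot (al j + al 2) ∧ IsRoot (al k + al l + al 2) := by
  unfold IsRoot al
  decide

theorem mem_strip : ∀ j k l : Fin 5,
    (j, k, l) ∈ ({(0, 1, 3), (1, 0, 3), (3, 0, 1)} : Finset (Fin 5 × Fin 5 × Fin 5)) →
    j ∈ ({0, 1, 3} : Finset (Fin 5)) ∧ k ∈ ({0, 1, 3} : Finset (Fin 5)) ∧
      l ∈ ({0, 1, 3} : Finset (Fin 5)) := by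
  decide

theorem refl_al : ∀ i : Fin 5, refl i (al i) = - al i := by
  decide

theorem strip_down (hR : RootFacts) (j k l : Fin 5)
    (hjkl : (j, k, l) ∈ ({(0, 1, 3), (1, 0, 3), (3, 0, 1)} : Finset (Fin 5 × Fin 5 × Fin 5)))
    (i : Fin 5) (y : W) (h : len (s i * y) < len y) (hy : Strip j k l y) :
    Strip j k l (s i * y) := by
  obtain ⟨h1, h2, h3, h4⟩ := hy
  have hal : ∀ m, 0 ≤ al m := by
    intro m; unfold al; intro n; by_cases hn : n = m
    · subst hn; simp
    · simp [hn]
  have r3 := root_strip j k l hjkl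
  refine ⟨fun m hm => pos_down hR i y h _ (hR.root_al m) (hal m) (h1 m hm),
    pos_down hR i y h _ (hR.root_al 4) (hal 4) h2,
    pos_down hR i y h _ r3.1 (add_nonneg (hal _) (hal _)) h3,
    pos_down hR i y h _ r3.2 (add_nonneg (add_nonneg (hal _) (hal _)) (hal _)) h4⟩

theorem decomp (x : Q) (j k l : Fin 5)
    (hjkl : (j, k, l) ∈ ({(0, 1, 3), (1, 0, 3), (3, 0, 1)} : Finset (Fin 5 × Fin 5 × Fin 5)))
    (p q : ℤ) (hpq : p + q = x 2) :
    x = p • (al j + al 2) + q • (al k + al l + al 2) + (x j - p) • al j + (x k - q) • al k +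
      (x l - q) • al l + x 4 • al 4 := by
  have h2 : x 2 = p + q := hpq.symm
  simp only [Finset.mem_insert, Finset.mem_singleton, Prod.mk.injEq] at hjkl
  rcases hjkl with ⟨rfl, rfl, rfl⟩ | ⟨rfl, rfl, rfl⟩ | ⟨rfl, rfl, rfl⟩ <;>
  · funext m
    fin_cases m <;> simp [al, h2]

theorem strip_nonneg (j k l : Fin 5)
    (hjkl : (j, k, l) ∈ ({(0, 1, 3), (1, 0, 3), (3, 0, 1)} : Finset (Fin 5 × Fin 5 × Fin 5)))
    (y : W) (hy : Strip j k l y) (x : Q) (hx : IsRoot x) (hx0 : 0 ≤ x) (hl : 0 ≤ lam j x) :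
    0 ≤ act y x := by
  have hx0' : ∀ m, 0 ≤ x m := fun m => hx0 m
  have hlam : 2 * x 2 ≤ 2 * x j + x k + x l := by
    simp only [Finset.mem_insert, Finset.mem_singleton, Prod.mk.injEq] at hjkl
    rcases hjkl with ⟨rfl, rfl, rfl⟩ | ⟨rfl, rfl, rfl⟩ | ⟨rfl, rfl, rfl⟩ <;>
    · simp [lam, form, Fin.sum_univ_five] at hl
      linarith
  have hkl : (x k - x l) ^ 2 ≤ 3 := by
    unfold IsRoot at hx
    simp only [Finset.mem_insert, Finset.mem_singleton, Prod.mk.injEq] at hjkl
    rcases hjkl with ⟨rfl, rfl, rfl⟩ | ⟨rfl, rfl, rfl⟩ | ⟨rfl, rfl, rfl⟩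
    · nlinarith [sq_nonneg (2 * x 1 - x 2 + (2 * x 3 - x 2)), sq_nonneg (2 * x 0 - x 2),
        sq_nonneg (2 * x 4 - x 2)]
    · nlinarith [sq_nonneg (2 * x 0 - x 2 + (2 * x 3 - x 2)), sq_nonneg (2 * x 1 - x 2),
        sq_nonneg (2 * x 4 - x 2)]
    · nlinarith [sq_nonneg (2 * x 0 - x 2 + (2 * x 1 - x 2)), sq_nonneg (2 * x 3 - x 2),
        sq_nonneg (2 * x 4 - x 2)]
  have h1 : x k - x l ≤ 1 := by nlinarith
  have h2 : x l - x k ≤ 1 := by nlinarith
  obtain ⟨y1, y4, yj, ykl⟩ := hy
  have hm := mem_strip j k l hjkl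
  have yj0 : 0 ≤ act y (al j) := y1 j hm.1
  have yk0 : 0 ≤ act y (al k) := y1 k hm.2.1
  have yl0 : 0 ≤ act y (al l) := y1 l hm.2.2
  set q : ℤ := min (x 2) (min (x k) (x l)) with hq
  have hq0 : 0 ≤ q := le_min (hx0' 2) (le_min (hx0' k) (hx0' l))
  have hqk : q ≤ x k := (min_le_right _ _).trans (min_le_left _ _)
  have hql : q ≤ x l := (min_le_right _ _).trans (min_le_right _ _)
  have hq2 : q ≤ x 2 := min_le_left _ _
  have hpj : x 2 - q ≤ x j := by
    have hj0 := hx0' j
    rcases min_choice (x 2) (min (x k) (x l)) with h | h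
    · rw [hq, h]; simpa using hj0
    · rcases min_choice (x k) (x l) with h' | h'
      · rw [h'] at h
        rw [hq, h', h]
        omega
      · rw [h'] at h
        rw [hq, h', h]
        omega
  rw [decomp x j k l hjkl (x 2 - q) q (by ring)]
  simp only [map_add, map_smul]
  rw [← map_add, ← map_add, ← map_add]
  refine add_nonneg (add_nonneg (add_nonneg (add_nonneg (add_nonneg ?_ ?_) ?_) ?_) ?_) ?_
  · exact smul_nonneg (by omega) yj
  · exact smul_nonneg hq0 ykl
  · exact smul_nonneg (by omega) yj0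
  · exact smul_nonneg (by omega) yk0
  · exact smul_nonneg (by omega) yl0
  · exact smul_nonneg (hx0' 4) y4

theorem eV_one (hR : RootFacts) : eV 1 = 1 := by
  have hXK : XK 1 := by
    intro m _
    unfold Pos
    rw [map_one, Module.End.one_apply]
    intro n; by_cases hn : n = m
    · subst hn; simp [al]
    · simp [al, hn]
  have hne : ∀ k ∈ WK, k ≠ 1 → (1 : W) ≠ k := fun k _ h => Ne.symm h
  have key : ∀ k ∈ WK, (k = 1 ∨ 0 < len k) := by
    intro k hk
    rcases len_mul_WK hR 1 hXK k hk with h | h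
    · exact Or.inl h
    · right; rw [one_mul, len_one] at h; exact h
  have t0 : (s 0 : W) ≠ 1 := fun h => by have := len_s 0; rw [h, len_one] at this; omega
  have t1 : (s 1 : W) ≠ 1 := fun h => by have := len_s 1; rw [h, len_one] at this; omega
  have t3 : (s 3 : W) ≠ 1 := fun h => by have := len_s 3; rw [h, len_one] at this; omega
  have P : ∀ m ∈ ({0, 1, 3} : Finset (Fin 5)), 0 ≤ act (1 : W) (al m) := hXK
  have up2 : ∀ i m, i ∈ ({0, 1, 3} : Finset (Fin 5)) → m ∈ ({0, 1, 3} : Finset (Fin 5)) → i ≠ m →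
      1 < len (s i * s m) := by
    intro i m hi hm him
    have h1 := up_one hR m (pos_mul hR i m hi hm him (P m hm))
    rw [one_mul, len_s] at h1
    exact h1
  have t01 : s 0 * s 1 ≠ 1 := fun h => by
    have := up2 0 1 (by decide) (by decide) (by decide); rw [h, len_one] at this; omega
  have t03 : s 0 * s 3 ≠ 1 := fun h => by
    have := up2 0 3 (by decide) (by decide) (by decide); rw [h, len_one] at this; omega
  have t13 : s 1 * s 3 ≠ 1 := fun h => by
    have := up2 1 3 (by decide) (by decide) (by decide); rw [h, len_one] at this; omega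
  have t013 : s 0 * s 1 * s 3 ≠ 1 := fun h => by
    have h1 := up_one hR 3 (pos_mul hR 1 3 (by decide) (by decide) (by decide)
      (pos_mul hR 0 3 (by decide) (by decide) (by decide) (P 3 (by decide))))
    rw [one_mul, h, len_one] at h1
    omega
  simp [eV, Tb, t0, t1, t3, t01, t03, t13, t013]

theorem diag (hR : RootFacts) (hT : TFacts) (V : BMod W) (j k l : Fin 5)
    (hjkl : (j, k, l) ∈ ({(0, 1, 3), (1, 0, 3), (3, 0, 1)} : Finset (Fin 5 × Fin 5 × Fin 5)))
    (hV : V.t = Vop (lam j)) : ∀ n y, len y = n → Strip j k l y → V.T y eV y = 1 := by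
  intro n
  induction n with
  | zero =>
    intro y hy _
    have h1 : y = 1 := cs.length_eq_zero_iff.1 hy
    subst h1
    rw [hT.T_one]
    exact eV_one hR
  | succ n ih =>
    intro y hy hs
    have h1 : y ≠ 1 := fun h => by rw [h, len_one] at hy; omega
    obtain ⟨i, hi⟩ := cs.exists_leftDescent_of_ne_one h1
    have hi' : len (s i * y) < len y := hi
    have hl' : len (s i * y) = n := by
      rcases len_up i y with h2 | h2 <;> omega
    have hs' := strip_down hR j k l hjkl i y hi' hs
    rw [T_step hT V i y hi', hV]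
    refine diag_step (lam j) i _ y ?_ (ih _ hl' hs') ?_
    · exact supp hR hT V (lam j) hV (s i * y) y hs.1 (Ne.symm (s_mul_ne i y)) hi'.le
    · intro h0
      unfold lv at h0
      have h3 : act (s i * y)⁻¹ (al i) = - act y⁻¹ (al i) := by
        rw [mul_inv_rev, s_inv, act_mul_s hR]
        rw [refl_al i, map_neg]
      have h5 : IsRoot (act (s i * y)⁻¹ (al i)) := hR.root_act _ _ (hR.root_al i)
      have h6 : 0 ≤ act (s i * y)⁻¹ (al i) := by
        refine (hR.upL (s i * y) i).1 ?_
        rw [s_cancel]; exact hi'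
      have h7 := strip_nonneg j k l hjkl y hs _ h5 h6 h0.ge
      rw [h3, map_neg, ← Module.End.mul_apply, ← map_mul, mul_inv_cancel, map_one,
        Module.End.one_apply] at h7
      have h8 := h7 i
      simp [al] at h8

end STRAIGHT

theorem straightFacts (hR : RootFacts) (hT : TFacts) : StraightFacts where
  supp V lam hV y g _ hg hne hlen := STRAIGHT.supp hR hT V lam hV y g hg hne hlen
  diag V j k l hjkl hV y hy := STRAIGHT.diag hR hT V j k l hjkl hV (len y) y rfl hy

end Pool.Agent.Helper39.KL
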