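import Pool.Agent.Helper39.KL.Spec

/-!
# Module VDELTA: the three dimensional module
-/

namespace Pool.Agent.Helper39.KL

open Finset

namespace VDelta

theorem v_mul_vi : v * vi = 1 := by
  rw [v, vi, ← LaurentPolynomial.T_add]; simp

theorem v_add_vi_ne : v + vi ≠ 0 := by
  intro h
  have h1 : (v + vi).coeff 1 = 0 := by rw [h]; simp
  rw [v, vi, AddMonoidAlgebra.coeff_add, Finsupp.add_apply, LaurentPolynomial.T_apply,
    LaurentPolynomial.T_apply] at h1
  norm_num at h1

theorem eq_zero_of {a : A} (h : -(vi * a) = v * a) : a = 0 := by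
  have h2 : (v + vi) * a = 0 := by linear_combination -h
  exact (mul_eq_zero.mp h2).resolve_left v_add_vi_ne

/-- coefficients of `Dop i x` -/
noncomputable def dv (i : Fin 5) (x : Fin 3 → A) : Fin 3 → A :=
  if i = 2 then ![-(vi * x 0), v * x 1 + x 0 + x 2, -(vi * x 2)]
  else if i = 4 then ![-(vi * x 0), -(vi * x 1), v * x 2 + x 1]
  else ![v * x 0 + x 1, -(vi * x 1), -(vi * x 2)]

theorem Dop_coef (i : Fin 5) (u : Fin 3 →₀ A) (k : Fin 3) : (Dop i u) k = dv i u k := by
  induction u using Finsupp.induction_linear with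
  | zero =>
    rw [map_zero]
    fin_cases i <;> fin_cases k <;> simp [dv]
  | add x y hx hy =>
    rw [map_add, Finsupp.add_apply, hx, hy]
    fin_cases i <;> fin_cases k <;> simp [dv] <;> ring
  | single h a =>
    rw [Dop, Finsupp.linearCombination_single]
    fin_cases i <;> fin_cases h <;> fin_cases k <;>
      simp [dv, mul_comm]

theorem Dop_coe (i : Fin 5) (u : Fin 3 →₀ A) : ⇑(Dop i u) = dv i u := by
  funext k; exact Dop_coef i u k

end VDelta

open VDelta in
/-- module VDELTA -/
theorem vdeltaStmt : VdeltaStmt := by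
  have hv := v_mul_vi
  refine ⟨⟨Dop, ?_, ?_, ?_⟩, rfl, ?_, ?_, ?_, ?_⟩
  · intro i x
    ext1 k
    simp only [Finsupp.add_apply, Finsupp.smul_apply, Dop_coef, Dop_coe, smul_eq_mul]
    fin_cases i <;> fin_cases k <;> simp [dv] <;> grind
  · intro i j hij ha x
    ext1 k
    simp only [Dop_coef, Dop_coe]
    fin_cases i <;> fin_cases j <;> first | exact absurd rfl hij | exact absurd ha (by decide) |
      (fin_cases k <;> simp [dv] <;> grind)
  · intro i j ha x
    ext1 k
    simp only [Dop_coef, Dop_coe]
    fin_cases i <;> fin_cases j <;> first | exact absurd ha (by decide) |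
      (fin_cases k <;> simp [dv] <;> grind)
  · intro i hi
    ext1 k
    rw [Finsupp.smul_apply, smul_eq_mul, Dop_coef]
    simp only [Finset.mem_insert, Finset.mem_singleton] at hi
    rcases hi with rfl | rfl | rfl <;> fin_cases k <;> simp [dv, eD]
  · ext1 k
    rw [Finsupp.neg_apply, Finsupp.smul_apply, smul_eq_mul, Dop_coef]
    fin_cases k <;> simp [dv, eD]
  · ext1 k
    unfold BMod.c
    dsimp only
    simp only [map_add, map_smul, Finsupp.add_apply, Finsupp.smul_apply, smul_eq_mul, Dop_coef,
      Dop_coe]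
    fin_cases k <;> simp [dv, eD] <;> grind
  · intro I hI u hu
    have h (i : Fin 5) (hi : i ∈ I) (k : Fin 3) : dv i u k = v * u k := by
      rw [← Dop_coef, ← smul_eq_mul, ← Finsupp.smul_apply]
      exact DFunLike.congr_fun (hu i hi) k
    have key : u 0 = 0 ∧ u 1 = 0 ∧ u 2 = 0 := by
      simp only [BigI, Finset.mem_insert, Finset.mem_singleton] at hI
      rcases hI with rfl | rfl | rfl | rfl
      · exact ⟨eq_zero_of (by simpa [dv] using h 2 (by simp) 0),
          eq_zero_of (by simpa [dv] using h 0 (by simp) 1),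
          eq_zero_of (by simpa [dv] using h 0 (by simp) 2)⟩
      · exact ⟨eq_zero_of (by simpa [dv] using h 2 (by simp) 0),
          eq_zero_of (by simpa [dv] using h 0 (by simp) 1),
          eq_zero_of (by simpa [dv] using h 0 (by simp) 2)⟩
      · exact ⟨eq_zero_of (by simpa [dv] using h 2 (by simp) 0),
          eq_zero_of (by simpa [dv] using h 1 (by simp) 1),
          eq_zero_of (by simpa [dv] using h 1 (by simp) 2)⟩
      · exact ⟨eq_zero_of (by simpa [dv] using h 4 (by simp) 0),
          eq_zero_of (by simpa [dv] using h 0 (by simp) 1),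
          eq_zero_of (by simpa [dv] using h 0 (by simp) 2)⟩
    ext1 k
    fin_cases k
    exacts [key.1, key.2.1, key.2.2]

end Pool.Agent.Helper39.KL
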