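import Pool.Agent.Helper39.KL.Spec

/-!
Modules VEIG and VREL for MP_eee0a5_al (helper5 for helper39).
-/

set_option autoImplicit false

namespace Pool.Agent.Helper39.KL

open Finset

namespace VEIG

/-- product of simple reflections along a word -/
noncomputable def word (l : List (Fin 5)) : W := (l.map s).prod

/-- the action of the inverse of a word -/
def rr : List (Fin 5) → Q → Q
  | [], x => x
  | a :: l, x => rr l (refl a x)

lemma s_sq (i : Fin 5) : s i * s i = 1 := cs.simple_mul_simple_self i

lemma s_inv (i : Fin 5) : (s i)⁻¹ = s i := cs.inv_simple i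

lemma act_word (hR : RootFacts) (l : List (Fin 5)) (x : Q) : act (word l)⁻¹ x = rr l x := by
  induction l generalizing x with
  | nil => simp [word, rr]
  | cons a l ih =>
    have : word (a :: l) = s a * word l := by simp [word]
    rw [this, mul_inv_rev, map_mul, Module.End.mul_apply, s_inv, hR.act_s, ih, rr]

lemma lv_word (hR : RootFacts) (lam : Q →ₗ[ℤ] ℤ) (l : List (Fin 5)) (i : Fin 5) :
    lv lam (word l) i = lam (rr l (al i)) := by
  rw [lv, act_word hR]

lemma v_vi : v * vi = 1 := by
  unfold v vi
  rw [← LaurentPolynomial.T_add]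
  simp

lemma Vop_zero (lam : Q →ₗ[ℤ] ℤ) (g : W) (i : Fin 5) (h : lv lam g i = 0) :
    Vop lam i (Tb g) = -(vi • Tb g) := by
  simp [Vop, Tb, Finsupp.linearCombination_single, h]

lemma Vop_neg (lam : Q →ₗ[ℤ] ℤ) (g : W) (i : Fin 5) (h : lv lam g i < 0) :
    Vop lam i (Tb g) = Tb (s i * g) := by
  simp [Vop, Tb, Finsupp.linearCombination_single, h, h.ne]

lemma Vop_pos (lam : Q →ₗ[ℤ] ℤ) (g : W) (i : Fin 5) (h : 0 < lv lam g i) :
    Vop lam i (Tb g) = Tb (s i * g) + (v - vi) • Tb g := by
  simp [Vop, Tb, Finsupp.linearCombination_single, h.ne', not_lt.mpr h.le]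

/-- the word of an element of `W_K` -/
def kw (a b c : Bool) : List (Fin 5) :=
  (if a then [0] else []) ++ (if b then [1] else []) ++ (if c then [3] else [])

/-- the elements of `W_K` -/
noncomputable def gk (a b c : Bool) : W := word (kw a b c)

lemma s_comm (i j : Fin 5) (h : i ≠ j) (h' : adj i j = false) : s i * s j = s j * s i := by
  have hM : M i j = 2 := by
    revert h h'
    revert i j
    decide
  have := cs.simple_mul_simple_pow i j
  rw [hM] at this
  have h2 : s i * s j * (s i * s j) = 1 := by rw [← sq]; exact this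
  have h3 : s i * s j = (s i * s j)⁻¹ := eq_inv_of_mul_eq_one_left h2
  rwa [mul_inv_rev, s_inv, s_inv] at h3

lemma s0_gk (a b c : Bool) : s 0 * gk a b c = gk (!a) b c := by
  cases a <;> simp [gk, word, kw, ← mul_assoc, s_sq]

lemma s1_gk (a b c : Bool) : s 1 * gk a b c = gk a (!b) c := by
  have h : s 1 * s 0 = s 0 * s 1 := s_comm _ _ (by decide) (by decide)
  cases a <;> cases b <;> simp [gk, word, kw, ← mul_assoc, s_sq, h] <;>
    simp [mul_assoc, s_sq] <;> simp [← mul_assoc, s_sq]

lemma s3_gk (a b c : Bool) : s 3 * gk a b c = gk a b (!c) := by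
  have h0 : s 3 * s 0 = s 0 * s 3 := s_comm _ _ (by decide) (by decide)
  have h1 : s 3 * s 1 = s 1 * s 3 := s_comm _ _ (by decide) (by decide)
  cases a <;> cases b <;> cases c <;> simp [gk, word, kw, ← mul_assoc, s_sq, h0, h1] <;>
    simp [mul_assoc, s_sq, h1] <;> simp [← mul_assoc, s_sq]

lemma eV_eq : eV = Tb (gk false false false)
    + vi • (Tb (gk true false false) + Tb (gk false true false) + Tb (gk false false true))
    + vi ^ 2 • (Tb (gk true true false) + Tb (gk true false true) + Tb (gk false true true))
    + vi ^ 3 • Tb (gk true true true) := by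
  simp [eV, gk, word, kw, mul_assoc]

section

variable (hR : RootFacts)
include hR

lemma lv_gk (lam : Q →ₗ[ℤ] ℤ) (a b c : Bool) (i : Fin 5) :
    lv lam (gk a b c) i = lam (rr (kw a b c) (al i)) := lv_word hR _ _ _

lemma lv_s2gk (lam : Q →ₗ[ℤ] ℤ) (a b c : Bool) (i : Fin 5) :
    lv lam (s 2 * gk a b c) i = lam (rr (2 :: kw a b c) (al i)) := by
  have : s 2 * gk a b c = word (2 :: kw a b c) := by simp [gk, word]
  rw [this, lv_word hR]

lemma V0 (j : Fin 5) (hj : j ∈ ({0, 1, 3} : Finset (Fin 5))) (b c : Bool) :
    Vop (lam j) 0 (Tb (gk false b c)) = Tb (gk true b c) + (v - vi) • Tb (gk false b c) ∧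
    Vop (lam j) 0 (Tb (gk true b c)) = Tb (gk false b c) := by
  constructor
  · rw [Vop_pos, s0_gk]
    · rfl
    · rw [lv_gk hR]; revert hj b c; revert j; decide
  · rw [Vop_neg, s0_gk]
    · rfl
    · rw [lv_gk hR]; revert hj b c; revert j; decide

lemma V1 (j : Fin 5) (hj : j ∈ ({0, 1, 3} : Finset (Fin 5))) (a c : Bool) :
    Vop (lam j) 1 (Tb (gk a false c)) = Tb (gk a true c) + (v - vi) • Tb (gk a false c) ∧
    Vop (lam j) 1 (Tb (gk a true c)) = Tb (gk a false c) := by
  constructor
  · rw [Vop_pos, s1_gk]
    · rfl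
    · rw [lv_gk hR]; revert hj a c; revert j; decide
  · rw [Vop_neg, s1_gk]
    · rfl
    · rw [lv_gk hR]; revert hj a c; revert j; decide

lemma V3 (j : Fin 5) (hj : j ∈ ({0, 1, 3} : Finset (Fin 5))) (a b : Bool) :
    Vop (lam j) 3 (Tb (gk a b false)) = Tb (gk a b true) + (v - vi) • Tb (gk a b false) ∧
    Vop (lam j) 3 (Tb (gk a b true)) = Tb (gk a b false) := by
  constructor
  · rw [Vop_pos, s3_gk]
    · rfl
    · rw [lv_gk hR]; revert hj a b; revert j; decide
  · rw [Vop_neg, s3_gk]
    · rfl
    · rw [lv_gk hR]; revert hj a b; revert j; decide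

lemma V4 (j : Fin 5) (hj : j ∈ ({0, 1, 3} : Finset (Fin 5))) (a b c : Bool) :
    Vop (lam j) 4 (Tb (gk a b c)) = -(vi • Tb (gk a b c)) := by
  rw [Vop_zero]
  rw [lv_gk hR]; revert hj a b c; revert j; decide

end

end VEIG

open VEIG in
/-- module VEIG -/
theorem veigStmt (hR : RootFacts) : VeigStmt := by
  intro j hj
  have hv := v_vi
  refine ⟨?_, ?_⟩
  · intro i hi
    simp only [Finset.mem_insert, Finset.mem_singleton] at hi
    rcases hi with rfl | rfl | rfl
    · rw [eV_eq]
      simp only [map_add, map_smul, (V0 hR j hj _ _).1, (V0 hR j hj _ _).2]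
      match_scalars <;> grind
    · rw [eV_eq]
      simp only [map_add, map_smul, (V1 hR j hj _ _).1, (V1 hR j hj _ _).2]
      match_scalars <;> grind
    · rw [eV_eq]
      simp only [map_add, map_smul, (V3 hR j hj _ _).1, (V3 hR j hj _ _).2]
      match_scalars <;> grind
  · rw [eV_eq]
    simp only [map_add, map_smul, V4 hR j hj]
    module

namespace VEIG

section

variable (hR : RootFacts) (V : BMod W)

/-- `T_i + v⁻¹` as a linear map -/
noncomputable def cl (i : Fin 5) : H →ₗ[A] H := V.t i + vi • LinearMap.id

/-- `C_0 C_1 C_3` -/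
noncomputable def CK : H →ₗ[A] H := cl V 0 ∘ₗ cl V 1 ∘ₗ cl V 3

lemma cl_apply (i : Fin 5) (x : H) : cl V i x = V.t i x + vi • x := rfl

lemma CK_apply (x : H) : CK V x = V.c 0 (V.c 1 (V.c 3 x)) := rfl

lemma cl_comm (i j : Fin 5) (h : i ≠ j) (h' : adj i j = false) (x : H) :
    cl V i (cl V j x) = cl V j (cl V i x) := by
  simp only [cl_apply, map_add, map_smul, V.comm i j h h']
  module

lemma CK_zero (i : Fin 5) (hi : i ∈ ({0, 1, 3} : Finset (Fin 5))) (x : H) (h : cl V i x = 0) :
    CK V x = 0 := by
  simp only [Finset.mem_insert, Finset.mem_singleton] at hi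
  change cl V 0 (cl V 1 (cl V 3 x)) = 0
  rcases hi with rfl | rfl | rfl
  · rw [cl_comm V 1 3 (by decide) (by decide), cl_comm V 0 3 (by decide) (by decide),
      cl_comm V 0 1 (by decide) (by decide), h]
    simp
  · rw [cl_comm V 1 3 (by decide) (by decide), h]
    simp
  · rw [h]
    simp

end

section

variable (hR : RootFacts) (V : BMod W) (j : Fin 5) (hj : j ∈ ({0, 1, 3} : Finset (Fin 5)))
  (hV : V.t = Vop (lam j))
include hR hj hV

lemma CK_s2 (a b c : Bool) (hn : (lam j) (rr (kw a b c) (al 2)) ≠ 0) :
    CK V (Tb (s 2 * gk a b c)) = 0 := by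
  have key : ∃ i ∈ ({0, 1, 3} : Finset (Fin 5)), (lam j) (rr (2 :: kw a b c) (al i)) = 0 := by
    clear hV
    revert hn
    revert hj a b c
    revert j
    decide
  obtain ⟨i, hi, h⟩ := key
  apply CK_zero V i hi
  rw [cl_apply, hV, Vop_zero _ _ _ (by rw [lv_s2gk hR]; exact h)]
  simp

/-- `v ^ (number of false)` -/
noncomputable def vf : Bool → A := fun a => if a then 1 else v

lemma CK_gk (a b c : Bool) : CK V (Tb (gk a b c)) = (vf a * vf b * vf c) • eV := by
  have hv := v_vi
  change cl V 0 (cl V 1 (cl V 3 _)) = _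
  have h3 : cl V 3 (Tb (gk a b c)) = vf c • (Tb (gk a b false) + vi • Tb (gk a b true)) := by
    rw [cl_apply, hV]
    cases c
    · rw [(V3 hR j hj _ _).1]
      simp only [vf]
      match_scalars <;> grind
    · rw [(V3 hR j hj _ _).2]
      simp only [vf]
      match_scalars <;> grind
  have h1 : ∀ c', cl V 1 (Tb (gk a b c')) = vf b • (Tb (gk a false c') + vi • Tb (gk a true c')) := by
    intro c'
    rw [cl_apply, hV]
    cases b
    · rw [(V1 hR j hj _ _).1]
      simp only [vf]
      match_scalars <;> grind
    · rw [(V1 hR j hj _ _).2]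
      simp only [vf]
      match_scalars <;> grind
  have h0 : ∀ b' c', cl V 0 (Tb (gk a b' c')) =
      vf a • (Tb (gk false b' c') + vi • Tb (gk true b' c')) := by
    intro b' c'
    rw [cl_apply, hV]
    cases a
    · rw [(V0 hR j hj _ _).1]
      simp only [vf]
      match_scalars <;> grind
    · rw [(V0 hR j hj _ _).2]
      simp only [vf]
      match_scalars <;> grind
  rw [h3, eV_eq]
  simp only [map_add, map_smul, h1, h0]
  module

/-- the part of `T_2 g` in the span of `W_K` -/
lemma CK_T2 (a b c : Bool) (n : ℤ) (hn : (lam j) (rr (kw a b c) (al 2)) = n) :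
    CK V (V.t 2 (Tb (gk a b c))) =
      (if n = 0 then -vi else if n < 0 then 0 else v - vi) • ((vf a * vf b * vf c) • eV) := by
  have h1 := CK_gk hR V j hj hV a b c
  have h2 := CK_s2 hR V j hj hV a b c
  rw [hn] at h2
  rw [← lv_gk hR] at hn
  rw [hV]
  rcases lt_trichotomy n 0 with h | h | h
  · rw [Vop_neg _ _ _ (by rw [hn]; exact h), h2 h.ne, if_neg h.ne, if_pos h, zero_smul]
  · rw [Vop_zero _ _ _ (by rw [hn]; exact h), map_neg, map_smul, h1, if_pos h, neg_smul]
  · rw [Vop_pos _ _ _ (by rw [hn]; exact h), map_add, map_smul, h2 h.ne', h1, if_neg h.ne',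
      if_neg (not_lt.mpr h.le), zero_add]

end

end VEIG

open VEIG in
/-- module VREL -/
theorem vrelStmt (hR : RootFacts) : VrelStmt := by
  intro j hj V hV
  have hv := v_vi
  rw [← CK_apply]
  have key := CK_T2 hR V j hj hV
  rw [eV_eq]
  simp only [map_add, map_smul]
  simp only [Finset.mem_insert, Finset.mem_singleton] at hj
  rcases hj with rfl | rfl | rfl
  · rw [key false false false (-2) (by decide), key true false false 0 (by decide),
      key false true false (-1) (by decide), key false false true (-1) (by decide),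
      key true true false 1 (by decide), key true false true 1 (by decide),
      key false true true 0 (by decide), key true true true 2 (by decide), ← eV_eq]
    simp only [vf]
    norm_num
    match_scalars
    grind
  · rw [key false false false (-2) (by decide), key true false false (-1) (by decide),
      key false true false 0 (by decide), key false false true (-1) (by decide),
      key true true false 1 (by decide), key true false true 0 (by decide),
      key false true true 1 (by decide), key true true true 2 (by decide), ← eV_eq]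
    simp only [vf]
    norm_num
    match_scalars
    grind
  · rw [key false false false (-2) (by decide), key true false false (-1) (by decide),
      key false true false (-1) (by decide), key false false true 0 (by decide),
      key true true false 0 (by decide), key true false true 1 (by decide),
      key false true true 1 (by decide), key true true true 2 (by decide), ← eV_eq]
    simp only [vf]
    norm_num
    match_scalars
    grind

end Pool.Agent.Helper39.KL
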