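import Pool.Agent.Helper39.KL.Spec

/-!
# Module VNOEIG: no eigenvectors of large parabolic subgroups in `V_lam`
-/

namespace Pool.Agent.Helper39.KL

open Finset

namespace VNoEig

theorem v_mul_vi : v * vi = 1 := by
  rw [v, vi, ← LaurentPolynomial.T_add]; simp

theorem vi_mul_v : vi * v = 1 := by rw [mul_comm]; exact v_mul_vi

theorem v_add_vi_ne : v + vi ≠ 0 := by
  intro h
  have h1 : (v + vi).coeff 1 = 0 := by rw [h]; simp
  rw [v, vi, AddMonoidAlgebra.coeff_add, Finsupp.add_apply, LaurentPolynomial.T_apply,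
    LaurentPolynomial.T_apply] at h1
  norm_num at h1

theorem eq_zero_of {a : A} (h : -(vi * a) = v * a) : a = 0 := by
  have h2 : (v + vi) * a = 0 := by linear_combination -h
  exact (mul_eq_zero.mp h2).resolve_left v_add_vi_ne

theorem refl_al (i k : Fin 5) : refl i (al k) = al k - cart i k • al i := by
  revert i k; decide

theorem inv_s (i : Fin 5) : (s i)⁻¹ = s i := cs.inv_simple i

theorem s_mul_s (i : Fin 5) (g : W) : s i * (s i * g) = g := by
  rw [← mul_assoc, s, cs.simple_mul_simple_self, one_mul]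

theorem lv_s_mul (hR : RootFacts) (lm : Q →ₗ[ℤ] ℤ) (g : W) (i k : Fin 5) :
    lv lm (s i * g) k = lv lm g k - cart i k * lv lm g i := by
  unfold lv
  rw [mul_inv_rev, inv_s, map_mul, Module.End.mul_apply, hR.act_s, refl_al, map_sub, map_sub,
    map_smul, map_smul, smul_eq_mul]

theorem lv_self (hR : RootFacts) (lm : Q →ₗ[ℤ] ℤ) (g : W) (i : Fin 5) :
    lv lm (s i * g) i = - lv lm g i := by
  rw [lv_s_mul hR]
  have : cart i i = 2 := by simp [cart]
  rw [this]; ring

theorem Vop_coef (hR : RootFacts) (lm : Q →ₗ[ℤ] ℤ) (i : Fin 5) (u : H) (g : W) :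
    (Vop lm i u) g = if lv lm g i = 0 then -(vi * u g)
      else if lv lm g i < 0 then u (s i * g) else u (s i * g) + (v - vi) * u g := by
  classical
  induction u using Finsupp.induction_linear with
  | zero => simp
  | add x y hx hy =>
    rw [map_add, Finsupp.add_apply, hx, hy]
    split_ifs <;> simp only [Finsupp.add_apply] <;> ring
  | single h a =>
    have key : Vop lm i (Finsupp.single h a) = a • (if lv lm h i = 0 then -(vi • Tb h)
      else if lv lm h i < 0 then Tb (s i * h) else Tb (s i * h) + (v - vi) • Tb h) := by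
      rw [Vop, Finsupp.linearCombination_single]
    rw [key]
    have hlv := lv_self hR lm h i
    have hne : s i * h ≠ h := by
      intro hh
      have : s i = 1 := by simpa using hh
      have h2 : cs.length (cs.simple i) = 0 := by
        have : cs.simple i = 1 := this
        rw [this]; exact cs.length_one
      rw [cs.length_simple] at h2
      exact one_ne_zero h2
    by_cases h1 : h = g
    · subst h1
      have e1 : (Finsupp.single h a : H) (s i * h) = 0 := Finsupp.single_eq_of_ne hne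
      have e2 : (Finsupp.single h a : H) h = a := Finsupp.single_eq_same
      have e3 : (Tb (s i * h)) h = 0 := Finsupp.single_eq_of_ne hne.symm
      have e4 : (Tb h) h = 1 := Finsupp.single_eq_same
      rw [e1, e2]
      split_ifs <;> simp only [Finsupp.smul_apply, Finsupp.neg_apply, Finsupp.add_apply, e3, e4,
        smul_eq_mul] <;> ring
    · by_cases h2 : s i * h = g
      · subst h2
        have e1 : (Finsupp.single h a : H) (s i * (s i * h)) = a := by
          rw [s_mul_s]; exact Finsupp.single_eq_same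
        have e2 : (Finsupp.single h a : H) (s i * h) = 0 := Finsupp.single_eq_of_ne hne
        have e3 : (Tb (s i * h)) (s i * h) = 1 := Finsupp.single_eq_same
        have e4 : (Tb h) (s i * h) = 0 := Finsupp.single_eq_of_ne hne
        rw [e1, e2, hlv]
        rcases lt_trichotomy (lv lm h i) 0 with hl | hl | hl
        · rw [if_neg hl.ne, if_pos hl, if_neg (by omega), if_neg (by omega)]
          simp only [Finsupp.smul_apply, e3, smul_eq_mul]; ring
        · rw [if_pos hl, if_pos (by omega)]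
          simp only [Finsupp.smul_apply, Finsupp.neg_apply, e4, smul_eq_mul]
          ring
        · rw [if_neg hl.ne', if_neg (by omega), if_neg (by omega), if_pos (by omega)]
          simp only [Finsupp.smul_apply, Finsupp.add_apply, e3, e4, smul_eq_mul]; ring
      · have h3 : h ≠ s i * g := by
          intro hh; apply h2; rw [hh, s_mul_s]
        have e1 : (Finsupp.single h a : H) (s i * g) = 0 := Finsupp.single_eq_of_ne h3.symm
        have e2 : (Finsupp.single h a : H) g = 0 := Finsupp.single_eq_of_ne (Ne.symm h1)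
        have e3 : (Tb (s i * h)) g = 0 := Finsupp.single_eq_of_ne (Ne.symm h2)
        have e4 : (Tb h) g = 0 := Finsupp.single_eq_of_ne (Ne.symm h1)
        rw [e1, e2]
        split_ifs <;> simp only [Finsupp.smul_apply, Finsupp.neg_apply, Finsupp.add_apply, e3, e4,
          smul_eq_mul] <;> ring

/-- one step of the orbit -/
def mv (i : Fin 5) (x : Fin 5 → ℤ) : Fin 5 → ℤ := fun k => x k - cart i k * x i

/-- a wall can be reached in at most `n` steps -/
def dead (I : Finset (Fin 5)) : ℕ → (Fin 5 → ℤ) → Bool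
  | 0, x => decide (∃ i ∈ I, x i = 0)
  | n + 1, x => decide (∃ i ∈ I, x i = 0 ∨ dead I n (mv i x) = true)

theorem dead_zero (hR : RootFacts) (lm : Q →ₗ[ℤ] ℤ) (I : Finset (Fin 5)) (u : H)
    (hu : ∀ i ∈ I, Vop lm i u = v • u) (n : ℕ) (g : W)
    (h : dead I n (fun k => lv lm g k) = true) : u g = 0 := by
  have hw : ∀ i ∈ I, ∀ g, lv lm g i = 0 → u g = 0 := by
    intro i hi g hg
    have h1 := Vop_coef hR lm i u g
    rw [hu i hi, if_pos hg, Finsupp.smul_apply, smul_eq_mul] at h1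
    exact eq_zero_of h1.symm
  induction n generalizing g with
  | zero =>
    rw [dead, decide_eq_true_iff] at h
    obtain ⟨i, hi, h0⟩ := h
    exact hw i hi g h0
  | succ n ih =>
    rw [dead, decide_eq_true_iff] at h
    obtain ⟨i, hi, h0 | h0⟩ := h
    · exact hw i hi g h0
    · have h2 : mv i (fun k => lv lm g k) = fun k => lv lm (s i * g) k := by
        funext k; rw [mv, lv_s_mul hR]
      rw [h2] at h0
      have h3 := ih _ h0
      by_cases h4 : lv lm g i = 0
      · exact hw i hi g h4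
      · have h1 := Vop_coef hR lm i u g
        rw [hu i hi, if_neg h4, Finsupp.smul_apply, smul_eq_mul, h3] at h1
        split_ifs at h1
        · linear_combination vi * h1 - u g * vi_mul_v
        · linear_combination v * h1 - u g * v_mul_vi

/-- the orbit of `lam j` -/
def orb : List (Fin 5 → ℤ) :=
  [![2, 1, -2, 1, 0], ![-2, 1, 0, 1, 0], ![2, -1, -1, 1, 0], ![0, -1, 2, -1, -2],
    ![2, 1, -1, -1, 0], ![-2, -1, 1, 1, 0], ![-2, 1, 1, -1, 0], ![1, -2, 1, 0, -1],
    ![2, -1, 0, -1, 0], ![0, 1, 1, -1, -2], ![0, -1, 1, 1, -2], ![0, -1, 0, -1, 2],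
    ![1, 0, 1, -2, -1], ![-1, 0, -1, 2, 1], ![-2, -1, 2, -1, 0], ![-1, 2, -1, 0, 1],
    ![-1, -2, 2, 0, -1], ![1, 2, -1, 0, -1], ![1, -2, 0, 0, 1], ![0, 1, 0, 1, -2],
    ![0, 1, -1, -1, 2], ![1, 0, -1, 2, -1], ![0, -1, -1, 1, 2], ![-1, 0, 2, -2, -1],
    ![1, 0, 0, -2, 1], ![1, 0, -2, 2, 1], ![-1, 0, 1, -2, 1], ![-1, 0, 0, 2, -1],
    ![0, 1, -2, 1, 2], ![1, 2, -2, 0, 1], ![-1, -2, 1, 0, 1], ![-1, 2, 0, 0, -1],
    ![1, 2, -2, 1, 0], ![-1, 2, -1, 1, 0], ![1, -2, 0, 1, 0], ![-1, 0, 2, -1, -2],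
    ![1, 2, -1, -1, 0], ![-1, -2, 1, 1, 0], ![-2, 1, 1, 0, -1], ![-1, 2, 0, -1, 0],
    ![1, -2, 1, -1, 0], ![1, 0, 1, -1, -2], ![-1, 0, 1, 1, -2], ![-1, 0, 0, -1, 2],
    ![0, 1, 1, -2, -1], ![0, -1, -1, 2, 1], ![-1, -2, 2, -1, 0], ![2, 1, -1, 0, -1],
    ![-2, -1, 2, 0, -1], ![-2, 1, 0, 0, 1], ![2, -1, -1, 0, 1], ![1, 0, 0, 1, -2],
    ![1, 0, -1, -1, 2], ![0, 1, -1, 2, -1], ![-1, 0, -1, 1, 2], ![0, -1, 2, -2, -1],
    ![0, 1, 0, -2, 1], ![0, 1, -2, 2, 1], ![0, -1, 1, -2, 1], ![0, -1, 0, 2, -1],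
    ![1, 0, -2, 1, 2], ![2, -1, 0, 0, -1], ![2, 1, -2, 0, 1], ![-2, -1, 1, 0, 1],
    ![1, 1, -2, 2, 0], ![-1, 1, -1, 2, 0], ![1, -1, -1, 2, 0], ![-1, -1, 2, 0, -2],
    ![1, 1, 0, -2, 0], ![-1, -1, 0, 2, 0], ![-2, 0, 1, 1, -1], ![-1, 1, 1, -2, 0],
    ![0, -2, 1, 1, -1], ![1, -1, 1, -2, 0], ![1, -1, 1, 0, -2], ![-1, 1, 1, 0, -2],
    ![-1, -1, 0, 0, 2], ![-1, -1, 2, -2, 0], ![2, 0, -1, 1, -1], ![-2, 0, 2, -1, -1],
    ![-2, 0, 0, 1, 1], ![0, 2, -1, -1, 1], ![0, 2, -1, 1, -1], ![0, -2, 2, -1, -1],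
    ![0, -2, 0, 1, 1], ![2, 0, -1, -1, 1], ![1, 1, 0, 0, -2], ![1, -1, -1, 0, 2],
    ![-1, 1, -1, 0, 2], ![1, 1, -2, 0, 2], ![2, 0, 0, -1, -1], ![2, 0, -2, 1, 1],
    ![0, 2, -2, 1, 1], ![-2, 0, 1, -1, 1], ![0, -2, 1, -1, 1], ![0, 2, 0, -1, -1]]

theorem orb_closed : ∀ x ∈ orb, ∀ i, mv i x ∈ orb := by decide +kernel

theorem orb_dead : ∀ x ∈ orb, ∀ I ∈ BigI, dead I 2 x = true := by decide +kernel

theorem orb_mem (hR : RootFacts) (j : Fin 5) (hj : j ∈ ({0, 1, 3} : Finset (Fin 5))) (g : W) :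
    (fun k => lv (lam j) g k) ∈ orb := by
  induction g using cs.simple_induction_left with
  | one =>
    have h1 : (fun k => lv (lam j) 1 k) = fun k => lam j (al k) := by
      funext k; rw [lv, inv_one, map_one, Module.End.one_apply]
    rw [h1]
    revert j
    decide +kernel
  | mul_simple_left w i ih =>
    have h2 : (fun k => lv (lam j) (cs.simple i * w) k) = mv i (fun k => lv (lam j) w k) := by
      funext k; exact lv_s_mul hR (lam j) w i k
    rw [h2]
    exact orb_closed _ ih i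

end VNoEig

/-- module VNOEIG -/
theorem vnoeigStmt (hR : RootFacts) : VnoeigStmt := by
  intro j hj I hI u hu
  ext g
  rw [Finsupp.zero_apply]
  rw [VNoEig.dead_zero hR (lam j) I u hu 2 g (VNoEig.orb_dead _ (VNoEig.orb_mem hR j hj g) I hI)]

end Pool.Agent.Helper39.KL
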