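import Pool.Agent.Helper39.KL.Spec

/-!
# Module VLAM: the operators of `V_lam` satisfy the Hecke relations (helper36)
-/

set_option autoImplicit false

namespace Pool.Agent.Helper39.KL

namespace Vlam

section Abstract

variable {E : Type} [AddCommGroup E] [Module A E]

/-- the value of an operator on a basis vector -/
noncomputable def rule (x : ℤ) (a b : E) : E :=
  if x = 0 then -(vi • a) else if x < 0 then b else b + (v - vi) • a

theorem rule_zero (a b : E) : rule 0 a b = -(vi • a) := by simp [rule]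

theorem rule_zero' (x : ℤ) (h : x = 0) (a b : E) : rule x a b = -(vi • a) := by simp [rule, h]

theorem rule_neg (x : ℤ) (h : x < 0) (a b : E) : rule x a b = b := by
  simp [rule, h, h.ne]

theorem rule_pos (x : ℤ) (h : 0 < x) (a b : E) : rule x a b = b + (v - vi) • a := by
  simp [rule, h.ne', not_lt.2 h.le]

theorem v_vi : v * vi = 1 := by
  unfold v vi
  rw [← LaurentPolynomial.T_add]; simp

theorem quad_rule (T : E →ₗ[A] E) (g gi : E) (x : ℤ) (h1 : T g = rule x g gi)
    (h2 : T gi = rule (-x) gi g) : T (T g) = g + (v - vi) • T g := by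
  rcases lt_trichotomy x 0 with hx | hx | hx
  · rw [h1, rule_neg x hx, h2, rule_pos (-x) (by omega)]
  · rw [h1, rule_zero' x hx, map_neg, map_smul, h1, rule_zero' x hx]
    linear_combination (norm := module) (v_vi) • g
  · rw [h1, rule_pos x hx, map_add, map_smul, h1, h2, rule_neg (-x) (by omega), rule_pos x hx]

theorem comm_rule (Ti Tj : E →ₗ[A] E) (g gi gj gij : E) (x1 x2 : ℤ)
    (h1 : Ti g = rule x1 g gi) (h2 : Ti gj = rule x1 gj gij)
    (h3 : Tj g = rule x2 g gj) (h4 : Tj gi = rule x2 gi gij) : Ti (Tj g) = Tj (Ti g) := by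
  rcases lt_trichotomy x1 0 with hx | hx | hx <;> rcases lt_trichotomy x2 0 with hy | hy | hy
  all_goals
    first | rw [rule_neg _ hx] at h1 h2 | rw [rule_zero' _ hx] at h1 h2 | rw [rule_pos _ hx] at h1 h2
    first | rw [rule_neg _ hy] at h3 h4 | rw [rule_zero' _ hy] at h3 h4 | rw [rule_pos _ hy] at h3 h4
    simp only [h1, h2, h3, h4, map_add, map_smul, map_neg]
    try module

theorem braid_rule (Ti Tj : E →ₗ[A] E) (g gi gj gij gji gb : E) (x1 x2 : ℤ)
    (h1 : Ti g = rule x1 g gi) (h2 : Ti gi = rule (-x1) gi g) (h3 : Ti gj = rule (x1 + x2) gj gij)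
    (h4 : Ti gji = rule x2 gji gb)
    (h5 : Tj g = rule x2 g gj) (h6 : Tj gj = rule (-x2) gj g) (h7 : Tj gi = rule (x1 + x2) gi gji)
    (h8 : Tj gij = rule x1 gij gb) : Ti (Tj (Ti g)) = Tj (Ti (Tj g)) := by
  rcases lt_trichotomy x1 0 with hx | hx | hx <;> rcases lt_trichotomy x2 0 with hy | hy | hy <;>
    rcases lt_trichotomy (x1 + x2) 0 with hz | hz | hz <;> try (exfalso; omega)
  all_goals
    first | rw [rule_neg (x1) (by omega)] at h1 | rw [rule_pos (x1) (by omega)] at h1 | rw [rule_zero' (x1) (by omega)] at h1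
    first | rw [rule_neg (-x1) (by omega)] at h2 | rw [rule_pos (-x1) (by omega)] at h2 | rw [rule_zero' (-x1) (by omega)] at h2
    first | rw [rule_neg (x1 + x2) (by omega)] at h3 | rw [rule_pos (x1 + x2) (by omega)] at h3 | rw [rule_zero' (x1 + x2) (by omega)] at h3
    first | rw [rule_neg (x2) (by omega)] at h4 | rw [rule_pos (x2) (by omega)] at h4 | rw [rule_zero' (x2) (by omega)] at h4
    first | rw [rule_neg (x2) (by omega)] at h5 | rw [rule_pos (x2) (by omega)] at h5 | rw [rule_zero' (x2) (by omega)] at h5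
    first | rw [rule_neg (-x2) (by omega)] at h6 | rw [rule_pos (-x2) (by omega)] at h6 | rw [rule_zero' (-x2) (by omega)] at h6
    first | rw [rule_neg (x1 + x2) (by omega)] at h7 | rw [rule_pos (x1 + x2) (by omega)] at h7 | rw [rule_zero' (x1 + x2) (by omega)] at h7
    first | rw [rule_neg (x1) (by omega)] at h8 | rw [rule_pos (x1) (by omega)] at h8 | rw [rule_zero' (x1) (by omega)] at h8
    simp only [h1, h2, h3, h4, h5, h6, h7, h8, map_add, map_smul, map_neg]
    first
      | done
      | module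
      | linear_combination (norm := module) ((v - vi) * v_vi) • g
      | linear_combination (norm := module) (-((v - vi) * v_vi)) • g

end Abstract

theorem M_apply (i j : Fin 5) :
    (M : CoxeterMatrix (Fin 5)) i j = if i = j then 1 else if adj i j then 3 else 2 := rfl

theorem s_inv (i : Fin 5) : (s i)⁻¹ = s i := cs.inv_simple i

theorem s_s (i : Fin 5) (w : W) : s i * (s i * w) = w := cs.simple_mul_simple_cancel_left i

theorem comm_s (i j : Fin 5) (hij : i ≠ j) (h : adj i j = false) : s i * s j = s j * s i := by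
  have h1 := cs.simple_mul_simple_pow i j
  rw [M_apply, if_neg hij, h] at h1
  simp only [Bool.false_eq_true, if_false] at h1
  have h2 : s i * s j = (s i * s j)⁻¹ := by
    rw [eq_inv_iff_mul_eq_one, ← pow_two]; exact h1
  rw [h2, mul_inv_rev, s_inv, s_inv]

theorem braid_s (i j : Fin 5) (h : adj i j = true) : s i * s j * s i = s j * s i * s j := by
  have hij : i ≠ j := by
    rintro rfl
    revert h; revert i; decide
  have h1 := cs.simple_mul_simple_pow i j
  rw [M_apply, if_neg hij, h] at h1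
  simp only [if_true] at h1
  have h2 : s i * s j * s i = (s j * s i * s j)⁻¹ := by
    rw [eq_inv_iff_mul_eq_one]
    rw [← h1]
    change _ = (s i * s j) ^ 3
    simp only [pow_succ, pow_zero, one_mul, mul_assoc]
  rw [h2, mul_inv_rev, mul_inv_rev, s_inv, s_inv, mul_assoc]

theorem refl_al_self : ∀ i : Fin 5, refl i (al i) = - al i := by
  simp only [al]
  decide

theorem refl_al_comm : ∀ i j : Fin 5, i ≠ j → adj i j = false → refl i (al j) = al j := by
  simp only [al]
  decide

theorem refl_al_adj : ∀ i j : Fin 5, adj i j = true → refl i (al j) = al i + al j := by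
  simp only [al]
  decide

theorem adj_symm : ∀ i j : Fin 5, adj i j = true → adj j i = true := by decide

theorem adj_symm' : ∀ i j : Fin 5, adj i j = false → adj j i = false := by decide

theorem act_inv_s (hR : RootFacts) (i : Fin 5) (w : W) (x : Q) :
    act (s i * w)⁻¹ x = act w⁻¹ (refl i x) := by
  rw [mul_inv_rev, s_inv, map_mul, Module.End.mul_apply, hR.act_s]

theorem lv_self (hR : RootFacts) (lam : Q →ₗ[ℤ] ℤ) (g : W) (i : Fin 5) :
    lv lam (s i * g) i = - lv lam g i := by
  unfold lv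
  rw [act_inv_s hR, refl_al_self, map_neg, map_neg]

theorem lv_comm (hR : RootFacts) (lam : Q →ₗ[ℤ] ℤ) (g : W) (i j : Fin 5) (hij : i ≠ j)
    (h : adj i j = false) : lv lam (s i * g) j = lv lam g j := by
  unfold lv
  rw [act_inv_s hR, refl_al_comm i j hij h]

theorem lv_adj (hR : RootFacts) (lam : Q →ₗ[ℤ] ℤ) (g : W) (i j : Fin 5)
    (h : adj i j = true) : lv lam (s i * g) j = lv lam g i + lv lam g j := by
  unfold lv
  rw [act_inv_s hR, refl_al_adj i j h, map_add, map_add]

theorem Vop_Tb (lam : Q →ₗ[ℤ] ℤ) (i : Fin 5) (g : W) :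
    Vop lam i (Tb g) = rule (lv lam g i) (Tb g) (Tb (s i * g)) := by
  unfold Vop
  rw [Tb, Finsupp.linearCombination_single, one_smul]
  rfl

/-- equality of linear maps on the basis -/
theorem ext_Tb {F G : H →ₗ[A] H} (h : ∀ g, F (Tb g) = G (Tb g)) (x : H) : F x = G x := by
  have : F = G := by
    apply Finsupp.lhom_ext'
    intro g
    apply LinearMap.ext_ring
    exact h g
  rw [this]

theorem quad (hR : RootFacts) (lam : Q →ₗ[ℤ] ℤ) (i : Fin 5) (x : H) :
    Vop lam i (Vop lam i x) = x + (v - vi) • Vop lam i x := by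
  refine ext_Tb (F := Vop lam i ∘ₗ Vop lam i) (G := LinearMap.id + (v - vi) • Vop lam i) ?_ x
  intro g
  change Vop lam i (Vop lam i (Tb g)) = Tb g + (v - vi) • Vop lam i (Tb g)
  apply quad_rule (Vop lam i) (Tb g) (Tb (s i * g)) (lv lam g i) (Vop_Tb _ _ _)
  rw [Vop_Tb, lv_self hR, s_s]

theorem comm (hR : RootFacts) (lam : Q →ₗ[ℤ] ℤ) (i j : Fin 5) (hij : i ≠ j)
    (h : adj i j = false) (x : H) :
    Vop lam i (Vop lam j x) = Vop lam j (Vop lam i x) := by
  refine ext_Tb (F := Vop lam i ∘ₗ Vop lam j) (G := Vop lam j ∘ₗ Vop lam i) ?_ x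
  intro g
  change Vop lam i (Vop lam j (Tb g)) = Vop lam j (Vop lam i (Tb g))
  refine comm_rule (Vop lam i) (Vop lam j) (Tb g) (Tb (s i * g)) (Tb (s j * g))
    (Tb (s i * (s j * g))) (lv lam g i) (lv lam g j) (Vop_Tb _ _ _) ?_ (Vop_Tb _ _ _) ?_
  · rw [Vop_Tb, lv_comm hR lam g j i (Ne.symm hij) (adj_symm' i j h)]
  · rw [Vop_Tb, lv_comm hR lam g i j hij h, ← mul_assoc, ← comm_s i j hij h, mul_assoc]

theorem braid (hR : RootFacts) (lam : Q →ₗ[ℤ] ℤ) (i j : Fin 5) (h : adj i j = true) (x : H) :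
    Vop lam i (Vop lam j (Vop lam i x)) = Vop lam j (Vop lam i (Vop lam j x)) := by
  refine ext_Tb (F := Vop lam i ∘ₗ Vop lam j ∘ₗ Vop lam i)
    (G := Vop lam j ∘ₗ Vop lam i ∘ₗ Vop lam j) ?_ x
  intro g
  change Vop lam i (Vop lam j (Vop lam i (Tb g))) = Vop lam j (Vop lam i (Vop lam j (Tb g)))
  have h' := adj_symm i j h
  have e : s j * (s i * (s j * g)) = s i * (s j * (s i * g)) := by
    have := braid_s i j h
    calc s j * (s i * (s j * g)) = (s j * s i * s j) * g := by simp only [mul_assoc]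
      _ = (s i * s j * s i) * g := by rw [this]
      _ = _ := by simp only [mul_assoc]
  refine braid_rule (Vop lam i) (Vop lam j) (Tb g) (Tb (s i * g)) (Tb (s j * g))
    (Tb (s i * (s j * g))) (Tb (s j * (s i * g))) (Tb (s i * (s j * (s i * g))))
    (lv lam g i) (lv lam g j) (Vop_Tb _ _ _) ?_ ?_ ?_ (Vop_Tb _ _ _) ?_ ?_ ?_
  · rw [Vop_Tb, lv_self hR, s_s]
  · rw [Vop_Tb, lv_adj hR lam g j i h', add_comm]
  · rw [Vop_Tb, lv_adj hR lam _ j i h', lv_self hR, lv_adj hR lam g i j h]
    congr 1; ring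
  · rw [Vop_Tb, lv_self hR, s_s]
  · rw [Vop_Tb, lv_adj hR lam g i j h]
  · rw [Vop_Tb, lv_adj hR lam _ i j h, lv_self hR, lv_adj hR lam g j i h', e]
    congr 1; ring

end Vlam

theorem vlamStmt (hR : RootFacts) : VlamStmt := fun lam =>
  ⟨{ t := Vop lam
     quad := Vlam.quad hR lam
     comm := fun i j hij h x => Vlam.comm hR lam i j hij h x
     braid := fun i j h x => Vlam.braid hR lam i j h x }, rfl⟩

end Pool.Agent.Helper39.KL
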