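import Pool.Agent.Helper39.KL.Root
import Pool.Agent.Helper39.KL.Mat
import Pool.Agent.Helper39.KL.Vlam
import Pool.Agent.Helper39.KL.Reg
import Pool.Agent.Helper39.KL.Phi
import Pool.Agent.Helper39.KL.Bar
import Pool.Agent.Helper39.KL.KL1
import Pool.Agent.Helper39.KL.KL2
import Pool.Agent.Helper39.KL.VDelta
import Pool.Agent.Helper39.KL.VNoEig
import Pool.Agent.Helper39.KL.Star
import Pool.Agent.Helper39.KL.VEig
import Pool.Agent.Helper39.KL.Rel
import Pool.Agent.Helper39.KL.Comb1
import Pool.Agent.Helper39.KL.COMB2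
import Pool.Agent.Helper39.KL.COMB3
import Pool.Agent.Helper39.KL.AB12
import Pool.Agent.Helper39.KL.AB3
import Pool.Agent.Helper39.KL.Lead
import Pool.Agent.Helper39.KL.Straight
import Pool.Agent.Helper39.KL.Ind
import Pool.Agent.Helper39.KL.Clos
import Pool.Agent.Helper39.KL.Alc
import Pool.Agent.Helper39.KL.AutD

/-!
# Assembly
-/

namespace Pool.Agent.Helper39.KL

theorem hR : RootFacts := rootFacts
theorem hM : MatFacts := matFacts hR
theorem hT : TFacts := tFacts hM
theorem hV : VlamStmt := vlamStmt hR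
theorem hG : RegFacts := regFacts hR hV
theorem hP : PhiStmt := phiStmt hR hT hG
theorem hB : BarFacts := barFacts hR hM hG
theorem hK1 : KL1Facts := kl1Facts hR hG hB
theorem hK2 : KL2Facts := kl2Facts hR hG hB hK1
theorem hS : StarFacts := starFacts hR hG hB hK1 hK2
theorem hVe : VeigStmt := veigStmt hR
theorem hVr : VrelStmt := vrelStmt hR
theorem hVn : VnoeigStmt := vnoeigStmt hR
theorem hVd : VdeltaStmt := vdeltaStmt
theorem hrel : RelFacts := relFacts
theorem c1 : Comb1Facts := comb1Facts hR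
theorem hmin : N1MinStmt := n1min hR c1
theorem hcl : ClassifyStmt := classify hR c1
theorem hAl : AutLamStmt := autLam hR hT c1
theorem hAd : AutDeltaStmt := autDelta hR hT c1
theorem h1 : AB1Stmt := ab1 hR hT
theorem h2 : AB2Stmt := ab2 hR hT hrel
theorem h3 : AB3Stmt := ab3 hR hT c1 hrel h1
theorem hab : ABFacts := abFacts hR hT c1 hrel h1 h2 h3
theorem hlead : LeadStmt := leadStmt hR hT hG hK1 hK2 c1 hab hP
theorem hst : StraightFacts := straightFacts hR hT
theorem hind : IndStmt := indStmt hR hT c1 hcl hst hab hV hVe hVr hVn hVd hAl hAd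
theorem hclos : ClosStmt :=
  closStmt hR hP hK1 hK2 hS c1 hmin hab hlead hind hVe hVr hVn hVd hAl hAd
theorem halc : AlcFacts := alcFacts hR

/-- the key fact -/
theorem not_le (C : W → H) (hC : IsKL C) :
    ¬ LeftLE C (x0 * wK * s 2) (s 4 * (x0 * wK * s 2)) := by
  intro h
  have h := hS.star C hC h
  have hN : Nhat (s 4 * (x0 * wK)) := by
    refine ⟨?_, ?_⟩
    · intro i hi
      have := c1.Nhat_iff (s 4 * x0) c1.N1_x.1 i hi
      rwa [mul_assoc] at this
    · have e : s 4 * (x0 * wK) * wK = s 4 * x0 := by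
        rw [← mul_assoc, CLOS.mul_wK_wK hR]
      rw [e]
      exact c1.N1_x
  have hall : ∀ z, Relation.ReflTransGen (fun a b => LStep C b a) (s 4 * (x0 * wK)) z →
      Nhat z := by
    intro z hz
    induction hz with
    | refl => exact hN
    | tail _ hab ih => exact hclos C hC _ ih _ hab
  have := (hall _ h).2
  rw [CLOS.mul_wK_wK hR] at this
  exact c1.not_N1_x this

end Pool.Agent.Helper39.KL
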