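import Pool.Agent.Helper39.KL.Spec

/-!
# Module ROOT
-/

namespace Pool.Agent.Helper39.KL

open Finset

namespace ROOT

lemma act_s (i : Fin 5) (x : Q) : act (s i) x = refl i x := by
  have h := cs.lift_apply_simple refl_liftable i
  unfold act s
  rw [h]

lemma act_mul (u w : W) (x : Q) : act (u * w) x = act u (act w x) := by
  rw [map_mul]; rfl

lemma act_one (x : Q) : act 1 x = x := by
  rw [map_one]; rfl

lemma act_inv_act (w : W) (x : Q) : act w⁻¹ (act w x) = x := by
  rw [← act_mul, inv_mul_cancel, act_one]

lemma act_act_inv (w : W) (x : Q) : act w (act w⁻¹ x) = x := by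
  rw [← act_mul, mul_inv_cancel, act_one]

lemma refl_apply (i : Fin 5) (x : Q) (k : Fin 5) :
    refl i x k = x k - if k = i then ∑ j, cart i j * x j else 0 := rfl

lemma refl_al_self (i : Fin 5) : refl i (al i) = - al i := by
  revert i; unfold al; decide

lemma refl_al_comm (i j : Fin 5) (h : i ≠ j) (h' : adj i j = false) : refl i (al j) = al j := by
  revert i j; unfold al; decide

lemma refl_al_adj (i j : Fin 5) (h : adj i j = true) : refl i (al j) = al i + al j := by
  revert i j; unfold al; decide

/-- induction along right multiplication -/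
lemma induct (P : W → Prop) (h1 : P 1) (hs : ∀ w i, P w → P (s i * w)) (w : W) : P w :=
  cs.simple_induction_left w h1 hs

lemma act_delta (w : W) : act w delta = delta := by
  induction w using induct with
  | h1 => exact act_one _
  | hs w i ih =>
    rw [act_mul, ih, act_s]
    revert i; decide

lemma root_al (i : Fin 5) : IsRoot (al i) := by
  revert i; unfold IsRoot al; decide

lemma root_refl (i : Fin 5) (x : Q) (hx : IsRoot x) : IsRoot (refl i x) := by
  unfold IsRoot at *
  fin_cases i <;>
  · simp only [refl_apply, Fin.sum_univ_five, cart, adj] 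
    simp
    linarith

lemma root_act (w : W) : ∀ x, IsRoot x → IsRoot (act w x) := by
  induction w using induct with
  | h1 => intro x hx; rw [act_one]; exact hx
  | hs w i ih =>
    intro x hx
    rw [act_mul, act_s]
    exact root_refl i _ (ih x hx)

lemma le_iff (x : Q) : 0 ≤ x ↔ (0 ≤ x 0 ∧ 0 ≤ x 1 ∧ 0 ≤ x 2 ∧ 0 ≤ x 3 ∧ 0 ≤ x 4) := by
  rw [Pi.le_def, Fin.forall_fin_succ, Fin.forall_fin_succ, Fin.forall_fin_succ,
    Fin.forall_fin_succ, Fin.forall_fin_succ]
  simp only [Pi.zero_apply, IsEmpty.forall_iff, and_true]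
  rfl

lemma ge_iff (x : Q) : x ≤ 0 ↔ (x 0 ≤ 0 ∧ x 1 ≤ 0 ∧ x 2 ≤ 0 ∧ x 3 ≤ 0 ∧ x 4 ≤ 0) := by
  rw [Pi.le_def, Fin.forall_fin_succ, Fin.forall_fin_succ, Fin.forall_fin_succ,
    Fin.forall_fin_succ, Fin.forall_fin_succ]
  simp only [Pi.zero_apply, IsEmpty.forall_iff, and_true]
  rfl

lemma sign (x : Q) (hx : IsRoot x) : (0 ≤ x ∧ ¬ x ≤ 0) ∨ (x ≤ 0 ∧ ¬ 0 ≤ x) := by
  rw [le_iff, ge_iff]
  unfold IsRoot at hx
  obtain ⟨a, ha⟩ : ∃ a, a = 2 * x 0 - x 2 := ⟨_, rfl⟩
  obtain ⟨b, hb⟩ : ∃ b, b = 2 * x 1 - x 2 := ⟨_, rfl⟩
  obtain ⟨c, hc⟩ : ∃ c, c = 2 * x 3 - x 2 := ⟨_, rfl⟩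
  obtain ⟨d, hd⟩ : ∃ d, d = 2 * x 4 - x 2 := ⟨_, rfl⟩
  rw [← ha, ← hb, ← hc, ← hd] at hx
  have ha1 : -2 ≤ a := by nlinarith [sq_nonneg b, sq_nonneg c, sq_nonneg d]
  have ha2 : a ≤ 2 := by nlinarith [sq_nonneg b, sq_nonneg c, sq_nonneg d]
  have hb1 : -2 ≤ b := by nlinarith [sq_nonneg a, sq_nonneg c, sq_nonneg d]
  have hb2 : b ≤ 2 := by nlinarith [sq_nonneg a, sq_nonneg c, sq_nonneg d]
  have hc1 : -2 ≤ c := by nlinarith [sq_nonneg b, sq_nonneg a, sq_nonneg d]
  have hc2 : c ≤ 2 := by nlinarith [sq_nonneg b, sq_nonneg a, sq_nonneg d]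
  have hd1 : -2 ≤ d := by nlinarith [sq_nonneg b, sq_nonneg c, sq_nonneg a]
  have hd2 : d ≤ 2 := by nlinarith [sq_nonneg b, sq_nonneg c, sq_nonneg a]
  generalize x 0 = p at *
  generalize x 1 = q at *
  generalize x 2 = r at *
  generalize x 3 = t at *
  generalize x 4 = u at *
  interval_cases a <;> interval_cases b <;> norm_num at hx <;> interval_cases c <;>
    norm_num at hx <;> interval_cases d <;> norm_num at hx <;> omega

lemma pos_of_not_neg {x : Q} (hx : IsRoot x) (h : ¬ x ≤ 0) : 0 ≤ x := by
  rcases sign x hx with h' | h'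
  · exact h'.1
  · exact absurd h'.1 h

lemma neg_of_not_pos {x : Q} (hx : IsRoot x) (h : ¬ 0 ≤ x) : x ≤ 0 := by
  rcases sign x hx with h' | h'
  · exact absurd h'.1 h
  · exact h'.1

lemma not_both {x : Q} (hx : IsRoot x) (h : 0 ≤ x) (h' : x ≤ 0) : False := by
  rcases sign x hx with h1 | h1
  · exact h1.2 h'
  · exact h1.2 h

lemma len_or (w : W) (i : Fin 5) : len (w * s i) = len w + 1 ∨ len (w * s i) + 1 = len w :=
  cs.length_mul_simple w i

lemma mul_s_s (w : W) (i : Fin 5) : w * s i * s i = w := by
  rw [mul_assoc]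
  have := cs.simple_mul_simple_self i
  unfold s
  rw [this, mul_one]

lemma s_inv (i : Fin 5) : (s i)⁻¹ = s i := cs.inv_simple i

lemma s_comm (i j : Fin 5) (h : i ≠ j) (h' : adj i j = false) : s i * s j = s j * s i := by
  have h1 : M.M i j = 2 := by
    show (if i = j then 1 else if adj i j then 3 else 2) = 2
    rw [if_neg h, h']; simp
  have h2 := cs.simple_mul_simple_pow i j
  change _ ^ (M.M i j) = 1 at h2
  rw [h1, pow_two] at h2
  have h3 := eq_inv_of_mul_eq_one_left h2
  unfold s
  rw [h3, mul_inv_rev, cs.inv_simple, cs.inv_simple]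

lemma s_braid (i j : Fin 5) (h : adj i j = true) : s i * s j * s i = s j * s i * s j := by
  have h1 : M.M i j = 3 := by
    have h0 : i ≠ j := by rintro rfl; unfold adj at h; simp at h
    show (if i = j then 1 else if adj i j then 3 else 2) = 3
    rw [if_neg h0, h]; simp
  have h2 := cs.simple_mul_simple_pow i j
  change _ ^ (M.M i j) = 1 at h2
  have h3 : (cs.simple i * cs.simple j * cs.simple i) * (cs.simple j * cs.simple i * cs.simple j)
      = 1 := by
    rw [← h2, h1]
    simp only [pow_succ, pow_zero, one_mul, mul_assoc]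
  have h4 := eq_inv_of_mul_eq_one_left h3
  unfold s
  rw [h4, mul_inv_rev, mul_inv_rev, cs.inv_simple, cs.inv_simple]
  simp only [mul_assoc]

lemma al_nonneg (i : Fin 5) : 0 ≤ al i := by
  unfold al
  exact Pi.single_nonneg.2 zero_le_one

lemma adj_symm {i j : Fin 5} (h : adj i j = true) : adj j i = true := by
  revert i j; decide

/-- the main induction: `len w < len (w s_i)` implies `w α_i > 0` -/
lemma main (n : ℕ) : ∀ w : W, len w = n → ∀ i, len w < len (w * s i) → 0 ≤ act w (al i) := by
  induction n using Nat.strong_induction_on with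
  | _ n ih =>
    intro w hw i hi
    by_cases h1 : w = 1
    · subst h1
      rw [act_one]
      exact al_nonneg i
    obtain ⟨j, hj⟩ := cs.exists_rightDescent_of_ne_one h1
    have hj' : len (w * s j) < len w := hj
    have hji : j ≠ i := by
      rintro rfl
      omega
    have hj1 : len (w * s j) + 1 = len w := by
      rcases len_or w j with h | h <;> omega
    set w' := w * s j with hw'
    have hww : w' * s j = w := mul_s_s w j
    by_cases hadj : adj j i = true
    · -- m = 3
      have hij : w * s i = w' * s j * s i := by rw [hww]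
      have e1 : act w (al i) = act w' (al i) + act w' (al j) := by
        rw [← hww, act_mul, act_s, refl_al_adj j i hadj, map_add, add_comm]
      have e2 : 0 ≤ act w' (al j) := by
        apply ih (len w') (by omega) w' rfl j
        rw [hww]; omega
      rcases len_or w' i with h | h
      · have e3 : 0 ≤ act w' (al i) := ih (len w') (by omega) w' rfl i (by omega)
        rw [e1]
        exact add_nonneg e3 e2
      · set w'' := w' * s i with hw''
        have hww2 : w'' * s i = w' := mul_s_s w' i
        have e3 : act w (al i) = act w'' (al j) := by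
          rw [e1, ← map_add, ← hww2, act_mul, act_s, map_add, refl_al_self,
            refl_al_adj i j (adj_symm hadj)]
          congr 1
          abel
        rw [e3]
        apply ih (len w'') (by omega) w'' rfl j
        by_contra hcon
        have h5 : len (w'' * s j) + 1 = len w'' := by
          rcases len_or w'' j with h | h <;> omega
        have h6 : w * s i = w'' * s j * s i * s j := by
          rw [hij, ← hww2]
          have := s_braid i j (adj_symm hadj)
          calc w'' * s i * s j * s i = w'' * (s i * s j * s i) := by simp only [mul_assoc]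
            _ = w'' * (s j * s i * s j) := by rw [this]
            _ = _ := by simp only [mul_assoc]
        have h7 : len (w * s i) ≤ len (w'' * s j) + 2 := by
          rw [h6]
          rcases len_or (w'' * s j) i with h | h <;>
          rcases len_or (w'' * s j * s i) j with h' | h' <;> omega
        omega
    · have hadj' : adj j i = false := by simpa using hadj
      have e1 : act w (al i) = act w' (al i) := by
        rw [← hww, act_mul, act_s, refl_al_comm j i hji hadj']
      rw [e1]
      apply ih (len w') (by omega) w' rfl i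
      by_contra hcon
      have h5 : len (w' * s i) + 1 = len w' := by
        rcases len_or w' i with h | h <;> omega
      have h6 : w * s i = w' * s i * s j := by
        calc w * s i = w' * s j * s i := by rw [hww]
          _ = w' * (s j * s i) := mul_assoc _ _ _
          _ = w' * (s i * s j) := congrArg _ (s_comm j i hji hadj')
          _ = w' * s i * s j := (mul_assoc _ _ _).symm
      have h7 : len (w * s i) ≤ len (w' * s i) + 1 := by
        rw [h6]
        rcases len_or (w' * s i) j with h | h <;> omega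
      omega

lemma act_al_flip (w : W) (i : Fin 5) : act (w * s i) (al i) = - act w (al i) := by
  rw [act_mul, act_s, refl_al_self, map_neg]

lemma down (w : W) (i : Fin 5) (h : len (w * s i) < len w) : act w (al i) ≤ 0 := by
  have h1 : 0 ≤ act (w * s i) (al i) := by
    apply main _ _ rfl i
    rw [mul_s_s]; exact h
  rw [act_al_flip] at h1
  exact neg_nonneg.1 h1

lemma upR (w : W) (i : Fin 5) : len w < len (w * s i) ↔ 0 ≤ act w (al i) := by
  refine ⟨fun h => main _ _ rfl i h, fun h => ?_⟩
  rcases len_or w i with h' | h'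
  · omega
  · exact (not_both (root_act w _ (root_al i)) h (down w i (by omega))).elim

lemma dnR (w : W) (i : Fin 5) : len (w * s i) < len w ↔ act w (al i) ≤ 0 := by
  refine ⟨fun h => down w i h, fun h => ?_⟩
  rcases len_or w i with h' | h'
  · exact (not_both (root_act w _ (root_al i)) (main _ _ rfl i (by omega)) h).elim
  · omega

lemma len_inv (w : W) : len w⁻¹ = len w := cs.length_inv w

lemma len_sw (w : W) (i : Fin 5) : len (s i * w) = len (w⁻¹ * s i) := by
  rw [← len_inv (s i * w), mul_inv_rev, s_inv]

lemma upL (w : W) (i : Fin 5) : len w < len (s i * w) ↔ 0 ≤ act w⁻¹ (al i) := by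
  rw [len_sw, ← len_inv w]
  exact upR w⁻¹ i

lemma dnL (w : W) (i : Fin 5) : len (s i * w) < len w ↔ act w⁻¹ (al i) ≤ 0 := by
  rw [len_sw, ← len_inv w]
  exact dnR w⁻¹ i

lemma faithful (w : W) (h : ∀ i, act w (al i) = al i) : w = 1 := by
  by_contra h1
  obtain ⟨j, hj⟩ := cs.exists_rightDescent_of_ne_one h1
  have h2 := (dnR w j).1 hj
  have h3 : 0 ≤ al j := al_nonneg j
  rw [h] at h2
  exact not_both (root_al j) h3 h2

/-- the pairing with the simple coroot -/
def pr (i : Fin 5) (x : Q) : ℤ := ∑ j, cart i j * x j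

/-- the invariant form -/
def B (x y : Q) : ℤ := ∑ i, x i * pr i y

lemma refl_eq (i : Fin 5) (x : Q) : refl i x = x - pr i x • al i := by
  funext k
  rw [refl_apply]
  simp only [Pi.sub_apply, Pi.smul_apply, al, Pi.single_apply, smul_eq_mul, mul_ite, mul_one,
    mul_zero]
  rfl

lemma B_refl (i : Fin 5) (x y : Q) : B (refl i x) (refl i y) = B x y := by
  fin_cases i <;>
  · simp only [B, pr, refl_apply, Fin.sum_univ_five, cart, adj]
    simp
    ring

lemma B_act (w : W) : ∀ x y, B (act w x) (act w y) = B x y := by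
  induction w using induct with
  | h1 => intro x y; rw [act_one, act_one]
  | hs w i ih =>
    intro x y
    rw [act_mul, act_mul, act_s, act_s, B_refl, ih]

lemma B_al (i : Fin 5) (x : Q) : B (al i) x = pr i x := by
  unfold B al
  simp [Pi.single_apply]

lemma conj (w : W) (i j : Fin 5) (h : act w (al i) = al j) : w * s i = s j * w := by
  have h1 : ∀ x, act (w * s i) x = act (s j * w) x := by
    intro x
    rw [act_mul, act_mul, act_s, act_s, refl_eq, refl_eq, map_sub, map_smul, h]
    congr 2
    rw [← B_al, ← B_al, ← h, B_act]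
  have h2 : (s j * w)⁻¹ * (w * s i) = 1 := by
    apply faithful
    intro k
    rw [act_mul, h1, act_inv_act]
  exact (inv_mul_eq_one.1 h2).symm

end ROOT

theorem rootFacts : RootFacts where
  act_s := ROOT.act_s
  act_delta := ROOT.act_delta
  root_al := ROOT.root_al
  root_act := ROOT.root_act
  sign := ROOT.sign
  upR := ROOT.upR
  dnR := ROOT.dnR
  upL := ROOT.upL
  dnL := ROOT.dnL
  conj := ROOT.conj

end Pool.Agent.Helper39.KL
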