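import Pool.Agent.Helper39.KL.Defs

/-!
# Statements of the modules
-/

namespace Pool.Agent.Helper39.KL

open Finset

/-- module ROOT -/
structure RootFacts : Prop where
  act_s : ∀ i x, act (s i) x = refl i x
  act_delta : ∀ w, act w delta = delta
  root_al : ∀ i, IsRoot (al i)
  root_act : ∀ w x, IsRoot x → IsRoot (act w x)
  sign : ∀ x, IsRoot x → (0 ≤ x ∧ ¬ x ≤ 0) ∨ (x ≤ 0 ∧ ¬ 0 ≤ x)
  upR : ∀ w i, len w < len (w * s i) ↔ 0 ≤ act w (al i)
  dnR : ∀ w i, len (w * s i) < len w ↔ act w (al i) ≤ 0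
  upL : ∀ w i, len w < len (s i * w) ↔ 0 ≤ act w⁻¹ (al i)
  dnL : ∀ w i, len (s i * w) < len w ↔ act w⁻¹ (al i) ≤ 0
  conj : ∀ w i j, act w (al i) = al j → w * s i = s j * w

/-- module MAT (Matsumoto) -/
structure MatFacts : Prop where
  wl_one : ∀ {N : Type} [Monoid N] (t : Fin 5 → N), wl t 1 = 1
  wl_mul : ∀ {N : Type} [Monoid N] (t : Fin 5 → N),
    (∀ i j, i ≠ j → adj i j = false → t i * t j = t j * t i) →
    (∀ i j, adj i j = true → t i * t j * t i = t j * t i * t j) →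
    ∀ u w, len (u * w) = len u + len w → wl t (u * w) = wl t u * wl t w
  wl_s : ∀ {N : Type} [Monoid N] (t : Fin 5 → N) (i : Fin 5), wl t (s i) = t i

/-- consequence of MAT for Hecke modules -/
structure TFacts : Prop where
  T_one : ∀ {X : Type} (V : BMod X) x, V.T 1 x = x
  T_s : ∀ {X : Type} (V : BMod X) i x, V.T (s i) x = V.t i x
  T_mul : ∀ {X : Type} (V : BMod X) (u w : W) x, len (u * w) = len u + len w →
    V.T (u * w) x = V.T u (V.T w x)

/-- module REG: the operators `L i` and `R i` -/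
structure RegFacts : Prop where
  L_up : ∀ i w, len w < len (s i * w) → L i (Tb w) = Tb (s i * w)
  L_dn : ∀ i w, len (s i * w) < len w → L i (Tb w) = Tb (s i * w) + (v - vi) • Tb w
  R_up : ∀ i w, len w < len (w * s i) → R i (Tb w) = Tb (w * s i)
  R_dn : ∀ i w, len (w * s i) < len w → R i (Tb w) = Tb (w * s i) + (v - vi) • Tb w
  LR : ∀ i j x, L i (R j x) = R j (L i x)
  bmod : ∃ V : BMod W, V.t = L
  /-- `T_w ↦ T_{w⁻¹}` exchanges `L` and `R` -/
  inv : ∀ i x, (L i x).mapDomain (fun w => w⁻¹) = R i (x.mapDomain (fun w => w⁻¹))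

/-- module PHI: the map `Phi` intertwines `L i` and `V.t i` -/
def PhiStmt : Prop := ∀ {X : Type} (V : BMod X) (e : X →₀ A),
  (∀ (a : A) (h : H), V.Phi e (a • h) = a • V.Phi e h) ∧
  (∀ h h' : H, V.Phi e (h + h') = V.Phi e h + V.Phi e h') ∧
  (∀ w, V.Phi e (Tb w) = V.T w e) ∧ (∀ i h, V.Phi e (L i h) = V.t i (V.Phi e h))

/-- module BAR: the bar involution -/
structure BarFacts : Prop where
  bar_add : ∀ x y, barH (x + y) = barH x + barH y
  bar_smul : ∀ a x, barH (a • x) = barA a • barH x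
  bar_one : barH (Tb 1) = Tb 1
  bar_L : ∀ i x, barH (L i x) = L i (barH x) - (v - vi) • barH x
  bar_R : ∀ i x, barH (R i x) = R i (barH x) - (v - vi) • barH x
  bar_bar : ∀ x, barH (barH x) = x
  /-- unitriangularity for the length -/
  bar_tri : ∀ w y, barT w y ≠ 0 → y = w ∨ len y < len w
  bar_diag : ∀ w, barT w w = 1
  bar_T : ∀ w, barH (Tb w) = barT w
  bar_inv : ∀ x : H, barH (x.mapDomain (fun w => w⁻¹)) = (barH x).mapDomain (fun w => w⁻¹)

/-- module KL1 (existence, uniqueness, support, basis) -/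
structure KL1Facts : Prop where
  exists_KL : ∃ C, IsKL C
  unique_KL : ∀ C C', IsKL C → IsKL C' → C = C'
  supp : ∀ C, IsKL C → ∀ w y, C w y ≠ 0 → y = w ∨ len y < len w
  linInd : ∀ C, IsKL C → LinearIndependent A C
  span : ∀ C, IsKL C → Submodule.span A (Set.range C) = ⊤

/-- module KL2 (multiplication) -/
structure KL2Facts : Prop where
  mulL : ∀ C, IsKL C → ∀ w i, len w < len (s i * w) → ∃ m : W →₀ ℤ,
    (∀ y, m y ≠ 0 → len y < len w ∧ len (s i * y) < len y) ∧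
    (∀ y, len (s i * y) < len y → y ≠ s i * w → m y = (C w y).coeff (-1)) ∧
    L i (C w) + vi • C w = C (s i * w) + m.sum fun y a => a • C y
  eigL : ∀ C, IsKL C → ∀ w i, len (s i * w) < len w → L i (C w) = v • C w
  mulR : ∀ C, IsKL C → ∀ w i, len w < len (w * s i) → ∃ m : W →₀ ℤ,
    (∀ y, m y ≠ 0 → len y < len w ∧ len (y * s i) < len y) ∧
    (∀ y, len (y * s i) < len y → y ≠ w * s i → m y = (C w y).coeff (-1)) ∧
    R i (C w) + vi • C w = C (w * s i) + m.sum fun y a => a • C y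
  eigR : ∀ C, IsKL C → ∀ w i, len (w * s i) < len w → R i (C w) = v • C w
  /-- coefficients: `p_{y s, w} = v p_{y, w}` if `w s < w`, `y s > y` -/
  coefR : ∀ C, IsKL C → ∀ w i, len (w * s i) < len w → ∀ y, len y < len (y * s i) →
    C w (y * s i) = v * C w y

/-- module STAR: right descent sets grow along the left preorder, and the star operation -/
structure StarFacts : Prop where
  mono : ∀ C, IsKL C → ∀ y w, LStep C y w → ∀ i, len (w * s i) < len w → len (y * s i) < len y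
  star : ∀ C, IsKL C → LeftLE C (x0 * wK * s 2) (s 4 * (x0 * wK * s 2)) →
    LeftLE C (x0 * wK) (s 4 * (x0 * wK))

/-- module VLAM: `Vop lam` satisfies the Hecke relations for every linear form `lam` -/
def VlamStmt : Prop := ∀ lam : Q →ₗ[ℤ] ℤ, ∃ V : BMod W, V.t = Vop lam

/-- module VEIG: the eigenvector of `V_lam j` -/
def VeigStmt : Prop := ∀ j ∈ ({0, 1, 3} : Finset (Fin 5)),
  (∀ i ∈ ({0, 1, 3} : Finset (Fin 5)), Vop (lam j) i eV = v • eV) ∧
  Vop (lam j) 4 eV = -(vi • eV)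

/-- module VREL -/
def VrelStmt : Prop := ∀ j ∈ ({0, 1, 3} : Finset (Fin 5)), ∀ V : BMod W, V.t = Vop (lam j) →
  V.c 0 (V.c 1 (V.c 3 (V.t 2 eV))) = ((1 : A) - 2 * vi ^ 2 - vi ^ 4) • eV

/-- module VNOEIG -/
def VnoeigStmt : Prop := ∀ j ∈ ({0, 1, 3} : Finset (Fin 5)), ∀ I ∈ BigI, ∀ u : H,
  (∀ i ∈ I, Vop (lam j) i u = v • u) → u = 0

/-- module VDELTA -/
def VdeltaStmt : Prop := ∃ V : BMod (Fin 3), V.t = Dop ∧
  (∀ i ∈ ({0, 1, 3} : Finset (Fin 5)), V.t i eD = v • eD) ∧ V.t 4 eD = -(vi • eD) ∧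
  V.c 0 (V.c 1 (V.c 3 (V.t 2 eD))) = ((-1 : A) - 2 * vi ^ 2 - vi ^ 4) • eD ∧
  (∀ I ∈ BigI, ∀ u, (∀ i ∈ I, V.t i u = v • u) → u = 0)

/-- module AUTL: the lattice bound on Gamma1 for `V_lam j` -/
def AutLamStmt : Prop := ∀ j ∈ ({0, 1, 3} : Finset (Fin 5)), ∀ V : BMod W,
  V.t = Vop (lam j) → ∀ y, G1 y → DLv 0 (V.T y eV)

/-- module AUTD: the lattice bound on Gamma1 for the 3-dimensional module -/
def AutDeltaStmt : Prop := ∀ V : BMod (Fin 3), V.t = Dop → ∀ y, G1 y → DLv 0 (V.T y eD)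

/-- module COMB1: combinatorics of `N1`, `Gamma1` -/
structure Comb1Facts : Prop where
  XK_down : ∀ y i, XK y → len (s i * y) < len y → XK (s i * y)
  N1_up : ∀ y i, N1 y → len y < len (s i * y) → XK (s i * y) → N1 (s i * y)
  G1_down : ∀ y i, G1 y → len (s i * y) < len y → G1 (s i * y)
  /-- small facts -/
  G1_one : G1 1
  G1_s2 : G1 (s 2)
  G1_s42 : G1 (s 4 * s 2)
  G1_x0 : G1 x0
  G1_s2x0 : G1 (s 2 * x0)
  G1_s42x0 : G1 (s 4 * s 2 * x0)
  N1_x : N1 (s 4 * x0)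
  not_N1_x : ¬ N1 x0
  /-- `y ∈ X_K` iff the element `y w_K` has all of `K` as right descents -/
  Nhat_iff : ∀ y, XK y → ∀ i ∈ ({0, 1, 3} : Finset (Fin 5)), Neg (y * wK) (al i)
  Nhat_inv : ∀ z, (∀ i ∈ ({0, 1, 3} : Finset (Fin 5)), Neg z (al i)) → XK (z * wK)

/-- module COMB2: a nonminimal element of `N1` has a smaller neighbour in `N1`; the minimal
ones have a big left descent set -/
def N1MinStmt : Prop := ∀ y, N1 y → (∃ i, len (s i * y) < len y ∧ N1 (s i * y)) ∨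
    ∃ I ∈ BigI, ∀ i ∈ I, len (s i * (y * wK)) < len (y * wK)

/-- module COMB3: classification of Gamma1 -/
def ClassifyStmt : Prop := ∀ y, G1 y → Strip 0 1 3 y ∨ Strip 1 0 3 y ∨ Strip 3 0 1 y ∨
    y = x0 ∨ y = s 2 * x0 ∨ y = s 4 * s 2 * x0

/-- the three pairs in `K` with the third element -/
def KPairs : Finset (Fin 5 × Fin 5 × Fin 5) := {(0, 1, 3), (0, 3, 1), (1, 3, 0)}

/-- module REL: two relations in a good module -/
structure RelFacts : Prop where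
  rel2 : ∀ {X : Type} (G : Good X), ∀ p ∈ KPairs,
    G.t 2 (G.t p.1 (G.t p.2.1 (G.t 2 G.e))) =
      -(vi • G.t p.1 (G.t p.2.1 (G.t 2 G.e)) + vi ^ 2 • (G.t p.1 (G.t 2 G.e) + G.t p.2.1 (G.t 2 G.e))
        + vi ^ 3 • G.t 2 G.e + vi ^ 4 • G.e)
  rel3 : ∀ {X : Type} (G : Good X),
    G.t 0 (G.t 1 (G.t 3 (G.t 2 G.e))) = ((G.eps : A) - 2 * vi ^ 2 - vi ^ 4) • G.e
      - (vi • (G.t 0 (G.t 1 (G.t 2 G.e)) + G.t 0 (G.t 3 (G.t 2 G.e)) + G.t 1 (G.t 3 (G.t 2 G.e)))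
        + vi ^ 2 • (G.t 0 (G.t 2 G.e) + G.t 1 (G.t 2 G.e) + G.t 3 (G.t 2 G.e))
        + vi ^ 3 • G.t 2 G.e)

/-- induction hypothesis for the modules AB -/
def IH {X : Type} (G : Good X) (n : ℕ) : Prop := ∀ y, XK y → len y < n →
  DLv 0 (G.T y G.e) ∧ (N1 y → DLv (-1) (G.T y G.e))

/-- module AB1: elements `y` with `y α_4 < 0` -/
def AB1Stmt : Prop := ∀ {X : Type} (G : Good X) (y : W), IH G (len y) → XK y → Neg y (al 4) →
  DLv (-1) (G.T y G.e)

/-- module AB2: elements `y` with `y (α_i + α_j + α_2) < 0` -/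
def AB2Stmt : Prop := ∀ {X : Type} (G : Good X) (y : W), IH G (len y) → XK y →
  ∀ p ∈ KPairs, Neg y (al p.1 + al p.2.1 + al 2) → DLv (-1) (G.T y G.e)

/-- module AB3: the third type -/
def AB3Stmt : Prop := ∀ {X : Type} (G : Good X) (y : W), IH G (len y) → XK y →
  Pos y (al 4) → (∀ p ∈ KPairs, Pos y (al p.1 + al p.2.1 + al 2)) →
  Neg y (al 0 + al 2) → Neg y (al 1 + al 2) → Neg y (al 3 + al 2) → Neg y (al 2 + al 4) →
  DLv (-1) (G.T y G.e)

/-- module AB: the lattice statements for a good module -/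
structure ABFacts : Prop where
  A0 : ∀ {X : Type} (G : Good X) y, XK y → DLv 0 (G.T y G.e)
  B0 : ∀ {X : Type} (G : Good X) y, N1 y → DLv (-1) (G.T y G.e)
  X0 : ∀ {X : Type} (G : Good X), ∀ g ∈ ({1, s 2, s 4 * s 2} : Set W),
    DLv (-1) (G.T (g * x0) G.e - (G.eps : A) • G.T g G.e)

/-- module LEAD: leading coefficients of `C_z e` -/
def LeadStmt : Prop := ∀ C, IsKL C → ∀ {X : Type} (G : Good X) z,
  (∀ i ∈ ({0, 1, 3} : Finset (Fin 5)), Neg z (al i)) →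
  DLv 3 (G.Phi G.e (C z)) ∧
  ∀ g, (G.Phi G.e (C z) g).coeff 3 = (G.T (z * wK) G.e g).coeff 0

/-- module STRAIGHT: supports and diagonal coefficients in `V_lam j` -/
structure StraightFacts : Prop where
  supp : ∀ (V : BMod W) (lam : Q →ₗ[ℤ] ℤ), V.t = Vop lam → ∀ y g, XK y → XK g →
    g ≠ y → len y ≤ len g → V.T y eV g = 0
  diag : ∀ V : BMod W, ∀ j k l, (j, k, l) ∈ ({(0, 1, 3), (1, 0, 3), (3, 0, 1)} :
    Finset (Fin 5 × Fin 5 × Fin 5)) → V.t = Vop (lam j) → ∀ y, Strip j k l y → V.T y eV y = 1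

/-- module IND: independence of the leading coefficients -/
def IndStmt : Prop := ∀ m : W →₀ ℤ, (∀ y, m y ≠ 0 → G1 y) →
  (∀ j ∈ ({0, 1, 3} : Finset (Fin 5)), ∀ V : BMod W, V.t = Vop (lam j) →
    ∀ g, (m.sum fun y a => a * (V.T y eV g).coeff 0) = 0) →
  (∀ V : BMod (Fin 3), V.t = Dop → ∀ g, (m.sum fun y a => a * (V.T y eD g).coeff 0) = 0) →
  m = 0

/-- module CLOS: the closure theorem -/
def ClosStmt : Prop := ∀ C, IsKL C → ∀ z, Nhat z → ∀ y, LStep C y z → Nhat y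

/-- module ALC -/
structure AlcFacts : Prop where
  exists_k : ∃ k, IsAlcove k
  unique_k : ∀ k k', IsAlcove k → IsAlcove k' → ∀ w x, Root4 x → k w x = k' w x
  same : ∀ k, IsAlcove k → SameSign k (x0 * wK * s 2) (s 4 * (x0 * wK * s 2))

end Pool.Agent.Helper39.KL
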